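import Pool.Agent.Y835.SF.RU2
import Pool.Agent.Helper602.MK.J3
import Pool.Agent.H256R2.SC.V1
import Pool.Agent.Y835.SC.Unc

/-!
The primes in the intervals, for Rankin's choice of residue classes.
-/

set_option autoImplicit false

namespace Pool.Agent.Y835.SU

open Finset Filter Pool.Agent.Y829.RP
open Pool.Agent.H378R2 (WW GoodP GoodS PW yy)

theorem WW_le (X : ℕ) (hX : 1 ≤ X) (S : Finset ℕ) (ps : ℕ) :
    (WW X S ps : ℝ) ≤ (X : ℝ) ^ (1 / 500 : ℝ) := by
  have h1 := Nat.le_of_dvd (primorial_pos _) (Pool.Agent.H378R2.LSBV.WW_dvd_primorial (X : ℝ) S ps)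
  have h2 : (WW X S ps : ℝ) ≤ (primorial (yy (X : ℝ)) : ℝ) := by exact_mod_cast h1
  exact h2.trans (Pool.Agent.H378R2.LSBV.primorial_yy_le (X : ℝ) (by exact_mod_cast hX))

/-- the density of the reduced classes modulo `W` -/
theorem WW_phi : ∃ C : ℝ, 0 < C ∧ ∀ (X : ℕ) (S : Finset ℕ) (ps : ℕ), 2 ≤ yy X →
    (WW X S ps : ℝ) / ((WW X S ps).totient : ℝ) ≤ C * Real.log (yy X) := by
  obtain ⟨c, hc, H⟩ := Pool.Agent.Y835.SB.prod_ge
  refine ⟨1 / c, by positivity, fun X S ps hy => ?_⟩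
  have hW := Pool.Agent.H378R2.WW_pos (X : ℝ) S ps
  have h1 := H (yy X) hy (WW X S ps).primeFactors (fun p hp => by
    rw [Pool.Agent.H378R2.WW_primeFactors] at hp
    obtain ⟨a1, a2, -⟩ := Pool.Agent.H378R2.mem_PW.1 hp
    exact ⟨a2, a1⟩)
  have h2 := Pool.Agent.Y835.SC.V_primeFactors (q := WW X S ps) hW
  unfold Pool.Agent.Y835.SC.V at h2
  rw [h2] at h1
  have hly : 0 < Real.log (yy X) := Real.log_pos (by exact_mod_cast (by omega : 1 < yy X))
  have h3 := inv_anti₀ (by positivity) h1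
  rw [inv_div, inv_div] at h3
  calc (WW X S ps : ℝ) / ((WW X S ps).totient : ℝ) ≤ Real.log (yy X) / c := h3
    _ = 1 / c * Real.log (yy X) := by ring

/-- the integers of a class modulo `W` -/
theorem class_low {X W a : ℕ} (hW : 0 < W) (h2 : 2 * W ≤ X) (ha : a < W) :
    (X : ℝ) / W ≤ (((Ioc X (3 * X)).filter (fun n => n % W = a)).card : ℝ) := by
  have h1 : (range (2 * X / W - 1)).image (fun j => a + W * (X / W + 1 + j)) ⊆
      (Ioc X (3 * X)).filter (fun n => n % W = a) := by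
    intro n hn
    obtain ⟨j, hj, rfl⟩ := mem_image.1 hn
    rw [mem_range] at hj
    rw [mem_filter, mem_Ioc]
    have e1 : X < W * (X / W + 1) := Nat.lt_mul_div_succ X hW
    have e2 : W * (X / W) ≤ X := Nat.mul_div_le X W
    have e3 : W * (j + 2) ≤ 2 * X := by
      have h3 : j + 2 ≤ 2 * X / W := by omega
      calc W * (j + 2) ≤ W * (2 * X / W) := Nat.mul_le_mul_left W h3
        _ ≤ 2 * X := Nat.mul_div_le _ _
    refine ⟨⟨?_, ?_⟩, ?_⟩
    · have : W * (X / W + 1 + j) = W * (X / W + 1) + W * j := by ring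
      rw [this]
      omega
    · have : W * (X / W + 1 + j) = W * (X / W) + W * (j + 2) - W := by
        have : W * (X / W) + W * (j + 2) = W * (X / W + 1 + j) + W := by ring
        omega
      rw [this]
      have h4 : W ≤ W * (j + 2) := Nat.le_mul_of_pos_right W (by omega)
      omega
    · rw [Nat.add_mul_mod_self_left]
      exact Nat.mod_eq_of_lt ha
  have h3 := card_le_card h1
  rw [card_image_of_injective, card_range] at h3
  · have hWr : (0 : ℝ) < W := by exact_mod_cast hW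
    have h4 : (2 * X : ℝ) / W < ((2 * X / W : ℕ) : ℝ) + 1 := by
      have h5 := Nat.lt_mul_div_succ (2 * X) hW
      rw [div_lt_iff₀ hWr]
      have h6 : ((2 * X : ℕ) : ℝ) < ((W * (2 * X / W + 1) : ℕ) : ℝ) := by exact_mod_cast h5
      push_cast at h6
      linarith
    have h5 : (2 : ℝ) ≤ (X : ℝ) / W := by
      rw [le_div_iff₀ hWr]
      exact_mod_cast h2
    have h6 : ((2 * X / W : ℕ) : ℝ) - 1 ≤ ((2 * X / W - 1 : ℕ) : ℝ) := by
      have h7 : 2 * X / W ≤ (2 * X / W - 1) + 1 := by omega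
      have h8 : ((2 * X / W : ℕ) : ℝ) ≤ (((2 * X / W - 1) + 1 : ℕ) : ℝ) := by exact_mod_cast h7
      push_cast at h8
      linarith
    have h7 : ((2 * X / W - 1 : ℕ) : ℝ) ≤ (((Ioc X (3 * X)).filter (fun n => n % W = a)).card : ℝ) := by
      exact_mod_cast h3
    have h8 : (2 * X : ℝ) / W = X / W + X / W := by ring
    linarith
  · intro i j hij
    simp only at hij
    have h4 : W * (X / W + 1 + i) = W * (X / W + 1 + j) := by omega
    have h5 := Nat.eq_of_mul_eq_mul_left hW h4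
    omega

/-- the primes `n + h`, `n ≡ a` modulo `W` -/
theorem class_primes : ∃ C : ℝ, 0 < C ∧ ∀ (X W a h : ℕ), 0 < W → 1 < X →
    (W : ℝ) ≤ (X : ℝ) ^ (1 / 500 : ℝ) →
    (((Ioc X (3 * X)).filter (fun n => n % W = a ∧ (n + h).Prime)).card : ℝ) ≤
      C * ((W : ℝ) / (W.totient : ℝ)) * (X / W) / Real.log X := by
  obtain ⟨C, hC, H⟩ := Pool.Agent.Helper602.MK.BTLib.brun_titchmarsh
  refine ⟨C * 8, by linarith, fun X W a h hW hX hWX => ?_⟩
  have hX1 : (1 : ℝ) < X := by exact_mod_cast hX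
  have hX0 : (0 : ℝ) < X := by linarith
  have hWr : (0 : ℝ) < W := by exact_mod_cast hW
  have hL : 0 < Real.log X := Real.log_pos hX1
  have hWX1 : (X : ℝ) ^ (1 / 500 : ℝ) ≤ (X : ℝ) ^ (1 / 2 : ℝ) :=
    Real.rpow_le_rpow_of_exponent_le hX1.le (by norm_num)
  have hsq : (X : ℝ) ^ (1 / 2 : ℝ) * (X : ℝ) ^ (1 / 2 : ℝ) = X := by
    rw [← Real.rpow_add hX0]
    norm_num
  have hs0 : 0 < (X : ℝ) ^ (1 / 2 : ℝ) := by positivity
  have hs1 : 1 ≤ (X : ℝ) ^ (1 / 2 : ℝ) := Real.one_le_rpow hX1.le (by norm_num)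
  have hXW : (X : ℝ) ^ (1 / 2 : ℝ) ≤ X / W := by
    rw [le_div_iff₀ hWr]
    calc (X : ℝ) ^ (1 / 2 : ℝ) * W ≤ (X : ℝ) ^ (1 / 2 : ℝ) * (X : ℝ) ^ (1 / 2 : ℝ) :=
          mul_le_mul_of_nonneg_left (hWX.trans hWX1) hs0.le
      _ = X := hsq
  obtain ⟨N, hN⟩ : ∃ N : ℕ, N = 2 * X / W + 2 := ⟨_, rfl⟩
  have hN2 : 2 ≤ N := by rw [hN]; exact Nat.le_add_left 2 _
  have hNlow : (X : ℝ) ^ (1 / 2 : ℝ) ≤ N := by
    have h4 : (2 * X : ℝ) / W < ((2 * X / W : ℕ) : ℝ) + 1 := by
      have h5 := Nat.lt_mul_div_succ (2 * X) hW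
      rw [div_lt_iff₀ hWr]
      have h6 : ((2 * X : ℕ) : ℝ) < ((W * (2 * X / W + 1) : ℕ) : ℝ) := by exact_mod_cast h5
      push_cast at h6
      linarith
    have h8 : (2 * X : ℝ) / W = X / W + X / W := by ring
    have h9 : (N : ℝ) = ((2 * X / W : ℕ) : ℝ) + 2 := by rw [hN]; push_cast; ring
    linarith
  have hNup : (N : ℝ) ≤ 4 * (X / W) := by
    have h4 : ((2 * X / W : ℕ) : ℝ) ≤ ((2 * X : ℕ) : ℝ) / W := Nat.cast_div_le
    push_cast at h4
    have h8 : (2 * X : ℝ) / W = 2 * (X / W) := by ring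
    have h9 : (N : ℝ) = ((2 * X / W : ℕ) : ℝ) + 2 := by rw [hN]; push_cast; ring
    linarith
  have hlN : Real.log X / 2 ≤ Real.log N := by
    have h1 := Real.log_le_log hs0 hNlow
    rw [Real.log_rpow hX0] at h1
    linarith
  have h1 := H (a + h + W * (X / W)) W N hW hN2
  have h2 : ((Ioc X (3 * X)).filter (fun n => n % W = a ∧ (n + h).Prime)).card ≤
      ((range N).filter (fun k => (a + h + W * (X / W) + k * W).Prime)).card := by
    refine card_le_card_of_injOn (fun n => n / W - X / W) ?_ ?_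
    · intro n hn
      rw [mem_coe, mem_filter, mem_Ioc] at hn
      obtain ⟨⟨n1, n2⟩, n3, n4⟩ := hn
      have e1 : X / W ≤ n / W := Nat.div_le_div_right n1.le
      have e2 : n / W ≤ X / W + 2 * X / W + 1 := by
        have e3 : n / W ≤ (3 * X) / W := Nat.div_le_div_right n2
        have e4 : (3 * X) / W < X / W + 2 * X / W + 2 := by
          rw [Nat.div_lt_iff_lt_mul hW]
          have e5 := Nat.lt_mul_div_succ X hW
          have e6 := Nat.lt_mul_div_succ (2 * X) hW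
          calc 3 * X = X + 2 * X := by ring
            _ < W * (X / W + 1) + W * (2 * X / W + 1) := by omega
            _ = (X / W + 2 * X / W + 2) * W := by ring
        omega
      rw [mem_coe, mem_filter, mem_range]
      beta_reduce
      refine ⟨by omega, ?_⟩
      have e7 : a + h + W * (X / W) + (n / W - X / W) * W = n + h := by
        have e8 : (n / W - X / W) * W = W * (n / W) - W * (X / W) := by
          rw [Nat.sub_mul, mul_comm (n / W), mul_comm (X / W)]
        have e9 : W * (X / W) ≤ W * (n / W) := Nat.mul_le_mul_left W e1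
        have e10 := Nat.mod_add_div n W
        rw [n3] at e10
        rw [e8]
        omega
      rw [e7]
      exact n4
    · intro n hn m hm hnm
      rw [mem_coe, mem_filter, mem_Ioc] at hn hm
      simp only at hnm
      have e1 : X / W ≤ n / W := Nat.div_le_div_right hn.1.1.le
      have e2 : X / W ≤ m / W := Nat.div_le_div_right hm.1.1.le
      have e3 : n / W = m / W := by omega
      have e4 := Nat.mod_add_div n W
      have e5 := Nat.mod_add_div m W
      rw [hn.2.1] at e4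
      rw [hm.2.1, ← e3] at e5
      omega
  have h3 : (((Ioc X (3 * X)).filter (fun n => n % W = a ∧ (n + h).Prime)).card : ℝ) ≤
      (((range N).filter (fun k => (a + h + W * (X / W) + k * W).Prime)).card : ℝ) := by
    exact_mod_cast h2
  refine h3.trans (h1.trans ?_)
  have hph : 0 ≤ (W : ℝ) / (W.totient : ℝ) := by positivity
  calc C * ((W : ℝ) / (W.totient : ℝ)) * N / Real.log N ≤
        C * ((W : ℝ) / (W.totient : ℝ)) * (4 * (X / W)) / (Real.log X / 2) := by
        refine div_le_div₀ (by positivity) (mul_le_mul_of_nonneg_left hNup (by positivity))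
          (by positivity) hlN
    _ = C * 8 * ((W : ℝ) / (W.totient : ℝ)) * (X / W) / Real.log X := by
        field_simp
        norm_num

open Classical in
/-- some class modulo `W` has few primes -/
theorem upper : ∃ C : ℝ, 0 < C ∧ ∃ X0 : ℕ, ∀ X : ℕ, X0 ≤ X → ∀ (Z ps : ℕ) (S : Finset ℕ),
    GoodP Z ps → GoodS X S → ∀ U z : ℕ, Real.log (Real.log X) ^ 2 ≤ z →
    Real.log z ≤ Real.log (Real.log X) * Real.log (Real.log (Real.log (Real.log X))) /
      (40 * Real.log (Real.log (Real.log X))) → 2 * Real.log X ≤ U →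
    ∃ a : ℕ, a < WW X S ps ∧ (∀ p ∈ PW X S ps, z < p → p ∣ a) ∧
      (X : ℝ) / WW X S ps ≤ (((Ioc X (3 * X)).filter (fun n => n % WW X S ps = a)).card : ℝ) ∧
      ∑ n ∈ (Ioc X (3 * X)).filter (fun n => n % WW X S ps = a), pw U n ≤
        C * (U * min 1 (Real.log (U / Real.log X) / Real.log z) / Real.log X) *
          (((Ioc X (3 * X)).filter (fun n => n % WW X S ps = a)).card : ℝ) := by
  obtain ⟨C1, hC1, X1, HR⟩ := rank
  obtain ⟨C2, hC2, HP⟩ := class_primes
  obtain ⟨C3, hC3, HW⟩ := WW_phi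
  obtain ⟨X2, hX2⟩ := (ev_ru 0 2).exists_forall_of_atTop
  refine ⟨C1 * C2 * C3, by positivity, max X1 X2, fun X hX Z ps S hps hS U z hz hlz hU => ?_⟩
  obtain ⟨b, hb1, hb2⟩ := HR X ((le_max_left _ _).trans hX) Z ps S hps hS U z hz hlz hU
  obtain ⟨g1, g2, g3, g4, g5, g6, -, g8⟩ := hX2 X ((le_max_right _ _).trans hX)
  obtain ⟨W, hW⟩ : ∃ W : ℕ, W = WW X S ps := ⟨_, rfl⟩
  have hW0 : 0 < W := by rw [hW]; exact Pool.Agent.H378R2.WW_pos (X : ℝ) S ps
  have hWr : (0 : ℝ) < W := by exact_mod_cast hW0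
  have hWX : (W : ℝ) ≤ (X : ℝ) ^ (1 / 500 : ℝ) := by rw [hW]; exact WW_le X (by omega) S ps
  have hpW : ∀ p ∈ PW X S ps, p ∣ W := fun p hp => by
    rw [hW]
    exact dvd_prod_of_mem (fun p => p) hp
  have hprime : ∀ p ∈ PW X S ps, p.Prime := Pool.Agent.H378R2.LSBV.WW_primes (X : ℝ) S ps
  have hX1 : (1 : ℝ) < X := by exact_mod_cast (by omega : 1 < X)
  have hX0 : (0 : ℝ) < X := by linarith
  have hL : 0 < Real.log X := Real.log_pos hX1
  have h2W : 2 * W ≤ X := by
    have h1 : (W : ℝ) ≤ (X : ℝ) ^ (1 / 2 : ℝ) :=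
      hWX.trans (Real.rpow_le_rpow_of_exponent_le hX1.le (by norm_num))
    have h2 : (2 : ℝ) ≤ (X : ℝ) ^ (1 / 2 : ℝ) := by
      rw [← Real.log_le_log_iff (by norm_num) (by positivity), Real.log_rpow hX0]
      have := Real.log_le_sub_one_of_pos (show (0 : ℝ) < 2 by norm_num)
      linarith
    have h3 : (X : ℝ) ^ (1 / 2 : ℝ) * (X : ℝ) ^ (1 / 2 : ℝ) = X := by
      rw [← Real.rpow_add hX0]
      norm_num
    have h4 : 2 * (W : ℝ) ≤ X := by
      calc 2 * (W : ℝ) ≤ (X : ℝ) ^ (1 / 2 : ℝ) * (X : ℝ) ^ (1 / 2 : ℝ) :=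
            mul_le_mul h2 h1 hWr.le (by positivity)
        _ = X := h3
    exact_mod_cast h4
  -- the class
  obtain ⟨a₀, ha₀⟩ := Pool.Agent.H256R2.SC.crt_int (PW X S ps) (fun p => (p : ℤ))
    (fun i hi j hj hij => Nat.isCoprime_iff_coprime.mpr
      ((Nat.coprime_primes (hprime i hi) (hprime j hj)).2 hij)) (fun p => -(b p : ℤ))
  have hWz : (0 : ℤ) < W := by exact_mod_cast hW0
  obtain ⟨a, haW, had⟩ : ∃ a : ℕ, a < W ∧ (W : ℤ) ∣ (a : ℤ) - a₀ := by
    refine ⟨(a₀ % W).toNat, ?_, ?_⟩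
    · have h1 := Int.emod_nonneg a₀ hWz.ne'
      have h2 := Int.emod_lt_of_pos a₀ hWz
      omega
    · have h1 := Int.emod_nonneg a₀ hWz.ne'
      rw [Int.toNat_of_nonneg h1]
      exact ⟨-(a₀ / W), by rw [Int.emod_def]; ring⟩
  have hap : ∀ p ∈ PW X S ps, (p : ℤ) ∣ (a : ℤ) + b p := by
    intro p hp
    have h1 : (p : ℤ) ∣ (a : ℤ) - a₀ := (Int.natCast_dvd_natCast.2 (hpW p hp)).trans had
    have h2 := ha₀ p hp
    have h3 := dvd_add h1 h2
    have e : (a : ℤ) - a₀ + (a₀ - -(b p : ℤ)) = (a : ℤ) + b p := by ring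
    rwa [e] at h3
  rw [← hW]
  have hcl := class_low hW0 h2W haW
  refine ⟨a, haW, ?_, hcl, ?_⟩
  · intro p hp hzp
    have h1 := hap p hp
    rw [hb1 p hp hzp, Nat.cast_zero, add_zero] at h1
    exact Int.natCast_dvd_natCast.1 h1
  obtain ⟨A, hA⟩ : ∃ A : Finset ℕ, A = (Ioc X (3 * X)).filter (fun n => n % W = a) := ⟨_, rfl⟩
  obtain ⟨R, hR⟩ : ∃ R : Finset ℕ, R = (Icc 1 U).filter (fun h => ∀ p ∈ PW X S ps, ¬ h ≡ b p [MOD p]) :=
    ⟨_, rfl⟩
  rw [← hR] at hb2
  rw [← hA] at hcl ⊢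
  have hyX : ∀ p ∈ PW X S ps, p ≤ X := by
    intro p hp
    have h1 := (Pool.Agent.H378R2.mem_PW.1 hp).1
    have h2 : ((yy X : ℕ) : ℝ) ≤ Real.log X / 1000 := Nat.floor_le (by positivity)
    have h3 := Real.log_le_sub_one_of_pos hX0
    have h4 : (p : ℝ) ≤ ((yy X : ℕ) : ℝ) := by exact_mod_cast h1
    have h5 : (p : ℝ) ≤ X := by linarith
    exact_mod_cast h5
  have h1 : ∑ n ∈ A, pw U n = ∑ h ∈ Icc 1 U, (((A.filter (fun n => (n + h).Prime)).card : ℕ) : ℝ) := by
    simp only [pw_eq]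
    rw [sum_comm]
    refine sum_congr rfl fun h _ => ?_
    rw [card_filter]
    push_cast
    rfl
  have h2 : ∑ h ∈ Icc 1 U, (((A.filter (fun n => (n + h).Prime)).card : ℕ) : ℝ) =
      ∑ h ∈ R, (((A.filter (fun n => (n + h).Prime)).card : ℕ) : ℝ) := by
    refine (sum_subset (by rw [hR]; exact filter_subset _ _) fun h hh hhR => ?_).symm
    rw [Nat.cast_eq_zero, card_eq_zero, filter_eq_empty_iff]
    intro n hn hpr
    rw [hR, mem_filter, not_and] at hhR
    have h3 := hhR hh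
    push Not at h3
    obtain ⟨p, hp, hpb⟩ := h3
    rw [hA, mem_filter, mem_Ioc] at hn
    have h4 : p ∣ n + h := by
      have h5 : (p : ℤ) ∣ (h : ℤ) - b p := (Nat.modEq_iff_dvd).1 hpb.symm
      have h6 := dvd_add (hap p hp) h5
      have h7 : (p : ℤ) ∣ (n : ℤ) - a := by
        have h8 : n ≡ a [MOD W] := by
          have : n % W = a % W := by rw [hn.2, Nat.mod_eq_of_lt haW]
          exact this
        exact (Int.natCast_dvd_natCast.2 (hpW p hp)).trans ((Nat.modEq_iff_dvd).1 h8.symm)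
      have h8 := dvd_add h6 h7
      have e : (a : ℤ) + b p + ((h : ℤ) - b p) + ((n : ℤ) - a) = ((n + h : ℕ) : ℤ) := by
        push_cast; ring
      rw [e] at h8
      exact Int.natCast_dvd_natCast.1 h8
    have h5 := (Nat.prime_dvd_prime_iff_eq (hprime p hp) hpr).1 h4
    have h6 := hyX p hp
    omega
  rw [h1, h2]
  have h3 : ∀ h ∈ R, (((A.filter (fun n => (n + h).Prime)).card : ℕ) : ℝ) ≤
      C2 * ((W : ℝ) / (W.totient : ℝ)) * (X / W) / Real.log X := by
    intro h _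
    have h4 := HP X W a h hW0 (by omega) hWX
    rw [hA, filter_filter]
    exact h4
  have hph : 0 ≤ (W : ℝ) / (W.totient : ℝ) := by positivity
  have hl0 : 0 < Real.log (Real.log X) := by linarith
  have h5 : (W : ℝ) / (W.totient : ℝ) ≤ C3 * Real.log (Real.log X) := by
    rw [hW]
    refine (HW X S ps g6).trans (mul_le_mul_of_nonneg_left ?_ hC3.le)
    have h6 : ((yy X : ℕ) : ℝ) ≤ Real.log X / 1000 := Nat.floor_le (by positivity)
    have h7 : (0 : ℝ) < ((yy X : ℕ) : ℝ) := by exact_mod_cast (by omega : 0 < yy X)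
    exact Real.log_le_log h7 (by linarith)
  have hU0 : 0 ≤ U * min 1 (Real.log (U / Real.log X) / Real.log z) := by
    refine mul_nonneg (Nat.cast_nonneg U) (le_min zero_le_one (div_nonneg ?_ (Real.log_natCast_nonneg z)))
    refine Real.log_nonneg ?_
    rw [le_div_iff₀ hL]
    linarith
  calc ∑ h ∈ R, (((A.filter (fun n => (n + h).Prime)).card : ℕ) : ℝ) ≤
        ∑ _h ∈ R, C2 * ((W : ℝ) / (W.totient : ℝ)) * (X / W) / Real.log X := sum_le_sum h3
    _ = R.card * (C2 * ((W : ℝ) / (W.totient : ℝ)) * (X / W) / Real.log X) := by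
        rw [sum_const, nsmul_eq_mul]
    _ ≤ (C1 * (U * min 1 (Real.log (U / Real.log X) / Real.log z) / Real.log (Real.log X))) *
          (C2 * (C3 * Real.log (Real.log X)) * A.card / Real.log X) := by
        refine mul_le_mul hb2 ?_ (by positivity) (by positivity)
        refine div_le_div_of_nonneg_right ?_ hL.le
        exact mul_le_mul (mul_le_mul_of_nonneg_left h5 hC2.le) hcl (by positivity) (by positivity)
    _ = C1 * C2 * C3 * (U * min 1 (Real.log (U / Real.log X) / Real.log z) / Real.log X) * A.card := by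
        field_simp

end Pool.Agent.Y835.SU
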