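import Pool.Agent.Y835.SF.Cov2
import Pool.Agent.Y835.SF.Sur

/-!
The limit is attained.
-/

set_option autoImplicit false

namespace Pool.Agent.Y835.SH

open Finset Filter Pool.Agent.H256R2.SC

/-- a residue class in a complete period -/
theorem count_class {M m : ℕ} (hm : 0 < m) (hmM : m ∣ M) (r : ℤ) :
    (((range M).filter (fun n : ℕ => (m : ℤ) ∣ (n : ℤ) - r)).card : ℝ) = M / m := by
  obtain ⟨k, rfl⟩ := hmM
  have hmz : (0 : ℤ) < m := by exact_mod_cast hm
  obtain ⟨s, hs, hsr⟩ : ∃ s : ℕ, s < m ∧ (m : ℤ) ∣ (s : ℤ) - r := by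
    refine ⟨(r % m).toNat, ?_, ?_⟩
    · have h1 := Int.emod_nonneg r hmz.ne'
      have h2 := Int.emod_lt_of_pos r hmz
      omega
    · have h1 := Int.emod_nonneg r hmz.ne'
      rw [Int.toNat_of_nonneg h1]
      exact ⟨-(r / m), by rw [Int.emod_def]; ring⟩
  have h1 : (range (m * k)).filter (fun n : ℕ => (m : ℤ) ∣ (n : ℤ) - r) =
      (range k).image (fun j => m * j + s) := by
    ext n
    rw [mem_filter, mem_range, mem_image]
    constructor
    · rintro ⟨hn, hd⟩
      have h2 : (m : ℤ) ∣ (n : ℤ) - s := by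
        have := dvd_sub hd hsr
        have e : (n : ℤ) - r - (s - r) = n - s := by ring
        rwa [e] at this
      have h3 : n % m = s % m := by
        have : (n : ℤ) ≡ s [ZMOD m] := (Int.modEq_iff_dvd.2 (by
          have := (dvd_neg (α := ℤ)).2 h2
          rwa [neg_sub] at this))
        exact (Int.natCast_modEq_iff.1 this)
      rw [Nat.mod_eq_of_lt hs] at h3
      refine ⟨n / m, ?_, ?_⟩
      · rw [mem_range]
        exact Nat.div_lt_of_lt_mul hn
      · rw [← h3]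
        exact Nat.div_add_mod n m
    · rintro ⟨j, hj, rfl⟩
      rw [mem_range] at hj
      constructor
      · calc m * j + s < m * j + m := by omega
          _ = m * (j + 1) := by ring
          _ ≤ m * k := Nat.mul_le_mul_left m (by omega)
      · push_cast
        have e : (m : ℤ) * j + s - r = m * j + (s - r) := by ring
        rw [e]
        exact dvd_add (dvd_mul_right _ _) hsr
  rw [h1, card_image_of_injective]
  · rw [card_range]
    push_cast
    have : (m : ℝ) ≠ 0 := by exact_mod_cast hm.ne'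
    field_simp
  · intro i j hij
    simp only at hij
    have : m * i = m * j := by omega
    exact Nat.eq_of_mul_eq_mul_left hm this

/-- a squarefree number with small prime factors divides a factorial -/
theorem prod_dvd_fac {X : ℕ} (s : Finset ℕ) (hs : ∀ p ∈ s, p.Prime ∧ p ≤ X) :
    ∏ p ∈ s, p ∣ X.factorial :=
  Finset.prod_primes_dvd _ (fun p hp => (hs p hp).1.prime) fun p hp =>
    Nat.dvd_factorial (hs p hp).1.pos (hs p hp).2

/-- conditions -/
theorem ev_att (c y0 X1 : ℝ) : ∀ᶠ X : ℝ in atTop, X1 ≤ X ∧ 3 ≤ X ∧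
    1000 * y0 ≤ Real.log X ∧ 16000 / c ≤ Real.log X ∧ 16000 ≤ Real.log X ∧
    20 ≤ Real.log (Real.log X) ∧
    1 / c ≤ Real.log (Real.log X) ∧ 4 ≤ Real.log (Real.log (Real.log X)) ∧
    2 ≤ Real.log (Real.log (Real.log (Real.log X))) ∧
    120 * Real.log (Real.log (Real.log X)) ^ 2 ≤ Real.log (Real.log X) := by
  have t1 := Real.tendsto_log_atTop
  have t2 := t1.comp t1
  have t3 := t1.comp t2
  have t4 := t1.comp t3
  have h0 : ∀ᶠ l : ℝ in atTop, 120 * Real.log l ^ 2 ≤ l := by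
    have h2 : ∀ᶠ l : ℝ in atTop, ‖Real.log l ^ (2 : ℝ)‖ ≤ 1 / 120 * ‖l ^ (1 : ℝ)‖ :=
      (isLittleO_log_rpow_rpow_atTop 2 one_pos).def (by norm_num)
    filter_upwards [h2, eventually_ge_atTop (1 : ℝ)] with l a1 a2
    rw [Real.norm_of_nonneg (Real.rpow_nonneg (Real.log_nonneg a2) _),
      Real.norm_of_nonneg (by positivity), Real.rpow_one, Real.rpow_two] at a1
    linarith
  filter_upwards [eventually_ge_atTop X1, eventually_ge_atTop (3 : ℝ),
    t1.eventually_ge_atTop (1000 * y0), t1.eventually_ge_atTop (16000 / c),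
    t1.eventually_ge_atTop 16000, t2.eventually_ge_atTop 20,
    t2.eventually_ge_atTop (1 / c), t3.eventually_ge_atTop 4, t4.eventually_ge_atTop 2,
    t2.eventually h0] with X a1 a2 a3 a4 a5 a6 a7 a8 a9 a10
  exact ⟨a1, a2, a3, a4, a5, a6, a7, a8, a9, a10⟩

open Classical in
theorem attain : ∃ c : ℝ, 0 < c ∧ ∃ X0 : ℕ, ∀ X : ℕ, X0 ≤ X →
    ∃ (z : ℕ) (D : Finset ℕ) (f : ℕ → ℕ → ℝ),
    Real.log (Real.log X) ^ 2 ≤ z ∧
    Real.log z ≤ Real.log (Real.log X) * Real.log (Real.log (Real.log (Real.log X))) /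
      Real.log (Real.log (Real.log X)) ∧
    (∀ d ∈ D, 0 < d ∧ d ≤ X) ∧
    (∀ d ∈ D, ∀ p : ℕ, p.Prime → Real.log X / 1000 < p → (p : ℝ) ≤ Real.log X ^ 2 → ¬ p ∣ d) ∧
    (∀ d ∈ D, ∀ n, f d (n + d) = f d n) ∧
    (∀ n, (∑ d ∈ D, f d n) ≠ 0 → ∀ p : ℕ, p.Prime → z < p → (p : ℝ) ≤ Real.log X / 1000 →
      p ∣ n) ∧
    0 < ∑ n ∈ range X.factorial, (∑ d ∈ D, f d n) ^ 2 ∧
    ∀ U : ℕ, (U : ℝ) ≤ c * (Real.log X * Real.log (Real.log X) ^ 2 *
      Real.log (Real.log (Real.log (Real.log X))) / Real.log (Real.log (Real.log X)) ^ 2) →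
      ∑ n ∈ range X.factorial, (∑ d ∈ D, f d n) ^ 2 *
        (((Icc 1 U).filter (fun h => ∀ p ∈ (Icc 1 X).filter Nat.Prime, ¬ p ∣ n + h)).card : ℝ) ≤
        1 / 2 * ∑ n ∈ range X.factorial, (∑ d ∈ D, f d n) ^ 2 := by
  obtain ⟨c1, hc1, X1, COV⟩ := covering2
  obtain ⟨C2, hC2, y0, SUR⟩ := survivors2
  obtain ⟨c', hc'⟩ : ∃ c' : ℝ, c' = min 1 (c1 / C2) := ⟨_, rfl⟩
  have hc'0 : 0 < c' := by rw [hc']; positivity
  have hc'1 : c' ≤ 1 := by rw [hc']; exact min_le_left _ _
  have hc'2 : C2 * c' ≤ c1 := by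
    have h1 : c' ≤ c1 / C2 := by rw [hc']; exact min_le_right _ _
    rw [le_div_iff₀ hC2] at h1
    linarith
  obtain ⟨X2, hX2⟩ := ((tendsto_natCast_atTop_atTop (R := ℝ)).eventually
    (ev_att c' y0 X1)).exists_forall_of_atTop
  refine ⟨c' / 16000, by positivity, X2, fun X hX => ?_⟩
  obtain ⟨g1, g2, g3, g4, g5, g6, g7, g8, g9, g10⟩ := hX2 X hX
  have hX0 : (0 : ℝ) < X := by linarith
  obtain ⟨L, hL⟩ : ∃ L : ℝ, L = Real.log (X : ℝ) := ⟨_, rfl⟩
  have hXL : (X : ℝ) = Real.exp L := by rw [hL, Real.exp_log hX0]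
  have COV' := COV X g1
  have hXr : ∀ s : ℝ, (X : ℝ) ^ s = Real.exp (s * L) := by
    intro s
    rw [hXL, ← Real.exp_mul, mul_comm]
  rw [← hL] at g3 g4 g5 g6 g7 g8 g9 g10 COV' ⊢
  obtain ⟨l, hl⟩ : ∃ l : ℝ, l = Real.log L := ⟨_, rfl⟩
  rw [← hl] at g6 g7 g8 g9 g10 ⊢
  obtain ⟨a, ha⟩ : ∃ a : ℝ, a = Real.log l := ⟨_, rfl⟩
  rw [← ha] at g8 g9 g10 ⊢
  obtain ⟨b, hb⟩ : ∃ b : ℝ, b = Real.log a := ⟨_, rfl⟩
  rw [← hb] at g9 ⊢
  have hL0 : 0 < L := by linarith
  have hl0 : 0 < l := by linarith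
  have ha0 : 0 < a := by linarith
  have hb0 : 0 < b := by linarith
  have hel : Real.exp l = L := by rw [hl]; exact Real.exp_log hL0
  have hea : Real.exp a = l := by rw [ha]; exact Real.exp_log hl0
  have hlog2 : Real.log 2 ≤ 1 := by
    have := Real.log_le_sub_one_of_pos (show (0 : ℝ) < 2 by norm_num)
    linarith
  -- `y`
  obtain ⟨y, hy⟩ : ∃ y : ℝ, y = L / 1000 := ⟨_, rfl⟩
  have hy0 : 0 < y := by rw [hy]; positivity
  have hy16 : 16 ≤ y := by rw [hy]; linarith
  have hy1 : y0 ≤ y := by rw [hy]; linarith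
  obtain ⟨ly, hly⟩ : ∃ ly : ℝ, ly = Real.log y := ⟨_, rfl⟩
  have hly1 : l / 2 ≤ ly := by
    rw [hly, hy, Real.log_div hL0.ne' (by norm_num), ← hl]
    have h1 : Real.log 1000 ≤ 10 := by
      have h2 : (1000 : ℝ) ≤ 2 ^ 10 := by norm_num
      have h3 := Real.log_le_log (by norm_num) h2
      rw [Real.log_pow] at h3
      push_cast at h3
      linarith
    linarith
  have hly2 : ly ≤ l := by
    rw [hly, hl]
    exact Real.log_le_log hy0 (by rw [hy]; linarith)
  have hly0 : 0 < ly := by linarith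
  obtain ⟨t, ht⟩ : ∃ t : ℝ, t = Real.log ly := ⟨_, rfl⟩
  have ht1 : a / 2 ≤ t := by
    have h1 : a - Real.log 2 ≤ t := by
      rw [ht, ha, ← Real.log_div hl0.ne' (by norm_num)]
      exact Real.log_le_log (by positivity) hly1
    linarith
  have ht2 : t ≤ a := by
    rw [ht, ha]
    exact Real.log_le_log hly0 hly2
  have ht0 : 0 < t := by linarith
  obtain ⟨lt, hlt⟩ : ∃ lt : ℝ, lt = Real.log t := ⟨_, rfl⟩
  have hlt1 : b / 2 ≤ lt := by
    have h1 : b - Real.log 2 ≤ lt := by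
      rw [hlt, hb, ← Real.log_div ha0.ne' (by norm_num)]
      exact Real.log_le_log (by positivity) ht1
    linarith
  have hlt2 : lt ≤ b := by
    rw [hlt, hb]
    exact Real.log_le_log ht0 ht2
  have hlt0 : 0 < lt := by linarith
  -- the length
  obtain ⟨φ, hφ⟩ : ∃ φ : ℝ, φ = l ^ 2 * b / a ^ 2 := ⟨_, rfl⟩
  obtain ⟨ψ, hψ⟩ : ∃ ψ : ℝ, ψ = ly ^ 2 * lt / t ^ 2 := ⟨_, rfl⟩
  have hφ1 : 120 * l ≤ φ := by
    rw [hφ, le_div_iff₀ (by positivity)]
    calc 120 * l * a ^ 2 = l * (120 * a ^ 2) := by ring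
      _ ≤ l * l := mul_le_mul_of_nonneg_left g10 hl0.le
      _ = l ^ 2 * 1 := by ring
      _ ≤ l ^ 2 * b := mul_le_mul_of_nonneg_left (by linarith) (by positivity)
  have hψφ : φ / 8 ≤ ψ := by
    rw [hφ, hψ, div_div, div_le_div_iff₀ (by positivity) (by positivity)]
    have h1 : l ^ 2 ≤ 4 * ly ^ 2 := by nlinarith only [hly1, hl0]
    have h2 : b ≤ 2 * lt := by linarith
    have h3 : t ^ 2 ≤ a ^ 2 := pow_le_pow_left₀ ht0.le ht2 2
    calc l ^ 2 * b * t ^ 2 ≤ (4 * ly ^ 2) * (2 * lt) * a ^ 2 :=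
          mul_le_mul (mul_le_mul h1 h2 hb0.le (by positivity)) h3 (by positivity) (by positivity)
      _ = ly ^ 2 * lt * (a ^ 2 * 8) := by ring
  have hφ0 : 0 < φ := by linarith
  have hψ0 : 0 < ψ := by linarith
  obtain ⟨N, hN⟩ : ∃ N : ℕ, N = ⌊c' * (y * ψ)⌋₊ := ⟨_, rfl⟩
  have hN1 : (N : ℝ) ≤ c' * (y * ψ) := by rw [hN]; exact Nat.floor_le (by positivity)
  have hNy : y ≤ N := by
    have h1 : c' * (y * ψ) < N + 1 := by rw [hN]; exact Nat.lt_floor_add_one _
    have h2 : 2 ≤ c' * ψ := by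
      have h3 : 1 ≤ c' * l := by
        rw [div_le_iff₀ hc'0] at g7
        linarith
      have h4 : c' * (15 * l) ≤ c' * ψ := mul_le_mul_of_nonneg_left (by linarith) hc'0.le
      linarith
    have h3 : 2 * y ≤ c' * ψ * y := mul_le_mul_of_nonneg_right h2 hy0.le
    have h4 : c' * ψ * y = c' * (y * ψ) := by ring
    linarith
  have hNL : (N : ℝ) ≤ y * ly ^ 2 := by
    refine hN1.trans ?_
    have h1 : ψ ≤ ly ^ 2 := by
      rw [hψ, div_le_iff₀ (by positivity)]
      refine mul_le_mul_of_nonneg_left ?_ (by positivity)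
      have h2 : lt ≤ t := by
        have := Real.log_le_sub_one_of_pos ht0
        rw [hlt]; linarith
      have h3 : 2 ≤ t := by linarith
      nlinarith only [h2, h3]
    calc c' * (y * ψ) ≤ 1 * (y * ly ^ 2) :=
          mul_le_mul hc'1 (mul_le_mul_of_nonneg_left h1 hy0.le) (by positivity) zero_le_one
      _ = _ := one_mul _
  obtain ⟨β, hβ1, hβ2, hβ3⟩ := SUR y hy1 N hNy (by rw [← hly]; exact hNL)
  rw [← hly] at hβ2 hβ3
  rw [← ht] at hβ2 hβ3
  rw [← hlt] at hβ2 hβ3
  obtain ⟨R, hR⟩ : ∃ R : Finset ℕ, R = (Icc 1 N).filter (fun k => ∀ p : ℕ, p.Prime →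
    (p : ℝ) ≤ y → ¬ k ≡ β p [MOD p]) := ⟨_, rfl⟩
  rw [← hR] at hβ3
  have hRm : ∀ k, k ∈ R → 1 ≤ k ∧ k ≤ N := by
    intro k hk
    rw [hR, mem_filter, mem_Icc] at hk
    exact hk.1
  have hRc : (R.card : ℝ) ≤ c1 * L := by
    refine hβ3.trans ?_
    rw [div_le_iff₀ (by positivity)]
    have h1 : C2 * N * t ^ 2 ≤ C2 * (c' * (y * ψ)) * t ^ 2 :=
      mul_le_mul_of_nonneg_right (mul_le_mul_of_nonneg_left hN1 hC2.le) (by positivity)
    refine h1.trans ?_
    have h2 : C2 * (c' * (y * ψ)) * t ^ 2 = (C2 * c') * y * (ly ^ 2 * lt) := by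
      rw [hψ]
      field_simp
    rw [h2]
    refine mul_le_mul_of_nonneg_right ?_ (by positivity)
    exact mul_le_mul hc'2 (by rw [hy]; linarith) hy0.le hc1.le
  -- the modulus
  obtain ⟨Ps, hPs⟩ : ∃ Ps : Finset ℕ, Ps = (Icc 1 ⌊y⌋₊).filter Nat.Prime := ⟨_, rfl⟩
  have hPsm : ∀ p, p ∈ Ps ↔ p.Prime ∧ (p : ℝ) ≤ y := by
    intro p
    rw [hPs, mem_filter, mem_Icc, Nat.le_floor_iff hy0.le]
    exact ⟨fun h => ⟨h.2, h.1.2⟩, fun h => ⟨⟨h.1.pos, h.2⟩, h.1⟩⟩
  obtain ⟨a₀, ha₀⟩ := crt_int Ps (fun p => (p : ℤ)) (fun i hi j hj hij =>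
    Nat.isCoprime_iff_coprime.mpr ((Nat.coprime_primes ((hPsm i).1 hi).1 ((hPsm j).1 hj).1).2 hij))
    (fun p => 1 - (β p : ℤ))
  obtain ⟨W, hW⟩ : ∃ W : ℕ, W = ∏ p ∈ Ps, p := ⟨_, rfl⟩
  have hW0 : 0 < W := by rw [hW]; exact prod_pos fun p hp => ((hPsm p).1 hp).1.pos
  have hWr : (0 : ℝ) < W := by exact_mod_cast hW0
  have hpW : ∀ p : ℕ, p.Prime → (p : ℝ) ≤ y → p ∣ W := fun p hp hpy => by
    rw [hW]
    exact Finset.dvd_prod_of_mem (fun p => p) ((hPsm p).2 ⟨hp, hpy⟩)
  have hWp : ∀ p : ℕ, p.Prime → p ∣ W → (p : ℝ) ≤ y := fun p hp hpW => by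
    rw [hW] at hpW
    obtain ⟨q, hq, hpq⟩ := (Prime.dvd_finsetProd_iff hp.prime _).mp hpW
    rw [(Nat.prime_dvd_prime_iff_eq hp ((hPsm q).1 hq).1).mp hpq]
    exact ((hPsm q).1 hq).2
  have hWle : (W : ℝ) ≤ Real.exp (L / 500) := by
    have h1 : W ≤ 4 ^ ⌊y⌋₊ := by
      refine le_trans (le_of_eq ?_) (primorial_le_four_pow ⌊y⌋₊)
      rw [hW, primorial]
      refine prod_congr ?_ fun _ _ => rfl
      ext p
      rw [hPs, mem_filter, mem_filter, mem_Icc, mem_range]
      constructor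
      · exact fun h => ⟨by omega, h.2⟩
      · exact fun h => ⟨⟨h.2.pos, by omega⟩, h.2⟩
    have h2 : (W : ℝ) ≤ (4 : ℝ) ^ ⌊y⌋₊ := by exact_mod_cast h1
    refine h2.trans ?_
    have h3 : (4 : ℝ) ≤ Real.exp 2 := by
      have h4 := Real.exp_one_gt_d9
      have h5 : Real.exp 2 = Real.exp 1 ^ 2 := by rw [← Real.exp_nat_mul]; norm_num
      rw [h5]
      nlinarith only [h4]
    calc (4 : ℝ) ^ ⌊y⌋₊ ≤ Real.exp 2 ^ ⌊y⌋₊ := pow_le_pow_left₀ (by norm_num) h3 _
      _ = Real.exp (⌊y⌋₊ * 2) := by rw [← Real.exp_nat_mul]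
      _ ≤ Real.exp (L / 500) := by
        apply Real.exp_le_exp.2
        have := Nat.floor_le hy0.le
        rw [hy] at this ⊢
        linarith
  have hyX : y ≤ X := by
    have := Real.log_le_sub_one_of_pos hX0
    rw [← hL] at this
    rw [hy]; linarith
  have hWX : W ∣ X.factorial := by
    rw [hW]
    refine prod_dvd_fac _ fun p hp => ⟨((hPsm p).1 hp).1, ?_⟩
    have := ((hPsm p).1 hp).2.trans hyX
    exact_mod_cast this
  have hyL2 : y ≤ L ^ 2 := by rw [hy]; nlinarith only [g5]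
  -- divisibility by `W`
  have hWiff : ∀ n : ℕ, (W : ℤ) ∣ (n : ℤ) - a₀ → ∀ p : ℕ, p.Prime → (p : ℝ) ≤ y →
      (p : ℤ) ∣ (n : ℤ) - (1 - (β p : ℤ)) := by
    intro n hn p hp hpy
    have h1 : (p : ℤ) ∣ (n : ℤ) - a₀ := (Int.natCast_dvd_natCast.2 (hpW p hp hpy)).trans hn
    have h2 := ha₀ p ((hPsm p).2 ⟨hp, hpy⟩)
    have h3 := dvd_add h1 h2
    have e : (n : ℤ) - a₀ + (a₀ - (1 - (β p : ℤ))) = (n : ℤ) - (1 - (β p : ℤ)) := by ring
    rwa [e] at h3
  obtain ⟨An, hAn⟩ : ∃ An : Finset ℕ, An = (range X.factorial).filter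
    (fun n : ℕ => (W : ℤ) ∣ (n : ℤ) - a₀) := ⟨_, rfl⟩
  have hNle : (N : ℝ) ≤ L ^ 2 := by
    refine hNL.trans ?_
    have h1 : ly ^ 2 ≤ L := by
      have h2 : ly ≤ l := hly2
      have h3 : l ^ 2 ≤ L := by
        rw [← hel]
        have h4 := Real.quadratic_le_exp_of_nonneg hl0.le
        have h5 : l ^ 3 / 6 ≤ Real.exp l := by
          have := Real.pow_div_factorial_le_exp l hl0.le 3
          norm_num [Nat.factorial] at this
          exact this
        nlinarith only [h5, g6, mul_nonneg hl0.le hl0.le]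
      nlinarith only [h2, h3, hly0]
    calc y * ly ^ 2 ≤ L * L := mul_le_mul (by rw [hy]; linarith) h1 (by positivity) hL0.le
      _ = L ^ 2 := by ring
  have hfac1 : (X : ℝ) ≤ X.factorial := by exact_mod_cast Nat.self_le_factorial X
  obtain ⟨D, F, hD1, hD2, hD3, hD4⟩ := COV' ∅ (by
      rw [card_empty]; push_cast; linarith) {k // k ∈ R} (by
      rw [Fintype.card_coe]
      exact hRc) (fun _ k => 1 - ((k : ℕ) : ℤ)) (by
      intro p hp hpL _ _ k k' hkk hd
      have h1 : (1 - ((k : ℕ) : ℤ)) - (1 - ((k' : ℕ) : ℤ)) = ((k' : ℕ) : ℤ) - ((k : ℕ) : ℤ) := by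
        ring
      rw [h1] at hd
      have hk := hRm k k.2
      have hk' := hRm k' k'.2
      have h2 : ((k' : ℕ) : ℤ) - ((k : ℕ) : ℤ) ≠ 0 := by
        intro h3
        apply hkk
        apply Subtype.ext
        omega
      have h3 := Int.le_of_dvd (abs_pos.2 h2) ((dvd_abs _ _).2 hd)
      have h4 : |((k' : ℕ) : ℤ) - ((k : ℕ) : ℤ)| ≤ (N : ℤ) := by
        rw [abs_le]
        constructor <;> omega
      have h5 : (p : ℤ) ≤ N := h3.trans h4
      have h6 : (p : ℝ) ≤ N := by exact_mod_cast h5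
      linarith) (An.image (fun n : ℕ => (n : ℤ))) ((X.factorial : ℝ) / W) 0 (by
      rw [le_div_iff₀ hWr]
      calc (X : ℝ) ^ (1 / 2 : ℝ) * W ≤ Real.exp (1 / 2 * L) * Real.exp (L / 500) := by
            rw [hXr]
            exact mul_le_mul_of_nonneg_left hWle (Real.exp_pos _).le
        _ = Real.exp (1 / 2 * L + L / 500) := by rw [Real.exp_add]
        _ ≤ Real.exp L := Real.exp_le_exp.2 (by linarith)
        _ = X := hXL.symm
        _ ≤ _ := hfac1) le_rfl (by positivity) (by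
      intro q hq hqX hqp r
      have hq0 : 0 < q := Nat.pos_of_ne_zero hq.ne_zero
      have hcop : Nat.Coprime W q := by
        rw [Nat.coprime_iff_gcd_eq_one]
        by_contra hne
        obtain ⟨p, hp, hpd⟩ := Nat.exists_prime_and_dvd hne
        have h1 := hWp p hp (hpd.trans (Nat.gcd_dvd_left _ _))
        have h2 := (hqp p (Nat.mem_primeFactors.2 ⟨hp, hpd.trans (Nat.gcd_dvd_right _ _),
          hq0.ne'⟩)).1
        linarith
      obtain ⟨s, hs⟩ := crt_int (Finset.univ : Finset Bool)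
        (fun i => if i then (W : ℤ) else (q : ℤ)) (by
          intro i _ j _ hij
          have h1 : IsCoprime (W : ℤ) (q : ℤ) := Nat.isCoprime_iff_coprime.2 hcop
          cases i <;> cases j
          · exact absurd rfl hij
          · exact h1.symm
          · exact h1
          · exact absurd rfl hij) (fun i => if i then a₀ else r)
      have hs1 : (W : ℤ) ∣ s - a₀ := hs true (mem_univ _)
      have hs2 : (q : ℤ) ∣ s - r := hs false (mem_univ _)
      have hWq : W * q ∣ X.factorial := by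
        have h1 : ∏ p ∈ q.primeFactors, p = q := Nat.prod_primeFactors_of_squarefree hq
        have h2 : W * q = ∏ p ∈ Ps ∪ q.primeFactors, p := by
          rw [prod_union, ← hW, h1]
          rw [Finset.disjoint_left]
          intro p hp1 hp2
          have h3 := ((hPsm p).1 hp1).2
          have h4 := (hqp p hp2).1
          linarith
        rw [h2]
        refine prod_dvd_fac _ fun p hp => ?_
        rcases mem_union.1 hp with h3 | h3
        · refine ⟨((hPsm p).1 h3).1, ?_⟩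
          have := ((hPsm p).1 h3).2.trans hyX
          exact_mod_cast this
        · rw [Nat.mem_primeFactors] at h3
          refine ⟨h3.1, ?_⟩
          have h4 : p ≤ q := Nat.le_of_dvd hq0 h3.2.1
          have h5 : (q : ℝ) ≤ X := hqX.trans (by
            rw [hXr, hXL]
            exact Real.exp_le_exp.2 (by linarith))
          have h6 : q ≤ X := by exact_mod_cast h5
          omega
      have h1 : (An.image (fun n : ℕ => (n : ℤ))).filter (fun x => (q : ℤ) ∣ x - r) =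
          ((range X.factorial).filter (fun n : ℕ => ((W * q : ℕ) : ℤ) ∣ (n : ℤ) - s)).image
            (fun n : ℕ => (n : ℤ)) := by
        ext x
        rw [mem_filter, mem_image, mem_image]
        constructor
        · rintro ⟨⟨n, hn, rfl⟩, hx⟩
          rw [hAn, mem_filter] at hn
          refine ⟨n, mem_filter.2 ⟨hn.1, ?_⟩, rfl⟩
          push_cast
          refine IsCoprime.mul_dvd (Nat.isCoprime_iff_coprime.2 hcop) ?_ ?_
          · have := dvd_sub hn.2 hs1
            have e : (n : ℤ) - a₀ - (s - a₀) = n - s := by ring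
            rwa [e] at this
          · have := dvd_sub hx hs2
            have e : (n : ℤ) - r - (s - r) = n - s := by ring
            rwa [e] at this
        · rintro ⟨n, hn, rfl⟩
          rw [mem_filter] at hn
          push_cast at hn
          refine ⟨⟨n, ?_, rfl⟩, ?_⟩
          · rw [hAn, mem_filter]
            refine ⟨hn.1, ?_⟩
            have := dvd_add ((dvd_mul_right (W : ℤ) q).trans hn.2) hs1
            have e : (n : ℤ) - s + (s - a₀) = n - a₀ := by ring
            rwa [e] at this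
          · have := dvd_add ((dvd_mul_left (q : ℤ) W).trans hn.2) hs2
            have e : (n : ℤ) - s + (s - r) = n - r := by ring
            rwa [e] at this
      rw [h1, card_image_of_injective _ Nat.cast_injective, count_class (Nat.mul_pos hW0 hq0) hWq]
      push_cast
      rw [div_div, sub_self, abs_zero])
  -- transfer to the naturals
  have hsum : ∀ G : ℤ → ℝ, ∑ x ∈ An.image (fun n : ℕ => (n : ℤ)), G x =
      ∑ n ∈ range X.factorial, if (W : ℤ) ∣ (n : ℤ) - a₀ then G n else 0 := by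
    intro G
    rw [sum_image (fun i _ j _ h => Nat.cast_injective h), hAn, sum_filter]
  rw [hsum] at hD3
  rw [hsum, hsum] at hD4
  obtain ⟨V0, hV0⟩ : ∃ V0 : ℝ, V0 = ly * lt / (10 * t) := ⟨_, rfl⟩
  rw [← hV0] at hβ2
  have hV01 : 3 * a ≤ V0 := by
    rw [hV0, le_div_iff₀ (by positivity)]
    calc 3 * a * (10 * t) ≤ 3 * a * (10 * a) := by
          refine mul_le_mul_of_nonneg_left ?_ (by positivity)
          linarith
      _ = 30 * a ^ 2 := by ring
      _ ≤ l / 2 * 1 := by linarith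
      _ ≤ ly * lt := mul_le_mul hly1 (by linarith) zero_le_one hly0.le
  have hV02 : V0 ≤ l * b / a := by
    rw [hV0, div_le_div_iff₀ (by positivity) ha0]
    calc ly * lt * a ≤ l * b * a := by
          refine mul_le_mul_of_nonneg_right ?_ ha0.le
          exact mul_le_mul hly2 hlt2 hlt0.le hl0.le
      _ ≤ l * b * (10 * t) := by
          refine mul_le_mul_of_nonneg_left ?_ (by positivity)
          linarith
  have hFsum : ∀ n : ℕ, ∑ d ∈ D.image (fun d => W * d), (if (W : ℤ) ∣ (n : ℤ) - a₀ then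
      F (d / W) n else 0) = if (W : ℤ) ∣ (n : ℤ) - a₀ then ∑ d ∈ D, F d n else 0 := by
    intro n
    rw [sum_image (fun i _ j _ h => Nat.eq_of_mul_eq_mul_left hW0 h)]
    split_ifs with h
    · refine sum_congr rfl fun d _ => ?_
      rw [Nat.mul_div_cancel_left _ hW0]
    · exact sum_const_zero
  refine ⟨⌊Real.exp V0⌋₊, D.image (fun d => W * d),
    fun d n => if (W : ℤ) ∣ (n : ℤ) - a₀ then F (d / W) n else 0, ?_, ?_, ?_, ?_, ?_, ?_, ?_, ?_⟩
  · have h1 : Real.exp V0 < (⌊Real.exp V0⌋₊ : ℝ) + 1 := Nat.lt_floor_add_one _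
    have h2 : Real.exp (3 * a) ≤ Real.exp V0 := Real.exp_le_exp.2 hV01
    have h3 : Real.exp (3 * a) = l ^ 3 := by
      rw [← hea, ← Real.exp_nat_mul]
      norm_num
    have h4 : l ^ 2 + 1 ≤ l ^ 3 := by nlinarith only [g6, mul_nonneg hl0.le hl0.le]
    linarith
  · have h1 : (1 : ℝ) ≤ (⌊Real.exp V0⌋₊ : ℝ) := by
      have : 1 ≤ ⌊Real.exp V0⌋₊ := Nat.le_floor (by
        push_cast
        exact Real.one_le_exp (by linarith))
      exact_mod_cast this
    have h2 : Real.log (⌊Real.exp V0⌋₊ : ℝ) ≤ V0 := by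
      have := Real.log_le_log (by linarith) (Nat.floor_le (Real.exp_pos V0).le)
      rwa [Real.log_exp] at this
    exact h2.trans hV02
  · intro d' hd'
    obtain ⟨d, hd, rfl⟩ := mem_image.1 hd'
    obtain ⟨h1, h2, -⟩ := hD1 d hd
    refine ⟨Nat.mul_pos hW0 (Nat.pos_of_ne_zero h1.ne_zero), ?_⟩
    have h3 : ((W * d : ℕ) : ℝ) ≤ X := by
      push_cast
      calc (W : ℝ) * d ≤ Real.exp (L / 500) * Real.exp (1 / 40 * L) := by
            rw [← hXr]
            exact mul_le_mul hWle h2 (Nat.cast_nonneg _) (Real.exp_pos _).le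
        _ = Real.exp (L / 500 + 1 / 40 * L) := by rw [Real.exp_add]
        _ ≤ Real.exp L := Real.exp_le_exp.2 (by linarith)
        _ = X := hXL.symm
    exact_mod_cast h3
  · intro d' hd' p hp hp1 hp2 hpd
    obtain ⟨d, hd, rfl⟩ := mem_image.1 hd'
    obtain ⟨h1, h2, h3⟩ := hD1 d hd
    rcases (hp.dvd_mul).1 hpd with h4 | h4
    · have h5 := hWp p hp h4
      rw [hy] at h5
      linarith
    · have h5 := (h3 p (Nat.mem_primeFactors.2 ⟨hp, h4, h1.ne_zero⟩)).1
      linarith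
  · intro d' hd' n
    obtain ⟨d, hd, rfl⟩ := mem_image.1 hd'
    have h1 : ((W : ℤ) ∣ ((n + W * d : ℕ) : ℤ) - a₀) ↔ (W : ℤ) ∣ (n : ℤ) - a₀ := by
      push_cast
      have e : (n : ℤ) + W * d - a₀ = (n - a₀) + W * d := by ring
      rw [e]
      exact dvd_add_left (dvd_mul_right _ _)
    have h2 : ∀ k : ℕ, F d ((n : ℤ) + (k : ℤ) * d) = F d n := by
      intro k
      induction k with
      | zero => simp
      | succ k ih =>
        have e : (n : ℤ) + ((k + 1 : ℕ) : ℤ) * d = (n + (k : ℤ) * d) + d := by push_cast; ring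
        rw [e, hD2 d hd, ih]
    beta_reduce
    rw [Nat.mul_div_cancel_left _ hW0]
    refine if_congr h1 ?_ rfl
    have h3 := h2 W
    push_cast
    exact h3
  · intro n hn p hp hzp hpy
    rw [hFsum] at hn
    by_cases hWn : (W : ℤ) ∣ (n : ℤ) - a₀
    · have h1 : Real.exp V0 < p := by
        have h2 : Real.exp V0 < (⌊Real.exp V0⌋₊ : ℝ) + 1 := Nat.lt_floor_add_one _
        have h3 : (⌊Real.exp V0⌋₊ : ℝ) + 1 ≤ p := by exact_mod_cast hzp
        linarith
      have h2 : V0 < Real.log p := by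
        rwa [Real.lt_log_iff_exp_lt (by exact_mod_cast hp.pos)]
      have h3 := hβ2 p hp h2
      have h4 := hWiff n hWn p hp (by rw [hy]; exact hpy)
      rw [h3] at h4
      have e : (n : ℤ) - (1 - ((1 : ℕ) : ℤ)) = n := by push_cast; ring
      rw [e] at h4
      exact Int.natCast_dvd_natCast.1 h4
    · rw [if_neg hWn] at hn
      exact absurd rfl hn
  · simp only [hFsum]
    refine lt_of_lt_of_eq hD3 (sum_congr rfl fun n _ => ?_)
    split_ifs
    · rfl
    · simp
  · intro U hU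
    simp only [hFsum]
    have hU1 : U + 1 ≤ N := by
      rw [hN]
      refine Nat.le_floor ?_
      push_cast
      have h1 : c' / 16000 * (L * l ^ 2 * b / a ^ 2) = c' / 16000 * (L * φ) := by
        rw [hφ]; ring
      rw [h1] at hU
      have h2 : c' / 8000 * (L * φ) ≤ c' * (y * ψ) := by
        calc c' / 8000 * (L * φ) = c' * (L / 1000 * (φ / 8)) := by ring
          _ ≤ c' * (y * ψ) := by
            rw [hy]
            exact mul_le_mul_of_nonneg_left (mul_le_mul_of_nonneg_left hψφ (by positivity)) hc'0.le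
      have h3 : 1 ≤ c' / 16000 * (L * φ) := by
        rw [div_le_iff₀ hc'0] at g4
        have h4 : 1 ≤ φ := by linarith
        have h5 : L * 1 ≤ L * φ := mul_le_mul_of_nonneg_left h4 hL0.le
        have h6 : c' * (L * 1) ≤ c' * (L * φ) := mul_le_mul_of_nonneg_left h5 hc'0.le
        linarith
      have h4 : c' / 8000 * (L * φ) = c' / 16000 * (L * φ) + c' / 16000 * (L * φ) := by ring
      linarith
    have e1 : ∀ n : ℕ, (if (W : ℤ) ∣ (n : ℤ) - a₀ then ∑ d ∈ D, F d n else 0) ^ 2 =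
        if (W : ℤ) ∣ (n : ℤ) - a₀ then (∑ d ∈ D, F d n) ^ 2 else 0 := by
      intro n
      split_ifs
      · rfl
      · simp
    simp only [e1]
    refine le_trans ?_ hD4
    refine sum_le_sum fun n _ => ?_
    split_ifs with hWn
    · refine mul_le_mul_of_nonneg_left ?_ (sq_nonneg _)
      refine Nat.cast_le.2 ?_
      have h1 : (((Icc 1 U).filter (fun h => ∀ p ∈ (Icc 1 X).filter Nat.Prime, ¬ p ∣ n + h)).image
          (fun h => h + 1)) ⊆ ((univ : Finset {k // k ∈ R}).filter (fun k : {k // k ∈ R} => ∀ p : ℕ,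
          p.Prime → L ^ 2 < p → (p : ℝ) ≤ (X : ℝ) ^ (1 / 10 : ℝ) → p ∉ (∅ : Finset ℕ) →
          ¬ (p : ℤ) ∣ (n : ℤ) - (1 - ((k : ℕ) : ℤ)))).image (fun k : {k // k ∈ R} => (k : ℕ)) := by
        intro k hk
        obtain ⟨h, hh, rfl⟩ := mem_image.1 hk
        rw [mem_filter, mem_Icc] at hh
        obtain ⟨⟨hh1, hh2⟩, hh3⟩ := hh
        have hmem : h + 1 ∈ R := by
          rw [hR, mem_filter, mem_Icc]
          refine ⟨⟨by omega, by omega⟩, fun p hp hpy hmod => ?_⟩
          refine hh3 p (mem_filter.2 ⟨mem_Icc.2 ⟨hp.pos, ?_⟩, hp⟩) ?_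
          · have := hpy.trans hyX
            exact_mod_cast this
          · have h2 := hWiff n hWn p hp hpy
            have h3 : (p : ℤ) ∣ ((h + 1 : ℕ) : ℤ) - (β p : ℤ) := by
              have h4 := (Nat.modEq_iff_dvd).1 hmod.symm
              exact h4
            have h4 := dvd_add h2 h3
            have e : (n : ℤ) - (1 - (β p : ℤ)) + (((h + 1 : ℕ) : ℤ) - (β p : ℤ)) =
                ((n + h : ℕ) : ℤ) := by push_cast; ring
            rw [e] at h4
            exact Int.natCast_dvd_natCast.1 h4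
        refine mem_image.2 ⟨⟨h + 1, hmem⟩, mem_filter.2 ⟨mem_univ _, ?_⟩, rfl⟩
        intro p hp _ hpX _ hd
        refine hh3 p (mem_filter.2 ⟨mem_Icc.2 ⟨hp.pos, ?_⟩, hp⟩) ?_
        · have h2 : (p : ℝ) ≤ X := hpX.trans (by
            rw [hXr, hXL]
            exact Real.exp_le_exp.2 (by linarith))
          exact_mod_cast h2
        · have e : (n : ℤ) - (1 - ((h + 1 : ℕ) : ℤ)) = ((n + h : ℕ) : ℤ) := by push_cast; ring
          simp only at hd
          rw [e] at hd
          exact Int.natCast_dvd_natCast.1 hd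
      have h2 := card_le_card h1
      rw [card_image_of_injective _ (fun i j h => by simpa using h)] at h2
      refine h2.trans (card_image_le.trans (le_of_eq ?_))
      congr!
    · simp

end Pool.Agent.Y835.SH
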