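import Pool.Agent.Y835.SF.Core
import Pool.Agent.Y835.SF.Er

/-!
Coverings of Erdős-Rankin type combined with square weights: the bound with the right order of magnitude.
-/

set_option autoImplicit false

namespace Pool.Agent.Y835.SF

open Finset Pool.Agent.Y835.SB Filter

theorem ev_large (A c K : ℝ) (hc : 0 < c) : ∃ Y0 : ℕ, ∀ Y : ℕ, Y0 ≤ Y → K ≤ Real.log Y ∧
    A * Real.log Y ^ 2 ≤ c * (Y : ℝ) ^ (1 / 16 : ℝ) := by
  have h1 : ∀ᶠ x : ℝ in atTop, K ≤ Real.log x := Real.tendsto_log_atTop.eventually_ge_atTop K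
  have h2 := (isLittleO_log_rpow_rpow_atTop 2 (show (0 : ℝ) < 1 / 16 by norm_num)).def
    (show (0 : ℝ) < c / (|A| + 1) by positivity)
  have h3 := (tendsto_natCast_atTop_atTop (R := ℝ)).eventually (h1.and (h2.and
    (eventually_ge_atTop (1 : ℝ))))
  obtain ⟨Y0, hY0⟩ := h3.exists_forall_of_atTop
  refine ⟨Y0, fun Y hY => ?_⟩
  obtain ⟨h4, h5, h6⟩ := hY0 Y hY
  refine ⟨h4, ?_⟩
  have hl : 0 ≤ Real.log (Y : ℝ) := Real.log_nonneg h6
  rw [Real.norm_of_nonneg (Real.rpow_nonneg hl _), Real.norm_of_nonneg (by positivity),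
    Real.rpow_two] at h5
  have h7 : A * Real.log Y ^ 2 ≤ (|A| + 1) * Real.log Y ^ 2 :=
    mul_le_mul_of_nonneg_right (by linarith [le_abs_self A]) (sq_nonneg _)
  refine h7.trans ?_
  calc (|A| + 1) * Real.log Y ^ 2 ≤ (|A| + 1) * (c / (|A| + 1) * (Y : ℝ) ^ (1 / 16 : ℝ)) :=
        mul_le_mul_of_nonneg_left h5 (by positivity)
    _ = c * (Y : ℝ) ^ (1 / 16 : ℝ) := by field_simp

open Classical in
theorem cap (A : ℝ) (hA : 1 ≤ A) : ∃ (c C : ℝ) (Y0 : ℕ), 0 < c ∧ c ≤ 1 ∧ 0 < C ∧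
    ∀ (R : ℝ) (Y U z : ℕ) (r : ℝ), Y0 ≤ Y → 2 ≤ R → Real.log R ≤ A * Y → 2 ≤ z →
    (z : ℝ) ≤ (Y : ℝ) ^ c → Real.log Y ≤ r → ∀ m : ℝ,
    m = min 1 (Real.log ((U : ℝ) / Y) / Real.log z) → C * (r * Y) ≤ U * m → ∀ θ : ℝ,
    θ = min 1 (Real.log ((U : ℝ) / Y) / Real.log Y) * m →
    ∀ P : Finset ℕ, (∀ p ∈ P, p.Prime) → ∀ (I : Finset ℕ) (d : ℕ → ℕ) (f : ℕ → ℕ → ℝ),
    (∀ i ∈ I, 0 < d i ∧ (d i : ℝ) ≤ R ∧ Function.Periodic (f i) (d i)) → ∀ N : ℕ, 0 < N →
    (∀ p ∈ P, p ∣ N) → (∀ i ∈ I, d i ∣ N) →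
    (∀ n : ℕ, (∑ i ∈ I, f i n) ≠ 0 →
      ∑ p ∈ P.filter (fun p : ℕ => z < p ∧ p ≤ Y ∧ ¬ p ∣ n), 1 / (p : ℝ) ≤ c * θ) →
    (∀ n : ℕ, (∑ i ∈ I, f i n) ≠ 0 → ∀ p ∈ P, Y < p → p ≤ U → (∃ i ∈ I, p ∣ d i) →
      (((Icc 1 U).filter (fun h => p ∣ n + h ∧ ∀ q ∈ P, q ≤ Y → ¬ q ∣ n + h)).card : ℝ) ≤ r) →
    c * (U * m / Real.log Y) * (∏ p ∈ P.filter (fun p : ℕ => Y < p), (1 - 1 / (p : ℝ))) *
      ∑ n ∈ range N, (∑ i ∈ I, f i n) ^ 2 ≤
      ∑ n ∈ range N, (∑ i ∈ I, f i n) ^ 2 *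
        (((Icc 1 U).filter (fun h => ∀ p ∈ P, ¬ p ∣ n + h)).card : ℝ) := by
  obtain ⟨c1, K0, Y1, hc1, hc11, hK0, hY1, ER⟩ := er
  obtain ⟨cV, hcV, hcV1, RAT⟩ := Pool.Agent.Y835.SC.V_ratio
  obtain ⟨C3, hC30, MR⟩ := Pool.Agent.Helper923.HMertens.mertens_ratio
  obtain ⟨C4, hC4, HI⟩ := sum_inv_le
  obtain ⟨C, hC⟩ : ∃ C : ℝ, C = max (560 * A / (cV * c1)) (max K0 3) := ⟨_, rfl⟩
  have hC1 : 560 * A / (cV * c1) ≤ C := by rw [hC]; exact le_max_left _ _
  have hC2 : (K0 : ℝ) ≤ C := by rw [hC]; exact (le_max_left _ _).trans (le_max_right _ _)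
  have hC3 : 3 ≤ C := by rw [hC]; exact (le_max_right _ _).trans (le_max_right _ _)
  have hC0 : 0 < C := by linarith
  obtain ⟨Y2, HY2⟩ := ev_large (130 * A / cV) (c1 / 8)
    (max (16 * C3) (max (C4 + Real.log A) 2)) (by positivity)
  refine ⟨c1 / 2, C, max Y1 Y2, by positivity, by linarith, hC0, ?_⟩
  intro R Y U z r hY hR2 hR hz hzY hr m hm hCr θ hθ P hP I d f hf N hN hPN hIN hsupp hrr
  have hYY1 : Y1 ≤ Y := (le_max_left _ _).trans hY
  obtain ⟨g1, g2⟩ := HY2 Y ((le_max_right _ _).trans hY)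
  have hY3 : 3 ≤ Y := hY1.trans hYY1
  have hYr : (3 : ℝ) ≤ Y := by exact_mod_cast hY3
  have hY0 : (0 : ℝ) < Y := by linarith
  obtain ⟨l, hl⟩ : ∃ l : ℝ, l = Real.log Y := ⟨_, rfl⟩
  rw [← hl] at g1 g2 hr hθ ⊢
  have g3 : 16 * C3 ≤ l := (le_max_left _ _).trans g1
  have g4 : C4 + Real.log A ≤ l := (le_max_left _ _).trans ((le_max_right _ _).trans g1)
  have g5 : 2 ≤ l := (le_max_right _ _).trans ((le_max_right _ _).trans g1)
  have hl0 : 0 < l := by linarith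
  have hlz : 0 < Real.log z := Real.log_pos (by exact_mod_cast (by omega : 1 < z))
  have hr2 : 2 ≤ r := g5.trans hr
  have hm1 : m ≤ 1 := by rw [hm]; exact min_le_left _ _
  have hU0 : (0 : ℝ) ≤ U := Nat.cast_nonneg U
  have hUC : C * (r * Y) ≤ U := hCr.trans (mul_le_of_le_one_right hU0 hm1)
  have hUCY : C * Y ≤ U := by
    refine le_trans ?_ hUC
    exact mul_le_mul_of_nonneg_left (by nlinarith) hC0.le
  have hUK : K0 * Y ≤ U := by
    have h1 : (K0 : ℝ) * Y ≤ U := (mul_le_mul_of_nonneg_right hC2 hY0.le).trans hUCY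
    exact_mod_cast h1
  have hκ : 3 ≤ (U : ℝ) / Y := by
    rw [le_div_iff₀ hY0]
    exact (mul_le_mul_of_nonneg_right hC3 hY0.le).trans hUCY
  have hlκ : 1 ≤ Real.log ((U : ℝ) / Y) := by
    rw [Real.le_log_iff_exp_le (by linarith)]
    have := Real.exp_one_lt_d9
    linarith
  have hlzl : Real.log z ≤ l := by
    have h1 : (z : ℝ) ≤ Y := hzY.trans (by
      calc (Y : ℝ) ^ (c1 / 2) ≤ (Y : ℝ) ^ (1 : ℝ) :=
            Real.rpow_le_rpow_of_exponent_le (by linarith) (by linarith)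
        _ = Y := Real.rpow_one _)
    rw [hl]
    exact Real.log_le_log (by exact_mod_cast (by omega : 0 < z)) h1
  have hml : 1 / l ≤ m := by
    rw [hm]
    refine le_min ?_ ?_
    · rw [div_le_one hl0]; linarith
    · exact div_le_div₀ (by linarith) hlκ hlz hlzl
  have hm0 : 0 < m := lt_of_lt_of_le (by positivity) hml
  -- the parameter `T`
  obtain ⟨T, hT⟩ : ∃ T : ℕ, T = ⌊(Y : ℝ) ^ (17 / 16 : ℝ)⌋₊ := ⟨_, rfl⟩
  have hYT : (Y : ℝ) ≤ (Y : ℝ) ^ (17 / 16 : ℝ) := by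
    calc (Y : ℝ) = (Y : ℝ) ^ (1 : ℝ) := (Real.rpow_one _).symm
      _ ≤ _ := Real.rpow_le_rpow_of_exponent_le (by linarith) (by norm_num)
  have hTle : (T : ℝ) ≤ (Y : ℝ) ^ (17 / 16 : ℝ) := by rw [hT]; exact Nat.floor_le (by positivity)
  have hTY : Y ≤ T := by rw [hT]; exact Nat.le_floor hYT
  have hTge : (Y : ℝ) ^ (17 / 16 : ℝ) / 2 ≤ T := by
    have h1 := Nat.lt_floor_add_one ((Y : ℝ) ^ (17 / 16 : ℝ))
    rw [← hT] at h1
    linarith
  have hT1 : 1 ≤ T := by omega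
  have hT0 : (0 : ℝ) < T := by exact_mod_cast hT1
  have hΛU : ∑ p ∈ P.filter (fun p : ℕ => Y < p ∧ p ≤ T), 1 / (p : ℝ) ≤ 1 / 8 := by
    have h1 := (abs_le.1 (MR Y T (by omega) hTY)).2
    have h2 : ∑ p ∈ P.filter (fun p : ℕ => Y < p ∧ p ≤ T), 1 / (p : ℝ) ≤
        ∑ p ∈ (Ioc Y T).filter Nat.Prime, (1 : ℝ) / p :=
      sum_le_sum_of_subset_of_nonneg (fun p hp => by
        rw [mem_filter] at hp
        exact mem_filter.2 ⟨mem_Ioc.2 hp.2, hP p hp.1⟩) fun p _ _ => by positivity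
    have h3 : Real.log T ≤ 17 / 16 * l := by
      rw [hl, ← Real.log_rpow hY0]
      exact Real.log_le_log hT0 hTle
    have hlT : 0 < Real.log T := by
      refine lt_of_lt_of_le hl0 ?_
      rw [hl]
      exact Real.log_le_log hY0 (by exact_mod_cast hTY)
    have h4 : Real.log (Real.log T / Real.log Y) ≤ 1 / 16 := by
      rw [← hl]
      have h5 := Real.log_le_sub_one_of_pos (show 0 < Real.log T / l by positivity)
      have h6 : Real.log T / l ≤ 17 / 16 := by rw [div_le_iff₀ hl0]; exact h3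
      linarith
    have h5 : C3 / Real.log Y ≤ 1 / 16 := by
      rw [← hl, div_le_iff₀ hl0]
      linarith
    linarith
  -- the parameter `Λ`
  have hΛ : ∑ p ∈ (P.filter (fun p : ℕ => Y < p)).filter (fun p : ℕ => (p : ℝ) ≤ R),
      1 / (p : ℝ) ≤ 2 * l := by
    have h2 : 2 ≤ ⌊R⌋₊ := Nat.le_floor (by exact_mod_cast hR2)
    have h1 := HI ⌊R⌋₊ h2
      ((P.filter (fun p : ℕ => Y < p)).filter (fun p : ℕ => (p : ℝ) ≤ R))
      (fun p hp => ⟨hP p (mem_filter.1 (mem_filter.1 hp).1).1, Nat.le_floor (mem_filter.1 hp).2⟩)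
    refine h1.trans ?_
    have h3 : (⌊R⌋₊ : ℝ) ≤ R := Nat.floor_le (by linarith)
    have h4 : (2 : ℝ) ≤ (⌊R⌋₊ : ℝ) := by exact_mod_cast h2
    have h5 : 0 < Real.log (⌊R⌋₊ : ℝ) := Real.log_pos (by linarith)
    have h6 : Real.log (⌊R⌋₊ : ℝ) ≤ A * Y := (Real.log_le_log (by linarith) h3).trans hR
    have h7 : Real.log (Real.log (⌊R⌋₊ : ℝ)) ≤ Real.log A + l := by
      rw [hl, ← Real.log_mul (by linarith) hY0.ne']
      exact Real.log_le_log h5 h6
    linarith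
  -- the pointwise bound
  obtain ⟨σ, hσd⟩ : ∃ σ : ℝ, σ = c1 * (U * m / l) := ⟨_, rfl⟩
  have hσ : ∀ n : ℕ, (∑ i ∈ I, f i n) ≠ 0 → σ ≤ (((Icc 1 U).filter (fun h =>
      ∀ p ∈ P, p ≤ Y → ¬ p ∣ n + h)).card : ℝ) := by
    intro n hn
    have h1 := ER Y U z n hYY1 hUK hz (hzY.trans (Real.rpow_le_rpow_of_exponent_le
      (by linarith) (by linarith))) (P.filter (fun p => p ≤ Y)) (fun p hp => by
        rw [mem_filter] at hp
        exact ⟨hP p hp.1, hp.2⟩) θ (by rw [← hl, ← hm]; exact hθ) (by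
        have h2 : (P.filter (fun p => p ≤ Y)).filter (fun p => z < p ∧ ¬ p ∣ n) =
            P.filter (fun p : ℕ => z < p ∧ p ≤ Y ∧ ¬ p ∣ n) := by
          rw [filter_filter]
          refine filter_congr fun p _ => ?_
          tauto
        rw [h2]
        refine (hsupp n hn).trans ?_
        have hθ0 : 0 ≤ θ := by
          rw [hθ]
          exact mul_nonneg (le_min zero_le_one (by positivity)) hm0.le
        exact mul_le_mul_of_nonneg_right (by linarith) hθ0)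
    rw [← hl, ← hm] at h1
    rw [hσd]
    refine h1.trans (le_of_eq ?_)
    congr 2
    refine filter_congr fun h _ => ?_
    constructor
    · intro h2 p hp hpY
      exact h2 p (mem_filter.2 ⟨hp, hpY⟩)
    · intro h2 p hp
      exact h2 p (mem_filter.1 hp).1 (mem_filter.1 hp).2
  -- the main condition
  have hmain : 1 / (cV * Real.log Y) * (5 * r + (U / T + 1) * (1 + 32 * (2 * l))) * Real.log R ≤
      σ / 4 := by
    rw [← hl, hσd]
    have h1 : 1 / (cV * l) * (5 * r + (U / T + 1) * (1 + 32 * (2 * l))) * Real.log R ≤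
        1 / (cV * l) * (5 * r + (U / T + 1) * (1 + 32 * (2 * l))) * (A * Y) :=
      mul_le_mul_of_nonneg_left hR (by positivity)
    refine h1.trans ?_
    have h2 : (1 + 32 * (2 * l)) ≤ 65 * l := by linarith
    have h3 : (U / T + 1) * (1 + 32 * (2 * l)) ≤ (U / T + 1) * (65 * l) :=
      mul_le_mul_of_nonneg_left h2 (by positivity)
    have h4 : 5 * r + (U / T + 1) * (1 + 32 * (2 * l)) ≤ 70 * r + U / T * (65 * l) := by
      have : 65 * l ≤ 65 * r := by linarith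
      linarith
    have h5 : 1 / (cV * l) * (5 * r + (U / T + 1) * (1 + 32 * (2 * l))) * (A * Y) ≤
        1 / (cV * l) * (70 * r + U / T * (65 * l)) * (A * Y) :=
      mul_le_mul_of_nonneg_right (mul_le_mul_of_nonneg_left h4 (by positivity)) (by positivity)
    refine h5.trans ?_
    have e1 : 1 / (cV * l) * (70 * r + U / T * (65 * l)) * (A * Y) =
        (70 * A / cV * (r * Y) + 65 * A / cV * l * (Y / T) * U) / l := by
      field_simp
    have e2 : c1 * (U * m / l) / 4 = (c1 / 8 * (U * m) + c1 / 8 * (U * m)) / l := by ring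
    rw [e1, e2]
    refine div_le_div_of_nonneg_right (add_le_add ?_ ?_) hl0.le
    · have h6 : 70 * A / cV ≤ c1 / 8 * C := by
        have h7 := mul_le_mul_of_nonneg_left hC1 (show 0 ≤ c1 / 8 by positivity)
        refine le_trans (le_of_eq ?_) h7
        field_simp
        norm_num
      calc 70 * A / cV * (r * Y) ≤ c1 / 8 * C * (r * Y) :=
            mul_le_mul_of_nonneg_right h6 (by positivity)
        _ = c1 / 8 * (C * (r * Y)) := by ring
        _ ≤ c1 / 8 * (U * m) := mul_le_mul_of_nonneg_left hCr (by positivity)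
    · have h6 : (Y : ℝ) / T ≤ 2 * (Y : ℝ) ^ (-(1 / 16) : ℝ) := by
        rw [div_le_iff₀ hT0]
        calc (Y : ℝ) = 2 * (Y : ℝ) ^ (-(1 / 16) : ℝ) * ((Y : ℝ) ^ (17 / 16 : ℝ) / 2) := by
              have : (Y : ℝ) ^ (-(1 / 16) : ℝ) * (Y : ℝ) ^ (17 / 16 : ℝ) = Y := by
                rw [← Real.rpow_add hY0]
                norm_num
              linear_combination -this
          _ ≤ _ := mul_le_mul_of_nonneg_left hTge (by positivity)
      have h7 : 65 * A / cV * l * (2 * (Y : ℝ) ^ (-(1 / 16) : ℝ)) ≤ c1 / 8 * (1 / l) := by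
        rw [Real.rpow_neg hY0.le]
        have hp : 0 < (Y : ℝ) ^ (1 / 16 : ℝ) := by positivity
        rw [mul_one_div, le_div_iff₀ hl0]
        calc 65 * A / cV * l * (2 * ((Y : ℝ) ^ (1 / 16 : ℝ))⁻¹) * l =
              (130 * A / cV * l ^ 2) / (Y : ℝ) ^ (1 / 16 : ℝ) := by
              rw [div_eq_mul_inv _ ((Y : ℝ) ^ (1 / 16 : ℝ))]
              ring
          _ ≤ c1 / 8 := by
              rw [div_le_iff₀ hp]
              exact g2
      calc 65 * A / cV * l * (Y / T) * U ≤ 65 * A / cV * l * (2 * (Y : ℝ) ^ (-(1 / 16) : ℝ)) * U :=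
            mul_le_mul_of_nonneg_right (mul_le_mul_of_nonneg_left h6 (by positivity)) hU0
        _ ≤ c1 / 8 * (1 / l) * U := mul_le_mul_of_nonneg_right h7 hU0
        _ ≤ c1 / 8 * m * U := mul_le_mul_of_nonneg_right
            (mul_le_mul_of_nonneg_left hml (by positivity)) hU0
        _ = c1 / 8 * (U * m) := by ring
  have h := core hcV (Y := Y) (U := U) (T := T) (by omega) hT1 (R := R) (r := r) (σ := σ)
    (Λ := 2 * l) (by linarith) (by linarith) hP (fun p hp hYp => by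
      have h1 := RAT Y p (by omega) hYp.le ((P.filter (fun q : ℕ => Y < q)).filter
        (fun q => q < p)) (fun q hq => by
          rw [mem_filter, mem_filter] at hq
          exact ⟨hP q hq.1.1, hq.1.2, hq.2.le⟩)
      exact h1) hΛ hΛU hmain I d f hf hN hPN hIN hσ (by
      intro n hn p hp hYp _ hseen
      rcases le_or_gt p U with hpU | hpU
      · exact hrr n hn p hp hYp hpU hseen
      · have hp0 : 0 < p := (hP p hp).pos
        have h3 : (((Icc 1 U).filter (fun h => p ∣ n + h ∧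
            ∀ q ∈ P, q ≤ Y → ¬ q ∣ n + h)).card : ℝ) ≤
            (((Icc 1 U).filter (fun h => p ∣ n + h)).card : ℝ) := by
          exact_mod_cast card_le_card (fun h hh => by
            rw [mem_filter] at hh ⊢
            exact ⟨hh.1, hh.2.1⟩)
        refine h3.trans ((hits_le p n U hp0).trans ?_)
        have h4 : (U : ℝ) / p ≤ 1 := by
          rw [div_le_one (by exact_mod_cast hp0)]
          exact_mod_cast hpU.le
        linarith)
  refine le_trans (le_of_eq ?_) h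
  rw [hσd]
  ring

end Pool.Agent.Y835.SF
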