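import Pool.Agent.H256R2.SC.J

/-!
The abstract covering sieve, with the mean value of the number of missed colours.
-/

set_option autoImplicit false
set_option linter.unusedSectionVars false

namespace Pool.Agent.Y835.SH

open Finset Pool.Agent.H256R2.SC

variable {n : ℕ} {κ : Type} [Fintype κ] [DecidableEq κ]

open Classical in
theorem core2 {α : Type} [DecidableEq α] (𝒜 : Finset α) (col : α → Col n κ)
    {p g : Fin n → ℝ} {h : Finset (Fin n) → ℝ} {z K : ℝ} (H : Hyp p g h z K)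
    (Q δ t N Err : ℝ) (J : ℕ) (hJ : Even J) (ht : 0 < t) (hN : 0 < N) (hErr : 0 ≤ Err)
    (hQz : 1 ≤ Q)
    (hpz : ∀ i, p i ≤ z) (hg1 : ∀ i, g i ≤ 1) (htg : ∀ i, 3 * t * g i ≤ 1)
    (hug : ∀ i, (Fintype.card κ : ℝ) * g i ≤ 1)
    (hδ : ∀ D : Col n κ, qq p D ≤ Q → 2 * ∑ i with D i ≠ none, g i ≤ δ)
    (hug4 : (Fintype.card κ : ℝ) * δ ≤ 1 / 4)
    (hs : 2 * (Fintype.card κ : ℝ) * ∑ i, 1 / (p i) ^ 2 ≤ 1)
    (htail : (Fintype.card κ + 1 : ℝ) * (δ ^ 2 + Real.exp (2 * (Fintype.card κ : ℝ) * K / Real.log z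
      - Real.log (Q / z) / Real.log z)) ≤ 1 / 8)
    (hmom : (Fintype.card κ : ℝ) * (1 / t) ^ J * Real.exp ((2 + 6 * t) * ∑ i, g i) ≤ 1 / 8)
    (hcnt : ∀ D : Col n κ, qq p D ≤ Q ^ 2 * z ^ J →
      |((𝒜.filter (fun a => ∀ i, D i ≠ none → col a i = D i)).card : ℝ) - N * nu g D| ≤ Err)
    (hfin : Err * (9 * Q ^ 4 * (1 + Fintype.card κ * (n + 1) ^ J)) < N / 8) :
    (∃ f : Col n κ → ℝ, (∀ x, VV g (yT p h Q) x = ∑ D, f D * ind D x) ∧
      ∀ D, f D ≠ 0 → qq p D ≤ Q) ∧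
    0 < ∑ a ∈ 𝒜, (VV g (yT p h Q) (col a)) ^ 2 ∧
    ∑ a ∈ 𝒜, (VV g (yT p h Q) (col a)) ^ 2 *
      (((univ : Finset κ).filter (fun k => ∀ i, col a i ≠ some k)).card : ℝ) ≤
      1 / 2 * ∑ a ∈ 𝒜, (VV g (yT p h Q) (col a)) ^ 2 := by
  set u : ℝ := (Fintype.card κ : ℝ) with hu
  have hu0 : 0 ≤ u := Nat.cast_nonneg _
  have hQ0 : 0 < Q := by linarith
  have hz0 : 0 < z := by linarith [H.z1]
  set E : ℝ := Real.exp (2 * u * K / Real.log z - Real.log (Q / z) / Real.log z) with hE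
  set Z : ℝ := Zs κ g h with hZ
  have hZ1 : 1 ≤ Z := Zs_ge_one H
  have hE0 : 0 < E := Real.exp_pos _
  have hp1 : ∀ i, 1 ≤ p i := fun i => (H.p1 i).le
  have hT : ∑ D : Col n κ with Q / z < qq p D, (yy h D) ^ 2 * nu g D ≤ E * Z :=
    tail_bound H (Q / z) (by positivity)
  have hE8 : E ≤ 1 / 8 := by
    have : δ ^ 2 + E ≤ (u + 1) * (δ ^ 2 + E) := by nlinarith [sq_nonneg δ]
    nlinarith [sq_nonneg δ]
  have hT8 : E * Z ≤ 1 / 8 * Z := by nlinarith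
  set V : Col n κ → ℝ := VV g (yT p h Q) with hV
  have hlow : 3 / 4 * Z ≤ EE g (fun x => (V x) ^ 2) :=
    second_lower H Q δ (E * Z) hug hδ hug4 hQ0 hT hT8
  have hup : ∀ k, EE g (fun x => (V x) ^ 2 * SS J k x) ≤
      δ ^ 2 * Z + E * Z + (1 / t) ^ J * (Real.exp ((2 + 6 * t) * ∑ i, g i) * Z) := fun k =>
    second_upper H Q δ t (E * Z) J hJ ht htg hug hQ0 hδ hT k
  set F : Col n κ → ℝ := fun x => V x ^ 2 * (1 / 2 - ∑ k, SS J k x) with hF
  have hEF : Z / 8 ≤ EE g F := by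
    have e1 : EE g F = 1 / 2 * EE g (fun x => (V x) ^ 2) -
        ∑ k, EE g (fun x => (V x) ^ 2 * SS J k x) := by
      rw [← EE_sum, ← EE_smul, ← EE_sub]
      congr 1
      funext x
      rw [hF]
      simp only
      rw [← Finset.mul_sum]
      ring
    rw [e1]
    have e2 : ∑ k : κ, EE g (fun x => (V x) ^ 2 * SS J k x) ≤
        u * (δ ^ 2 * Z + E * Z + (1 / t) ^ J * (Real.exp ((2 + 6 * t) * ∑ i, g i) * Z)) := by
      refine (Finset.sum_le_sum (fun k _ => hup k)).trans ?_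
      rw [Finset.sum_const, Finset.card_univ, nsmul_eq_mul]
    have e3 : u * (δ ^ 2 * Z + E * Z) ≤ 1 / 8 * Z := by
      have : u * (δ ^ 2 + E) ≤ 1 / 8 := by nlinarith [sq_nonneg δ]
      nlinarith
    have e4 : u * ((1 / t) ^ J * (Real.exp ((2 + 6 * t) * ∑ i, g i) * Z)) ≤ 1 / 8 * Z := by
      nlinarith
    nlinarith
  -- level of `F`
  have hzJ : (1:ℝ) ≤ z ^ J := one_le_pow₀ H.z1.le
  have hVL : Lv p Q (3 * Q ^ 2) V := by
    refine Lv_mono le_rfl (count_assign (κ := κ) p hp1 hs Q hQ0) ?_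
    refine Lv_VV p g hp1 (fun i => (H.g0 i).le) hg1 (yT p h Q) ?_ Q ?_
    · intro D
      unfold yT
      split_ifs
      · exact yy_abs_le H.h0 H.h1 D
      · simp
    · intro D hD
      by_contra hc
      exact hD (by unfold yT; rw [if_neg hc])
  have hSL : Lv p (z ^ J) (1 + u * (n + 1) ^ J) (fun x : Col n κ => 1 / 2 - ∑ k, SS J k x) := by
    have e1 : Lv p (z ^ J) 1 (fun _ : Col n κ => (1 / 2:ℝ)) := by
      refine Lv_mono hzJ ?_ (Lv_const p (1 / 2))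
      rw [abs_of_nonneg (by norm_num)]
      norm_num
    have e2 := Lv_sum (p := p) (Q := z ^ J) (univ : Finset κ) (fun _ => ((n:ℝ) + 1) ^ J)
      (fun k => (SS J k : Col n κ → ℝ)) (fun k _ => Lv_SS p hp1 z hpz H.z1.le J k)
    have e3 := Lv_sub e1 e2
    refine Lv_mono le_rfl ?_ e3
    rw [Finset.sum_const, Finset.card_univ, nsmul_eq_mul]
  have hFL : Lv p (Q ^ 2 * z ^ J) (9 * Q ^ 4 * (1 + u * (n + 1) ^ J)) F := by
    have e1 := Lv_mul hp1 (Lv_mul hp1 hVL hVL) hSL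
    have e2 : F = fun x => V x * V x * (1 / 2 - ∑ k, SS J k x) := by
      rw [hF]; funext x; ring
    rw [e2]
    refine Lv_mono (le_of_eq (by ring)) (le_of_eq (by ring)) e1
  have htr := transfer 𝒜 col p g N Err _ _ hErr hcnt F hFL
  have hpos : 0 < ∑ a ∈ 𝒜, F (col a) := by
    have e1 := (abs_le.mp htr).1
    have e2 : N / 8 ≤ N * EE g F := by nlinarith
    linarith
  -- the missed colours
  have hmiss : ∀ a, (((univ : Finset κ).filter (fun k => ∀ i, col a i ≠ some k)).card : ℝ) ≤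
      ∑ k, SS J k (col a) := by
    intro a
    have h1 : (((univ : Finset κ).filter (fun k => ∀ i, col a i ≠ some k)).card : ℝ) =
        ∑ k : κ, (if ∀ i, col a i ≠ some k then (1 : ℝ) else 0) := by
      rw [sum_boole]
    rw [h1]
    refine sum_le_sum fun k _ => ?_
    have h2 := SS_lower J hJ k (col a)
    convert h2
  have hF2 : ∑ a ∈ 𝒜, F (col a) ≤ 1 / 2 * ∑ a ∈ 𝒜, (V (col a)) ^ 2 -
      ∑ a ∈ 𝒜, (V (col a)) ^ 2 *
      (((univ : Finset κ).filter (fun k => ∀ i, col a i ≠ some k)).card : ℝ) := by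
    rw [mul_sum, ← sum_sub_distrib]
    refine sum_le_sum fun a _ => ?_
    simp only [hF]
    have h1 := mul_le_mul_of_nonneg_left (hmiss a) (sq_nonneg (V (col a)))
    linarith
  have hm0 : 0 ≤ ∑ a ∈ 𝒜, (V (col a)) ^ 2 *
      (((univ : Finset κ).filter (fun k => ∀ i, col a i ≠ some k)).card : ℝ) :=
    sum_nonneg fun a _ => mul_nonneg (sq_nonneg _) (Nat.cast_nonneg _)
  refine ⟨?_, by linarith, by linarith⟩
  obtain ⟨f, hf1, -, hf3⟩ := hVL
  exact ⟨f, hf1, hf3⟩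

end Pool.Agent.Y835.SH
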