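import Pool.Agent.Y835.SB.Rec

/-!
The fibre inequality with the points where the weight vanishes left out of the error term.
-/

set_option autoImplicit false

namespace Pool.Agent.Y835.SF

open Finset Pool.Agent.Y835.SB

open Classical in
/-- the inequality on one fibre -/
theorem fib {K p : ℕ} (hp : 2 ≤ p) (g : ℕ → ℝ) (Z : Finset ℕ) (hZ : Z ⊆ range K)
    (hc : Z.card * p = K) (hK : 0 < K) {τ : ℝ} (hτ : 0 < τ) :
    (1 - 1 / (p : ℝ)) * ((1 - τ / p) * ∑ t ∈ range K, g t ^ 2 -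
      (1 + 4 / τ) * ∑ t ∈ Z, (if g t ≠ 0 then (g t - (∑ t ∈ range K, g t) / K) ^ 2 else 0)) ≤
      ∑ t ∈ range K \ Z, g t ^ 2 := by
  set c : ℝ := (∑ t ∈ range K, g t) / K with hcdef
  have hK0 : (0 : ℝ) < K := by exact_mod_cast hK
  have hp2 : (2 : ℝ) ≤ p := by exact_mod_cast hp
  have hp0 : (0 : ℝ) < p := by linarith
  have hcard : (Z.card : ℝ) * p = K := by exact_mod_cast hc
  set m : ℝ := (Z.card : ℝ) with hm
  have hm0 : 0 < m := by
    by_contra h
    have : m * p ≤ 0 := mul_nonpos_of_nonpos_of_nonneg (not_lt.1 h) hp0.le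
    linarith
  obtain ⟨Y, hY⟩ : ∃ Y : Finset ℕ, Y = Z.filter (fun t => g t ≠ 0) := ⟨_, rfl⟩
  have hYZ : Y ⊆ Z := by rw [hY]; exact filter_subset _ _
  have eB : ∑ t ∈ Z, (if g t ≠ 0 then (g t - c) ^ 2 else 0) = ∑ t ∈ Y, (g t - c) ^ 2 := by
    rw [hY, sum_filter]
  rw [eB]
  set m' : ℝ := (Y.card : ℝ) with hm'
  have hmm : m' ≤ m := by rw [hm, hm']; exact_mod_cast card_le_card hYZ
  have hm'0 : 0 ≤ m' := Nat.cast_nonneg _
  set A : ℝ := ∑ t ∈ Y, (g t - c) with hA
  set B : ℝ := ∑ t ∈ Y, (g t - c) ^ 2 with hB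
  set G : ℝ := ∑ t ∈ range K, (g t - c) ^ 2 with hG
  have hGB : B ≤ G := sum_le_sum_of_subset_of_nonneg (hYZ.trans hZ) fun _ _ _ => sq_nonneg _
  have hB0 : 0 ≤ B := sum_nonneg fun _ _ => sq_nonneg _
  have hs : ∑ t ∈ range K, g t = c * K := by rw [hcdef]; field_simp
  have hs0 : ∑ t ∈ range K, (g t - c) = 0 := by
    rw [sum_sub_distrib, sum_const, card_range, nsmul_eq_mul, hs]; ring
  have hsq : ∑ t ∈ range K, g t ^ 2 = c ^ 2 * K + G := by
    have : ∑ t ∈ range K, g t ^ 2 = G + 2 * c * ∑ t ∈ range K, (g t - c) + K * c ^ 2 := by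
      have e : (K : ℝ) * c ^ 2 = ∑ _t ∈ range K, c ^ 2 := by
        rw [sum_const, card_range, nsmul_eq_mul]
      rw [e, mul_sum, hG, ← sum_add_distrib, ← sum_add_distrib]
      exact sum_congr rfl fun t _ => by ring
    rw [this, hs0]; ring
  have hZsq : ∑ t ∈ Z, g t ^ 2 = B + 2 * c * A + m' * c ^ 2 := by
    have e0 : ∑ t ∈ Z, g t ^ 2 = ∑ t ∈ Y, g t ^ 2 := by
      rw [hY, sum_filter]
      refine sum_congr rfl fun t _ => ?_
      split_ifs with h1
      · rfl
      · rw [not_not.1 h1]; norm_num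
    have e : m' * c ^ 2 = ∑ _t ∈ Y, c ^ 2 := by
      rw [sum_const, nsmul_eq_mul]
    rw [e0, e, mul_sum, hB, ← sum_add_distrib, ← sum_add_distrib]
    exact sum_congr rfl fun t _ => by ring
  have hrest : ∑ t ∈ range K \ Z, g t ^ 2 = c ^ 2 * K + G - (B + 2 * c * A + m' * c ^ 2) := by
    have := sum_sdiff hZ (f := fun t => g t ^ 2)
    linarith
  have hcs : A ^ 2 ≤ m * B := by
    have h1 : A ^ 2 ≤ m' * B := sq_sum_le_card_mul_sum_sq
    exact h1.trans (mul_le_mul_of_nonneg_right hmm hB0)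
  have hmc : m' * c ^ 2 ≤ m * c ^ 2 := mul_le_mul_of_nonneg_right hmm (sq_nonneg c)
  rw [hrest, hsq]
  have hKm : (K : ℝ) = m * p := hcard.symm
  rw [hKm]
  -- clear denominators
  have hx : (1 - 1 / (p : ℝ)) * ((1 - τ / p) * (c ^ 2 * (m * p) + G) - (1 + 4 / τ) * B) ≤
      (1 - 1 / (p : ℝ)) * (c ^ 2 * (m * p) + G) - (1 - 1 / (p : ℝ)) * (τ * c ^ 2 * m)
        - (1 - 1 / (p : ℝ)) * ((1 + 4 / τ) * B) := by
    have h1 : 0 ≤ 1 - 1 / (p : ℝ) := by
      rw [sub_nonneg, div_le_one hp0]; linarith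
    have h2 : (1 - τ / p) * (c ^ 2 * (m * p) + G) ≤ (c ^ 2 * (m * p) + G) - τ * c ^ 2 * m := by
      have : (1 - τ / p) * (c ^ 2 * (m * p) + G) =
          (c ^ 2 * (m * p) + G) - τ * c ^ 2 * m - τ / p * G := by
        field_simp
        ring
      rw [this]
      have : 0 ≤ τ / p * G := mul_nonneg (by positivity) (hB0.trans hGB)
      linarith
    have := mul_le_mul_of_nonneg_left h2 h1
    linarith
  refine hx.trans ?_
  have h4 : 2 * c * A ≤ 1 / 2 * (τ * c ^ 2 * m) + 2 / τ * B := by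
    have h5 : 0 ≤ (τ * m * c - 2 * A) ^ 2 := sq_nonneg _
    have h6 : 4 * (τ * m) * (c * A) ≤ (τ * m) ^ 2 * c ^ 2 + 4 * A ^ 2 := by nlinarith
    have h7 : 4 * (τ * m) * (c * A) ≤ (τ * m) ^ 2 * c ^ 2 + 4 * (m * B) := by linarith
    have h8 : (2 * (τ * m)) * (2 * c * A) ≤ (2 * (τ * m)) * (1 / 2 * (τ * c ^ 2 * m) + 2 / τ * B) := by
      have : (2 * (τ * m)) * (1 / 2 * (τ * c ^ 2 * m) + 2 / τ * B) =
          (τ * m) ^ 2 * c ^ 2 + 4 * (m * B) := by
        field_simp
        ring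
      rw [this]
      linarith
    exact le_of_mul_le_mul_left h8 (mul_pos two_pos (mul_pos hτ hm0))
  have h9 : 1 / (p : ℝ) ≤ 1 / 2 := one_div_le_one_div_of_le (by norm_num) hp2
  have h10 : (0 : ℝ) ≤ 1 / p := by positivity
  have h11 : 1 / (p : ℝ) * (c ^ 2 * (m * p)) = c ^ 2 * m := by field_simp
  have h12 : 0 ≤ τ * c ^ 2 * m := mul_nonneg (mul_nonneg hτ.le (sq_nonneg c)) hm0.le
  have h13 : 0 ≤ 2 / τ * B := mul_nonneg (by positivity) hB0
  have h14 : (4 : ℝ) / τ = 2 * (2 / τ) := by ring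
  have h15 : (1 - 1 / (p : ℝ)) * (c ^ 2 * (m * p) + G) =
      c ^ 2 * (m * p) + G - c ^ 2 * m - 1 / (p : ℝ) * G := by
    rw [sub_mul, mul_add (1 / (p : ℝ)), h11]; ring
  rw [h15, h14]
  set u : ℝ := 1 / (p : ℝ) with hu
  set X : ℝ := τ * c ^ 2 * m with hX
  set Y' : ℝ := 2 / τ * B with hY'
  have h16 : (1 + 2 * (2 / τ)) * B = B + 2 * Y' := by rw [hY']; ring
  rw [h16]
  have h17 : u * B ≤ u * G := mul_le_mul_of_nonneg_left hGB h10
  nlinarith [mul_nonneg (sub_nonneg.2 h9) h12, mul_nonneg (sub_nonneg.2 h9) h13]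

open Classical in
/-- one step of the recursion -/
theorem step {N M K p k : ℕ} (hp : p.Prime) (hN : M * K = N) (hK : K = p ^ k) (hk : 1 ≤ k)
    (hM : ¬ p ∣ M) {F U : ℕ → ℝ} (hF : Function.Periodic F N) (hU : Function.Periodic U M)
    (hU0 : ∀ n, 0 ≤ U n) (h : ℕ) {τ : ℝ} (hτ : 0 < τ) :
    (1 - 1 / (p : ℝ)) * ((1 - τ / p) * ∑ n ∈ range N, F n ^ 2 * U n -
      (1 + 4 / τ) * ∑ n ∈ range N,
        (if p ∣ n + h then (if F n ≠ 0 then (F n - Av M K F n) ^ 2 else 0) else 0) * U n) ≤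
      ∑ n ∈ range N, (if p ∣ n + h then 0 else F n ^ 2) * U n := by
  have hK0 : 0 < K := by rw [hK]; exact pow_pos hp.pos k
  have hKr : (0 : ℝ) < K := by exact_mod_cast hK0
  have hpK : p ∣ K := by rw [hK]; exact dvd_pow_self p (by omega)
  have hpN : p ∣ N := by rw [← hN]; exact hpK.mul_left M
  have hUN : Function.Periodic U N := by
    intro n
    rw [← hN, mul_comm]
    have := hU.nat_mul K n
    rwa [Nat.cast_id] at this
  have hdv : ∀ n : ℕ, (p ∣ n + N + h) ↔ (p ∣ n + h) := by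
    intro n
    have e : n + N + h = n + h + N := by ring
    rw [e]
    exact (Nat.dvd_add_iff_left hpN).symm
  have hA : Function.Periodic (Av M K F) M := Av_perM (hN ▸ hF)
  have hAN : Function.Periodic (Av M K F) N := Av_per hF
  have hAt : ∀ n t, Av M K F (n + M * t) = Av M K F n := by
    intro n t
    have := hA.nat_mul t n
    rwa [Nat.cast_id, mul_comm] at this
  have e1 : ∑ n ∈ range N, F n ^ 2 * U n =
      ∑ n ∈ range N, (∑ t ∈ range K, F (n + M * t) ^ 2) / K * U n := by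
    rw [← sum_Av (M := M) hK0 (F := fun n => F n ^ 2 * U n) (fun n => by simp only [hF n, hUN n])]
    refine sum_congr rfl fun n _ => ?_
    rw [Av_mul hU]
    rfl
  have e2 : ∑ n ∈ range N,
      (if p ∣ n + h then (if F n ≠ 0 then (F n - Av M K F n) ^ 2 else 0) else 0) * U n =
      ∑ n ∈ range N, (∑ t ∈ (range K).filter (fun t => p ∣ (n + h) + M * t),
        (if F (n + M * t) ≠ 0 then
          (F (n + M * t) - (∑ t ∈ range K, F (n + M * t)) / K) ^ 2 else 0)) / K * U n := by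
    rw [← sum_Av (M := M) hK0
      (F := fun n => (if p ∣ n + h then (if F n ≠ 0 then (F n - Av M K F n) ^ 2 else 0) else 0) *
        U n)
      (fun n => by simp only [hF n, hUN n, hAN n, hdv n])]
    refine sum_congr rfl fun n _ => ?_
    rw [Av_mul hU]
    congr 1
    unfold Av
    congr 1
    rw [sum_filter]
    refine sum_congr rfl fun t _ => ?_
    have h1 := hAt n t
    unfold Av at h1
    beta_reduce
    rw [h1]
    refine if_congr ?_ rfl rfl
    rw [show n + M * t + h = n + h + M * t by ring]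
  have e3 : ∑ n ∈ range N, (if p ∣ n + h then 0 else F n ^ 2) * U n =
      ∑ n ∈ range N, (∑ t ∈ range K \ (range K).filter (fun t => p ∣ (n + h) + M * t),
        F (n + M * t) ^ 2) / K * U n := by
    rw [← sum_Av (M := M) hK0
      (F := fun n => (if p ∣ n + h then 0 else F n ^ 2) * U n)
      (fun n => by simp only [hF n, hUN n, hdv n])]
    refine sum_congr rfl fun n _ => ?_
    rw [Av_mul hU]
    congr 1
    unfold Av
    congr 1
    rw [← filter_not, sum_filter]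
    refine sum_congr rfl fun t _ => ?_
    beta_reduce
    rw [show n + M * t + h = n + h + M * t by ring]
    split_ifs with h1
    · rfl
    · rfl
  rw [e1, e2, e3, mul_sum, mul_sum, ← sum_sub_distrib, mul_sum]
  refine sum_le_sum fun n _ => ?_
  have h1 := fib hp.two_le (fun t => F (n + M * t)) _ (filter_subset _ _)
    (fib_card hp hK hk hM (n + h)) hK0 hτ
  have h2 := mul_le_mul_of_nonneg_right h1 (div_nonneg (hU0 n) hKr.le)
  calc _ = _ := ?_
    _ ≤ _ := h2
    _ = _ := ?_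
  · ring
  · ring

open Classical in
/-- the mass of the component of `F` at the prime `p` on the points of the support of `F` that `p` hits
at the site `h` -/
noncomputable def yy (N : ℕ) (M K : ℕ → ℕ) (F s : ℕ → ℝ) (h p : ℕ) : ℝ :=
  ∑ n ∈ range N, (if p ∣ n + h then (if F n ≠ 0 then (F n - Av (M p) (K p) F n) ^ 2 else 0) else 0) *
    s n

theorem yy_nonneg (N : ℕ) (M K : ℕ → ℕ) (F : ℕ → ℝ) {s : ℕ → ℝ} (hs : ∀ n, 0 ≤ s n) (h p : ℕ) :
    0 ≤ yy N M K F s h p :=
  sum_nonneg fun n _ => mul_nonneg (by split_ifs <;> positivity) (hs n)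

open Classical in
theorem XX_step {N : ℕ} {M K : ℕ → ℕ} {F s : ℕ → ℝ} (hF : Function.Periodic F N)
    (hs0 : ∀ n, 0 ≤ s n) (h : ℕ) {p : ℕ} {Q : Finset ℕ} (hp : p ∉ Q)
    (hD : Dat N M K (insert p Q)) (hs : Function.Periodic s (M p)) {τ : ℝ} (hτ : 0 < τ) :
    (1 - 1 / (p : ℝ)) * ((1 - τ / p) * XX N F s h Q - (1 + 4 / τ) * yy N M K F s h p) ≤
      XX N F s h (insert p Q) := by
  have hpQ := mem_insert_self p Q
  obtain ⟨k, hk, hK⟩ := hD.pow p hpQ
  have hpp := hD.pr p hpQ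
  have hU : Function.Periodic (fun n => s n * if ∀ q ∈ Q, ¬ q ∣ n + h then (1 : ℝ) else 0) (M p) := by
    intro n
    have h1 : (∀ q ∈ Q, ¬ q ∣ n + M p + h) ↔ (∀ q ∈ Q, ¬ q ∣ n + h) := by
      refine forall₂_congr fun q hq => not_congr ?_
      have h2 : q ∣ M p := hD.dvd p hpQ q (mem_insert_of_mem hq) (fun h3 => hp (h3 ▸ hq))
      have e : n + M p + h = n + h + M p := by ring
      rw [e]
      exact (Nat.dvd_add_iff_left h2).symm
    beta_reduce
    rw [hs n]
    congr 1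
    exact if_congr h1 rfl rfl
  have hU0 : ∀ n, 0 ≤ s n * if ∀ q ∈ Q, ¬ q ∣ n + h then (1 : ℝ) else 0 :=
    fun n => mul_nonneg (hs0 n) (by split_ifs <;> norm_num)
  have h1 := step hpp (hD.mul p hpQ) hK hk (hD.ndvd p hpQ) hF hU hU0 h hτ
  rw [XX_insert]
  refine le_trans ?_ h1
  have hp1 : 0 ≤ 1 - 1 / (p : ℝ) := by
    have : (1 : ℝ) ≤ p := by exact_mod_cast hpp.one_lt.le
    rw [sub_nonneg, div_le_one (by linarith)]
    exact this
  refine mul_le_mul_of_nonneg_left ?_ hp1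
  have h2 : ∑ n ∈ range N,
      (if p ∣ n + h then (if F n ≠ 0 then (F n - Av (M p) (K p) F n) ^ 2 else 0) else 0) *
      (s n * if ∀ q ∈ Q, ¬ q ∣ n + h then (1 : ℝ) else 0) ≤ yy N M K F s h p := by
    unfold yy
    refine sum_le_sum fun n _ => ?_
    have h3 : 0 ≤ if p ∣ n + h then (if F n ≠ 0 then (F n - Av (M p) (K p) F n) ^ 2 else 0)
        else 0 := by
      split_ifs <;> positivity
    have h4 : s n * (if ∀ q ∈ Q, ¬ q ∣ n + h then (1 : ℝ) else 0) ≤ s n := by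
      split_ifs
      · rw [mul_one]
      · rw [mul_zero]; exact hs0 n
    exact mul_le_mul_of_nonneg_left h4 h3
  have h5 : 0 ≤ 1 + 4 / τ := by positivity
  have h6 := mul_le_mul_of_nonneg_left h2 h5
  unfold XX
  linarith

open Classical in
/-- the recursion, with a parameter for every prime -/
theorem site {N : ℕ} {M K : ℕ → ℕ} {F s : ℕ → ℝ} (hF : Function.Periodic F N)
    (hs0 : ∀ n, 0 ≤ s n) (hs1 : ∀ n, s n ≤ 1) (h : ℕ) {τ : ℕ → ℝ} (hτ : ∀ p, 0 < τ p)
    (hτ1 : ∀ p, τ p ≤ 1)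
    (L : ℕ → ℝ) (hL : ∀ p, 0 ≤ L p) (R : ℝ) (Q : Finset ℕ) : Dat N M K Q →
    (∀ p ∈ Q, Function.Periodic s (M p)) →
    (∀ p ∈ Q, 1 ≤ (∏ q ∈ Q.filter (fun q => q < p), (1 - 1 / (q : ℝ))) * L p) →
    (∀ p ∈ Q, R < (p : ℝ) → Function.Periodic F (M p)) →
    (∏ p ∈ Q, (1 - 1 / (p : ℝ))) *
      ((1 - ∑ p ∈ Q.filter (fun p : ℕ => (p : ℝ) ≤ R), τ p / p) * XX N F s h ∅ -
      ∑ p ∈ Q.filter (fun p : ℕ => (p : ℝ) ≤ R), (1 + 4 / τ p) * (L p * yy N M K F s h p)) ≤
      XX N F s h Q := by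
  induction Q using Finset.induction_on_max with
  | empty =>
    intro _ _ _ _
    simp
  | insert p Q hmax ih =>
    intro hD hs hLp hRp
    have hpQ : p ∉ Q := fun h1 => lt_irrefl _ (hmax p h1)
    have hsub : Q ⊆ insert p Q := subset_insert p Q
    have hfil : ∀ q ∈ Q, (insert p Q).filter (fun r => r < q) = Q.filter (fun r => r < q) := by
      intro q hq
      rw [filter_insert, if_neg (by have := hmax q hq; omega)]
    have hfilp : (insert p Q).filter (fun r => r < p) = Q := by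
      rw [filter_insert, if_neg (lt_irrefl _), filter_true_of_mem hmax]
    have ih1 := ih (hD.sub hsub) (fun q hq => hs q (hsub hq)) (fun q hq => by
      have := hLp q (hsub hq)
      rwa [hfil q hq] at this) (fun q hq => hRp q (hsub hq))
    have hLpp := hLp p (mem_insert_self p Q)
    rw [hfilp] at hLpp
    have hpp := hD.pr p (mem_insert_self p Q)
    have hp2 : (2 : ℝ) ≤ p := by exact_mod_cast hpp.two_le
    have hp0 : (0 : ℝ) < p := by linarith
    have hd1 : 0 ≤ 1 - 1 / (p : ℝ) := by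
      rw [sub_nonneg, div_le_one hp0]; linarith
    set δ : ℝ := ∏ q ∈ Q, (1 - 1 / (q : ℝ)) with hδ
    have hδ0 : 0 ≤ δ := by
      refine prod_nonneg fun q hq => ?_
      have : (2 : ℝ) ≤ q := by exact_mod_cast (hD.pr q (hsub hq)).two_le
      rw [sub_nonneg, div_le_one (by linarith)]; linarith
    set A : ℝ := ∑ q ∈ Q.filter (fun q : ℕ => (q : ℝ) ≤ R), τ q / q with hA
    set E : ℝ := ∑ q ∈ Q.filter (fun q : ℕ => (q : ℝ) ≤ R),
      (1 + 4 / τ q) * (L q * yy N M K F s h q) with hE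
    have hc : ∀ q, 0 < 1 + 4 / τ q := fun q => by have := hτ q; positivity
    have hA0 : 0 ≤ A := sum_nonneg fun q _ => by have := hτ q; positivity
    have hE0 : 0 ≤ E := sum_nonneg fun q _ =>
      mul_nonneg (hc q).le (mul_nonneg (hL q) (yy_nonneg _ _ _ _ hs0 _ _))
    have hX0 : 0 ≤ XX N F s h ∅ := XX_nonneg N hs0 h ∅
    rw [prod_insert hpQ, ← hδ]
    by_cases hR : (p : ℝ) ≤ R
    · rw [filter_insert, if_pos hR, sum_insert (fun h1 => hpQ (mem_filter.1 h1).1),
        sum_insert (fun h1 => hpQ (mem_filter.1 h1).1), ← hA, ← hE]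
      have h1 := XX_step hF hs0 h hpQ hD (hs p (mem_insert_self p Q)) (hτ p)
      refine le_trans ?_ h1
      rw [mul_assoc]
      refine mul_le_mul_of_nonneg_left ?_ hd1
      have hy := yy_nonneg N M K F hs0 h p
      have h2 : yy N M K F s h p ≤ δ * (L p * yy N M K F s h p) := by
        rw [← mul_assoc]
        exact le_mul_of_one_le_left hy hLpp
      have hτp : 0 ≤ 1 - τ p / p := by
        have := hτ1 p
        rw [sub_nonneg, div_le_one hp0]; linarith
      have hτp' : 0 ≤ τ p / p := by have := hτ p; positivity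
      have h3 := mul_le_mul_of_nonneg_left ih1 hτp
      have h4 : (1 - A) * XX N F s h ∅ - E ≤ XX N F s h ∅ := by
        nlinarith [mul_nonneg hA0 hX0]
      have h5 : δ * ((1 - (τ p / p + A)) * XX N F s h ∅ - E) ≤
          (1 - τ p / p) * (δ * ((1 - A) * XX N F s h ∅ - E)) := by
        have h6 : τ p / p * ((1 - A) * XX N F s h ∅ - E) ≤ τ p / p * XX N F s h ∅ :=
          mul_le_mul_of_nonneg_left h4 hτp'
        have h7 := mul_le_mul_of_nonneg_left h6 hδ0
        linarith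
      have h8 := mul_le_mul_of_nonneg_left h2 (hc p).le
      calc δ * ((1 - (τ p / p + A)) * XX N F s h ∅ - ((1 + 4 / τ p) * (L p * yy N M K F s h p) + E))
          = δ * ((1 - (τ p / p + A)) * XX N F s h ∅ - E) -
            (1 + 4 / τ p) * (δ * (L p * yy N M K F s h p)) := by ring
        _ ≤ (1 - τ p / p) * XX N F s h Q - (1 + 4 / τ p) * yy N M K F s h p := by linarith
    · rw [filter_insert, if_neg hR, ← hA, ← hE]
      have h1 := XX_step0 hF hs0 hs1 h hpQ hD (hs p (mem_insert_self p Q))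
        (hRp p (mem_insert_self p Q) (not_le.1 hR))
      refine le_trans ?_ h1
      rw [mul_assoc]
      exact mul_le_mul_of_nonneg_left ih1 hd1

end Pool.Agent.Y835.SF
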