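import Pool.Agent.Y835.SF.Prim3

/-!
The limit of the record method: the two cases together.
-/

set_option autoImplicit false

namespace Pool.Agent.Y835.SG

open Finset Pool.Agent.Y829 Pool.Agent.Y829.RP Pool.Agent.Y829.RW Filter
open Pool.Agent.H378R2 (WW GoodP GoodS PW yy)

open Classical in
theorem fin : ∃ c₀ C : ℝ, 0 < c₀ ∧ 0 < C ∧ ∀ K Z : ℕ, ∃ X0 : ℕ, ∀ X : ℕ, X0 ≤ X →
    ∃ (ps : ℕ) (S : Finset ℕ), GoodP Z ps ∧ GoodS X S ∧ ∀ (U z : ℕ),
    Real.log (Real.log X) ^ 2 ≤ z → (z : ℝ) ≤ Real.log X ^ c₀ →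
    (U : ℝ) ≤ (X : ℝ) ^ (9 / 10 : ℝ) → ∀ m : ℝ,
    m = min 1 (Real.log (U / Real.log X) / Real.log z) →
    ∀ (c : ℕ → ℕ → ℝ) (M : ℝ) (J : Finset ℕ) (I : ℕ → Finset ℕ) (d : ℕ → ℕ → ℕ)
      (f : ℕ → ℕ → ℕ → ℝ), 0 < M →
    (∀ q ∈ QS X S ps, ∑ a ∈ range (WW X S ps * q), |c q a| ≤
      M * (q.divisors.card : ℝ) ^ K * Real.log X ^ K) →
    M * X / (WW X S ps * Real.log X ^ K) ≤
      ∑ n ∈ Ioc X (3 * X), ∑ q ∈ QS X S ps, c q (n % (WW X S ps * q)) →
    (∀ j ∈ J, ∀ i ∈ I j, 0 < d j i ∧ d j i ≤ X ∧ Function.Periodic (f j i) (d j i)) →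
    (∀ n : ℕ, ∑ q ∈ QS X S ps, c q (n % (WW X S ps * q)) = ∑ j ∈ J, (∑ i ∈ I j, f j i n) ^ 2) →
    (∀ j ∈ J, ∀ n : ℕ, (∑ i ∈ I j, f j i n) ≠ 0 → ∀ p ∈ PW X S ps, z < p → p ∣ n) →
    ((∃ r : ℝ, Real.log (Real.log X) ≤ r ∧ C * (r * Real.log X) ≤ U * m ∧
      (∀ j ∈ J, ∀ n : ℕ, (∑ i ∈ I j, f j i n) ≠ 0 → ∀ p : ℕ, p.Prime → yy X < p → p ≤ U →
      (∃ i ∈ I j, p ∣ d j i) →
      (((Icc 1 U).filter (fun h => p ∣ n + h ∧
        ∀ q : ℕ, q.Prime → q ≤ yy X → ¬ q ∣ n + h)).card : ℝ) ≤ r)) ∨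
      C * (Real.log X * Real.log (Real.log X)) * Real.exp (C * √(Real.log z)) ≤ U) →
      c₀ * (U * m / Real.log X * ∑ n ∈ Ioc X (3 * X), ∑ q ∈ QS X S ps, c q (n % (WW X S ps * q))) ≤
        ∑ n ∈ Ioc X (3 * X), (∑ q ∈ QS X S ps, c q (n % (WW X S ps * q))) * pw U n := by
  obtain ⟨c₀, C1, hc₀, hc₀1, hC1, H⟩ := lowerP
  obtain ⟨C2, hC2, HR⟩ := rbound
  obtain ⟨Cp, hCp⟩ : ∃ Cp : ℝ, Cp = Real.exp (8000 * C1 * C2) + 8000 * C1 * C2 + 1 := ⟨_, rfl⟩
  have hCp0 : 0 < Cp := by rw [hCp]; positivity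
  have hCp2 : 2 ≤ Cp := by
    have h1 : 0 < 8000 * C1 * C2 := by positivity
    have := Real.one_le_exp h1.le
    rw [hCp]
    linarith
  refine ⟨c₀, max C1 Cp, hc₀, lt_max_of_lt_left hC1, ?_⟩
  intro K Z
  obtain ⟨X1, hX1⟩ := H K Z
  obtain ⟨X2, hX2⟩ := (evX 1 (max 4 (16000 * C1 * C2 + 16)) one_pos 3).exists_forall_of_atTop
  refine ⟨max X1 X2, fun X hX => ?_⟩
  obtain ⟨ps, S, hps, hS, HX⟩ := hX1 X ((le_max_left _ _).trans hX)
  obtain ⟨k0, k1, k2, k3, k4, k5, k6⟩ := hX2 X ((le_max_right _ _).trans hX)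
  refine ⟨ps, S, hps, hS, ?_⟩
  intro U z hz hzL hUX m hm c M J I d f hM hs hmass hf hsq hsupp hcase
  have k2a : 4 ≤ Real.log (Real.log X) := (le_max_left _ _).trans k2
  have k2b : 16000 * C1 * C2 + 16 ≤ Real.log (Real.log X) := (le_max_right _ _).trans k2
  obtain ⟨L, hL⟩ : ∃ L : ℝ, L = Real.log (X : ℝ) := ⟨_, rfl⟩
  have hL0 : 0 < L := by rw [hL]; linarith
  rcases hcase with ⟨r, hr1, hr2, hr3⟩ | hU
  · refine HX U z r hz hzL hUX hr1 m hm ?_ c M J I d f hM hs hmass hf hsq hsupp hr3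
    refine le_trans ?_ hr2
    exact mul_le_mul_of_nonneg_right (le_max_left _ _)
      (mul_nonneg (by linarith) (by linarith))
  · obtain ⟨Y, hY⟩ : ∃ Y : ℕ, Y = yy X := ⟨_, rfl⟩
    rw [← hL] at k1 k2 k2a k2b k4 k6 hz hzL hm hU
    rw [← hY] at k3 k4
    have hYr : (3 : ℝ) ≤ Y := by exact_mod_cast k3
    have hY0 : (0 : ℝ) < Y := by linarith
    have hYL : (Y : ℝ) ≤ L / 1000 := by
      rw [hY, hL]
      exact Nat.floor_le (by rw [← hL]; positivity)
    have hlY0 : 0 < Real.log Y := Real.log_pos (by linarith)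
    have hlYL : Real.log L ≤ 2 * Real.log Y := by
      have h1 : Real.log L ≤ Real.log (2000 * Y) := Real.log_le_log hL0 k4
      rw [Real.log_mul (by norm_num) hY0.ne'] at h1
      have h2 : Real.log 2000 ≤ 8 := by
        rw [Real.log_le_iff_le_exp (by norm_num)]
        have h3 := Real.exp_one_gt_d9
        have h4 : Real.exp 8 = Real.exp 1 ^ 8 := by
          rw [← Real.exp_nat_mul]; norm_num
        rw [h4]
        have h5 : (2.7 : ℝ) ^ 8 ≤ Real.exp 1 ^ 8 := pow_le_pow_left₀ (by norm_num) (by linarith) 8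
        refine le_trans ?_ h5
        norm_num
      have h6 : 16 ≤ Real.log L := by
        have : 0 < 16000 * C1 * C2 := by positivity
        linarith
      linarith
    have hz16 : (16 : ℝ) ≤ z := by
      calc (16 : ℝ) = 4 ^ 2 := by norm_num
        _ ≤ Real.log L ^ 2 := pow_le_pow_left₀ (by norm_num) k2a 2
        _ ≤ z := hz
    have hlz : 0 < Real.log z := Real.log_pos (by linarith)
    have hzl : Real.log z ≤ c₀ * Real.log L := by
      rw [← Real.log_rpow hL0]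
      exact Real.log_le_log (by linarith) hzL
    have hCpm : Cp ≤ max C1 Cp := le_max_right _ _
    obtain ⟨x, hx⟩ : ∃ x : ℝ, x = U / L := ⟨_, rfl⟩
    have hxl : Cp * Real.log L * Real.exp (Cp * √(Real.log z)) ≤ x := by
      rw [hx, le_div_iff₀ hL0]
      refine le_trans ?_ hU
      calc Cp * Real.log L * Real.exp (Cp * √(Real.log z)) * L =
            Cp * (L * Real.log L) * Real.exp (Cp * √(Real.log z)) := by ring
        _ ≤ max C1 Cp * (L * Real.log L) * Real.exp (max C1 Cp * √(Real.log z)) := by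
          refine mul_le_mul ?_ ?_ (Real.exp_pos _).le (by positivity)
          · exact mul_le_mul_of_nonneg_right hCpm (by positivity)
          · exact Real.exp_le_exp.2 (mul_le_mul_of_nonneg_right hCpm (Real.sqrt_nonneg _))
    have hp := param hC1 hC2 hc₀ hc₀1 hCp (l := Real.log L) (lY := Real.log Y) (x := x)
      (lz := Real.log z) (m := m) (by linarith) (by linarith) hxl hlz hzl hlYL
      (by rw [hm, hx])
    have hx8 : 8 ≤ x := by
      refine le_trans ?_ hxl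
      have h1 : 1 ≤ Real.exp (Cp * √(Real.log z)) := Real.one_le_exp (by positivity)
      calc (8 : ℝ) ≤ 2 * 4 * 1 := by norm_num
        _ ≤ Cp * Real.log L * Real.exp (Cp * √(Real.log z)) :=
          mul_le_mul (mul_le_mul hCp2 k2a (by norm_num) hCp0.le) h1 zero_le_one (by positivity)
    have hlx0 : 0 < Real.log x := Real.log_pos (by linarith)
    have hxY : x ≤ (U : ℝ) / Y := by
      rw [hx]
      exact div_le_div_of_nonneg_left (Nat.cast_nonneg U) hY0 (by linarith)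
    have hYx : (U : ℝ) / Y ≤ 2000 * x := by
      rw [hx, div_le_iff₀ hY0]
      calc (U : ℝ) = U / L * L := by field_simp
        _ ≤ U / L * (2000 * Y) := mul_le_mul_of_nonneg_left k4 (by positivity)
        _ = _ := by ring
    have he : Real.exp 1 ≤ (U : ℝ) / Y := by
      have := Real.exp_one_lt_d9
      linarith
    have hmin : 0 < min (Real.log x) (Real.log Y) := lt_min hlx0 hlY0
    refine HX U z (2000 * C2 * x / min (Real.log x) (Real.log Y) + Real.log L) (by rw [← hL]; exact hz)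
      (by rw [← hL]; exact hzL) hUX (by
        rw [← hL]
        have : 0 ≤ 2000 * C2 * x / min (Real.log x) (Real.log Y) := by positivity
        linarith) m (by rw [← hL]; exact hm) ?_ c M J I d f hM hs hmass hf hsq hsupp ?_
    · rw [← hL]
      have h1 := mul_le_mul_of_nonneg_right hp hL0.le
      calc C1 * ((2000 * C2 * x / min (Real.log x) (Real.log Y) + Real.log L) * L) =
            C1 * (2000 * C2 * x / min (Real.log x) (Real.log Y) + Real.log L) * L := by ring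
        _ ≤ x * m * L := h1
        _ = U * m := by rw [hx]; field_simp
    · intro j _ n _ p hpp hYp hpU _
      rw [← hY] at hYp ⊢
      refine (HR Y U p n k3 he hpp hYp).trans ?_
      have h1 : C2 * ((U : ℝ) / Y) / min (Real.log ((U : ℝ) / Y)) (Real.log Y) ≤
          C2 * (2000 * x) / min (Real.log x) (Real.log Y) := by
        refine div_le_div₀ (by positivity) ?_ hmin ?_
        · exact mul_le_mul_of_nonneg_left hYx (by linarith)
        · exact min_le_min (Real.log_le_log (by linarith) hxY) le_rfl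
      have h2 : C2 * (2000 * x) / min (Real.log x) (Real.log Y) =
          2000 * C2 * x / min (Real.log x) (Real.log Y) := by ring
      rw [h2] at h1
      linarith

end Pool.Agent.Y835.SG
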