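import Pool.Agent.Y835.SF.Cap
import Pool.Agent.Y829.RW3

/-!
From integers free of small primes to the mean of the singular series.
-/

set_option autoImplicit false

namespace Pool.Agent.Y835.SF

open Finset Pool.Agent.Y829 Pool.Agent.Y829.RP Filter

/-- the upper bound of Mertens -/
theorem V_upper : ∃ C : ℝ, 0 < C ∧ ∀ y : ℕ, 2 ≤ y →
    ∏ p ∈ (Icc 1 y).filter Nat.Prime, (1 - 1 / (p : ℝ)) ≤ C / Real.log y := by
  obtain ⟨C, hC0, hC⟩ := Pool.Agent.Helper923.HMertens.mertens_ratio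
  have hl2 : 0 < Real.log 2 := Real.log_pos (by norm_num)
  refine ⟨Real.exp (C / Real.log 2) * Real.log 2, by positivity, fun y hy => ?_⟩
  have hly : 0 < Real.log y := Real.log_pos (by exact_mod_cast (by omega : 1 < y))
  have h1 := (abs_le.1 (hC 2 y le_rfl hy)).1
  have h2 : ∑ p ∈ (Ioc 2 y).filter Nat.Prime, (1 : ℝ) / p ≤
      ∑ p ∈ (Icc 1 y).filter Nat.Prime, (1 : ℝ) / p :=
    sum_le_sum_of_subset_of_nonneg (fun p hp => by
      rw [mem_filter, mem_Ioc] at hp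
      rw [mem_filter, mem_Icc]
      exact ⟨⟨by omega, hp.1.2⟩, hp.2⟩) fun p _ _ => by positivity
  have h3 : ∏ p ∈ (Icc 1 y).filter Nat.Prime, (1 - 1 / (p : ℝ)) ≤
      ∏ p ∈ (Icc 1 y).filter Nat.Prime, Real.exp (-(1 / (p : ℝ))) := by
    refine prod_le_prod (fun p hp => ?_) fun p _ => ?_
    · have h4 : (2 : ℝ) ≤ p := by exact_mod_cast (mem_filter.1 hp).2.two_le
      rw [sub_nonneg, div_le_one (by linarith)]
      linarith
    · have := Real.add_one_le_exp (-(1 / (p : ℝ)))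
      linarith
  refine h3.trans ?_
  rw [← Real.exp_sum, sum_neg_distrib]
  have h5 : (((2 : ℕ) : ℝ)) = 2 := by norm_num
  rw [h5] at h1
  have h6 : -∑ p ∈ (Icc 1 y).filter Nat.Prime, (1 : ℝ) / p ≤
      C / Real.log 2 - Real.log (Real.log y / Real.log 2) := by linarith
  refine (Real.exp_le_exp.2 h6).trans (le_of_eq ?_)
  rw [Real.exp_sub, Real.exp_log (by positivity)]
  field_simp

open Classical in
theorem GGs (A : ℝ) (hA : 1 ≤ A) : ∃ (c C : ℝ) (Y0 : ℕ), 0 < c ∧ c ≤ 1 ∧ 0 < C ∧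
    ∀ (X Q Y U z : ℕ) (r : ℝ), Y0 ≤ Y → 2 ≤ X → Real.log X ≤ A * Y → Y ≤ Q → 2 ≤ z →
    (z : ℝ) ≤ (Y : ℝ) ^ c → Real.log Y ≤ r → ∀ m : ℝ,
    m = min 1 (Real.log ((U : ℝ) / Y) / Real.log z) → C * (r * Y) ≤ U * m → ∀ θ : ℝ,
    θ = min 1 (Real.log ((U : ℝ) / Y) / Real.log Y) * m →
    ∀ (J : Finset ℕ) (I : ℕ → Finset ℕ) (d : ℕ → ℕ → ℕ) (f : ℕ → ℕ → ℕ → ℝ) (a : ℕ → ℕ → ℝ),
    (∀ j ∈ J, ∀ i ∈ I j, 0 < d j i ∧ d j i ≤ X ∧ Function.Periodic (f j i) (d j i)) →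
    (∀ n : ℕ, wt Q a n = ∑ j ∈ J, (∑ i ∈ I j, f j i n) ^ 2) →
    (∀ j ∈ J, ∀ n : ℕ, (∑ i ∈ I j, f j i n) ≠ 0 →
      ∑ p ∈ (PQ Q).filter (fun p : ℕ => z < p ∧ p ≤ Y ∧ ¬ p ∣ n), 1 / (p : ℝ) ≤ c * θ) →
    (∀ j ∈ J, ∀ n : ℕ, (∑ i ∈ I j, f j i n) ≠ 0 → ∀ p : ℕ, p.Prime → Y < p → p ≤ U →
      (∃ i ∈ I j, p ∣ d j i) →
      (((Icc 1 U).filter (fun h => p ∣ n + h ∧ ∀ q : ℕ, q.Prime → q ≤ Y → ¬ q ∣ n + h)).card : ℝ) ≤
        r) →
    0 ≤ mu Q a ∧ c * (U * m * mu Q a) ≤ ∑ h ∈ Icc 1 U, RP.GG Q a h := by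
  obtain ⟨c1, C1, Y1, hc1, hc11, hC1, H⟩ := cap A hA
  obtain ⟨C5, hC5, HU⟩ := V_upper
  refine ⟨min c1 (c1 / C5), C1, max Y1 2, lt_min hc1 (by positivity), (min_le_left _ _).trans hc11,
    hC1, ?_⟩
  intro X Q Y U z r hY hX hXA hYQ hz hzY hr m hm hCr θ hθ J I d f a hf hsq hsupp hrr
  have hY1 : Y1 ≤ Y := (le_max_left _ _).trans hY
  have hY2 : 2 ≤ Y := (le_max_right _ _).trans hY
  have hYr : (2 : ℝ) ≤ Y := by exact_mod_cast hY2
  have hlY : 0 < Real.log Y := Real.log_pos (by linarith)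
  have hQ2 : 2 ≤ Q := hY2.trans hYQ
  obtain ⟨N, hN⟩ : ∃ N : ℕ, N = (max Q X).factorial := ⟨_, rfl⟩
  have hN0 : 0 < N := by rw [hN]; exact Nat.factorial_pos _
  have hNr : (0 : ℝ) < N := by exact_mod_cast hN0
  have hdN : ∀ d ∈ Icc 1 Q, d ∣ N := by
    intro d hd
    rw [mem_Icc] at hd
    rw [hN]
    exact Nat.dvd_factorial (by omega) (hd.2.trans (le_max_left _ _))
  have hP : ∀ p ∈ PQ Q, p.Prime := fun p hp => (mem_PQ.1 hp).1
  have hw0 : ∀ n, 0 ≤ wt Q a n := fun n => by rw [hsq]; exact sum_nonneg fun j _ => sq_nonneg _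
  have hmu0 : 0 ≤ mu Q a := by
    have h3 := sum_wt Q N a hdN
    have h4 : 0 ≤ (N : ℝ) * mu Q a := by rw [← h3]; exact sum_nonneg fun n _ => hw0 n
    exact nonneg_of_mul_nonneg_right h4 hNr
  refine ⟨hmu0, ?_⟩
  have hlκ : 0 ≤ m ∨ m < 0 := le_or_gt 0 m
  have hc1' : (z : ℝ) ≤ (Y : ℝ) ^ c1 :=
    hzY.trans (Real.rpow_le_rpow_of_exponent_le (by linarith) (min_le_left _ _))
  have hθ0 : 0 ≤ θ ∨ θ < 0 := le_or_gt 0 θ
  have hr0 : 0 < r := lt_of_lt_of_le hlY hr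
  have hUm : 0 < U * m := lt_of_lt_of_le (by positivity) hCr
  have hU0 : (0 : ℝ) ≤ U := Nat.cast_nonneg U
  have hm0 : 0 < m := by
    by_contra h
    have := mul_nonpos_of_nonneg_of_nonpos hU0 (not_lt.1 h)
    linarith
  have hlk : 0 < Real.log ((U : ℝ) / Y) := by
    by_contra h
    have hlz : 0 < Real.log z := Real.log_pos (by exact_mod_cast (by omega : 1 < z))
    have h2 : m ≤ 0 := by
      rw [hm]
      exact (min_le_right _ _).trans (div_nonpos_of_nonpos_of_nonneg (not_lt.1 h) hlz.le)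
    linarith
  have hθ0 : 0 ≤ θ := by
    rw [hθ]
    exact mul_nonneg (le_min zero_le_one (by positivity)) hm0.le
  have h1 := sum_le_sum fun j (hj : j ∈ J) => H (X : ℝ) Y U z r hY1 (by exact_mod_cast hX) hXA hz
    hc1' hr m hm hCr θ hθ (PQ Q) hP
    (I j) (d j) (f j) (fun i hi => ⟨(hf j hj i hi).1, by exact_mod_cast (hf j hj i hi).2.1,
      (hf j hj i hi).2.2⟩) N hN0
    (fun p hp => hdN p (mem_Icc.2 ⟨(hP p hp).one_lt.le, (mem_PQ.1 hp).2⟩))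
    (fun i hi => by
      rw [hN]
      exact Nat.dvd_factorial (hf j hj i hi).1 ((hf j hj i hi).2.1.trans (le_max_right _ _)))
    (fun n hn => (hsupp j hj n hn).trans (mul_le_mul_of_nonneg_right (min_le_left _ _) hθ0))
    (fun n hn p hp hYp hpU hseen => by
      refine le_trans (le_of_eq ?_) (hrr j hj n hn p (hP p hp) hYp hpU hseen)
      congr 2
      refine filter_congr fun h _ => and_congr_right fun _ => ?_
      constructor
      · intro h2 q hq hqY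
        exact h2 q (mem_PQ.2 ⟨hq, hqY.trans hYQ⟩) hqY
      · intro h2 q hq hqY
        exact h2 q (hP q hq) hqY)
  rw [← mul_sum] at h1
  have e1 : ∑ j ∈ J, ∑ n ∈ range N, (∑ i ∈ I j, f j i n) ^ 2 = N * mu Q a := by
    rw [← sum_wt Q N a hdN, sum_comm]
    exact sum_congr rfl fun n _ => (hsq n).symm
  have e2 : ∑ j ∈ J, ∑ n ∈ range N, (∑ i ∈ I j, f j i n) ^ 2 *
        (((Icc 1 U).filter (fun h => ∀ p ∈ PQ Q, ¬ p ∣ n + h)).card : ℝ) =
      N * Pool.Agent.Y829.V (PQ Q) * ∑ h ∈ Icc 1 U, RP.GG Q a h := by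
    rw [← sum_GG Q U N a hN0 hdN, sum_comm]
    refine sum_congr rfl fun n _ => ?_
    rw [← sum_mul, ← hsq]
    congr 1
    unfold SO
    congr 2
    refine filter_congr fun h _ => forall₂_congr fun p _ => ?_
    rw [mem_singleton, Nat.dvd_iff_mod_eq_zero]
  rw [e1, e2] at h1
  -- the product
  obtain ⟨v1, hv1⟩ : ∃ v1 : ℝ, v1 = ∏ p ∈ (PQ Q).filter (fun p : ℕ => ¬ Y < p), (1 - 1 / (p : ℝ)) :=
    ⟨_, rfl⟩
  obtain ⟨v2, hv2⟩ : ∃ v2 : ℝ, v2 = ∏ p ∈ (PQ Q).filter (fun p : ℕ => Y < p), (1 - 1 / (p : ℝ)) :=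
    ⟨_, rfl⟩
  have hVe : Pool.Agent.Y829.V (PQ Q) = v2 * v1 := by
    unfold Pool.Agent.Y829.V
    rw [hv1, hv2]
    exact (prod_filter_mul_prod_filter_not _ _ _).symm
  have hv2pos : 0 < v2 := by
    rw [hv2]
    exact prod_pos fun p hp => Pool.Agent.Y829.fac_pos (hP p (mem_filter.1 hp).1)
  have hv1pos : 0 < v1 := by
    rw [hv1]
    exact prod_pos fun p hp => Pool.Agent.Y829.fac_pos (hP p (mem_filter.1 hp).1)
  have hv1le : v1 ≤ C5 / Real.log Y := by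
    refine le_trans (le_of_eq ?_) (HU Y hY2)
    rw [hv1]
    refine prod_congr ?_ fun _ _ => rfl
    ext p
    rw [mem_filter, mem_PQ, mem_filter, mem_Icc]
    constructor
    · rintro ⟨⟨h2, h3⟩, h4⟩
      exact ⟨⟨h2.one_lt.le, by omega⟩, h2⟩
    · rintro ⟨⟨h2, h3⟩, h4⟩
      exact ⟨⟨h4, h3.trans hYQ⟩, by omega⟩
  rw [hVe, ← hv2] at h1
  set G : ℝ := ∑ h ∈ Icc 1 U, RP.GG Q a h with hG
  have h2 : c1 * (U * m / Real.log Y) * mu Q a ≤ v1 * G := by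
    have h3 : (N * v2) * (c1 * (U * m / Real.log Y) * mu Q a) ≤ (N * v2) * (v1 * G) := by
      calc (N * v2) * (c1 * (U * m / Real.log Y) * mu Q a) =
            c1 * (U * m / Real.log Y) * v2 * (N * mu Q a) := by ring
        _ ≤ _ := h1
        _ = _ := by ring
    exact le_of_mul_le_mul_left h3 (by positivity)
  have hG0 : 0 ≤ G := by
    have h3 : 0 ≤ v1 * G := le_trans (by positivity) h2
    exact nonneg_of_mul_nonneg_right h3 hv1pos
  have h3 : c1 * (U * m / Real.log Y) * mu Q a ≤ C5 / Real.log Y * G :=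
    h2.trans (mul_le_mul_of_nonneg_right hv1le hG0)
  have h4 : c1 * (U * m) * mu Q a ≤ C5 * G := by
    have h5 := mul_le_mul_of_nonneg_right h3 hlY.le
    calc c1 * (U * m) * mu Q a = c1 * (U * m / Real.log Y) * mu Q a * Real.log Y := by
          field_simp
      _ ≤ C5 / Real.log Y * G * Real.log Y := h5
      _ = C5 * G := by field_simp
  calc min c1 (c1 / C5) * (U * m * mu Q a) ≤ c1 / C5 * (U * m * mu Q a) :=
        mul_le_mul_of_nonneg_right (min_le_right _ _) (by positivity)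
    _ = (c1 * (U * m) * mu Q a) / C5 := by ring
    _ ≤ G := by
      rw [div_le_iff₀ hC5, mul_comm G]
      exact h4

end Pool.Agent.Y835.SF
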