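import Pool.Agent.Y835.SF.Fin

/-!
The limit of the record method in a complete period.
-/

set_option autoImplicit false

namespace Pool.Agent.Y835.SG

open Finset Filter
open Pool.Agent.H378R2 (yy)

open Classical in
/-- the choice of `r` without conditions on the weight -/
theorem choose_r {C1 c₀ : ℝ} (hC1 : 0 < C1) (hc₀ : 0 < c₀) (hc₀1 : c₀ ≤ 1) : ∃ Cp : ℝ, 0 < Cp ∧
    ∃ X0 : ℕ, ∀ X : ℕ, X0 ≤ X → ∀ U z : ℕ, Real.log (Real.log X) ^ 2 ≤ z →
    (z : ℝ) ≤ Real.log X ^ c₀ → ∀ m : ℝ, m = min 1 (Real.log (U / Real.log X) / Real.log z) →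
    Cp * (Real.log X * Real.log (Real.log X)) * Real.exp (Cp * √(Real.log z)) ≤ U →
    ∃ r : ℝ, Real.log (Real.log X) ≤ r ∧ C1 * (r * Real.log X) ≤ U * m ∧
      ∀ n p : ℕ, p.Prime → yy X < p → (((Icc 1 U).filter (fun h => p ∣ n + h ∧
        ∀ q : ℕ, q.Prime → q ≤ yy X → ¬ q ∣ n + h)).card : ℝ) ≤ r := by
  obtain ⟨C2, hC2, HR⟩ := rbound
  obtain ⟨Cp, hCp⟩ : ∃ Cp : ℝ, Cp = Real.exp (8000 * C1 * C2) + 8000 * C1 * C2 + 1 := ⟨_, rfl⟩
  have hCp0 : 0 < Cp := by rw [hCp]; positivity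
  have hCp2 : 2 ≤ Cp := by
    have h1 : 0 < 8000 * C1 * C2 := by positivity
    have := Real.one_le_exp h1.le
    rw [hCp]
    linarith
  obtain ⟨X2, hX2⟩ := (evX 1 (max 4 (16000 * C1 * C2 + 16)) one_pos 3).exists_forall_of_atTop
  refine ⟨Cp, hCp0, X2, fun X hX U z hz hzL m hm hU => ?_⟩
  obtain ⟨k0, k1, k2, k3, k4, k5, k6⟩ := hX2 X hX
  have k2a : 4 ≤ Real.log (Real.log X) := (le_max_left _ _).trans k2
  have k2b : 16000 * C1 * C2 + 16 ≤ Real.log (Real.log X) := (le_max_right _ _).trans k2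
  obtain ⟨L, hL⟩ : ∃ L : ℝ, L = Real.log (X : ℝ) := ⟨_, rfl⟩
  have hL0 : 0 < L := by rw [hL]; linarith
  obtain ⟨Y, hY⟩ : ∃ Y : ℕ, Y = yy X := ⟨_, rfl⟩
  rw [← hL] at k1 k2 k2a k2b k4 k6 hz hzL hm hU ⊢
  rw [← hY] at k3 k4 ⊢
  have hYr : (3 : ℝ) ≤ Y := by exact_mod_cast k3
  have hY0 : (0 : ℝ) < Y := by linarith
  have hYL : (Y : ℝ) ≤ L / 1000 := by
    rw [hY, hL]
    exact Nat.floor_le (by rw [← hL]; positivity)
  have hlY0 : 0 < Real.log Y := Real.log_pos (by linarith)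
  have hlYL : Real.log L ≤ 2 * Real.log Y := by
    have h1 : Real.log L ≤ Real.log (2000 * Y) := Real.log_le_log hL0 k4
    rw [Real.log_mul (by norm_num) hY0.ne'] at h1
    have h2 : Real.log 2000 ≤ 8 := by
      rw [Real.log_le_iff_le_exp (by norm_num)]
      have h3 := Real.exp_one_gt_d9
      have h4 : Real.exp 8 = Real.exp 1 ^ 8 := by
        rw [← Real.exp_nat_mul]; norm_num
      rw [h4]
      have h5 : (2.7 : ℝ) ^ 8 ≤ Real.exp 1 ^ 8 := pow_le_pow_left₀ (by norm_num) (by linarith) 8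
      refine le_trans ?_ h5
      norm_num
    have h6 : 16 ≤ Real.log L := by
      have : 0 < 16000 * C1 * C2 := by positivity
      linarith
    linarith
  have hz16 : (16 : ℝ) ≤ z := by
    calc (16 : ℝ) = 4 ^ 2 := by norm_num
      _ ≤ Real.log L ^ 2 := pow_le_pow_left₀ (by norm_num) k2a 2
      _ ≤ z := hz
  have hlz : 0 < Real.log z := Real.log_pos (by linarith)
  have hzl : Real.log z ≤ c₀ * Real.log L := by
    rw [← Real.log_rpow hL0]
    exact Real.log_le_log (by linarith) hzL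
  obtain ⟨x, hx⟩ : ∃ x : ℝ, x = U / L := ⟨_, rfl⟩
  have hxl : Cp * Real.log L * Real.exp (Cp * √(Real.log z)) ≤ x := by
    rw [hx, le_div_iff₀ hL0]
    refine le_trans (le_of_eq ?_) hU
    ring
  have hp := param hC1 hC2 hc₀ hc₀1 hCp (l := Real.log L) (lY := Real.log Y) (x := x)
    (lz := Real.log z) (m := m) (by linarith) (by linarith) hxl hlz hzl hlYL
    (by rw [hm, hx])
  have hx8 : 8 ≤ x := by
    refine le_trans ?_ hxl
    have h1 : 1 ≤ Real.exp (Cp * √(Real.log z)) := Real.one_le_exp (by positivity)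
    calc (8 : ℝ) ≤ 2 * 4 * 1 := by norm_num
      _ ≤ Cp * Real.log L * Real.exp (Cp * √(Real.log z)) :=
        mul_le_mul (mul_le_mul hCp2 k2a (by norm_num) hCp0.le) h1 zero_le_one (by positivity)
  have hlx0 : 0 < Real.log x := Real.log_pos (by linarith)
  have hxY : x ≤ (U : ℝ) / Y := by
    rw [hx]
    exact div_le_div_of_nonneg_left (Nat.cast_nonneg U) hY0 (by linarith)
  have hYx : (U : ℝ) / Y ≤ 2000 * x := by
    rw [hx, div_le_iff₀ hY0]
    calc (U : ℝ) = U / L * L := by field_simp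
      _ ≤ U / L * (2000 * Y) := mul_le_mul_of_nonneg_left k4 (by positivity)
      _ = _ := by ring
  have he : Real.exp 1 ≤ (U : ℝ) / Y := by
    have := Real.exp_one_lt_d9
    linarith
  have hmin : 0 < min (Real.log x) (Real.log Y) := lt_min hlx0 hlY0
  refine ⟨2000 * C2 * x / min (Real.log x) (Real.log Y) + Real.log L, ?_, ?_, ?_⟩
  · have : 0 ≤ 2000 * C2 * x / min (Real.log x) (Real.log Y) := by positivity
    linarith
  · have h1 := mul_le_mul_of_nonneg_right hp hL0.le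
    calc C1 * ((2000 * C2 * x / min (Real.log x) (Real.log Y) + Real.log L) * L) =
          C1 * (2000 * C2 * x / min (Real.log x) (Real.log Y) + Real.log L) * L := by ring
      _ ≤ x * m * L := h1
      _ = U * m := by rw [hx]; field_simp
  · intro n p hpp hYp
    refine (HR Y U p n k3 he hpp hYp).trans ?_
    have h1 : C2 * ((U : ℝ) / Y) / min (Real.log ((U : ℝ) / Y)) (Real.log Y) ≤
        C2 * (2000 * x) / min (Real.log x) (Real.log Y) := by
      refine div_le_div₀ (by positivity) ?_ hmin ?_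
      · exact mul_le_mul_of_nonneg_left hYx (by linarith)
      · exact min_le_min (Real.log_le_log (by linarith) hxY) le_rfl
    have h2 : C2 * (2000 * x) / min (Real.log x) (Real.log Y) =
        2000 * C2 * x / min (Real.log x) (Real.log Y) := by ring
    rw [h2] at h1
    linarith

open Classical in
/-- one square -/
theorem intS : ∃ c₀ C : ℝ, 0 < c₀ ∧ c₀ ≤ 1 ∧ 0 < C ∧ ∃ X0 : ℕ, ∀ X : ℕ, X0 ≤ X →
    ∀ (U z : ℕ) (r : ℝ),
    Real.log (Real.log X) ^ 2 ≤ z → (z : ℝ) ≤ Real.log X ^ c₀ →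
    Real.log (Real.log X) ≤ r → ∀ m : ℝ,
    m = min 1 (Real.log (U / Real.log X) / Real.log z) → C * (r * Real.log X) ≤ U * m →
    ∀ (I : Finset ℕ) (d : ℕ → ℕ) (f : ℕ → ℕ → ℝ),
    (∀ i ∈ I, 0 < d i ∧ d i ≤ X ∧ Function.Periodic (f i) (d i)) →
    (∀ n : ℕ, (∑ i ∈ I, f i n) ≠ 0 →
      ∑ p ∈ ((Icc 1 X).filter Nat.Prime).filter (fun p : ℕ => z < p ∧ p ≤ yy X ∧ ¬ p ∣ n),
        1 / (p : ℝ) ≤ 7 / Real.log (Real.log X) ^ 2) →
    (∀ n : ℕ, (∑ i ∈ I, f i n) ≠ 0 → ∀ p : ℕ, p.Prime → yy X < p → p ≤ U →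
      (∃ i ∈ I, p ∣ d i) →
      (((Icc 1 U).filter (fun h => p ∣ n + h ∧
        ∀ q : ℕ, q.Prime → q ≤ yy X → ¬ q ∣ n + h)).card : ℝ) ≤ r) →
      c₀ * (U * m / Real.log X) * ∑ n ∈ range X.factorial, (∑ i ∈ I, f i n) ^ 2 ≤
        ∑ n ∈ range X.factorial, (∑ i ∈ I, f i n) ^ 2 *
          (((Icc 1 U).filter (fun h => ∀ p ∈ (Icc 1 X).filter Nat.Prime, ¬ p ∣ n + h)).card :
            ℝ) := by
  obtain ⟨c1, C1, Y1, hc1, hc11, hC1, HG⟩ := Pool.Agent.Y835.SF.cap 2000 (by norm_num)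
  obtain ⟨cV, hcV, hcV1, RAT⟩ := Pool.Agent.Y835.SC.V_ratio
  obtain ⟨C, hCd⟩ : ∃ C : ℝ, C = max C1 (Real.exp 3) := ⟨_, rfl⟩
  have hCC1 : C1 ≤ C := by rw [hCd]; exact le_max_left _ _
  have hC3 : Real.exp 3 ≤ C := by rw [hCd]; exact le_max_right _ _
  have hC0 : 0 < C := lt_of_lt_of_le hC1 hCC1
  refine ⟨min (c1 / 1600) (c1 * cV / 4), C, by positivity, ?_, hC0, ?_⟩
  · exact (min_le_left _ _).trans (by linarith)
  obtain ⟨X2, hX2⟩ := (evX c1 (max 4 (7 / (3 * c1) + 1)) hc1 Y1).exists_forall_of_atTop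
  refine ⟨X2, ?_⟩
  intro X hX U z r hz hzL' hr m hm hCr I d f hf hsupp hrr
  obtain ⟨h3X, k1, k2, k3, k4, k5, k6⟩ := hX2 X hX
  have k2a : 4 ≤ Real.log (Real.log X) := (le_max_left _ _).trans k2
  have k2b : 7 / (3 * c1) + 1 ≤ Real.log (Real.log X) := (le_max_right _ _).trans k2
  have hXr : (3 : ℝ) ≤ X := by exact_mod_cast h3X
  have hX0 : (0 : ℝ) < X := by linarith
  have hzL : (z : ℝ) ≤ Real.log X ^ (c1 / 1600) := by
    refine hzL'.trans ?_
    exact Real.rpow_le_rpow_of_exponent_le (by linarith) (min_le_left _ _)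
  set L := Real.log (X : ℝ) with hL
  have hL4 : 4 ≤ L := by linarith
  have hL0 : 0 < L := by linarith
  obtain ⟨Y, hY⟩ : ∃ Y : ℕ, Y = yy X := ⟨_, rfl⟩
  rw [← hY] at k3 k4 k6 hrr hsupp
  have hYL : (Y : ℝ) ≤ L / 1000 := by
    rw [hY]
    exact Nat.floor_le (by positivity)
  have hY2 : (2 : ℝ) ≤ Y := by linarith
  have hY0 : (0 : ℝ) < Y := by linarith
  have hY2n : 2 ≤ Y := by exact_mod_cast hY2
  have hlY0 : 0 < Real.log Y := Real.log_pos (by linarith)
  have hlYL : Real.log Y ≤ Real.log L := Real.log_le_log hY0 (by linarith)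
  -- `m`
  have hU0 : (0 : ℝ) ≤ U := Nat.cast_nonneg U
  have hr0 : 0 < r := by linarith
  have hUm : 0 < U * m := lt_of_lt_of_le (by positivity) hCr
  have hm0 : 0 < m := by
    by_contra h
    have := mul_nonpos_of_nonneg_of_nonpos hU0 (not_lt.1 h)
    linarith
  have hm1 : m ≤ 1 := by rw [hm]; exact min_le_left _ _
  have hz16 : (16 : ℝ) ≤ z := by
    calc (16 : ℝ) = 4 ^ 2 := by norm_num
      _ ≤ Real.log L ^ 2 := pow_le_pow_left₀ (by norm_num) k2a 2
      _ ≤ z := hz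
  have hz2 : 2 ≤ z := by
    have : (2 : ℝ) ≤ z := by linarith
    exact_mod_cast this
  have hlz : 0 < Real.log z := Real.log_pos (by linarith)
  have hUCL : Real.exp 3 * L ≤ U := by
    calc Real.exp 3 * L ≤ C * (r * L) := by
          refine mul_le_mul hC3 ?_ hL0.le hC0.le
          exact le_mul_of_one_le_left hL0.le (by linarith)
      _ ≤ U * m := hCr
      _ ≤ U := mul_le_of_le_one_right hU0 hm1
  have hUpos : (0 : ℝ) < U := lt_of_lt_of_le (by positivity) hUCL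
  have hlam : 3 ≤ Real.log (U / L) := by
    rw [Real.le_log_iff_exp_le (by positivity), le_div_iff₀ hL0]
    exact hUCL
  have hUY : (U : ℝ) / L ≤ U / Y := div_le_div_of_nonneg_left hU0 hY0 (by linarith)
  have hlamY : Real.log (U / L) ≤ Real.log (U / Y) := Real.log_le_log (by positivity) hUY
  have hzl : Real.log z ≤ c1 / 1600 * Real.log L := by
    rw [← Real.log_rpow hL0]
    exact Real.log_le_log (by linarith) hzL
  obtain ⟨mY, hmY⟩ : ∃ mY : ℝ, mY = min 1 (Real.log ((U : ℝ) / Y) / Real.log z) := ⟨_, rfl⟩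
  have hmmY : m ≤ mY := by
    rw [hm, hmY]
    exact min_le_min le_rfl (div_le_div_of_nonneg_right hlamY hlz.le)
  obtain ⟨P, hP⟩ : ∃ P : Finset ℕ, P = (Icc 1 X).filter Nat.Prime := ⟨_, rfl⟩
  rw [← hP] at hsupp ⊢
  have hPm : ∀ p, p ∈ P ↔ p.Prime ∧ p ≤ X := by
    intro p
    rw [hP, mem_filter, mem_Icc]
    constructor
    · exact fun h => ⟨h.2, h.1.2⟩
    · exact fun h => ⟨⟨h.1.pos, h.2⟩, h.1⟩
  have hlXX : L ≤ X := by
    have := Real.log_le_sub_one_of_pos hX0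
    linarith
  have hYX : Y ≤ X := by
    have : (Y : ℝ) ≤ X := by linarith
    exact_mod_cast this
  have key := HG X Y U z r k3 (by linarith) k4 hz2 (by
      refine le_trans (hzL.trans ?_) k6
      exact Real.rpow_le_rpow_of_exponent_le (by linarith) (by linarith)) (by linarith) mY hmY (by
      calc C1 * (r * Y) ≤ C * (r * L) := by
            refine mul_le_mul hCC1 ?_ (by positivity) hC0.le
            exact mul_le_mul_of_nonneg_left (by linarith) hr0.le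
        _ ≤ U * m := hCr
        _ ≤ U * mY := mul_le_mul_of_nonneg_left hmmY hU0)
      (min 1 (Real.log ((U : ℝ) / Y) / Real.log Y) * mY) rfl P (fun p hp => ((hPm p).1 hp).1)
      I d f (fun i hi => ⟨(hf i hi).1, by exact_mod_cast (hf i hi).2.1, (hf i hi).2.2⟩)
      X.factorial X.factorial_pos
      (fun p hp => Nat.dvd_factorial ((hPm p).1 hp).1.pos ((hPm p).1 hp).2)
      (fun i hi => Nat.dvd_factorial (hf i hi).1 (hf i hi).2.1) (by
      intro n hn
      refine (hsupp n hn).trans ?_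
      have h2 := theta_low (c := c1) (l := Real.log L) (lam := Real.log (U / Y))
        (lz := Real.log z) hc1 (by linarith) (by linarith) hlz (by
          refine hzl.trans ?_
          exact mul_le_mul_of_nonneg_right (by linarith) (by linarith)) (by
          have h3 : 7 / (3 * c1) ≤ Real.log L := by linarith
          rw [div_le_iff₀ (by positivity)] at h3
          linarith) (by linarith) rfl
      refine h2.trans ?_
      rw [← hmY]
      refine mul_le_mul_of_nonneg_left ?_ hc1.le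
      refine mul_le_mul_of_nonneg_right ?_ (hm0.le.trans hmmY)
      refine min_le_min le_rfl ?_
      exact div_le_div_of_nonneg_left (by linarith) hlY0 hlYL) (by
      intro n hn p hp hYp hpU hseen
      refine le_trans (le_of_eq ?_) (hrr n hn p ((hPm p).1 hp).1 hYp hpU hseen)
      congr 2
      refine filter_congr fun h _ => and_congr_right fun _ => ?_
      constructor
      · intro h1 q hq hqY
        exact h1 q ((hPm q).2 ⟨hq, hqY.trans hYX⟩) hqY
      · intro h1 q hq hqY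
        exact h1 q ((hPm q).1 hq).1 hqY)
  refine le_trans ?_ key
  have hSS0 : 0 ≤ ∑ n ∈ range X.factorial, (∑ i ∈ I, f i n) ^ 2 :=
    sum_nonneg fun n _ => sq_nonneg _
  refine mul_le_mul_of_nonneg_right ?_ hSS0
  -- the product
  have hprod0 : 0 ≤ ∏ p ∈ P.filter (fun p : ℕ => Y < p), (1 - 1 / (p : ℝ)) := prod_nonneg fun p hp => by
    have : (2 : ℝ) ≤ p := by exact_mod_cast ((hPm p).1 (mem_filter.1 hp).1).1.two_le
    rw [sub_nonneg, div_le_one (by linarith)]; linarith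
  have hprod : cV * (Real.log Y / L) ≤ ∏ p ∈ P.filter (fun p : ℕ => Y < p), (1 - 1 / (p : ℝ)) := by
    have h1 := RAT Y X hY2n hYX (P.filter (fun p : ℕ => Y < p)) (fun q hq => by
      rw [mem_filter] at hq
      exact ⟨((hPm q).1 hq.1).1, hq.2, ((hPm q).1 hq.1).2⟩)
    exact h1
  have h5 : 0 ≤ c1 * (U * mY / Real.log Y) := by
    have : 0 ≤ mY := hm0.le.trans hmmY
    positivity
  calc min (c1 / 1600) (c1 * cV / 4) * (U * m / L) ≤ (c1 * cV) * (U * m / L) := by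
        refine mul_le_mul_of_nonneg_right ((min_le_right _ _).trans ?_) (by positivity)
        have : 0 < c1 * cV := by positivity
        linarith
    _ = c1 * (U * m / Real.log Y) * (cV * (Real.log Y / L)) := by field_simp
    _ ≤ c1 * (U * mY / Real.log Y) * (cV * (Real.log Y / L)) := by
        refine mul_le_mul_of_nonneg_right ?_ (by positivity)
        refine mul_le_mul_of_nonneg_left ?_ hc1.le
        refine div_le_div_of_nonneg_right ?_ hlY0.le
        exact mul_le_mul_of_nonneg_left hmmY hU0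
    _ ≤ _ := mul_le_mul_of_nonneg_left hprod h5

open Classical in
/-- sums of squares, with the two cases -/
theorem intF : ∃ c₀ C : ℝ, 0 < c₀ ∧ c₀ ≤ 1 ∧ 0 < C ∧ ∃ X0 : ℕ, ∀ X : ℕ, X0 ≤ X →
    ∀ (U z : ℕ),
    Real.log (Real.log X) ^ 2 ≤ z → (z : ℝ) ≤ Real.log X ^ c₀ → ∀ m : ℝ,
    m = min 1 (Real.log (U / Real.log X) / Real.log z) →
    ∀ (J : Finset ℕ) (I : ℕ → Finset ℕ) (d : ℕ → ℕ → ℕ) (f : ℕ → ℕ → ℕ → ℝ),
    (∀ j ∈ J, ∀ i ∈ I j, 0 < d j i ∧ d j i ≤ X ∧ Function.Periodic (f j i) (d j i)) →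
    (∀ j ∈ J, ∀ n : ℕ, (∑ i ∈ I j, f j i n) ≠ 0 →
      ∑ p ∈ ((Icc 1 X).filter Nat.Prime).filter (fun p : ℕ => z < p ∧ p ≤ yy X ∧ ¬ p ∣ n),
        1 / (p : ℝ) ≤ 7 / Real.log (Real.log X) ^ 2) →
    ((∃ r : ℝ, Real.log (Real.log X) ≤ r ∧ C * (r * Real.log X) ≤ U * m ∧
      (∀ j ∈ J, ∀ n : ℕ, (∑ i ∈ I j, f j i n) ≠ 0 → ∀ p : ℕ, p.Prime → yy X < p → p ≤ U →
      (∃ i ∈ I j, p ∣ d j i) →
      (((Icc 1 U).filter (fun h => p ∣ n + h ∧
        ∀ q : ℕ, q.Prime → q ≤ yy X → ¬ q ∣ n + h)).card : ℝ) ≤ r)) ∨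
      C * (Real.log X * Real.log (Real.log X)) * Real.exp (C * √(Real.log z)) ≤ U) →
      c₀ * (U * m / Real.log X) *
        ∑ n ∈ range X.factorial, ∑ j ∈ J, (∑ i ∈ I j, f j i n) ^ 2 ≤
        ∑ n ∈ range X.factorial, (∑ j ∈ J, (∑ i ∈ I j, f j i n) ^ 2) *
          (((Icc 1 U).filter (fun h => ∀ p ∈ (Icc 1 X).filter Nat.Prime, ¬ p ∣ n + h)).card :
            ℝ) := by
  obtain ⟨c₀, C1, hc₀, hc₀1, hC1, X1, H⟩ := intS
  obtain ⟨Cp, hCp, X2, HR⟩ := choose_r hC1 hc₀ hc₀1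
  obtain ⟨X3, hX3⟩ := (evX 1 4 one_pos 3).exists_forall_of_atTop
  refine ⟨c₀, max C1 Cp, hc₀, hc₀1, lt_max_of_lt_left hC1, max (max X1 X2) X3, ?_⟩
  intro X hX U z hz hzL m hm J I d f hf hsupp hcase
  have hXX1 : X1 ≤ X := (le_max_left _ _).trans ((le_max_left _ _).trans hX)
  have hXX2 : X2 ≤ X := (le_max_right _ _).trans ((le_max_left _ _).trans hX)
  obtain ⟨k0, k1, k2, -, -, -, -⟩ := hX3 X ((le_max_right _ _).trans hX)
  have hr : ∃ r : ℝ, Real.log (Real.log X) ≤ r ∧ C1 * (r * Real.log X) ≤ U * m ∧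
      (∀ j ∈ J, ∀ n : ℕ, (∑ i ∈ I j, f j i n) ≠ 0 → ∀ p : ℕ, p.Prime → yy X < p → p ≤ U →
      (∃ i ∈ I j, p ∣ d j i) →
      (((Icc 1 U).filter (fun h => p ∣ n + h ∧
        ∀ q : ℕ, q.Prime → q ≤ yy X → ¬ q ∣ n + h)).card : ℝ) ≤ r) := by
    rcases hcase with ⟨r, hr1, hr2, hr3⟩ | hU
    · refine ⟨r, hr1, le_trans ?_ hr2, hr3⟩
      exact mul_le_mul_of_nonneg_right (le_max_left _ _)
        (mul_nonneg (by linarith) (by linarith))
    · obtain ⟨r, hr1, hr2, hr3⟩ := HR X hXX2 U z hz hzL m hm (by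
        refine le_trans ?_ hU
        have hCpm : Cp ≤ max C1 Cp := le_max_right _ _
        refine mul_le_mul ?_ ?_ (Real.exp_pos _).le (mul_nonneg (hCp.le.trans hCpm)
          (mul_nonneg (by linarith) (by linarith)))
        · exact mul_le_mul_of_nonneg_right hCpm (mul_nonneg (by linarith) (by linarith))
        · exact Real.exp_le_exp.2 (mul_le_mul_of_nonneg_right hCpm (Real.sqrt_nonneg _)))
      exact ⟨r, hr1, hr2, fun j _ n _ p hp hYp _ _ => hr3 n p hp hYp⟩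
  obtain ⟨r, hr1, hr2, hr3⟩ := hr
  have key : ∀ j ∈ J, c₀ * (U * m / Real.log X) * ∑ n ∈ range X.factorial,
      (∑ i ∈ I j, f j i n) ^ 2 ≤ ∑ n ∈ range X.factorial, (∑ i ∈ I j, f j i n) ^ 2 *
          (((Icc 1 U).filter (fun h => ∀ p ∈ (Icc 1 X).filter Nat.Prime, ¬ p ∣ n + h)).card :
            ℝ) := fun j hj =>
    H X hXX1 U z r hz hzL hr1 m hm hr2 (I j) (d j) (f j) (hf j hj) (hsupp j hj) (hr3 j hj)
  have h := sum_le_sum key
  rw [← mul_sum, sum_comm] at h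
  refine h.trans (le_of_eq ?_)
  rw [sum_comm]
  exact sum_congr rfl fun n _ => by rw [sum_mul]

end Pool.Agent.Y835.SG
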