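import Pool.Agent.Y835.SF.Prim
import Pool.Agent.Y835.SC.Rem

/-!
The number of survivors in a residue class modulo a prime larger than `y`.
-/

set_option autoImplicit false

namespace Pool.Agent.Y835.SG

open Finset Filter

/-- `x / log x` is increasing from `e` on, up to a constant -/
theorem div_log_mono {a b : ℝ} (ha : Real.exp 1 ≤ a) (hab : a ≤ b) :
    a / Real.log a ≤ b / Real.log b := by
  have he := Real.exp_pos 1
  have ha0 : 0 < a := by linarith
  have hb0 : 0 < b := by linarith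
  have hla : 1 ≤ Real.log a := by rwa [Real.le_log_iff_exp_le ha0]
  have hlb : Real.log a ≤ Real.log b := Real.log_le_log ha0 hab
  rw [div_le_div_iff₀ (by linarith) (by linarith)]
  have h1 : Real.log b - Real.log a ≤ (b - a) / a := by
    rw [← Real.log_div (by linarith) ha0.ne']
    refine (Real.log_le_sub_one_of_pos (by positivity)).trans (le_of_eq ?_)
    field_simp
  have h2 : a * (Real.log b - Real.log a) ≤ b - a := by
    calc a * (Real.log b - Real.log a) ≤ a * ((b - a) / a) := mul_le_mul_of_nonneg_left h1 ha0.le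
      _ = b - a := by field_simp
  nlinarith [mul_nonneg (sub_nonneg.2 hab) (sub_nonneg.2 hla)]

open Classical in
theorem rbound : ∃ C2 : ℝ, 1 ≤ C2 ∧ ∀ Y U p n : ℕ, 3 ≤ Y → Real.exp 1 ≤ (U : ℝ) / Y → p.Prime →
    Y < p → (((Icc 1 U).filter (fun h => p ∣ n + h ∧
      ∀ q : ℕ, q.Prime → q ≤ Y → ¬ q ∣ n + h)).card : ℝ) ≤
      C2 * (U / Y) / min (Real.log ((U : ℝ) / Y)) (Real.log Y) := by
  obtain ⟨τ, K1, hτ, hτ1, hK1, H⟩ := Pool.Agent.Y835.SC.rem_bound
  obtain ⟨C5, hC5, HU⟩ := Pool.Agent.Y835.SF.V_upper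
  obtain ⟨K2, hK2⟩ : ∃ K2 : ℝ, K2 = max K1 (Real.exp 1) := ⟨_, rfl⟩
  have hK21 : K1 ≤ K2 := by rw [hK2]; exact le_max_left _ _
  have hK2e : Real.exp 1 ≤ K2 := by rw [hK2]; exact le_max_right _ _
  have he := Real.exp_pos 1
  have hK20 : 0 < K2 := by linarith
  refine ⟨max (K2 + 1) (max (6 * C5 / τ) (3 * C5)), ?_, ?_⟩
  · refine le_trans ?_ (le_max_left _ _)
    linarith
  intro Y U p n hY hκ hp hYp
  obtain ⟨C2, hC2⟩ : ∃ C2 : ℝ, C2 = max (K2 + 1) (max (6 * C5 / τ) (3 * C5)) := ⟨_, rfl⟩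
  have hC2a : K2 + 1 ≤ C2 := by rw [hC2]; exact le_max_left _ _
  have hC2b : 6 * C5 / τ ≤ C2 := by rw [hC2]; exact (le_max_left _ _).trans (le_max_right _ _)
  have hC2c : 3 * C5 ≤ C2 := by rw [hC2]; exact (le_max_right _ _).trans (le_max_right _ _)
  rw [← hC2]
  have hYr : (3 : ℝ) ≤ Y := by exact_mod_cast hY
  have hY0 : (0 : ℝ) < Y := by linarith
  have hp0 : (0 : ℝ) < p := by exact_mod_cast hp.pos
  have hYpr : (Y : ℝ) ≤ p := by exact_mod_cast hYp.le
  have hlY : 0 < Real.log Y := Real.log_pos (by linarith)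
  have hC20 : 0 < C2 := by linarith
  obtain ⟨κ, hκd⟩ : ∃ κ : ℝ, κ = (U : ℝ) / Y := ⟨_, rfl⟩
  rw [← hκd] at hκ ⊢
  have hκ0 : 0 < κ := by linarith
  have hlκ : 1 ≤ Real.log κ := by rwa [Real.le_log_iff_exp_le hκ0]
  obtain ⟨κp, hκp⟩ : ∃ κp : ℝ, κp = (U : ℝ) / p := ⟨_, rfl⟩
  have hκpκ : κp ≤ κ := by
    rw [hκp, hκd]
    exact div_le_div_of_nonneg_left (Nat.cast_nonneg U) hY0 hYpr
  have hmin : 0 < min (Real.log κ) (Real.log Y) := lt_min (by linarith) hlY
  rcases le_or_gt K2 κp with hc | hc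
  · have hκpe : Real.exp 1 ≤ κp := hK2e.trans hc
    have hκp0 : 0 < κp := by linarith
    obtain ⟨w, hw⟩ : ∃ w : ℕ, w = ⌊κp ^ τ⌋₊ := ⟨_, rfl⟩
    obtain ⟨hw3, hwl, H'⟩ := H κp (hK21.trans hc) w hw
    obtain ⟨v, hv⟩ : ∃ v : ℕ, v = min w Y := ⟨_, rfl⟩
    have hv2 : 2 ≤ v := by omega
    have hvY : v ≤ Y := by omega
    have h1 := H' ((Icc 1 v).filter Nat.Prime) (fun q hq => by
      rw [mem_filter, mem_Icc] at hq
      exact ⟨hq.2, by omega⟩) p hp.pos (fun q hq hd => by
        rw [mem_filter, mem_Icc] at hq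
        have h2 := (Nat.prime_dvd_prime_iff_eq hq.2 hp).1 hd
        omega) n U (by
        rw [hκp]
        exact le_of_eq (by field_simp))
    have h2 : (((Icc 1 U).filter (fun h => p ∣ n + h ∧
        ∀ q : ℕ, q.Prime → q ≤ Y → ¬ q ∣ n + h)).card : ℝ) ≤
        (((Icc 1 U).filter (fun h => p ∣ n + h ∧
          ∀ q ∈ (Icc 1 v).filter Nat.Prime, ¬ q ∣ n + h)).card : ℝ) := by
      exact_mod_cast card_le_card (fun h hh => by
        rw [mem_filter] at hh ⊢
        refine ⟨hh.1, hh.2.1, fun q hq => ?_⟩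
        rw [mem_filter, mem_Icc] at hq
        exact hh.2.2 q hq.2 (by omega))
    refine h2.trans (h1.trans ?_)
    rw [← hκp]
    have h3 := HU v hv2
    have hlv : 0 < Real.log v := Real.log_pos (by exact_mod_cast (by omega : 1 < v))
    have h4 : 3 * (κp * Pool.Agent.Y835.SC.V ((Icc 1 v).filter Nat.Prime)) ≤
        3 * C5 * (κp / Real.log v) := by
      calc 3 * (κp * Pool.Agent.Y835.SC.V ((Icc 1 v).filter Nat.Prime)) ≤
            3 * (κp * (C5 / Real.log v)) :=
            mul_le_mul_of_nonneg_left (mul_le_mul_of_nonneg_left h3 hκp0.le) (by norm_num)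
        _ = _ := by ring
    refine h4.trans ?_
    have hv' : v = w ∨ v = Y := by omega
    rcases hv' with hv' | hv'
    · -- `v = w`
      have h5 : τ / 2 * Real.log κp ≤ Real.log v := by
        rw [hv', ← Real.log_rpow hκp0]
        exact Real.log_le_log (by positivity) hwl
      have hlκp : 0 < Real.log κp := by
        have : 1 ≤ Real.log κp := by rwa [Real.le_log_iff_exp_le hκp0]
        linarith
      calc 3 * C5 * (κp / Real.log v) ≤ 3 * C5 * (κp / (τ / 2 * Real.log κp)) :=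
            mul_le_mul_of_nonneg_left (div_le_div_of_nonneg_left hκp0.le (by positivity) h5)
              (by positivity)
        _ = 6 * C5 / τ * (κp / Real.log κp) := by
            field_simp
            norm_num
        _ ≤ C2 * (κ / Real.log κ) :=
            mul_le_mul hC2b (div_log_mono hκpe hκpκ) (by positivity) hC20.le
        _ = C2 * κ / Real.log κ := by ring
        _ ≤ C2 * κ / min (Real.log κ) (Real.log Y) :=
            div_le_div_of_nonneg_left (by positivity) hmin (min_le_left _ _)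
    · rw [hv']
      calc 3 * C5 * (κp / Real.log Y) ≤ C2 * (κ / Real.log Y) :=
            mul_le_mul hC2c (div_le_div_of_nonneg_right hκpκ hlY.le) (by positivity) hC20.le
        _ = C2 * κ / Real.log Y := by ring
        _ ≤ C2 * κ / min (Real.log κ) (Real.log Y) :=
            div_le_div_of_nonneg_left (by positivity) hmin (min_le_right _ _)
  · have h3 : (((Icc 1 U).filter (fun h => p ∣ n + h ∧
        ∀ q : ℕ, q.Prime → q ≤ Y → ¬ q ∣ n + h)).card : ℝ) ≤
        (((Icc 1 U).filter (fun h => p ∣ n + h)).card : ℝ) := by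
      exact_mod_cast card_le_card (fun h hh => by
        rw [mem_filter] at hh ⊢
        exact ⟨hh.1, hh.2.1⟩)
    refine h3.trans ((Pool.Agent.Y835.SB.hits_le p n U hp.pos).trans ?_)
    rw [← hκp]
    have h4 : κp + 1 ≤ C2 := by linarith
    have h5 : (1 : ℝ) ≤ κ / Real.log κ := by
      rw [le_div_iff₀ (by linarith), one_mul]
      have := Real.log_le_sub_one_of_pos hκ0
      linarith
    calc κp + 1 ≤ C2 * 1 := by linarith
      _ ≤ C2 * (κ / Real.log κ) := mul_le_mul_of_nonneg_left h5 hC20.le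
      _ = C2 * κ / Real.log κ := by ring
      _ ≤ C2 * κ / min (Real.log κ) (Real.log Y) :=
          div_le_div_of_nonneg_left (by positivity) hmin (min_le_left _ _)

end Pool.Agent.Y835.SG
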