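import Pool.Agent.Y835.SF.Prim2

/-!
The choice of `r` without conditions on the weight.
-/

set_option autoImplicit false

namespace Pool.Agent.Y835.SG

open Finset Filter
open Pool.Agent.H378R2 (yy)

/-- the inequality between the parameters -/
theorem param {C1 C2 C l lY x lz m : ℝ} (hC1 : 0 < C1) (hC2 : 1 ≤ C2) {c₀ : ℝ} (hc₀ : 0 < c₀)
    (hc₀1 : c₀ ≤ 1)
    (hC : C = Real.exp (8000 * C1 * C2) + 8000 * C1 * C2 + 1) (hl : 8000 * C1 * C2 ≤ lY)
    (hl1 : 1 ≤ l) (hx : C * l * Real.exp (C * √lz) ≤ x) (hlz : 0 < lz) (hlzl : lz ≤ c₀ * l)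
    (hlm : l ≤ 2 * lY) (hm : m = min 1 (Real.log x / lz)) :
    C1 * (2000 * C2 * x / min (Real.log x) lY + l) ≤ x * m := by
  obtain ⟨B, hB⟩ : ∃ B : ℝ, B = 8000 * C1 * C2 := ⟨_, rfl⟩
  rw [← hB] at hC hl
  have hB0 : 0 < B := by rw [hB]; positivity
  have hexpB : 1 ≤ Real.exp B := Real.one_le_exp hB0.le
  have hCB : B + 1 ≤ C := by rw [hC]; linarith
  have hC0 : 0 < C := by linarith
  have hC1' : 1 ≤ C := by linarith
  have hs : 0 < √lz := Real.sqrt_pos.2 hlz
  have hss : √lz * √lz = lz := Real.mul_self_sqrt hlz.le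
  have hexp : 1 ≤ Real.exp (C * √lz) := Real.one_le_exp (by positivity)
  have hCl : C ≤ C * l := le_mul_of_one_le_right hC0.le hl1
  have hxC : Real.exp B * Real.exp (C * √lz) ≤ x := by
    refine le_trans ?_ hx
    refine mul_le_mul_of_nonneg_right ?_ (by positivity)
    linarith
  have hx0 : 0 < x := lt_of_lt_of_le (by positivity) hxC
  have hlx : B + C * √lz ≤ Real.log x := by
    have h1 := Real.log_le_log (by positivity) hxC
    rwa [Real.log_mul (by positivity) (by positivity), Real.log_exp, Real.log_exp] at h1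
  have hCs : 0 < C * √lz := by positivity
  have hlx0 : 0 < Real.log x := by linarith
  have hl' : 0 < lY := by linarith
  have hmin : 0 < min (Real.log x) lY := lt_min hlx0 hl'
  have hm0 : 0 < m := by rw [hm]; exact lt_min one_pos (by positivity)
  -- (i)
  have h1 : B / 2 ≤ m * min (Real.log x) lY := by
    rw [hm]
    rcases min_cases 1 (Real.log x / lz) with ⟨h2, -⟩ | ⟨h2, -⟩
    · rw [h2, one_mul]
      exact le_min (by linarith) (by linarith)
    · rw [h2]
      rcases min_cases (Real.log x) lY with ⟨h3, -⟩ | ⟨h3, -⟩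
      · rw [h3, div_mul_eq_mul_div, le_div_iff₀ hlz]
        have h4 : (C * √lz) * (C * √lz) ≤ Real.log x * Real.log x :=
          mul_le_mul (by linarith) (by linarith) hCs.le hlx0.le
        have h5 : (C * √lz) * (C * √lz) = C * C * lz := by
          calc (C * √lz) * (C * √lz) = C * C * (√lz * √lz) := by ring
            _ = _ := by rw [hss]
        rw [h5] at h4
        refine le_trans ?_ h4
        refine mul_le_mul_of_nonneg_right ?_ hlz.le
        nlinarith
      · rw [h3, div_mul_eq_mul_div, le_div_iff₀ hlz]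
        calc B / 2 * lz ≤ B / 2 * (c₀ * l) := mul_le_mul_of_nonneg_left hlzl (by positivity)
          _ ≤ B / 2 * (1 * (2 * lY)) := by
              refine mul_le_mul_of_nonneg_left ?_ (by positivity)
              exact mul_le_mul hc₀1 hlm (by linarith) zero_le_one
          _ = B * lY := by ring
          _ ≤ Real.log x * lY := mul_le_mul_of_nonneg_right (by linarith) hl'.le
  have h2 : C1 * (2000 * C2 * x / min (Real.log x) lY) ≤ x * m / 2 := by
    rw [mul_div_assoc', div_le_div_iff₀ hmin two_pos]
    calc C1 * (2000 * C2 * x) * 2 = x * (B / 2) := by rw [hB]; ring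
      _ ≤ x * (m * min (Real.log x) lY) := mul_le_mul_of_nonneg_left h1 hx0.le
      _ = x * m * min (Real.log x) lY := by ring
  -- (ii)
  have h3 : C1 * l ≤ x * m / 2 := by
    have hC12 : 2 * C1 ≤ C := by
      have : 2 * C1 ≤ B := by rw [hB]; nlinarith
      linarith
    rw [hm]
    rcases min_cases 1 (Real.log x / lz) with ⟨h4, -⟩ | ⟨h4, -⟩
    · rw [h4, mul_one]
      have h5 : C * l * 1 ≤ x := (mul_le_mul_of_nonneg_left hexp (by positivity)).trans hx
      nlinarith
    · rw [h4]
      have h5 : C / √lz ≤ Real.log x / lz := by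
        rw [div_le_div_iff₀ hs hlz]
        calc C * lz = (C * √lz) * √lz := by rw [mul_assoc, hss]
          _ ≤ Real.log x * √lz := mul_le_mul_of_nonneg_right (by linarith) hs.le
      have h6 : C * √lz ≤ Real.exp (C * √lz) := by
        have := Real.add_one_le_exp (C * √lz)
        linarith
      have h7 : C * l * (C * √lz) ≤ x :=
        (mul_le_mul_of_nonneg_left h6 (by positivity)).trans hx
      have h8 : C * l * (C * √lz) * (C / √lz) ≤ x * (Real.log x / lz) :=
        mul_le_mul h7 h5 (by positivity) hx0.le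
      have h9 : C * l * (C * √lz) * (C / √lz) = C * C * C * l := by field_simp
      have h10 : C * l ≤ C * C * C * l := by
        refine mul_le_mul_of_nonneg_right ?_ (by linarith)
        nlinarith
      have h11 : 2 * C1 * l ≤ C * l := mul_le_mul_of_nonneg_right hC12 (by linarith)
      rw [h9] at h8
      linarith
  rw [mul_add]
  linarith

end Pool.Agent.Y835.SG
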