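import Pool.Agent.Y835.SF.Prim2
import Pool.Agent.H398R2.RK.Surv2

/-!
An upper bound for the number of integers up to `U` with no prime factor in `(z, y]`, up to a few exceptional
primes, and Rankin's choice of residue classes (every choice of `z`).
-/

set_option autoImplicit false

namespace Pool.Agent.Y835.SU

open Finset Filter

open Classical in
/-- integers without small prime factors -/
theorem rough_count : ∃ (C : ℝ) (Y1 : ℕ), 0 < C ∧ 3 ≤ Y1 ∧ ∀ y K : ℕ, Y1 ≤ y → y ≤ K →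
    (((Icc 1 K).filter (fun k => ∀ p : ℕ, p.Prime → p ≤ y → ¬ p ∣ k)).card : ℝ) ≤
      C * K / Real.log y := by
  obtain ⟨τ, K1, hτ, hτ1, hK1, H⟩ := Pool.Agent.Y835.SC.rem_bound
  obtain ⟨C5, hC5, HU⟩ := Pool.Agent.Y835.SF.V_upper
  refine ⟨6 * C5 / τ, ⌈K1⌉₊ + 3, by positivity, by omega, fun y K hy hyK => ?_⟩
  have hy3 : (3 : ℝ) ≤ y := by exact_mod_cast (by omega : 3 ≤ y)
  have hyKr : (y : ℝ) ≤ K := by exact_mod_cast hyK
  have hK1K : K1 ≤ K := by
    have h1 : K1 ≤ (⌈K1⌉₊ : ℝ) := Nat.le_ceil _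
    have h2 : ((⌈K1⌉₊ + 3 : ℕ) : ℝ) ≤ y := by exact_mod_cast hy
    push_cast at h2
    linarith
  have hK0 : (0 : ℝ) < K := by linarith
  have hly : 0 < Real.log y := Real.log_pos (by linarith)
  obtain ⟨w, hw⟩ : ∃ w : ℕ, w = ⌊(K : ℝ) ^ τ⌋₊ := ⟨_, rfl⟩
  obtain ⟨hw3, hwl, H'⟩ := H K hK1K w hw
  obtain ⟨v, hv⟩ : ∃ v : ℕ, v = min w y := ⟨_, rfl⟩
  have hv2 : 2 ≤ v := by
    have : 3 ≤ y := by omega
    omega
  have hvy : v ≤ y := by omega
  have h1 := H' ((Icc 1 v).filter Nat.Prime) (fun q hq => by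
    rw [mem_filter, mem_Icc] at hq
    exact ⟨hq.2, by omega⟩) 1 one_pos (fun q hq hd => by
      rw [mem_filter, mem_Icc] at hq
      have := Nat.le_of_dvd one_pos hd
      have := hq.2.two_le
      omega) 0 K (by simp)
  have h2 : (((Icc 1 K).filter (fun k => ∀ p : ℕ, p.Prime → p ≤ y → ¬ p ∣ k)).card : ℝ) ≤
      (((Icc 1 K).filter (fun h => 1 ∣ 0 + h ∧
        ∀ p ∈ (Icc 1 v).filter Nat.Prime, ¬ p ∣ 0 + h)).card : ℝ) := by
    refine Nat.cast_le.2 (card_le_card fun h hh => ?_)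
    rw [mem_filter] at hh ⊢
    refine ⟨hh.1, one_dvd _, fun q hq => ?_⟩
    rw [mem_filter, mem_Icc] at hq
    rw [zero_add]
    exact hh.2 q hq.2 (by omega)
  refine h2.trans (h1.trans ?_)
  have h3 := HU v hv2
  have hlv : 0 < Real.log v := Real.log_pos (by exact_mod_cast (by omega : 1 < v))
  have h5 : τ / 2 * Real.log y ≤ Real.log v := by
    have hv' : v = w ∨ v = y := by omega
    rcases hv' with hv' | hv'
    · have h6 : τ / 2 * Real.log K ≤ Real.log v := by
        rw [hv', ← Real.log_rpow hK0]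
        exact Real.log_le_log (by positivity) hwl
      have h7 : Real.log y ≤ Real.log K := Real.log_le_log (by linarith) hyKr
      have h8 : τ / 2 * Real.log y ≤ τ / 2 * Real.log K :=
        mul_le_mul_of_nonneg_left h7 (by positivity)
      linarith
    · rw [hv']
      nlinarith only [hτ1, hly]
  have h6 : Pool.Agent.Y835.SC.V ((Icc 1 v).filter Nat.Prime) ≤ C5 / (τ / 2 * Real.log y) :=
    h3.trans (div_le_div_of_nonneg_left hC5.le (by positivity) h5)
  calc 3 * ((K : ℝ) / ((1 : ℕ) : ℝ) * Pool.Agent.Y835.SC.V ((Icc 1 v).filter Nat.Prime))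
      ≤ 3 * ((K : ℝ) / ((1 : ℕ) : ℝ) * (C5 / (τ / 2 * Real.log y))) := by
        refine mul_le_mul_of_nonneg_left (mul_le_mul_of_nonneg_left h6 ?_) (by norm_num)
        positivity
    _ = 6 * C5 / τ * K / Real.log y := by
        push_cast
        field_simp
        norm_num

open Classical in
/-- the sum of the reciprocals of the `z`-smooth numbers -/
theorem smooth_sum : ∃ C : ℝ, 0 < C ∧ ∀ z M : ℕ, 2 ≤ z →
    ∑ m ∈ (Icc 1 M).filter (fun m => ∀ p : ℕ, p.Prime → p ∣ m → p ≤ z), (1 : ℝ) / m ≤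
      C * Real.log z := by
  obtain ⟨c, hc, H⟩ := Pool.Agent.Y835.SB.prod_ge
  refine ⟨1 / c, by positivity, fun z M hz => ?_⟩
  have h1 := Pool.Agent.H398R2.RK.smooth_tsum (σ := 1) one_pos z M
  have h2 : ∑ m ∈ (Icc 1 M).filter (fun m => ∀ p : ℕ, p.Prime → p ∣ m → p ≤ z), (1 : ℝ) / m =
      ∑ n ∈ (Icc 1 M).filter (fun n => ∀ p : ℕ, p.Prime → p ∣ n → p ≤ z), (n : ℝ) ^ (-1 : ℝ) := by
    refine sum_congr rfl fun m _ => ?_
    rw [Real.rpow_neg_one, one_div]
  rw [h2]
  refine h1.trans ?_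
  have h3 : ∏ p ∈ Pool.Agent.H318R2.Cr.Pz z, (1 - (p : ℝ) ^ (-1 : ℝ))⁻¹ =
      (∏ p ∈ Pool.Agent.H318R2.Cr.Pz z, (1 - 1 / (p : ℝ)))⁻¹ := by
    rw [← prod_inv_distrib]
    refine prod_congr rfl fun p _ => ?_
    rw [Real.rpow_neg_one, one_div]
  rw [h3]
  have h4 := H z hz (Pool.Agent.H318R2.Cr.Pz z) (fun p hp => by
    unfold Pool.Agent.H318R2.Cr.Pz at hp
    rw [mem_filter, mem_Ioc] at hp
    exact ⟨hp.2, hp.1.2⟩)
  have hlz : 0 < Real.log z := Real.log_pos (by exact_mod_cast (by omega : 1 < z))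
  calc (∏ p ∈ Pool.Agent.H318R2.Cr.Pz z, (1 - 1 / (p : ℝ)))⁻¹ ≤ (c / Real.log z)⁻¹ :=
        inv_anti₀ (by positivity) h4
    _ = 1 / c * Real.log z := by
        field_simp

open Classical in
/-- integers with no prime factor in `(z, y]` outside of `T` -/
theorem medium_count : ∃ (C : ℝ) (Y1 : ℕ), 0 < C ∧ 3 ≤ Y1 ∧ ∀ y z U : ℕ, Y1 ≤ y → y ≤ U →
    2 ≤ z → z ≤ y → ∀ T : Finset ℕ,
    (((Icc 1 U).filter (fun h => ∀ p : ℕ, p.Prime → z < p → p ≤ y → p ∉ T → ¬ p ∣ h)).card : ℝ) ≤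
      C * (U / Real.log y) * min (1 + Real.log ((U : ℝ) / y)) (Real.log z) +
      (((Icc 1 U).filter (fun h => ∀ p : ℕ, p.Prime → p ∣ h → p ≤ z)).card : ℝ) +
      ∑ t ∈ T.filter (fun t => z < t), (U : ℝ) / t := by
  obtain ⟨Cr, Y1, hCr, hY1, HR⟩ := rough_count
  obtain ⟨Cs, hCs, HS⟩ := smooth_sum
  refine ⟨Cr * max 1 Cs, Y1, by positivity, hY1, fun y z U hy hyU hz hzy T => ?_⟩
  have hy3 : (3 : ℝ) ≤ y := by exact_mod_cast (by omega : 3 ≤ y)
  have hy0 : (0 : ℝ) < y := by linarith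
  have hyUr : (y : ℝ) ≤ U := by exact_mod_cast hyU
  have hly : 0 < Real.log y := Real.log_pos (by linarith)
  obtain ⟨R, hR⟩ : ∃ R : Finset ℕ, R = (Icc 1 U).filter
    (fun h => ∀ p : ℕ, p.Prime → z < p → p ≤ y → p ∉ T → ¬ p ∣ h) := ⟨_, rfl⟩
  obtain ⟨Sm, hSm⟩ : ∃ Sm : Finset ℕ, Sm = (Icc 1 (U / y)).filter
    (fun m => ∀ p : ℕ, p.Prime → p ∣ m → p ≤ z) := ⟨_, rfl⟩
  obtain ⟨A, hA⟩ : ∃ A : Finset ℕ, A = (Icc 1 U).filter (fun h => ∀ p : ℕ, p.Prime → p ∣ h → p ≤ z) :=
    ⟨_, rfl⟩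
  obtain ⟨B, hB⟩ : ∃ B : Finset ℕ, B = (T.filter (fun t => z < t)).biUnion
    (fun t => (Icc 1 (U / t)).image (fun k => t * k)) := ⟨_, rfl⟩
  obtain ⟨D, hD⟩ : ∃ D : Finset ℕ, D = Sm.biUnion (fun m => ((Icc 1 (U / m)).filter
    (fun k => ∀ p : ℕ, p.Prime → p ≤ y → ¬ p ∣ k)).image (fun k => m * k)) := ⟨_, rfl⟩
  rw [← hR, ← hA]
  have hsub : R ⊆ (D ∪ A) ∪ B := by
    intro h hh
    rw [hR, mem_filter, mem_Icc] at hh
    obtain ⟨⟨hh1, hh2⟩, hh3⟩ := hh
    by_cases hT : ∃ t ∈ T, z < t ∧ t ∣ h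
    · obtain ⟨t, ht, hzt, htd⟩ := hT
      refine mem_union_right _ ?_
      rw [hB, mem_biUnion]
      refine ⟨t, mem_filter.2 ⟨ht, hzt⟩, ?_⟩
      rw [mem_image]
      refine ⟨h / t, ?_, Nat.mul_div_cancel' htd⟩
      rw [mem_Icc]
      exact ⟨Nat.div_pos (Nat.le_of_dvd (by omega) htd) (by omega), Nat.div_le_div_right hh2⟩
    · push Not at hT
      refine mem_union_left _ ?_
      -- the largest smooth divisor
      have hne : ((h.divisors).filter (fun m => ∀ p : ℕ, p.Prime → p ∣ m → p ≤ z)).Nonempty := by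
        refine ⟨1, mem_filter.2 ⟨Nat.one_mem_divisors.2 (by omega), fun p hp hd => ?_⟩⟩
        have := Nat.le_of_dvd one_pos hd
        have := hp.two_le
        omega
      obtain ⟨m, hm, hmax⟩ := exists_max_image _ id hne
      rw [mem_filter, Nat.mem_divisors] at hm
      obtain ⟨⟨hmd, -⟩, hms⟩ := hm
      obtain ⟨k, hk⟩ := hmd
      have hm0 : 0 < m := Nat.pos_of_ne_zero (fun h0 => by rw [h0, zero_mul] at hk; omega)
      have hk0 : 0 < k := Nat.pos_of_ne_zero (fun h0 => by rw [h0, mul_zero] at hk; omega)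
      have hkp : ∀ p : ℕ, p.Prime → p ∣ k → y < p := by
        intro p hp hpk
        have hph : p ∣ h := by rw [hk]; exact hpk.mul_left m
        have hzp : z < p := by
          by_contra hcon
          push Not at hcon
          have h1 : m * p ∈ (h.divisors).filter (fun m => ∀ p : ℕ, p.Prime → p ∣ m → p ≤ z) := by
            refine mem_filter.2 ⟨Nat.mem_divisors.2 ⟨?_, by omega⟩, fun q hq hd => ?_⟩
            · rw [hk]
              exact mul_dvd_mul_left m hpk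
            · rcases (hq.dvd_mul).1 hd with h2 | h2
              · exact hms q hq h2
              · rw [(Nat.prime_dvd_prime_iff_eq hq hp).1 h2]
                exact hcon
          have h2 := hmax _ h1
          simp only [id] at h2
          have h3 := hp.two_le
          nlinarith only [h2, h3, hm0]
        by_contra hcon
        push Not at hcon
        by_cases hpT : p ∈ T
        · exact hT p hpT hzp hph
        · exact hh3 p hp hzp hcon hpT hph
      by_cases hk1 : k = 1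
      · refine mem_union_right _ ?_
        rw [hA, mem_filter, mem_Icc]
        rw [hk1, mul_one] at hk
        rw [hk] at hh1 hh2 ⊢
        exact ⟨⟨hh1, hh2⟩, hms⟩
      · refine mem_union_left _ ?_
        obtain ⟨p, hp, hpk⟩ := Nat.exists_prime_and_dvd hk1
        have hyk : y < k := (hkp p hp hpk).trans_le (Nat.le_of_dvd hk0 hpk)
        rw [hD, mem_biUnion]
        refine ⟨m, ?_, ?_⟩
        · rw [hSm, mem_filter, mem_Icc]
          refine ⟨⟨hm0, ?_⟩, hms⟩
          rw [Nat.le_div_iff_mul_le (by omega)]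
          calc m * y ≤ m * k := Nat.mul_le_mul_left m hyk.le
            _ = h := hk.symm
            _ ≤ U := hh2
        · rw [mem_image]
          refine ⟨k, mem_filter.2 ⟨mem_Icc.2 ⟨hk0, ?_⟩, fun q hq hqy hqk => ?_⟩, hk.symm⟩
          · rw [Nat.le_div_iff_mul_le hm0, mul_comm, ← hk]
            exact hh2
          · have := hkp q hq hqk
            omega
  have h1 : (R.card : ℝ) ≤ D.card + A.card + B.card := by
    have h2 := (card_le_card hsub).trans (card_union_le _ _)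
    have h3 := card_union_le D A
    have h4 : R.card ≤ D.card + A.card + B.card := by omega
    exact_mod_cast h4
  have hBc : (B.card : ℝ) ≤ ∑ t ∈ T.filter (fun t => z < t), (U : ℝ) / t := by
    have h2 : (B.card : ℝ) ≤ ∑ t ∈ T.filter (fun t => z < t),
        ((((Icc 1 (U / t)).image (fun k => t * k)).card : ℕ) : ℝ) := by
      rw [hB]
      exact_mod_cast card_biUnion_le
    refine h2.trans (sum_le_sum fun t _ => ?_)
    have h3 : ((Icc 1 (U / t)).image (fun k => t * k)).card ≤ U / t := by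
      refine card_image_le.trans ?_
      rw [Nat.card_Icc, Nat.add_sub_cancel]
    have h4 : ((((Icc 1 (U / t)).image (fun k => t * k)).card : ℕ) : ℝ) ≤ ((U / t : ℕ) : ℝ) := by
      exact_mod_cast h3
    exact h4.trans Nat.cast_div_le
  have hDc : (D.card : ℝ) ≤ Cr * (U / Real.log y) * ∑ m ∈ Sm, (1 : ℝ) / m := by
    have h2 : (D.card : ℝ) ≤ ∑ m ∈ Sm, ((((((Icc 1 (U / m)).filter
        (fun k => ∀ p : ℕ, p.Prime → p ≤ y → ¬ p ∣ k)).image (fun k => m * k)).card) : ℕ) : ℝ) := by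
      rw [hD]
      exact_mod_cast card_biUnion_le
    refine h2.trans ?_
    rw [mul_sum]
    refine sum_le_sum fun m hm => ?_
    rw [hSm, mem_filter, mem_Icc] at hm
    obtain ⟨⟨hm1, hm2⟩, -⟩ := hm
    have hyUm : y ≤ U / m := by
      rw [Nat.le_div_iff_mul_le (by omega)]
      have := (Nat.le_div_iff_mul_le (by omega : 0 < y)).1 hm2
      rw [mul_comm]
      exact this
    have h3 := HR y (U / m) hy hyUm
    have h4 : ((((((Icc 1 (U / m)).filter
        (fun k => ∀ p : ℕ, p.Prime → p ≤ y → ¬ p ∣ k)).image (fun k => m * k)).card) : ℕ) : ℝ) ≤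
        ((((Icc 1 (U / m)).filter (fun k => ∀ p : ℕ, p.Prime → p ≤ y → ¬ p ∣ k)).card : ℕ) : ℝ) := by
      exact_mod_cast card_image_le
    refine h4.trans (h3.trans ?_)
    have hm0 : (0 : ℝ) < m := by exact_mod_cast hm1
    calc Cr * ((U / m : ℕ) : ℝ) / Real.log y ≤ Cr * ((U : ℝ) / m) / Real.log y := by
          refine div_le_div_of_nonneg_right (mul_le_mul_of_nonneg_left Nat.cast_div_le hCr.le) hly.le
      _ = Cr * (U / Real.log y) * (1 / m) := by
          field_simp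
  have hs1 : ∑ m ∈ Sm, (1 : ℝ) / m ≤ 1 + Real.log ((U : ℝ) / y) := by
    have hM : 1 ≤ U / y := Nat.div_pos hyU (by omega)
    have h2 : ∑ m ∈ Sm, (1 : ℝ) / m ≤ ∑ m ∈ Icc 1 (U / y), (1 : ℝ) / m := by
      rw [hSm]
      exact sum_le_sum_of_subset_of_nonneg (filter_subset _ _) fun m _ _ => by positivity
    have h3 : ∑ m ∈ Icc 1 (U / y), (1 : ℝ) / m ≤ 1 + Real.log ((U / y : ℕ) : ℝ) := by
      have h4 := harmonic_le_one_add_log (U / y)
      have h5 : ((harmonic (U / y) : ℚ) : ℝ) = ∑ m ∈ Icc 1 (U / y), (1 : ℝ) / m := by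
        rw [harmonic_eq_sum_Icc]
        push_cast
        refine sum_congr rfl fun m _ => ?_
        rw [one_div]
      rw [h5] at h4
      exact h4
    have h4 : Real.log ((U / y : ℕ) : ℝ) ≤ Real.log ((U : ℝ) / y) :=
      Real.log_le_log (by exact_mod_cast hM) Nat.cast_div_le
    linarith
  have hs2 : ∑ m ∈ Sm, (1 : ℝ) / m ≤ Cs * Real.log z := by
    rw [hSm]
    exact HS z (U / y) hz
  have hlz : 0 < Real.log z := Real.log_pos (by exact_mod_cast (by omega : 1 < z))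
  have hlUy : 0 ≤ Real.log ((U : ℝ) / y) := Real.log_nonneg (by
    rw [le_div_iff₀ hy0]; linarith)
  have hs : ∑ m ∈ Sm, (1 : ℝ) / m ≤ max 1 Cs * min (1 + Real.log ((U : ℝ) / y)) (Real.log z) := by
    rcases min_choice (1 + Real.log ((U : ℝ) / y)) (Real.log z) with h2 | h2
    · rw [h2]
      refine hs1.trans ?_
      have h3 : 1 * (1 + Real.log ((U : ℝ) / y)) ≤ max 1 Cs * (1 + Real.log ((U : ℝ) / y)) :=
        mul_le_mul_of_nonneg_right (le_max_left _ _) (by linarith)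
      linarith
    · rw [h2]
      exact hs2.trans (mul_le_mul_of_nonneg_right (le_max_right _ _) hlz.le)
  have hD2 : (D.card : ℝ) ≤ Cr * max 1 Cs * (U / Real.log y) *
      min (1 + Real.log ((U : ℝ) / y)) (Real.log z) := by
    refine hDc.trans ?_
    calc Cr * (U / Real.log y) * ∑ m ∈ Sm, (1 : ℝ) / m ≤ Cr * (U / Real.log y) *
          (max 1 Cs * min (1 + Real.log ((U : ℝ) / y)) (Real.log z)) :=
          mul_le_mul_of_nonneg_left hs (by positivity)
      _ = _ := by ring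
  linarith

end Pool.Agent.Y835.SU
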