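import Pool.Agent.Y835.SF.RU1
import Pool.Agent.Y835.SF.Prim

/-!
Rankin's choice of residue classes, for every choice of `z`, up to a few exceptional primes.
-/

set_option autoImplicit false

namespace Pool.Agent.Y835.SU

open Finset Filter
open Pool.Agent.H378R2 (WW GoodP GoodS PW yy)

theorem prod_low (T : Finset ℕ) (hT : ∀ p ∈ T, 2 ≤ p) :
    1 - ∑ p ∈ T, 1 / (p : ℝ) ≤ ∏ p ∈ T, (1 - 1 / (p : ℝ)) ∧ 0 < ∏ p ∈ T, (1 - 1 / (p : ℝ)) ∧
      ∏ p ∈ T, (1 - 1 / (p : ℝ)) ≤ 1 := by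
  classical
  induction T using Finset.induction_on with
  | empty => simp
  | insert p T hp ih =>
    obtain ⟨h1, h2, h3⟩ := ih fun q hq => hT q (mem_insert_of_mem hq)
    have h4 : (2 : ℝ) ≤ p := by exact_mod_cast hT p (mem_insert_self _ _)
    have h5 : 1 / (p : ℝ) ≤ 1 / 2 := one_div_le_one_div_of_le (by norm_num) h4
    have h6 : 0 < 1 / (p : ℝ) := by positivity
    rw [sum_insert hp, prod_insert hp]
    refine ⟨?_, mul_pos (by linarith) h2, ?_⟩
    · nlinarith only [h1, h3, h5, h6]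
    · nlinarith only [h2, h3, h6]

/-- conditions -/
theorem ev_ru (y0 : ℝ) (Y1 : ℕ) : ∀ᶠ X : ℕ in atTop, 3 ≤ X ∧ 4000 ≤ Real.log X ∧
    20 ≤ Real.log (Real.log X) ∧ 4 ≤ Real.log (Real.log (Real.log X)) ∧
    2 ≤ Real.log (Real.log (Real.log (Real.log X))) ∧ Y1 ≤ yy X ∧
    y0 ≤ ((yy X : ℕ) : ℝ) ∧ Real.log X ≤ 2000 * ((yy X : ℕ) : ℝ) := by
  have t1 := Real.tendsto_log_atTop
  have t2 := t1.comp t1
  have t3 := t1.comp t2
  have t4 := t1.comp t3
  have hN := tendsto_natCast_atTop_atTop (R := ℝ)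
  filter_upwards [Pool.Agent.Y835.SG.evX 1 1 one_pos (max Y1 ⌈y0⌉₊),
    hN.eventually (t2.eventually_ge_atTop 20), hN.eventually (t3.eventually_ge_atTop 4),
    hN.eventually (t4.eventually_ge_atTop 2)] with X ⟨a1, a2, _, a4, a5, _⟩ b1 b2 b3
  refine ⟨a1, a2, b1, b2, b3, (le_max_left _ _).trans a4, ?_, a5⟩
  have h1 : ⌈y0⌉₊ ≤ yy X := (le_max_right _ _).trans a4
  exact (Nat.le_ceil _).trans (by exact_mod_cast h1)

open Classical in
theorem rank : ∃ C : ℝ, 0 < C ∧ ∃ X0 : ℕ, ∀ X : ℕ, X0 ≤ X → ∀ (Z ps : ℕ) (S : Finset ℕ),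
    GoodP Z ps → GoodS X S → ∀ U z : ℕ, Real.log (Real.log X) ^ 2 ≤ z →
    Real.log z ≤ Real.log (Real.log X) * Real.log (Real.log (Real.log (Real.log X))) /
      (40 * Real.log (Real.log (Real.log X))) → 2 * Real.log X ≤ U →
    ∃ b : ℕ → ℕ, (∀ p ∈ PW X S ps, z < p → b p = 0) ∧
      (((Icc 1 U).filter (fun h => ∀ p ∈ PW X S ps, ¬ h ≡ b p [MOD p])).card : ℝ) ≤
        C * (U * min 1 (Real.log (U / Real.log X) / Real.log z) / Real.log (Real.log X)) := by
  obtain ⟨Cm, Y1, hCm, hY1, HM⟩ := medium_count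
  obtain ⟨C5, hC5, HU⟩ := Pool.Agent.Y835.SF.V_upper
  obtain ⟨y0, HS⟩ := Pool.Agent.H398R2.RK.smooth_count
  obtain ⟨X1, hX1⟩ := (ev_ru y0 Y1).exists_forall_of_atTop
  refine ⟨4 * C5 * (2 * (20 * Cm + 20)), by positivity, X1,
    fun X hX Z ps S hps hS U z hz hlz hU => ?_⟩
  obtain ⟨g1, g2, g3, g4, g5, g6, g7, g8⟩ := hX1 X hX
  obtain ⟨L, hL⟩ : ∃ L : ℝ, L = Real.log (X : ℝ) := ⟨_, rfl⟩
  rw [← hL] at g2 g3 g4 g5 g8 hz hlz hU ⊢
  obtain ⟨l, hl⟩ : ∃ l : ℝ, l = Real.log L := ⟨_, rfl⟩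
  rw [← hl] at g3 g4 g5 hz hlz ⊢
  obtain ⟨a, ha⟩ : ∃ a : ℝ, a = Real.log l := ⟨_, rfl⟩
  rw [← ha] at g4 g5 hlz
  obtain ⟨b, hb⟩ : ∃ b : ℝ, b = Real.log a := ⟨_, rfl⟩
  rw [← hb] at g5 hlz
  have hL0 : 0 < L := by linarith
  have hl0 : 0 < l := by linarith
  have ha0 : 0 < a := by linarith
  have hb0 : 0 < b := by linarith
  have hlog2 : Real.log 2 ≤ 1 := by
    have := Real.log_le_sub_one_of_pos (show (0 : ℝ) < 2 by norm_num)
    linarith
  have hlog2' : 1 / 2 ≤ Real.log 2 := by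
    have := Real.log_two_gt_d9
    linarith
  obtain ⟨y, hy⟩ : ∃ y : ℕ, y = yy X := ⟨_, rfl⟩
  rw [← hy] at g6 g7 g8
  have hy3 : (3 : ℝ) ≤ y := by exact_mod_cast (by omega : 3 ≤ y)
  have hy0 : (0 : ℝ) < y := by linarith
  have hyL : (y : ℝ) ≤ L / 1000 := by
    rw [hy, hL]
    refine Nat.floor_le ?_
    rw [← hL]
    positivity
  obtain ⟨ly, hly⟩ : ∃ ly : ℝ, ly = Real.log y := ⟨_, rfl⟩
  have hlog2000 : Real.log 2000 ≤ 8 := by
    rw [Real.log_le_iff_le_exp (by norm_num)]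
    have h3 := Real.exp_one_gt_d9
    have h4 : Real.exp 8 = Real.exp 1 ^ 8 := by
      rw [← Real.exp_nat_mul]; norm_num
    rw [h4]
    calc (2000 : ℝ) ≤ 2.7 ^ 8 := by norm_num
      _ ≤ Real.exp 1 ^ 8 := pow_le_pow_left₀ (by norm_num) (by linarith) 8
  have hly1 : l / 2 ≤ ly := by
    have h1 : Real.log L ≤ Real.log (2000 * y) := Real.log_le_log hL0 g8
    rw [Real.log_mul (by norm_num) hy0.ne', ← hl, ← hly] at h1
    linarith
  have hly2 : ly ≤ l := by
    rw [hly, hl]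
    exact Real.log_le_log hy0 (by linarith)
  have hly0 : 0 < ly := by linarith
  obtain ⟨t, ht⟩ : ∃ t : ℝ, t = Real.log ly := ⟨_, rfl⟩
  have ht1 : a / 2 ≤ t := by
    have h1 : a - Real.log 2 ≤ t := by
      rw [ht, ha, ← Real.log_div hl0.ne' (by norm_num)]
      exact Real.log_le_log (by positivity) hly1
    linarith
  have ht2 : t ≤ a := by
    rw [ht, ha]
    exact Real.log_le_log hly0 hly2
  have ht0 : 0 < t := by linarith
  obtain ⟨lt, hlt⟩ : ∃ lt : ℝ, lt = Real.log t := ⟨_, rfl⟩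
  have hlt1 : b / 2 ≤ lt := by
    have h1 : b - Real.log 2 ≤ lt := by
      rw [hlt, hb, ← Real.log_div ha0.ne' (by norm_num)]
      exact Real.log_le_log (by positivity) ht1
    linarith
  have hlt0 : 0 < lt := by linarith
  have hz0 : (400 : ℝ) ≤ z := by nlinarith only [hz, g3]
  have hz2 : 2 ≤ z := by
    have : (2 : ℝ) ≤ z := by linarith
    exact_mod_cast this
  obtain ⟨lz, hlzd⟩ : ∃ lz : ℝ, lz = Real.log z := ⟨_, rfl⟩
  rw [← hlzd] at hlz
  have hlz1 : 1 ≤ lz := by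
    rw [hlzd, Real.le_log_iff_exp_le (by linarith)]
    have := Real.exp_one_lt_d9
    linarith
  have hlz0 : 0 < lz := by linarith
  have hV0 : lz ≤ ly * lt / (10 * t) := by
    refine hlz.trans ?_
    rw [div_le_div_iff₀ (by positivity) (by positivity)]
    have h1 : l * b ≤ (2 * ly) * (2 * lt) :=
      mul_le_mul (by linarith) (by linarith) hb0.le (by positivity)
    calc l * b * (10 * t) ≤ (2 * ly) * (2 * lt) * (10 * a) :=
          mul_le_mul h1 (by linarith) (by positivity) (by positivity)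
      _ = ly * lt * (40 * a) := by ring
  have hzy : z ≤ y := by
    have h1 : lt ≤ t := by
      have := Real.log_le_sub_one_of_pos ht0
      rw [hlt]; linarith
    have h2 : ly * lt / (10 * t) ≤ ly := by
      rw [div_le_iff₀ (by positivity)]
      refine mul_le_mul_of_nonneg_left ?_ hly0.le
      linarith
    have h3 : Real.log z ≤ Real.log y := by rw [← hly, ← hlzd]; linarith
    have h4 : (z : ℝ) ≤ y := (Real.log_le_log_iff (by linarith) hy0).1 h3
    exact_mod_cast h4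
  have hUr : (y : ℝ) ≤ U := by linarith
  have hyU : y ≤ U := by exact_mod_cast hUr
  have hU0 : (0 : ℝ) < U := by linarith
  obtain ⟨lu, hlu⟩ : ∃ lu : ℝ, lu = Real.log (U / L) := ⟨_, rfl⟩
  have hlu1 : 1 / 2 ≤ lu := by
    refine hlog2'.trans ?_
    rw [hlu]
    refine Real.log_le_log (by norm_num) ?_
    rw [le_div_iff₀ hL0]
    exact hU
  have hlu0 : 0 < lu := by linarith
  -- the exceptional primes
  have hTsum : ∑ t ∈ (insert ps S).filter (fun t => z < t), (U : ℝ) / t ≤ U * (7 / l ^ 2) := by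
    have h2 : ∑ t ∈ (insert ps S).filter (fun t => z < t), (U : ℝ) / t =
        U * ∑ t ∈ (insert ps S).filter (fun t => z < t), 1 / (t : ℝ) := by
      rw [mul_sum]
      refine sum_congr rfl fun t _ => ?_
      ring
    rw [h2]
    refine mul_le_mul_of_nonneg_left ?_ hU0.le
    -- directly
    have h3 : ∑ t ∈ (insert ps S).filter (fun t => z < t), 1 / (t : ℝ) ≤
        ∑ t ∈ S, 1 / (t : ℝ) + ∑ t ∈ ({ps} : Finset ℕ).filter (fun t => z < t), 1 / (t : ℝ) := by
      have hsub : (insert ps S).filter (fun t => z < t) ⊆ S ∪ ({ps} : Finset ℕ).filter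
          (fun t => z < t) := by
        intro p hp
        rw [mem_filter, mem_insert] at hp
        rw [mem_union, mem_filter, mem_singleton]
        rcases hp.1 with h | h
        · exact Or.inr ⟨h, hp.2⟩
        · exact Or.inl h
      refine (sum_le_sum_of_subset_of_nonneg hsub fun _ _ _ => by positivity).trans ?_
      rw [← sum_union_inter]
      have : 0 ≤ ∑ p ∈ S ∩ ({ps} : Finset ℕ).filter (fun p => z < p), 1 / (p : ℝ) :=
        sum_nonneg fun _ _ => by positivity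
      linarith
    have hl2 : 0 < l ^ 2 := by positivity
    have h4 : ∑ p ∈ ({ps} : Finset ℕ).filter (fun p => z < p), 1 / (p : ℝ) ≤ 1 / l ^ 2 := by
      rw [filter_singleton]
      split_ifs with h4
      · rw [sum_singleton]
        refine one_div_le_one_div_of_le hl2 (hz.trans ?_)
        exact_mod_cast h4.le
      · rw [sum_empty]
        positivity
    have h5 := hS.2
    rw [← hL, ← hl] at h5
    have e1 : 7 / l ^ 2 = 6 / l ^ 2 + 1 / l ^ 2 := by ring
    rw [e1]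
    exact h3.trans (add_le_add h5 h4)
  -- the smooth numbers
  have hsm : (((Icc 1 U).filter (fun h => ∀ p : ℕ, p.Prime → p ∣ h → p ≤ z)).card : ℝ) ≤
      U / ly ^ 3 := by
    have h1 := HS y g7 U hUr
    rw [← hly, ← ht, ← hlt] at h1
    refine le_trans (Nat.cast_le.2 (card_le_card fun h hh => ?_)) h1
    rw [mem_filter] at hh ⊢
    refine ⟨hh.1, fun p hp hd => ?_⟩
    have h2 := hh.2 p hp hd
    have h3 : Real.log p ≤ lz := by
      rw [hlzd]
      exact Real.log_le_log (by exact_mod_cast hp.pos) (by exact_mod_cast h2)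
    exact h3.trans hV0
  have hmed := HM y z U g6 hyU hz2 hzy (insert ps S)
  rw [← hly, ← hlzd] at hmed
  obtain ⟨R0, hR0⟩ : ∃ R0 : Finset ℕ, R0 = (Icc 1 U).filter
    (fun h => ∀ p : ℕ, p.Prime → z < p → p ≤ y → p ∉ insert ps S → ¬ p ∣ h) := ⟨_, rfl⟩
  rw [← hR0] at hmed
  -- the greedy step
  obtain ⟨P1, hP1⟩ : ∃ P1 : Finset ℕ, P1 = (PW X S ps).filter (fun p => p ≤ z) := ⟨_, rfl⟩
  have hPWm : ∀ p, p ∈ PW X S ps ↔ p ≤ y ∧ p.Prime ∧ p ∉ S ∧ p ≠ ps := by
    intro p
    rw [hy]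
    exact Pool.Agent.H378R2.mem_PW
  obtain ⟨b', hb'1, hb'2⟩ := Pool.Agent.H398R2.RK.greedy_all P1 (fun p hp => by
    rw [hP1, mem_filter] at hp
    exact ((hPWm p).1 hp.1).2.1) R0
  have hprod : ∏ p ∈ P1, (1 - 1 / (p : ℝ)) ≤ 4 * C5 / lz := by
    obtain ⟨Q, hQ⟩ : ∃ Q : Finset ℕ, Q = (Icc 1 z).filter Nat.Prime := ⟨_, rfl⟩
    have h1 := HU z hz2
    rw [← hQ, ← hlzd] at h1
    have hsub : P1 ⊆ Q := by
      intro p hp
      rw [hP1, mem_filter, hPWm] at hp
      rw [hQ, mem_filter, mem_Icc]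
      exact ⟨⟨hp.1.2.1.pos, hp.2⟩, hp.1.2.1⟩
    have h2 := prod_sdiff (f := fun p : ℕ => (1 - 1 / (p : ℝ))) hsub
    have hQ2 : ∀ p ∈ Q \ P1, 2 ≤ p := by
      intro p hp
      rw [Finset.mem_sdiff, hQ, mem_filter] at hp
      exact hp.1.2.two_le
    have h3 : 1 / 4 ≤ ∏ p ∈ Q \ P1, (1 - 1 / (p : ℝ)) := by
      have h4 : Q \ P1 = ((Q \ P1).filter (fun p => p ∈ S)) ∪ ((Q \ P1).filter (fun p => p ∉ S)) :=
        (filter_union_filter_not_eq _ _).symm
      rw [h4, prod_union (disjoint_filter_filter_not _ _ _)]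
      have h5 : 1 / 2 ≤ ∏ p ∈ (Q \ P1).filter (fun p => p ∈ S), (1 - 1 / (p : ℝ)) := by
        have h6 := (prod_low ((Q \ P1).filter (fun p => p ∈ S)) fun p hp =>
          hQ2 p (mem_filter.1 hp).1).1
        have h7 : ∑ p ∈ (Q \ P1).filter (fun p => p ∈ S), 1 / (p : ℝ) ≤ ∑ p ∈ S, 1 / (p : ℝ) :=
          sum_le_sum_of_subset_of_nonneg (fun p hp => (mem_filter.1 hp).2) fun _ _ _ => by
            positivity
        have h8 := hS.2
        rw [← hL, ← hl] at h8
        have h9 : 6 / l ^ 2 ≤ 1 / 2 := by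
          rw [div_le_iff₀ (by positivity)]
          nlinarith only [g3]
        linarith
      have h6 : 1 / 2 ≤ ∏ p ∈ (Q \ P1).filter (fun p => p ∉ S), (1 - 1 / (p : ℝ)) := by
        have h7 : (Q \ P1).filter (fun p => p ∉ S) ⊆ {ps} := by
          intro p hp
          rw [mem_filter, Finset.mem_sdiff, hQ, mem_filter, mem_Icc, hP1, mem_filter, hPWm] at hp
          rw [mem_singleton]
          by_contra hne
          exact hp.1.2 ⟨⟨by omega, hp.1.1.2, hp.2, hne⟩, hp.1.1.1.2⟩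
        rcases subset_singleton_iff.1 h7 with h8 | h8
        · rw [h8, prod_empty]; norm_num
        · have h9 : 2 ≤ ps := by
            have h10 : ps ∈ (Q \ P1).filter (fun p => p ∉ S) := by rw [h8]; exact mem_singleton_self _
            exact hQ2 ps (mem_filter.1 h10).1
          rw [h8, prod_singleton]
          have h10 : (2 : ℝ) ≤ ps := by exact_mod_cast h9
          have h11 : 1 / (ps : ℝ) ≤ 1 / 2 := one_div_le_one_div_of_le (by norm_num) h10
          linarith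
      calc (1 : ℝ) / 4 = 1 / 2 * (1 / 2) := by norm_num
        _ ≤ _ := mul_le_mul h5 h6 (by norm_num) (by linarith)
    have h4 : 0 ≤ ∏ p ∈ P1, (1 - 1 / (p : ℝ)) := (prod_low P1 (fun p hp => by
      rw [hP1, mem_filter, hPWm] at hp
      exact hp.1.2.1.two_le)).2.1.le
    have h5 : 1 / 4 * ∏ p ∈ P1, (1 - 1 / (p : ℝ)) ≤ C5 / lz := by
      refine le_trans ?_ (h2.le.trans h1)
      exact mul_le_mul_of_nonneg_right h3 h4
    have h6 : 4 * C5 / lz = 4 * (C5 / lz) := by ring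
    rw [h6]
    linarith
  refine ⟨fun p => if p ≤ z then b' p else 0, ?_, ?_⟩
  · intro p _ hzp
    simp only
    rw [if_neg (by omega)]
  have hsub : (Icc 1 U).filter (fun h => ∀ p ∈ PW X S ps, ¬ h ≡ (if p ≤ z then b' p else 0) [MOD p]) ⊆
      R0.filter (fun k => ∀ p ∈ P1, ¬ k ≡ b' p [MOD p]) := by
    intro h hh
    rw [mem_filter] at hh
    rw [mem_filter, hR0, mem_filter]
    refine ⟨⟨hh.1, fun p hp hzp hpy hpT => ?_⟩, fun p hp => ?_⟩
    · rw [mem_insert, not_or] at hpT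
      have h1 := hh.2 p ((hPWm p).2 ⟨hpy, hp, hpT.2, hpT.1⟩)
      rw [if_neg (by omega)] at h1
      intro hd
      exact h1 ((Nat.modEq_zero_iff_dvd).2 hd)
    · rw [hP1, mem_filter] at hp
      have h1 := hh.2 p hp.1
      rwa [if_pos hp.2] at h1
  refine (Nat.cast_le.2 (card_le_card hsub)).trans (hb'2.trans ?_)
  -- arithmetic
  obtain ⟨mm, hmm⟩ : ∃ mm : ℝ, mm = min lu lz := ⟨_, rfl⟩
  have hmm1 : 1 / 2 ≤ mm := by rw [hmm]; exact le_min hlu1 (by linarith)
  have hmm0 : 0 < mm := by linarith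
  have hgain : min 1 (Real.log (U / L) / lz) = mm / lz := by
    rw [hmm, ← hlu]
    rcases le_total lu lz with h | h
    · rw [min_eq_left h, min_eq_right]
      rw [div_le_one hlz0]
      exact h
    · rw [min_eq_right h, div_self hlz0.ne', min_eq_left]
      rw [le_div_iff₀ hlz0]
      linarith
  rw [← hlzd, hgain]
  have hlUy : Real.log ((U : ℝ) / y) ≤ 8 + lu := by
    have h1 : (U : ℝ) / y ≤ 2000 * (U / L) := by
      rw [div_le_iff₀ hy0]
      have h2 : 1 ≤ 2000 * y / L := by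
        rw [le_div_iff₀ hL0]; linarith
      calc (U : ℝ) = U * 1 := by ring
        _ ≤ U * (2000 * y / L) := mul_le_mul_of_nonneg_left h2 hU0.le
        _ = 2000 * (U / L) * y := by ring
    have h2 := Real.log_le_log (by positivity) h1
    rw [Real.log_mul (by norm_num) (by positivity), ← hlu] at h2
    linarith
  have hmin : min (1 + Real.log ((U : ℝ) / y)) lz ≤ 20 * mm := by
    rw [hmm]
    rcases le_total lu lz with h | h
    · rw [min_eq_left h]
      refine (min_le_left _ _).trans ?_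
      linarith
    · rw [min_eq_right h]
      refine (min_le_right _ _).trans ?_
      linarith
  have hsm2 : (U : ℝ) / ly ^ 3 ≤ U / ly * (2 * mm) := by
    have h1 : (U : ℝ) / ly ^ 3 = U / ly * (1 / ly ^ 2) := by
      field_simp
    rw [h1]
    refine mul_le_mul_of_nonneg_left ?_ (by positivity)
    have h2 : 1 / ly ^ 2 ≤ 1 := by
      rw [div_le_one (by positivity)]
      nlinarith only [hly1, g3]
    linarith
  have hT2 : (U : ℝ) * (7 / l ^ 2) ≤ U / ly * (14 * mm) := by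
    have h1 : (U : ℝ) * (7 / l ^ 2) ≤ U / ly * 7 := by
      have h2 : 7 / l ^ 2 ≤ 7 / ly := by
        refine div_le_div_of_nonneg_left (by norm_num) hly0 ?_
        nlinarith only [hly2, g3]
      calc (U : ℝ) * (7 / l ^ 2) ≤ U * (7 / ly) := mul_le_mul_of_nonneg_left h2 hU0.le
        _ = U / ly * 7 := by ring
    refine h1.trans (mul_le_mul_of_nonneg_left (by linarith) (by positivity))
  have hR0c : (R0.card : ℝ) ≤ U / ly * ((20 * Cm + 20) * mm) := by
    have h1 : Cm * (U / ly) * min (1 + Real.log ((U : ℝ) / y)) lz ≤ Cm * (U / ly) * (20 * mm) :=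
      mul_le_mul_of_nonneg_left hmin (by positivity)
    have h2 : (U : ℝ) / ly * ((20 * Cm + 20) * mm) =
        Cm * (U / ly) * (20 * mm) + U / ly * (2 * mm) + U / ly * (14 * mm) + U / ly * (4 * mm) := by
      ring
    have h3 : 0 ≤ U / ly * (4 * mm) := by positivity
    rw [h2]
    linarith
  calc (R0.card : ℝ) * ∏ p ∈ P1, (1 - 1 / (p : ℝ)) ≤
        (U / ly * ((20 * Cm + 20) * mm)) * (4 * C5 / lz) := by
        refine mul_le_mul hR0c hprod ?_ (by positivity)
        exact (prod_low P1 (fun p hp => by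
          rw [hP1, mem_filter, hPWm] at hp
          exact hp.1.2.1.two_le)).2.1.le
    _ ≤ (U * (2 / l) * ((20 * Cm + 20) * mm)) * (4 * C5 / lz) := by
        refine mul_le_mul_of_nonneg_right (mul_le_mul_of_nonneg_right ?_ (by positivity))
          (by positivity)
        have h1 : (1 : ℝ) / ly ≤ 2 / l := by
          rw [div_le_div_iff₀ hly0 hl0]
          linarith
        calc (U : ℝ) / ly = U * (1 / ly) := by ring
          _ ≤ U * (2 / l) := mul_le_mul_of_nonneg_left h1 hU0.le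
    _ = 4 * C5 * (2 * (20 * Cm + 20)) * (U * (mm / lz) / l) := by
        field_simp

end Pool.Agent.Y835.SU
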