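import Pool.Agent.Y835.SF.Fib
import Pool.Agent.Y835.SB.Fin

/-!
The capacity of square weights: the main inequality with all parameters, with the mean value of the number
of survivors of the small primes in place of a pointwise bound.
-/

set_option autoImplicit false

namespace Pool.Agent.Y835.SF

open Finset Pool.Agent.Y835.SB

open Classical in
/-- the main inequality with all parameters -/
theorem core3 {cV : ℝ} (hcV : 0 < cV) {Y U T : ℕ} (hY : 2 ≤ Y) (hT : 1 ≤ T) {R r Λ : ℝ} (hr0 : 0 ≤ r)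
    (hΛ1 : 1 ≤ Λ) {P : Finset ℕ} (hP : ∀ p ∈ P, p.Prime)
    (HV : ∀ p : ℕ, p.Prime → Y < p → cV * (Real.log Y / Real.log p) ≤
      ∏ q ∈ (P.filter (fun q : ℕ => Y < q)).filter (fun q => q < p), (1 - 1 / (q : ℝ)))
    (hΛ : ∑ p ∈ (P.filter (fun p : ℕ => Y < p)).filter (fun p : ℕ => (p : ℝ) ≤ R),
      1 / (p : ℝ) ≤ Λ)
    (hΛU : ∑ p ∈ P.filter (fun p : ℕ => Y < p ∧ p ≤ T), 1 / (p : ℝ) ≤ 1 / 8)
    {ι : Type} (I : Finset ι) (d : ι → ℕ) (f : ι → ℕ → ℝ)
    (hf : ∀ i ∈ I, 0 < d i ∧ (d i : ℝ) ≤ R ∧ Function.Periodic (f i) (d i)) {N : ℕ} (hN : 0 < N)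
    (hPN : ∀ p ∈ P, p ∣ N) (hIN : ∀ i ∈ I, d i ∣ N)
    (hr : ∀ n : ℕ, (∑ i ∈ I, f i n) ≠ 0 → ∀ p ∈ P, Y < p → p ≤ T → (∃ i ∈ I, p ∣ d i) →
      (((Icc 1 U).filter (fun h => p ∣ n + h ∧ ∀ q ∈ P, q ≤ Y → ¬ q ∣ n + h)).card : ℝ) ≤ r) :
    (∏ p ∈ P.filter (fun p : ℕ => Y < p), (1 - 1 / (p : ℝ))) *
      (3 / 4 * ∑ n ∈ range N, (∑ i ∈ I, f i n) ^ 2 *
        (((Icc 1 U).filter (fun h => ∀ p ∈ P, p ≤ Y → ¬ p ∣ n + h)).card : ℝ) -
      1 / (cV * Real.log Y) * (5 * r + (U / T + 1) * (1 + 32 * Λ)) * Real.log R *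
        ∑ n ∈ range N, (∑ i ∈ I, f i n) ^ 2) ≤
      ∑ n ∈ range N, (∑ i ∈ I, f i n) ^ 2 *
        (((Icc 1 U).filter (fun h => ∀ p ∈ P, ¬ p ∣ n + h)).card : ℝ) := by
  set Q := P.filter (fun p : ℕ => Y < p) with hQ
  set M : ℕ → ℕ := fun p => N / p ^ N.factorization p with hM
  set K : ℕ → ℕ := fun p => p ^ N.factorization p with hK
  set V : ℕ → ℝ := ∑ i ∈ I, f i with hV
  have hVn : ∀ n, V n = ∑ i ∈ I, f i n := fun n => by rw [hV, Finset.sum_apply]
  have hQm : ∀ p ∈ Q, p.Prime ∧ p ∣ N := fun p hp =>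
    ⟨hP p (mem_filter.1 hp).1, hPN p (mem_filter.1 hp).1⟩
  have hD : Dat N M K Q := dat_of hN hQm
  have hfN : ∀ i ∈ I, Function.Periodic (f i) N := fun i hi => per_of_dvd (hf i hi).2.2 (hIN i hi)
  have hVN : Function.Periodic V N := by
    intro n
    rw [hVn, hVn]
    exact sum_congr rfl fun i hi => hfN i hi n
  have hfM : ∀ i ∈ I, ∀ p ∈ Q, ¬ p ∣ d i → Function.Periodic (f i) (M p) := fun i hi p hp hpd =>
    per_of_dvd (hf i hi).2.2 (dvd_compl (hQm p hp).1 (hIN i hi) hpd)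
  have hVM' : ∀ p ∈ Q, (¬ ∃ i ∈ I, p ∣ d i) → Function.Periodic V (M p) := by
    intro p hp hpR n
    rw [hVn, hVn]
    exact sum_congr rfl fun i hi => hfM i hi p hp (fun hpd => hpR ⟨i, hi, hpd⟩) n
  have hVM : ∀ p ∈ Q, R < (p : ℝ) → Function.Periodic V (M p) := by
    intro p hp hpR
    refine hVM' p hp ?_
    rintro ⟨i, hi, hpd⟩
    have h1 : p ≤ d i := Nat.le_of_dvd (hf i hi).1 hpd
    have h2 : (p : ℝ) ≤ d i := by exact_mod_cast h1
    linarith [(hf i hi).2.1]
  -- level inequality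
  have hlev : ∑ p ∈ Q, Real.log p * SS N (V - Av (M p) (K p) V) ≤ Real.log R * SS N V := by
    refine anova N M K (fun i => (d i).primeFactors) Q (fun p hp =>
      ⟨hD.mul p hp, hD.Kpos hp, (hQm p hp).1.pos⟩) I f R fun i hi => ⟨hfN i hi, ?_, ?_⟩
    · intro p hp hpd
      refine hfM i hi p hp fun h1 => hpd ?_
      exact Nat.mem_primeFactors.2 ⟨(hQm p hp).1, h1, (hf i hi).1.ne'⟩
    · have h1 : ∏ p ∈ Q.filter (fun p => p ∈ (d i).primeFactors), p ∣ d i := by
        have h2 : ∏ p ∈ Q.filter (fun p => p ∈ (d i).primeFactors), p ∣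
            ∏ p ∈ (d i).primeFactors, p :=
          prod_dvd_prod_of_subset _ _ _ fun p hp => (mem_filter.1 hp).2
        exact h2.trans (Nat.prod_primeFactors_dvd (d i))
      have h3 := Nat.le_of_dvd (hf i hi).1 h1
      have h4 : ((∏ p ∈ Q.filter (fun p => p ∈ (d i).primeFactors), p : ℕ) : ℝ) ≤ d i := by
        exact_mod_cast h3
      rw [Nat.cast_prod] at h4
      exact h4.trans (hf i hi).2.1
  -- the recursion for every site
  have hlY : 0 < Real.log Y := Real.log_pos (by exact_mod_cast (by omega : 1 < Y))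
  set τ : ℕ → ℝ := fun p => if p ≤ T then 1 else 1 / (8 * Λ) with hτ
  have hτ0 : ∀ p, 0 < τ p := fun p => by
    simp only [hτ]
    split_ifs
    · norm_num
    · positivity
  have hτ1 : ∀ p, τ p ≤ 1 := fun p => by
    simp only [hτ]
    split_ifs
    · exact le_rfl
    · rw [div_le_one (by positivity)]
      linarith
  set L : ℕ → ℝ := fun p => 1 / (cV * Real.log Y) * Real.log p with hL
  have hL0 : ∀ p, 0 ≤ L p := fun p => mul_nonneg (by positivity) (Real.log_natCast_nonneg p)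
  set s : ℕ → ℕ → ℝ := fun h n => if ∀ p ∈ P, p ≤ Y → ¬ p ∣ n + h then 1 else 0 with hs
  have hs0 : ∀ h n, 0 ≤ s h n := fun h n => by simp only [hs]; split_ifs <;> norm_num
  have hs1 : ∀ h n, s h n ≤ 1 := fun h n => by simp only [hs]; split_ifs <;> norm_num
  have hsM : ∀ h, ∀ p ∈ Q, Function.Periodic (s h) (M p) := by
    intro h p hp n
    simp only [hs]
    refine if_congr ?_ rfl rfl
    refine forall₂_congr fun q hq => forall_congr' fun hqY => not_congr ?_
    have h1 : q ∣ M p := by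
      have h2 : q ≠ p := by
        rintro rfl
        have := (mem_filter.1 hp).2
        omega
      refine dvd_compl (hQm p hp).1 (hPN q hq) fun h3 => h2 ?_
      exact ((Nat.prime_dvd_prime_iff_eq (hQm p hp).1 (hP q hq)).1 h3).symm
    have e : n + M p + h = n + h + M p := by ring
    rw [e]
    exact (Nat.dvd_add_iff_left h1).symm
  have hLp : ∀ p ∈ Q, 1 ≤ (∏ q ∈ Q.filter (fun q => q < p), (1 - 1 / (q : ℝ))) * L p := by
    intro p hp
    have hpp := (hQm p hp).1
    have h1 := HV p hpp (mem_filter.1 hp).2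
    have hlp : 0 < Real.log p := Real.log_pos (by exact_mod_cast hpp.one_lt)
    have h2 := mul_le_mul_of_nonneg_right h1 (hL0 p)
    refine le_trans (le_of_eq ?_) h2
    simp only [hL]
    field_simp
  set δ : ℝ := ∏ p ∈ Q, (1 - 1 / (p : ℝ)) with hδ
  have hδ0 : 0 ≤ δ := prod_nonneg fun p hp => by
    have : (2 : ℝ) ≤ p := by exact_mod_cast (hQm p hp).1.two_le
    rw [sub_nonneg, div_le_one (by linarith)]; linarith
  set A : ℝ := ∑ p ∈ Q.filter (fun p : ℕ => (p : ℝ) ≤ R), τ p / p with hA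
  have hA2 : A ≤ 1 / 4 := by
    have h1 : ∀ p ∈ Q.filter (fun p : ℕ => (p : ℝ) ≤ R), τ p / p ≤
        (if p ≤ T then 1 / (p : ℝ) else 0) + 1 / (8 * Λ) * (1 / p) := by
      intro p _
      have h2 : (0 : ℝ) ≤ 1 / (8 * Λ) * (1 / p) := by positivity
      simp only [hτ]
      split_ifs
      · linarith
      · rw [zero_add]
        exact le_of_eq (by ring)
    refine (sum_le_sum h1).trans ?_
    rw [sum_add_distrib, ← mul_sum, ← sum_filter]
    have h2 : ∑ p ∈ (Q.filter (fun p : ℕ => (p : ℝ) ≤ R)).filter (fun p => p ≤ T), 1 / (p : ℝ) ≤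
        1 / 8 := by
      refine le_trans (sum_le_sum_of_subset_of_nonneg ?_ fun _ _ _ => by positivity) hΛU
      intro p hp
      rw [mem_filter, mem_filter, hQ, mem_filter] at hp
      exact mem_filter.2 ⟨hp.1.1.1, hp.1.1.2, hp.2⟩
    have h3 : 1 / (8 * Λ) * ∑ p ∈ Q.filter (fun p : ℕ => (p : ℝ) ≤ R), 1 / (p : ℝ) ≤ 1 / 8 := by
      calc _ ≤ 1 / (8 * Λ) * Λ := mul_le_mul_of_nonneg_left hΛ (by positivity)
        _ = 1 / 8 := by field_simp
    linarith
  have hsite : ∀ h ∈ Icc 1 U, δ * ((1 - A) * XX N V (s h) h ∅ -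
      ∑ p ∈ Q.filter (fun p : ℕ => (p : ℝ) ≤ R), (1 + 4 / τ p) * (L p * yy N M K V (s h) h p)) ≤
      XX N V (s h) h Q := fun h _ =>
    site hVN (hs0 h) (hs1 h) h hτ0 hτ1 L hL0 R Q hD (hsM h) hLp hVM
  have hsum := sum_le_sum hsite
  rw [← mul_sum, sum_sub_distrib, ← mul_sum] at hsum
  -- the right side
  have hright : ∑ h ∈ Icc 1 U, XX N V (s h) h Q = ∑ n ∈ range N, (∑ i ∈ I, f i n) ^ 2 *
        (((Icc 1 U).filter (fun h => ∀ p ∈ P, ¬ p ∣ n + h)).card : ℝ) := by
    unfold XX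
    rw [sum_comm]
    refine sum_congr rfl fun n _ => ?_
    rw [← mul_sum, hVn]
    congr 1
    have h1 : ∀ h ∈ Icc 1 U, (s h n * if ∀ p ∈ Q, ¬ p ∣ n + h then (1 : ℝ) else 0) =
        if ∀ p ∈ P, ¬ p ∣ n + h then (1 : ℝ) else 0 := by
      intro h _
      simp only [hs]
      by_cases h2 : ∀ p ∈ P, ¬ p ∣ n + h
      · rw [if_pos h2, if_pos fun p hp _ => h2 p hp,
          if_pos fun p hp => h2 p (mem_filter.1 hp).1, mul_one]
      · rw [if_neg h2]
        by_cases h3 : ∀ p ∈ P, p ≤ Y → ¬ p ∣ n + h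
        · have h4 : ¬ ∀ p ∈ Q, ¬ p ∣ n + h := by
            intro h5
            apply h2
            intro p hp
            rcases le_or_gt p Y with h6 | h6
            · exact h3 p hp h6
            · exact h5 p (mem_filter.2 ⟨hp, h6⟩)
          rw [if_neg h4, mul_zero]
        · rw [if_neg h3, zero_mul]
    rw [sum_congr rfl h1, sum_boole]
  -- the main term
  have hSS : SS N V = ∑ n ∈ range N, (∑ i ∈ I, f i n) ^ 2 := by
    unfold SS
    exact sum_congr rfl fun n _ => by rw [hVn]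
  have hleft : ∑ h ∈ Icc 1 U, XX N V (s h) h ∅ = ∑ n ∈ range N, (∑ i ∈ I, f i n) ^ 2 *
        (((Icc 1 U).filter (fun h => ∀ p ∈ P, p ≤ Y → ¬ p ∣ n + h)).card : ℝ) := by
    unfold XX
    rw [sum_comm]
    refine sum_congr rfl fun n _ => ?_
    rw [← mul_sum, hVn]
    congr 1
    have h1 : ∀ h ∈ Icc 1 U, (s h n * if ∀ p ∈ (∅ : Finset ℕ), ¬ p ∣ n + h then (1 : ℝ) else 0) =
        if ∀ p ∈ P, p ≤ Y → ¬ p ∣ n + h then (1 : ℝ) else 0 := by
      intro h _
      rw [if_pos (fun p hp => absurd hp (notMem_empty p)), mul_one]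
    rw [sum_congr rfl h1, sum_boole]
  -- the error term
  obtain ⟨B, hB⟩ : ∃ B : ℝ, B = 5 * r + (U / T + 1) * (1 + 32 * Λ) := ⟨_, rfl⟩
  have hB0 : 0 ≤ B := by rw [hB]; positivity
  have herr : ∑ h ∈ Icc 1 U, ∑ p ∈ Q.filter (fun p : ℕ => (p : ℝ) ≤ R),
      (1 + 4 / τ p) * (L p * yy N M K V (s h) h p) ≤
      1 / (cV * Real.log Y) * B * Real.log R * SS N V := by
    rw [sum_comm]
    have h1 : ∀ p ∈ Q.filter (fun p : ℕ => (p : ℝ) ≤ R),
        ∑ h ∈ Icc 1 U, (1 + 4 / τ p) * (L p * yy N M K V (s h) h p) ≤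
        1 / (cV * Real.log Y) * B * (Real.log p * SS N (V - Av (M p) (K p) V)) := by
      intro p hp
      have hpQ := (mem_filter.1 hp).1
      have hYp : Y < p := (mem_filter.1 hpQ).2
      have hpP : p ∈ P := (mem_filter.1 hpQ).1
      have hpp := (hQm p hpQ).1
      have hp0 : 0 < p := hpp.pos
      have hlp : 0 ≤ Real.log p := Real.log_natCast_nonneg p
      rw [← mul_sum, ← mul_sum]
      have hyc : ∑ h ∈ Icc 1 U, yy N M K V (s h) h p = ∑ n ∈ range N,
          (if V n ≠ 0 then (V n - Av (M p) (K p) V n) ^ 2 else 0) *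
          (((Icc 1 U).filter (fun h => p ∣ n + h ∧ ∀ q ∈ P, q ≤ Y → ¬ q ∣ n + h)).card : ℝ) := by
        unfold yy
        rw [sum_comm]
        refine sum_congr rfl fun n _ => ?_
        rw [card_filter]
        push_cast
        rw [mul_sum]
        refine sum_congr rfl fun h _ => ?_
        simp only [hs]
        by_cases h2 : p ∣ n + h
        · by_cases h3 : ∀ q ∈ P, q ≤ Y → ¬ q ∣ n + h
          · rw [if_pos h2, if_pos h3, if_pos (And.intro h2 h3)]
          · have h5 : ¬ (p ∣ n + h ∧ ∀ q ∈ P, q ≤ Y → ¬ q ∣ n + h) := fun h4 => h3 h4.2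
            rw [if_pos h2, if_neg h3, if_neg h5]
        · have h5 : ¬ (p ∣ n + h ∧ ∀ q ∈ P, q ≤ Y → ¬ q ∣ n + h) := fun h4 => h2 h4.1
          rw [if_neg h2, if_neg h5, zero_mul, mul_zero]
      have hSSn : ∀ n ∈ range N, (if V n ≠ 0 then (V n - Av (M p) (K p) V n) ^ 2 else 0) ≤
          ((V - Av (M p) (K p) V) n) ^ 2 := by
        intro n _
        rw [Pi.sub_apply]
        split_ifs
        · exact le_rfl
        · exact sq_nonneg _
      have hifn : ∀ n, 0 ≤ if V n ≠ 0 then (V n - Av (M p) (K p) V n) ^ 2 else 0 := fun n => by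
        split_ifs <;> positivity
      have hkey : (1 + 4 / τ p) * ∑ h ∈ Icc 1 U, yy N M K V (s h) h p ≤
          B * SS N (V - Av (M p) (K p) V) := by
        rw [hyc]
        have hSp : 0 ≤ SS N (V - Av (M p) (K p) V) := SS_nonneg _ _
        by_cases hpU : p ≤ T
        · have e1 : 1 + 4 / τ p = 5 := by
            simp only [hτ]
            rw [if_pos hpU]
            norm_num
          rw [e1]
          by_cases hseen : ∃ i ∈ I, p ∣ d i
          · have h2 : ∑ n ∈ range N, (if V n ≠ 0 then (V n - Av (M p) (K p) V n) ^ 2 else 0) *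
                (((Icc 1 U).filter (fun h => p ∣ n + h ∧ ∀ q ∈ P, q ≤ Y → ¬ q ∣ n + h)).card : ℝ) ≤
                r * SS N (V - Av (M p) (K p) V) := by
              unfold SS
              rw [mul_sum]
              refine sum_le_sum fun n hn => ?_
              rw [mul_comm r]
              by_cases hV0 : V n = 0
              · rw [if_neg (not_not.2 hV0), zero_mul]
                exact mul_nonneg (sq_nonneg _) hr0
              · exact mul_le_mul (hSSn n hn) (hr n (by rwa [← hVn]) p hpP hYp hpU hseen)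
                  (Nat.cast_nonneg _) (sq_nonneg _)
            calc 5 * _ ≤ 5 * (r * SS N (V - Av (M p) (K p) V)) :=
                  mul_le_mul_of_nonneg_left h2 (by norm_num)
              _ = (5 * r) * SS N (V - Av (M p) (K p) V) := by ring
              _ ≤ B * SS N (V - Av (M p) (K p) V) := by
                  refine mul_le_mul_of_nonneg_right ?_ hSp
                  rw [hB]
                  have : 0 ≤ ((U : ℝ) / T + 1) * (1 + 32 * Λ) := by positivity
                  linarith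
          · have h2 : ∀ n, V n - Av (M p) (K p) V n = 0 := fun n => by
              rw [Av_of_per (hD.Kpos hpQ) (hVM' p hpQ hseen), sub_self]
            have h3 : ∑ n ∈ range N, (if V n ≠ 0 then (V n - Av (M p) (K p) V n) ^ 2 else 0) *
                (((Icc 1 U).filter (fun h => p ∣ n + h ∧ ∀ q ∈ P, q ≤ Y → ¬ q ∣ n + h)).card : ℝ) =
                0 := by
              refine sum_eq_zero fun n _ => ?_
              rw [h2 n]
              simp
            rw [h3, mul_zero]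
            exact mul_nonneg hB0 hSp
        · have e1 : 1 + 4 / τ p = 1 + 32 * Λ := by
            simp only [hτ]
            rw [if_neg hpU]
            field_simp
            ring
          rw [e1]
          have h2 : ∑ n ∈ range N, (if V n ≠ 0 then (V n - Av (M p) (K p) V n) ^ 2 else 0) *
                (((Icc 1 U).filter (fun h => p ∣ n + h ∧ ∀ q ∈ P, q ≤ Y → ¬ q ∣ n + h)).card : ℝ) ≤
                (U / T + 1) * SS N (V - Av (M p) (K p) V) := by
            unfold SS
            rw [mul_sum]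
            refine sum_le_sum fun n hn => ?_
            rw [mul_comm ((U : ℝ) / T + 1)]
            refine mul_le_mul (hSSn n hn) ?_ (Nat.cast_nonneg _) (sq_nonneg _)
            have h3 : (((Icc 1 U).filter (fun h => p ∣ n + h ∧
                ∀ q ∈ P, q ≤ Y → ¬ q ∣ n + h)).card : ℝ) ≤
                (((Icc 1 U).filter (fun h => p ∣ n + h)).card : ℝ) := by
              exact_mod_cast card_le_card (fun h hh => by
                rw [mem_filter] at hh ⊢
                exact ⟨hh.1, hh.2.1⟩)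
            refine h3.trans ((hits_le p n U hp0).trans ?_)
            have hT0 : (0 : ℝ) < T := by exact_mod_cast hT
            have h4 : (U : ℝ) / p ≤ U / T :=
              div_le_div_of_nonneg_left (Nat.cast_nonneg U) hT0 (by exact_mod_cast (not_le.1 hpU).le)
            linarith
          calc (1 + 32 * Λ) * _ ≤ (1 + 32 * Λ) * ((U / T + 1) * SS N (V - Av (M p) (K p) V)) :=
                mul_le_mul_of_nonneg_left h2 (by positivity)
            _ = ((U / T + 1) * (1 + 32 * Λ)) * SS N (V - Av (M p) (K p) V) := by ring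
            _ ≤ B * SS N (V - Av (M p) (K p) V) := by
                refine mul_le_mul_of_nonneg_right ?_ hSp
                rw [hB]
                linarith
      calc (1 + 4 / τ p) * (L p * ∑ h ∈ Icc 1 U, yy N M K V (s h) h p) =
            L p * ((1 + 4 / τ p) * ∑ h ∈ Icc 1 U, yy N M K V (s h) h p) := by ring
        _ ≤ L p * (B * SS N (V - Av (M p) (K p) V)) := mul_le_mul_of_nonneg_left hkey (hL0 p)
        _ = _ := by simp only [hL]; ring
    refine (sum_le_sum h1).trans ?_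
    rw [← mul_sum, mul_assoc (1 / (cV * Real.log Y) * B)]
    refine mul_le_mul_of_nonneg_left ?_ (by positivity)
    refine le_trans (sum_le_sum_of_subset_of_nonneg (filter_subset _ _) fun p _ _ =>
      mul_nonneg (Real.log_natCast_nonneg p) (SS_nonneg _ _)) hlev
  have hX0 : 0 ≤ ∑ h ∈ Icc 1 U, XX N V (s h) h ∅ := sum_nonneg fun h _ => XX_nonneg N (hs0 h) h ∅
  rw [hright] at hsum
  rw [← hSS, ← hleft, ← hB]
  refine le_trans ?_ hsum
  have h5 : 3 / 4 * (∑ h ∈ Icc 1 U, XX N V (s h) h ∅) ≤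
      (1 - A) * ∑ h ∈ Icc 1 U, XX N V (s h) h ∅ :=
    mul_le_mul_of_nonneg_right (by linarith) hX0
  have h6 : 3 / 4 * (∑ h ∈ Icc 1 U, XX N V (s h) h ∅) -
      1 / (cV * Real.log Y) * B * Real.log R * SS N V ≤ (1 - A) * (∑ h ∈ Icc 1 U, XX N V (s h) h ∅) -
      ∑ h ∈ Icc 1 U, ∑ p ∈ Q.filter (fun p : ℕ => (p : ℝ) ≤ R),
      (1 + 4 / τ p) * (L p * yy N M K V (s h) h p) := by
    linarith
  refine mul_le_mul_of_nonneg_left ?_ hδ0
  rw [mul_sum] at h6
  rw [mul_sum]
  exact h6

end Pool.Agent.Y835.SF
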