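import Pool.Agent.Y835.SF.Fib

/-!
A lower tail estimate for the number of survivors of the primes of a finite set.
-/

set_option autoImplicit false

namespace Pool.Agent.Y835.SV

open Finset Pool.Agent.Y835.SB

open Classical in
/-- the number of survivors -/
noncomputable def NN (H : Finset ℕ) (s : ℕ → ℕ → ℝ) (T : Finset ℕ) (n : ℕ) : ℝ :=
  ∑ h ∈ H, s h n * (if ∀ p ∈ T, ¬ p ∣ n + h then 1 else 0)

theorem NN_nonneg {H : Finset ℕ} {s : ℕ → ℕ → ℝ} (hs : ∀ h n, 0 ≤ s h n) (T : Finset ℕ) (n : ℕ) :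
    0 ≤ NN H s T n := by
  unfold NN
  exact sum_nonneg fun h _ => mul_nonneg (hs h n) (by split_ifs <;> norm_num)

theorem exp_bd {x : ℝ} (h0 : 0 ≤ x) (h1 : x ≤ 1) : Real.exp x ≤ 1 + x + x ^ 2 := by
  have h := Real.abs_exp_sub_one_sub_id_le (show |x| ≤ 1 by rw [abs_of_nonneg h0]; exact h1)
  have := (abs_le.1 h).2
  linarith

open Classical in
theorem NN_insert {N : ℕ} {M K : ℕ → ℕ} {H : Finset ℕ} {s : ℕ → ℕ → ℝ} {p : ℕ} {T : Finset ℕ}
    (hp : p ∉ T) (hD : Dat N M K (insert p T)) (hsp : ∀ h, Function.Periodic (s h) (M p)) (n t : ℕ) :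
    NN H s (insert p T) (n + M p * t) = NN H s T n -
      ∑ h ∈ H, (s h n * (if ∀ q ∈ T, ¬ q ∣ n + h then 1 else 0)) *
        (if p ∣ n + h + M p * t then 1 else 0) := by
  unfold NN
  rw [← sum_sub_distrib]
  refine sum_congr rfl fun h _ => ?_
  have h1 : s h (n + M p * t) = s h n := by
    have := (hsp h).nat_mul t n
    rwa [Nat.cast_id, mul_comm] at this
  have e : n + M p * t + h = n + h + M p * t := by ring
  have h2 : (∀ q ∈ T, ¬ q ∣ n + M p * t + h) ↔ (∀ q ∈ T, ¬ q ∣ n + h) := by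
    refine forall₂_congr fun q hq => not_congr ?_
    have h3 : q ∣ M p := hD.dvd p (mem_insert_self _ _) q (mem_insert_of_mem hq)
      (fun h4 => hp (h4 ▸ hq))
    rw [e]
    exact (Nat.dvd_add_iff_left (h3.mul_right t)).symm
  rw [h1]
  have h3 : (∀ q ∈ insert p T, ¬ q ∣ n + M p * t + h) ↔
      (¬ p ∣ n + h + M p * t ∧ ∀ q ∈ T, ¬ q ∣ n + h) := by
    rw [forall_mem_insert, h2, e]
  by_cases h4 : p ∣ n + h + M p * t
  · by_cases h5 : ∀ q ∈ T, ¬ q ∣ n + h
    · rw [if_neg (fun h6 => (h3.1 h6).1 h4), if_pos h5, if_pos h4]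
      ring
    · rw [if_neg (fun h6 => h5 (h3.1 h6).2), if_neg h5]
      ring
  · by_cases h5 : ∀ q ∈ T, ¬ q ∣ n + h
    · rw [if_pos (h3.2 ⟨h4, h5⟩), if_pos h5, if_neg h4]
      ring
    · rw [if_neg (fun h6 => h5 (h3.1 h6).2), if_neg h5]
      ring

open Classical in
/-- one prime -/
theorem ld_step {N : ℕ} {M K : ℕ → ℕ} {H : Finset ℕ} {s : ℕ → ℕ → ℝ} (hs0 : ∀ h n, 0 ≤ s h n)
    (hs1 : ∀ h n, s h n ≤ 1) {p : ℕ} {T : Finset ℕ} (hp : p ∉ T) (hD : Dat N M K (insert p T))
    (hsp : ∀ h, Function.Periodic (s h) (M p)) {g : ℕ → ℝ} (hg0 : ∀ n, 0 ≤ g n)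
    (hg : Function.Periodic g (M p)) {r : ℝ}
    (hr : ∀ n : ℕ, ((H.filter (fun h => p ∣ n + h)).card : ℝ) ≤ r) {lam : ℝ} (hl : 0 ≤ lam)
    (hlr : lam * r ≤ 1) :
    ∑ n ∈ range N, g n * Real.exp (-(lam * NN H s (insert p T) n)) ≤
      ∑ n ∈ range N, g n *
        Real.exp (-(lam * (1 - 1 / (p : ℝ)) * (1 - 2 * lam * r / p) * NN H s T n)) := by
  have hpT := mem_insert_self p T
  have hpp := hD.pr p hpT
  obtain ⟨k, hk, hK⟩ := hD.pow p hpT
  have hK0 : 0 < K p := hD.Kpos hpT
  have hKr : (0 : ℝ) < K p := by exact_mod_cast hK0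
  have hp2 : (2 : ℝ) ≤ p := by exact_mod_cast hpp.two_le
  have hp0 : (0 : ℝ) < p := by linarith
  have hr0 : 0 ≤ r := (Nat.cast_nonneg _).trans (hr 0)
  have hMN : M p ∣ N := ⟨K p, (hD.mul p hpT).symm⟩
  have hperN : Function.Periodic (fun n => NN H s (insert p T) n) N := by
    intro n
    have hsN : ∀ h, s h (n + N) = s h n := by
      intro h
      obtain ⟨j, hj⟩ := hMN
      have := (hsp h).nat_mul j n
      rw [Nat.cast_id] at this
      rw [hj, mul_comm]
      exact this
    unfold NN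
    refine sum_congr rfl fun h _ => ?_
    rw [hsN h]
    congr 1
    refine if_congr ?_ rfl rfl
    refine forall₂_congr fun q hq => not_congr ?_
    have h3 : q ∣ N := by
      obtain ⟨k', hk', hK'⟩ := hD.pow q hq
      rw [← hD.mul q hq, hK']
      exact (dvd_pow_self q (by omega)).mul_left _
    have e : n + N + h = n + h + N := by ring
    rw [e]
    exact (Nat.dvd_add_iff_left h3).symm
  have hgN : Function.Periodic g N := by
    intro n
    obtain ⟨j, hj⟩ := hMN
    have := hg.nat_mul j n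
    rw [Nat.cast_id] at this
    rw [hj, mul_comm]
    exact this
  have h1 : ∑ n ∈ range N, g n * Real.exp (-(lam * NN H s (insert p T) n)) =
      ∑ n ∈ range N, Av (M p) (K p) (fun n => Real.exp (-(lam * NN H s (insert p T) n))) n * g n := by
    rw [← sum_Av (M := M p) hK0 (F := fun n => g n * Real.exp (-(lam * NN H s (insert p T) n)))
      (fun n => by
        have := hperN n
        simp only at this
        simp only [hgN n, this])]
    refine sum_congr rfl fun n _ => ?_
    rw [← Av_mul hg]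
    congr 1
    ext n
    ring
  rw [h1]
  refine sum_le_sum fun n _ => ?_
  rw [mul_comm]
  refine mul_le_mul_of_nonneg_left ?_ (hg0 n)
  unfold Av
  obtain ⟨N0, hN0⟩ : ∃ N0 : ℝ, N0 = NN H s T n := ⟨_, rfl⟩
  have hN00 : 0 ≤ N0 := by rw [hN0]; exact NN_nonneg hs0 T n
  obtain ⟨kk, hkk⟩ : ∃ kk : ℕ → ℝ, kk = fun t => ∑ h ∈ H,
    (s h n * (if ∀ q ∈ T, ¬ q ∣ n + h then 1 else 0)) * (if p ∣ n + h + M p * t then 1 else 0) :=
    ⟨_, rfl⟩
  have hcoef : ∀ h, 0 ≤ s h n * (if ∀ q ∈ T, ¬ q ∣ n + h then (1 : ℝ) else 0) ∧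
      s h n * (if ∀ q ∈ T, ¬ q ∣ n + h then (1 : ℝ) else 0) ≤ 1 := by
    intro h
    have := hs0 h n
    have := hs1 h n
    constructor <;> split_ifs <;> linarith
  have hkk0 : ∀ t, 0 ≤ kk t := by
    intro t
    rw [hkk]
    exact sum_nonneg fun h _ => mul_nonneg (hcoef h).1 (by split_ifs <;> norm_num)
  have hkkr : ∀ t, kk t ≤ r := by
    intro t
    refine le_trans ?_ (hr (n + M p * t))
    rw [card_filter, hkk]
    push_cast
    refine sum_le_sum fun h _ => ?_
    have e : n + M p * t + h = n + h + M p * t := by ring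
    rw [e]
    by_cases h4 : p ∣ n + h + M p * t
    · rw [if_pos h4, mul_one]
      exact (hcoef h).2
    · rw [if_neg h4, mul_zero]
  have hval : ∀ t, NN H s (insert p T) (n + M p * t) = N0 - kk t := by
    intro t
    rw [NN_insert hp hD hsp, hN0, hkk]
  have hsumk : ∑ t ∈ range (K p), kk t = N0 * (K p / p) := by
    rw [hkk, sum_comm, hN0]
    unfold NN
    rw [sum_mul]
    refine sum_congr rfl fun h _ => ?_
    rw [← mul_sum]
    congr 1
    rw [sum_boole]
    have h4 := fib_card hpp hK hk (hD.ndvd p hpT) (n + h)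
    rw [eq_div_iff hp0.ne']
    exact_mod_cast h4
  have hterm : ∀ t ∈ range (K p), Real.exp (-(lam * NN H s (insert p T) (n + M p * t))) ≤
      Real.exp (-(lam * N0)) * (1 + lam * (1 + lam * r) * kk t) := by
    intro t _
    rw [hval t]
    have e : -(lam * (N0 - kk t)) = -(lam * N0) + lam * kk t := by ring
    rw [e, Real.exp_add]
    refine mul_le_mul_of_nonneg_left ?_ (Real.exp_pos _).le
    have h5 : 0 ≤ lam * kk t := mul_nonneg hl (hkk0 t)
    have h6 : lam * kk t ≤ lam * r := mul_le_mul_of_nonneg_left (hkkr t) hl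
    refine (exp_bd h5 (h6.trans hlr)).trans ?_
    have h7 : (lam * kk t) ^ 2 ≤ lam * r * (lam * kk t) := by
      rw [sq]
      exact mul_le_mul_of_nonneg_right h6 h5
    linarith
  have h2 : (∑ t ∈ range (K p), Real.exp (-(lam * NN H s (insert p T) (n + M p * t)))) / K p ≤
      Real.exp (-(lam * N0)) * (1 + lam * (1 + lam * r) * (N0 / p)) := by
    rw [div_le_iff₀ hKr]
    refine (sum_le_sum hterm).trans (le_of_eq ?_)
    rw [← mul_sum, sum_add_distrib, ← mul_sum, hsumk, sum_const, card_range, nsmul_eq_mul]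
    field_simp
  refine h2.trans ?_
  rw [← hN0]
  have h3 : 1 + lam * (1 + lam * r) * (N0 / p) ≤ Real.exp (lam * (1 + lam * r) * (N0 / p)) := by
    have := Real.add_one_le_exp (lam * (1 + lam * r) * (N0 / p))
    linarith
  refine (mul_le_mul_of_nonneg_left h3 (Real.exp_pos _).le).trans ?_
  rw [← Real.exp_add]
  refine Real.exp_le_exp.2 ?_
  have h4 : (1 - 1 / (p : ℝ)) * (1 - 2 * lam * r / p) ≤ 1 - (1 + lam * r) / p := by
    have e : 1 - (1 + lam * r) / p - (1 - 1 / (p : ℝ)) * (1 - 2 * lam * r / p) =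
        lam * r / p * (1 - 2 / p) := by
      field_simp
      ring
    have h5 : 0 ≤ lam * r / p * (1 - 2 / p) := by
      refine mul_nonneg (by positivity) ?_
      rw [sub_nonneg, div_le_one hp0]
      exact hp2
    linarith
  have h5 := mul_le_mul_of_nonneg_left h4 (mul_nonneg hl hN00)
  have e2 : -(lam * N0) + lam * (1 + lam * r) * (N0 / p) = -(lam * N0 * (1 - (1 + lam * r) / p)) := by
    field_simp
    ring
  rw [e2]
  have e3 : lam * (1 - 1 / (p : ℝ)) * (1 - 2 * lam * r / p) * N0 =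
      lam * N0 * ((1 - 1 / (p : ℝ)) * (1 - 2 * lam * r / p)) := by ring
  rw [e3]
  linarith

/-- the product over the primes of `T` larger than `p` -/
noncomputable def vv (T : Finset ℕ) (p : ℕ) : ℝ := ∏ q ∈ T.filter (fun q => p < q), (1 - 1 / (q : ℝ))

theorem fac_mem {p : ℕ} (hp : p.Prime) : 0 < 1 - 1 / (p : ℝ) ∧ 1 - 1 / (p : ℝ) ≤ 1 := by
  have h1 : (2 : ℝ) ≤ p := by exact_mod_cast hp.two_le
  have h2 : 1 / (p : ℝ) ≤ 1 / 2 := one_div_le_one_div_of_le (by norm_num) h1
  have h3 : 0 < 1 / (p : ℝ) := by positivity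
  constructor <;> linarith

theorem vv_nonneg {T : Finset ℕ} (hT : ∀ p ∈ T, p.Prime) (p : ℕ) : 0 ≤ vv T p :=
  prod_nonneg fun q hq => (fac_mem (hT q (mem_filter.1 hq).1)).1.le

open Classical in
/-- all primes -/
theorem ld {N : ℕ} {M K : ℕ → ℕ} {H : Finset ℕ} {s : ℕ → ℕ → ℝ} (hs0 : ∀ h n, 0 ≤ s h n)
    (hs1 : ∀ h n, s h n ≤ 1) {g : ℕ → ℝ} (hg0 : ∀ n, 0 ≤ g n) (E : Finset ℕ) (r : ℕ → ℝ)
    (T : Finset ℕ) : Dat N M K T → (∀ p ∈ T, ∀ h, Function.Periodic (s h) (M p)) →
    (∀ p ∈ T, p ∉ E → Function.Periodic g (M p)) →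
    (∀ p ∈ T, ∀ n : ℕ, ((H.filter (fun h => p ∣ n + h)).card : ℝ) ≤ r p) → ∀ lam : ℝ, 0 ≤ lam →
    (∀ p ∈ T, lam * (vv T p * r p) ≤ 1) → 2 * lam * ∑ p ∈ T, vv T p * r p / p ≤ 1 →
    ∑ n ∈ range N, g n * Real.exp (-(lam * NN H s T n)) ≤
      Real.exp (lam * ∑ p ∈ T.filter (fun p => p ∈ E), vv T p * r p) *
      ∑ n ∈ range N, g n * Real.exp (-(lam * (∏ p ∈ T, (1 - 1 / (p : ℝ))) *
        (1 - 2 * lam * ∑ p ∈ T, vv T p * r p / p) * NN H s ∅ n)) := by
  induction T using Finset.induction_on_max with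
  | empty =>
    intro _ _ _ _ lam _ _ _
    simp
  | insert p T hmax ih =>
    intro hD hsp hg hr lam hl hl1 hl2
    have hpT : p ∉ T := fun h1 => lt_irrefl _ (hmax p h1)
    have hself := mem_insert_self p T
    have hsub : T ⊆ insert p T := subset_insert p T
    have hpp := hD.pr p hself
    have hTp : ∀ q ∈ T, q.Prime := fun q hq => hD.pr q (hsub hq)
    have hp2 : (2 : ℝ) ≤ p := by exact_mod_cast hpp.two_le
    have hp0 : (0 : ℝ) < p := by linarith
    obtain ⟨hf0, hf1⟩ := fac_mem hpp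
    have hvp : vv (insert p T) p = 1 := by
      unfold vv
      rw [filter_false_of_mem, prod_empty]
      intro q hq
      rcases mem_insert.1 hq with rfl | h
      · exact lt_irrefl _
      · have := hmax q h
        omega
    have hvq : ∀ q ∈ T, vv (insert p T) q = (1 - 1 / (p : ℝ)) * vv T q := by
      intro q hq
      unfold vv
      rw [filter_insert, if_pos (hmax q hq), prod_insert (fun h1 => hpT (mem_filter.1 h1).1)]
    have hr0 : ∀ q ∈ insert p T, 0 ≤ r q := fun q hq => (Nat.cast_nonneg _).trans (hr q hq 0)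
    obtain ⟨S', hS'⟩ : ∃ S' : ℝ, S' = ∑ q ∈ T, vv T q * r q / q := ⟨_, rfl⟩
    have hS'0 : 0 ≤ S' := by
      rw [hS']
      exact sum_nonneg fun q hq => div_nonneg (mul_nonneg (vv_nonneg hTp q) (hr0 q (hsub hq)))
        (Nat.cast_nonneg _)
    have hSe : ∑ q ∈ insert p T, vv (insert p T) q * r q / q =
        r p / p + (1 - 1 / (p : ℝ)) * S' := by
      rw [sum_insert hpT, hvp, one_mul, hS', mul_sum]
      congr 1
      refine sum_congr rfl fun q hq => ?_
      rw [hvq q hq]
      ring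
    rw [hSe] at hl2
    have hlrp : lam * r p ≤ 1 := by
      have := hl1 p hself
      rwa [hvp, one_mul] at this
    have hx0 : 0 ≤ 2 * lam * r p / p := by
      have := hr0 p hself
      positivity
    have hx1 : 2 * lam * r p / p ≤ 1 := by
      rw [div_le_one hp0]
      linarith
    obtain ⟨lam', hlam'⟩ : ∃ lam' : ℝ, lam' = lam * (1 - 1 / (p : ℝ)) * (1 - 2 * lam * r p / p) :=
      ⟨_, rfl⟩
    have hl'0 : 0 ≤ lam' := by
      rw [hlam']
      exact mul_nonneg (mul_nonneg hl hf0.le) (by linarith)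
    have hl'1 : lam' ≤ lam * (1 - 1 / (p : ℝ)) := by
      rw [hlam']
      exact mul_le_of_le_one_right (mul_nonneg hl hf0.le) (by linarith)
    have hl'2 : lam' ≤ lam := hl'1.trans (mul_le_of_le_one_right hl hf1)
    have hy1 : 2 * lam' * S' ≤ 2 * lam * ((1 - 1 / (p : ℝ)) * S') := by
      have h1 := mul_le_mul_of_nonneg_right hl'1 hS'0
      linarith
    have hrpp : 0 ≤ 2 * lam * (r p / p) := by
      have := hr0 p hself
      positivity
    have hIH := ih (hD.sub hsub) (fun q hq => hsp q (hsub hq)) (fun q hq => hg q (hsub hq))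
      (fun q hq => hr q (hsub hq)) lam' hl'0 (fun q hq => by
        have h1 := hl1 q (hsub hq)
        rw [hvq q hq] at h1
        have h2 : 0 ≤ vv T q * r q := mul_nonneg (vv_nonneg hTp q) (hr0 q (hsub hq))
        have h3 := mul_le_mul_of_nonneg_right hl'1 h2
        linarith) (by
        rw [← hS']
        have h1 : 2 * lam * (r p / p + (1 - 1 / (p : ℝ)) * S') =
            2 * lam * (r p / p) + 2 * lam * ((1 - 1 / (p : ℝ)) * S') := by ring
        linarith)
    rw [← hS'] at hIH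
    -- the exceptional factor
    have hE : lam' * ∑ q ∈ T.filter (fun q => q ∈ E), vv T q * r q ≤
        lam * ∑ q ∈ T.filter (fun q => q ∈ E), vv (insert p T) q * r q := by
      have h1 : ∑ q ∈ T.filter (fun q => q ∈ E), vv (insert p T) q * r q =
          (1 - 1 / (p : ℝ)) * ∑ q ∈ T.filter (fun q => q ∈ E), vv T q * r q := by
        rw [mul_sum]
        refine sum_congr rfl fun q hq => ?_
        rw [hvq q (mem_filter.1 hq).1]
        ring
      rw [h1, ← mul_assoc]
      refine mul_le_mul_of_nonneg_right hl'1 ?_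
      exact sum_nonneg fun q hq => mul_nonneg (vv_nonneg hTp q) (hr0 q (hsub (mem_filter.1 hq).1))
    -- the main exponent
    have hmain : lam * (∏ q ∈ insert p T, (1 - 1 / (q : ℝ))) *
        (1 - 2 * lam * ∑ q ∈ insert p T, vv (insert p T) q * r q / q) ≤
        lam' * (∏ q ∈ T, (1 - 1 / (q : ℝ))) * (1 - 2 * lam' * S') := by
      rw [prod_insert hpT, hSe, hlam']
      have hP0 : 0 ≤ ∏ q ∈ T, (1 - 1 / (q : ℝ)) := prod_nonneg fun q hq => (fac_mem (hTp q hq)).1.le
      have h1 : 1 - 2 * lam * (r p / p + (1 - 1 / (p : ℝ)) * S') ≤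
          (1 - 2 * lam * r p / p) * (1 - 2 * lam' * S') := by
        have h2 : 2 * lam * (r p / p) = 2 * lam * r p / p := by ring
        have h3 : 0 ≤ 2 * lam' * S' := by positivity
        nlinarith only [hy1, hx0, hx1, h2, h3, mul_nonneg hx0 h3]
      have h4 : 0 ≤ lam * (1 - 1 / (p : ℝ)) * ∏ q ∈ T, (1 - 1 / (q : ℝ)) :=
        mul_nonneg (mul_nonneg hl hf0.le) hP0
      have h5 := mul_le_mul_of_nonneg_left h1 h4
      rw [← hlam']
      calc lam * ((1 - 1 / (p : ℝ)) * ∏ q ∈ T, (1 - 1 / (q : ℝ))) *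
            (1 - 2 * lam * (r p / p + (1 - 1 / (p : ℝ)) * S')) =
            lam * (1 - 1 / (p : ℝ)) * (∏ q ∈ T, (1 - 1 / (q : ℝ))) *
            (1 - 2 * lam * (r p / p + (1 - 1 / (p : ℝ)) * S')) := by ring
        _ ≤ lam * (1 - 1 / (p : ℝ)) * (∏ q ∈ T, (1 - 1 / (q : ℝ))) *
            ((1 - 2 * lam * r p / p) * (1 - 2 * lam' * S')) := h5
        _ = lam' * (∏ q ∈ T, (1 - 1 / (q : ℝ))) * (1 - 2 * lam' * S') := by
            rw [hlam']; ring
    have hfin : ∑ n ∈ range N, g n * Real.exp (-(lam' * (∏ p ∈ T, (1 - 1 / (p : ℝ))) *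
        (1 - 2 * lam' * S') * NN H s ∅ n)) ≤
        ∑ n ∈ range N, g n * Real.exp (-(lam * (∏ q ∈ insert p T, (1 - 1 / (q : ℝ))) *
        (1 - 2 * lam * ∑ q ∈ insert p T, vv (insert p T) q * r q / q) * NN H s ∅ n)) := by
      refine sum_le_sum fun n _ => mul_le_mul_of_nonneg_left (Real.exp_le_exp.2 ?_) (hg0 n)
      exact neg_le_neg (mul_le_mul_of_nonneg_right hmain (NN_nonneg hs0 ∅ n))
    have hR0 : 0 ≤ ∑ n ∈ range N, g n * Real.exp (-(lam * (∏ q ∈ insert p T, (1 - 1 / (q : ℝ))) *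
        (1 - 2 * lam * ∑ q ∈ insert p T, vv (insert p T) q * r q / q) * NN H s ∅ n)) :=
      sum_nonneg fun n _ => mul_nonneg (hg0 n) (Real.exp_pos _).le
    by_cases hpE : p ∈ E
    · have h1 : ∑ n ∈ range N, g n * Real.exp (-(lam * NN H s (insert p T) n)) ≤
          Real.exp (lam * r p) * ∑ n ∈ range N, g n * Real.exp (-(lam' * NN H s T n)) := by
        rw [mul_sum]
        refine sum_le_sum fun n _ => ?_
        rw [mul_left_comm]
        refine mul_le_mul_of_nonneg_left ?_ (hg0 n)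
        rw [← Real.exp_add]
        refine Real.exp_le_exp.2 ?_
        have h2 : NN H s T n - r p ≤ NN H s (insert p T) n := by
          have h3 := NN_insert (H := H) (s := s) hpT hD (hsp p hself) n 0
          rw [mul_zero, add_zero] at h3
          rw [h3]
          have h4 : ∑ h ∈ H, (s h n * (if ∀ q ∈ T, ¬ q ∣ n + h then (1 : ℝ) else 0)) *
              (if p ∣ n + h + 0 then 1 else 0) ≤ r p := by
            refine le_trans ?_ (hr p hself n)
            rw [card_filter]
            push_cast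
            refine sum_le_sum fun h _ => ?_
            rw [add_zero]
            have := hs0 h n
            have := hs1 h n
            by_cases h4 : p ∣ n + h
            · rw [if_pos h4, mul_one]
              split_ifs <;> linarith
            · rw [if_neg h4, mul_zero]
          linarith
        have h3 := mul_le_mul_of_nonneg_left h2 hl
        have h4 := mul_le_mul_of_nonneg_right hl'2 (NN_nonneg (H := H) hs0 T n)
        linarith
      refine h1.trans ?_
      rw [filter_insert, if_pos hpE, sum_insert (fun h2 => hpT (mem_filter.1 h2).1), hvp, one_mul]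
      calc Real.exp (lam * r p) * ∑ n ∈ range N, g n * Real.exp (-(lam' * NN H s T n)) ≤
            Real.exp (lam * r p) * (Real.exp (lam' * ∑ q ∈ T.filter (fun q => q ∈ E), vv T q * r q) *
            ∑ n ∈ range N, g n * Real.exp (-(lam' * (∏ p ∈ T, (1 - 1 / (p : ℝ))) *
              (1 - 2 * lam' * S') * NN H s ∅ n))) :=
            mul_le_mul_of_nonneg_left hIH (Real.exp_pos _).le
        _ ≤ Real.exp (lam * r p) * (Real.exp (lam * ∑ q ∈ T.filter (fun q => q ∈ E),
              vv (insert p T) q * r q) *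
            ∑ n ∈ range N, g n * Real.exp (-(lam * (∏ q ∈ insert p T, (1 - 1 / (q : ℝ))) *
              (1 - 2 * lam * ∑ q ∈ insert p T, vv (insert p T) q * r q / q) * NN H s ∅ n))) := by
            refine mul_le_mul_of_nonneg_left ?_ (Real.exp_pos _).le
            refine mul_le_mul (Real.exp_le_exp.2 hE) hfin ?_ (Real.exp_pos _).le
            exact sum_nonneg fun n _ => mul_nonneg (hg0 n) (Real.exp_pos _).le
        _ = _ := by
            rw [← mul_assoc, ← Real.exp_add, ← mul_add]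
    · have h1 := ld_step hs0 hs1 hpT hD (hsp p hself) hg0 (hg p hself hpE) (hr p hself) hl hlrp
      rw [← hlam'] at h1
      refine h1.trans (hIH.trans ?_)
      rw [filter_insert, if_neg hpE]
      refine mul_le_mul (Real.exp_le_exp.2 hE) hfin ?_ (Real.exp_pos _).le
      exact sum_nonneg fun n _ => mul_nonneg (hg0 n) (Real.exp_pos _).le

end Pool.Agent.Y835.SV
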