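import Pool.Agent.Y835.SF.RV2
import Pool.Agent.Y835.SF.RV1

/-!
Few survivors of the primes up to `Y'` are rare.
-/

set_option autoImplicit false

namespace Pool.Agent.Y835.SV

open Finset Pool.Agent.Y835.SB

open Classical in
/-- the survivors of the primes of `P` up to `y` -/
noncomputable def sv (P : Finset ℕ) (U y n : ℕ) : ℝ :=
  (((Icc 1 U).filter (fun h => ∀ p ∈ P, p ≤ y → ¬ p ∣ n + h)).card : ℝ)

open Classical in
theorem markov {N Y Y' U : ℕ} (hN : 0 < N) (hYY : Y ≤ Y') {P : Finset ℕ} (hP : ∀ p ∈ P, p.Prime)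
    (hPN : ∀ p ∈ P, p ∣ N) {g : ℕ → ℝ} (hg0 : ∀ n, 0 ≤ g n) {W' : ℕ} (hW' : W' ∣ N)
    (hgW : Function.Periodic g W') {E : Finset ℕ}
    (hE : ∀ p ∈ P, Y < p → p ≤ Y' → p ∉ E → ¬ p ∣ W') {T : Finset ℕ}
    (hT : T = P.filter (fun p => Y < p ∧ p ≤ Y')) {v : ℝ} (hv : v = ∏ p ∈ T, (1 - 1 / (p : ℝ)))
    {σ lam : ℝ} (hσ0 : 0 ≤ σ) (hl : 0 ≤ lam) (hl2 : 2 * lam ≤ 1)
    (hσ : ∀ n, g n ≠ 0 → σ ≤ sv P U Y n)
    (hr : ∀ p ∈ T, vv T p * ((U : ℝ) / p + 1) ≤ 2)
    (hS : 2 * lam * ∑ p ∈ T, 2 / (p : ℝ) ≤ 1 / 4) :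
    ∑ n ∈ range N, g n * (if sv P U Y' n < v * σ / 2 then 1 else 0) ≤
      Real.exp (2 * lam * E.card) * (Real.exp (-(lam * (v * σ) / 4)) * ∑ n ∈ range N, g n) := by
  have hTP : T ⊆ P := by rw [hT]; exact filter_subset _ _
  have hTm : ∀ p ∈ T, p.Prime ∧ p ∣ N := fun p hp => ⟨hP p (hTP hp), hPN p (hTP hp)⟩
  have hTp : ∀ p ∈ T, p.Prime := fun p hp => (hTm p hp).1
  have hTY : ∀ p ∈ T, Y < p ∧ p ≤ Y' := fun p hp => by
    rw [hT, mem_filter] at hp
    exact hp.2
  have hv0 : 0 ≤ v := by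
    rw [hv]
    exact prod_nonneg fun p hp => (fac_mem (hTp p hp)).1.le
  set M : ℕ → ℕ := fun p => N / p ^ N.factorization p with hM
  set K : ℕ → ℕ := fun p => p ^ N.factorization p with hK
  have hD : Dat N M K T := dat_of hN hTm
  set s : ℕ → ℕ → ℝ := fun h n => if ∀ p ∈ P, p ≤ Y → ¬ p ∣ n + h then 1 else 0 with hs
  have hs0 : ∀ h n, 0 ≤ s h n := fun h n => by simp only [hs]; split_ifs <;> norm_num
  have hs1 : ∀ h n, s h n ≤ 1 := fun h n => by simp only [hs]; split_ifs <;> norm_num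
  have hsM : ∀ p ∈ T, ∀ h, Function.Periodic (s h) (M p) := by
    intro p hp h n
    simp only [hs]
    refine if_congr ?_ rfl rfl
    refine forall₂_congr fun q hq => forall_congr' fun hqY => not_congr ?_
    have h1 : q ∣ M p := by
      have h2 : q ≠ p := by
        rintro rfl
        have := (hTY q hp).1
        omega
      refine dvd_compl (hTm p hp).1 (hPN q hq) fun h3 => h2 ?_
      exact ((Nat.prime_dvd_prime_iff_eq (hTm p hp).1 (hP q hq)).1 h3).symm
    have e : n + M p + h = n + h + M p := by ring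
    rw [e]
    exact (Nat.dvd_add_iff_left h1).symm
  have hNe : ∀ n, NN (Icc 1 U) s ∅ n = sv P U Y n := by
    intro n
    unfold NN sv
    rw [← sum_boole]
    refine sum_congr rfl fun h _ => ?_
    rw [if_pos (fun p hp => absurd hp (notMem_empty p)), mul_one]
  have hNT : ∀ n, NN (Icc 1 U) s T n = sv P U Y' n := by
    intro n
    unfold NN sv
    rw [← sum_boole]
    refine sum_congr rfl fun h _ => ?_
    simp only [hs]
    by_cases h1 : ∀ p ∈ P, p ≤ Y' → ¬ p ∣ n + h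
    · rw [if_pos h1, if_pos (fun p hp hpY => h1 p hp (hpY.trans hYY)),
        if_pos (fun p hp => h1 p (hTP hp) (hTY p hp).2), mul_one]
    · rw [if_neg h1]
      by_cases h2 : ∀ p ∈ P, p ≤ Y → ¬ p ∣ n + h
      · rw [if_neg (c := ∀ p ∈ T, ¬ p ∣ n + h), mul_zero]
        intro h3
        apply h1
        intro p hp hpY
        rcases le_or_gt p Y with h4 | h4
        · exact h2 p hp h4
        · exact h3 p (by rw [hT, mem_filter]; exact ⟨hp, h4, hpY⟩)
      · rw [if_neg h2, zero_mul]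
  have hr0 : ∀ p ∈ T, 0 ≤ (U : ℝ) / p + 1 := fun p _ => by positivity
  have hSle : ∑ p ∈ T, vv T p * ((U : ℝ) / p + 1) / p ≤ ∑ p ∈ T, 2 / (p : ℝ) :=
    sum_le_sum fun p hp => div_le_div_of_nonneg_right (hr p hp) (Nat.cast_nonneg _)
  have hS2 : 2 * lam * ∑ p ∈ T, vv T p * ((U : ℝ) / p + 1) / p ≤ 1 / 4 :=
    (mul_le_mul_of_nonneg_left hSle (by positivity)).trans hS
  have h := ld (N := N) (M := M) (K := K) (H := Icc 1 U) hs0 hs1 hg0 E (fun p => (U : ℝ) / p + 1) T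
    hD hsM (fun p hp hpE => per_of_dvd hgW (dvd_compl (hTm p hp).1 hW'
      (hE p (hTP hp) (hTY p hp).1 (hTY p hp).2 hpE)))
    (fun p hp n => hits_le p n U (hTp p hp).pos) lam hl (fun p hp => by
      have := mul_le_mul_of_nonneg_left (hr p hp) hl
      linarith) (by linarith)
  have h1 : ∑ n ∈ range N, g n * Real.exp (-(lam * (∏ p ∈ T, (1 - 1 / (p : ℝ))) *
      (1 - 2 * lam * ∑ p ∈ T, vv T p * ((U : ℝ) / p + 1) / p) * NN (Icc 1 U) s ∅ n)) ≤
      Real.exp (-(3 / 4 * (lam * (v * σ)))) * ∑ n ∈ range N, g n := by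
    refine le_of_le_of_eq ?_ (mul_sum (range N) g _).symm
    refine sum_le_sum fun n _ => ?_
    by_cases hgn : g n = 0
    · rw [hgn]
      simp
    rw [mul_comm (g n)]
    refine mul_le_mul_of_nonneg_right ?_ (hg0 n)
    rw [Real.exp_le_exp, neg_le_neg_iff]
    rw [← hv, hNe]
    have h2 := hσ n hgn
    have h3 : 3 / 4 ≤ 1 - 2 * lam * ∑ p ∈ T, vv T p * ((U : ℝ) / p + 1) / p := by linarith
    calc 3 / 4 * (lam * (v * σ)) = lam * v * (3 / 4) * σ := by ring
      _ ≤ lam * v * (1 - 2 * lam * ∑ p ∈ T, vv T p * ((U : ℝ) / p + 1) / p) * sv P U Y n := by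
          refine mul_le_mul (mul_le_mul_of_nonneg_left h3 (by positivity)) h2 hσ0 ?_
          exact mul_nonneg (by positivity) (by linarith)
  have h2 : Real.exp (lam * ∑ p ∈ T.filter (fun p => p ∈ E), vv T p * ((U : ℝ) / p + 1)) ≤
      Real.exp (2 * lam * E.card) := by
    refine Real.exp_le_exp.2 ?_
    have h3 : ∑ p ∈ T.filter (fun p => p ∈ E), vv T p * ((U : ℝ) / p + 1) ≤ 2 * E.card := by
      calc ∑ p ∈ T.filter (fun p => p ∈ E), vv T p * ((U : ℝ) / p + 1) ≤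
            ∑ _p ∈ T.filter (fun p => p ∈ E), (2 : ℝ) :=
            sum_le_sum fun p hp => hr p (mem_filter.1 hp).1
        _ = (T.filter (fun p => p ∈ E)).card * 2 := by rw [sum_const, nsmul_eq_mul]
        _ ≤ E.card * 2 := by
            refine mul_le_mul_of_nonneg_right ?_ (by norm_num)
            exact_mod_cast card_le_card fun p hp => (mem_filter.1 hp).2
        _ = 2 * E.card := by ring
    calc lam * ∑ p ∈ T.filter (fun p => p ∈ E), vv T p * ((U : ℝ) / p + 1) ≤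
          lam * (2 * E.card) := mul_le_mul_of_nonneg_left h3 hl
      _ = 2 * lam * E.card := by ring
  have hg1 : 0 ≤ ∑ n ∈ range N, g n := sum_nonneg fun n _ => hg0 n
  have h3 : ∑ n ∈ range N, g n * (if sv P U Y' n < v * σ / 2 then 1 else 0) ≤
      Real.exp (lam * (v * σ / 2)) *
        ∑ n ∈ range N, g n * Real.exp (-(lam * NN (Icc 1 U) s T n)) := by
    rw [mul_sum]
    refine sum_le_sum fun n _ => ?_
    rw [mul_left_comm]
    refine mul_le_mul_of_nonneg_left ?_ (hg0 n)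
    rw [← Real.exp_add, hNT]
    split_ifs with h4
    · rw [← Real.exp_zero]
      refine Real.exp_le_exp.2 ?_
      have := mul_le_mul_of_nonneg_left h4.le hl
      linarith
    · exact (Real.exp_pos _).le
  refine h3.trans ?_
  refine (mul_le_mul_of_nonneg_left (h.trans (mul_le_mul h2 h1
    (sum_nonneg fun n _ => mul_nonneg (hg0 n) (Real.exp_pos _).le) (Real.exp_pos _).le))
    (Real.exp_pos _).le).trans (le_of_eq ?_)
  have e : Real.exp (-(lam * (v * σ) / 4)) =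
      Real.exp (lam * (v * σ / 2)) * Real.exp (-(3 / 4 * (lam * (v * σ)))) := by
    rw [← Real.exp_add]
    congr 1
    ring
  rw [e]
  ring

end Pool.Agent.Y835.SV
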