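import Pool.Agent.Y835.SF.RV3
import Pool.Agent.Y835.SF.Prim
import Pool.Agent.Y835.SF.Prim2

/-!
The parameters: `log Y' = log X / (log log X)^4`.
-/

set_option autoImplicit false

namespace Pool.Agent.Y835.SV

open Finset Filter
open Pool.Agent.H378R2 (yy)

theorem ev_l5 (C : ℝ) : ∀ᶠ l : ℝ in atTop, 200 ≤ l ∧ C * l ^ 5 ≤ Real.exp (l / 2) := by
  have h1 : Tendsto (fun l : ℝ => l / 2) atTop atTop := tendsto_id.atTop_div_const (by norm_num)
  have h2 := (Real.tendsto_exp_div_pow_atTop 5).comp h1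
  have h3 := h2.eventually_ge_atTop (|C| * 32)
  filter_upwards [h3, eventually_ge_atTop (200 : ℝ)] with l h4 h5
  refine ⟨h5, ?_⟩
  have hl : 0 < l := by linarith
  simp only [Function.comp] at h4
  rw [le_div_iff₀ (by positivity)] at h4
  have h6 : |C| * 32 * (l / 2) ^ 5 = |C| * l ^ 5 := by ring
  rw [h6] at h4
  have h7 : C * l ^ 5 ≤ |C| * l ^ 5 := mul_le_mul_of_nonneg_right (le_abs_self C) (by positivity)
  linarith

/-- the product over the primes in `(p, Y']` -/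
theorem vv_upper : ∃ C : ℝ, 0 < C ∧ ∀ (T : Finset ℕ) (p Y' : ℕ), 2 ≤ p → p ≤ Y' →
    (∀ q ∈ T, q.Prime) → (∀ q : ℕ, q.Prime → p < q → q ≤ Y' → q ∈ T) →
    vv T p ≤ C * (Real.log p / Real.log Y') := by
  obtain ⟨C, hC0, hC⟩ := Pool.Agent.Helper923.HMertens.mertens_ratio
  have hl2 : 0 < Real.log 2 := Real.log_pos (by norm_num)
  refine ⟨Real.exp (C / Real.log 2), Real.exp_pos _, fun T p Y' hp hpY hT hall => ?_⟩
  have hpr : (2 : ℝ) ≤ p := by exact_mod_cast hp
  have hYr : (2 : ℝ) ≤ Y' := by exact_mod_cast hp.trans hpY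
  have hlp : 0 < Real.log p := Real.log_pos (by linarith)
  have hlY : 0 < Real.log Y' := Real.log_pos (by linarith)
  have h1 := (abs_le.1 (hC p Y' hp hpY)).1
  have h2 : vv T p ≤ Real.exp (-∑ q ∈ (Ioc p Y').filter Nat.Prime, (1 : ℝ) / q) := by
    unfold vv
    rw [← sum_neg_distrib, Real.exp_sum]
    have hsub : (Ioc p Y').filter Nat.Prime ⊆ T.filter (fun q => p < q) := by
      intro q hq
      rw [mem_filter, mem_Ioc] at hq
      exact mem_filter.2 ⟨hall q hq.2 hq.1.1 hq.1.2, hq.1.1⟩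
    have hle : ∏ q ∈ T.filter (fun q => p < q), (1 - 1 / (q : ℝ)) ≤
        ∏ q ∈ (Ioc p Y').filter Nat.Prime, (1 - 1 / (q : ℝ)) := by
      rw [← prod_sdiff hsub]
      refine mul_le_of_le_one_left (prod_nonneg fun q hq => ?_) (prod_le_one (fun q hq => ?_)
        fun q hq => ?_)
      · exact (fac_mem (mem_filter.1 hq).2).1.le
      · exact (fac_mem (hT q (mem_filter.1 (Finset.mem_sdiff.1 hq).1).1)).1.le
      · exact (fac_mem (hT q (mem_filter.1 (Finset.mem_sdiff.1 hq).1).1)).2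
    refine hle.trans ?_
    · refine prod_le_prod (fun q hq => ?_) fun q _ => ?_
      · exact (fac_mem (mem_filter.1 hq).2).1.le
      · have := Real.add_one_le_exp (-((1 : ℝ) / q))
        linarith
  refine h2.trans ?_
  have h3 : -∑ q ∈ (Ioc p Y').filter Nat.Prime, (1 : ℝ) / q ≤
      C / Real.log 2 - Real.log (Real.log Y' / Real.log p) := by
    have h4 : C / Real.log p ≤ C / Real.log 2 := div_le_div_of_nonneg_left hC0 hl2
      (Real.log_le_log (by norm_num) hpr)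
    linarith
  refine (Real.exp_le_exp.2 h3).trans (le_of_eq ?_)
  rw [Real.exp_sub, Real.exp_log (by positivity)]
  field_simp

theorem par : ∃ cV : ℝ, 0 < cV ∧ cV ≤ 1 ∧ ∃ X0 : ℕ, ∀ X : ℕ, X0 ≤ X → ∀ L l a : ℝ,
    L = Real.log X → l = Real.log L → a = Real.log l → ∃ Y' : ℕ,
    2 ≤ a ∧ 200 ≤ l ∧ 3 ≤ yy X ∧ yy X ≤ Y' ∧ Y' ≤ ⌊(X : ℝ) ^ (1 / 100 : ℝ)⌋₊ ∧
    L / (2 * l ^ 4) ≤ Real.log Y' ∧ Real.log Y' ≤ L / l ^ 4 ∧
    (∀ U : ℕ, (U : ℝ) ≤ L ^ (3 / 2 : ℝ) → U ≤ Y') ∧
    (∀ s : Finset ℕ, (∀ p ∈ s, p.Prime ∧ Y' < p ∧ p ≤ X) → ∑ p ∈ s, 1 / (p : ℝ) ≤ 5 * a) ∧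
    ∀ P : Finset ℕ, (∀ p ∈ P, p.Prime) → (∀ p : ℕ, p.Prime → p ≤ Y' → p ∈ P) → ∀ T : Finset ℕ,
      T = P.filter (fun p => yy X < p ∧ p ≤ Y') →
      ∑ p ∈ T, 1 / (p : ℝ) ≤ 2 * l ∧
      cV * (Real.log (yy X) / Real.log Y') ≤ ∏ p ∈ T, (1 - 1 / (p : ℝ)) ∧
      ∀ U : ℕ, (U : ℝ) ≤ L ^ (3 / 2 : ℝ) → ∀ p ∈ T, vv T p * ((U : ℝ) / p + 1) ≤ 2 := by
  obtain ⟨cV, hcV, hcV1, RAT⟩ := Pool.Agent.Y835.SC.V_ratio
  obtain ⟨C1, hC1, VU⟩ := vv_upper
  obtain ⟨C3, hC3, MR⟩ := Pool.Agent.Helper923.HMertens.mertens_ratio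
  obtain ⟨C4, hC4, HI⟩ := Pool.Agent.Y835.SB.sum_inv_le
  have hN := tendsto_natCast_atTop_atTop (R := ℝ)
  have t1 := Real.tendsto_log_atTop
  have t2 := t1.comp t1
  have t3 := t1.comp t2
  have hev := ((Pool.Agent.Y835.SG.evX 1 1 one_pos 3).and
    (hN.eventually ((t2.eventually (ev_l5 (4000 * C1 + 4000))).and
    ((t3.eventually_ge_atTop 2).and (t2.eventually_ge_atTop (C4 + C3 + 1))))))
  obtain ⟨X0, hX0⟩ := hev.exists_forall_of_atTop
  refine ⟨cV, hcV, hcV1, X0, fun X hX L l a hL hl ha => ?_⟩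
  obtain ⟨⟨e1, e2, _, e4, e5, _, _⟩, ⟨e6, e7⟩, e8, e9⟩ := hX0 X hX
  simp only [Function.comp] at e6 e7 e8 e9
  rw [← hL] at e2 e5 e6 e7 e8 e9
  rw [← hl] at e6 e7 e8 e9
  rw [← ha] at e8
  have hL0 : 0 < L := by linarith
  have hl0 : 0 < l := by linarith
  have hel : Real.exp l = L := by rw [hl]; exact Real.exp_log hL0
  have hX0 : (0 : ℝ) < X := by exact_mod_cast (by omega : 0 < X)
  have hX1 : (1 : ℝ) < X := by exact_mod_cast (by omega : 1 < X)
  have hea : Real.exp a = l := by rw [ha]; exact Real.exp_log hl0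
  have hsq : Real.exp (l / 2) * Real.exp (l / 2) = L := by
    rw [← Real.exp_add, ← hel]; congr 1; ring
  have hl5 : 4000 * l ^ 5 ≤ Real.exp (l / 2) := by
    have h1 : 0 ≤ 4000 * C1 * l ^ 5 := by positivity
    linarith
  have hexp1 : 1 ≤ Real.exp (l / 2) := Real.one_le_exp (by positivity)
  -- `x = L / l^4`
  obtain ⟨x, hx⟩ : ∃ x : ℝ, x = L / l ^ 4 := ⟨_, rfl⟩
  have hl4 : 0 < l ^ 4 := by positivity
  have hxl : 4000 * l ≤ x := by
    rw [hx, le_div_iff₀ hl4]
    calc 4000 * l * l ^ 4 = 4000 * l ^ 5 := by ring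
      _ ≤ Real.exp (l / 2) := hl5
      _ = Real.exp (l / 2) * 1 := (mul_one _).symm
      _ ≤ Real.exp (l / 2) * Real.exp (l / 2) := mul_le_mul_of_nonneg_left hexp1 (Real.exp_pos _).le
      _ = L := hsq
  have hx0 : 0 < x := by linarith
  obtain ⟨Y', hY'⟩ : ∃ Y' : ℕ, Y' = ⌊Real.exp x⌋₊ := ⟨_, rfl⟩
  have hY'1 : (Y' : ℝ) ≤ Real.exp x := by rw [hY']; exact Nat.floor_le (Real.exp_pos _).le
  have hY'2 : Real.exp x < Y' + 1 := by rw [hY']; exact Nat.lt_floor_add_one _
  have hex : 2 ≤ Real.exp x := by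
    have := Real.add_one_le_exp x
    linarith
  have hY'3 : Real.exp x / 2 ≤ Y' := by linarith
  have hY'0 : (0 : ℝ) < Y' := by linarith
  have hlog2 : Real.log 2 ≤ 1 := by
    have := Real.log_le_sub_one_of_pos (show (0 : ℝ) < 2 by norm_num)
    linarith
  have hlY'1 : Real.log Y' ≤ x := by
    have := Real.log_le_log hY'0 hY'1
    rwa [Real.log_exp] at this
  have hlY'2 : x / 2 ≤ Real.log Y' := by
    have h1 := Real.log_le_log (by positivity) hY'3
    rw [Real.log_div (Real.exp_pos _).ne' (by norm_num), Real.log_exp] at h1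
    linarith
  have hlY'0 : 0 < Real.log Y' := by linarith
  have hLY' : L / (2 * l ^ 4) ≤ Real.log Y' := by
    have : L / (2 * l ^ 4) = x / 2 := by rw [hx, div_div, mul_comm]
    rw [this]
    exact hlY'2
  have hYL : ((yy X : ℕ) : ℝ) ≤ L / 1000 := by
    rw [hL]
    refine Nat.floor_le ?_
    rw [← hL]
    positivity
  have hLx : L ^ (3 / 2 : ℝ) ≤ Real.exp x / 2 := by
    rw [← hel, ← Real.exp_mul]
    have h1 : Real.exp (l * (3 / 2)) * 2 ≤ Real.exp x := by
      calc Real.exp (l * (3 / 2)) * 2 ≤ Real.exp (l * (3 / 2)) * Real.exp 1 := by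
            refine mul_le_mul_of_nonneg_left ?_ (Real.exp_pos _).le
            have := Real.add_one_le_exp 1
            linarith
        _ = Real.exp (l * (3 / 2) + 1) := by rw [Real.exp_add]
        _ ≤ Real.exp x := Real.exp_le_exp.2 (by linarith)
    linarith
  have hUY : ∀ U : ℕ, (U : ℝ) ≤ L ^ (3 / 2 : ℝ) → U ≤ Y' := by
    intro U hU
    have : (U : ℝ) ≤ Y' := by linarith
    exact_mod_cast this
  have hyY : yy X ≤ Y' := by
    refine hUY _ (hYL.trans ?_)
    have h1 : L ^ (1 : ℝ) ≤ L ^ (3 / 2 : ℝ) :=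
      Real.rpow_le_rpow_of_exponent_le (by linarith) (by norm_num)
    rw [Real.rpow_one] at h1
    linarith
  have hXe : (X : ℝ) = Real.exp L := by rw [hL, Real.exp_log hX0]
  have hYR : Y' ≤ ⌊(X : ℝ) ^ (1 / 100 : ℝ)⌋₊ := by
    refine Nat.le_floor (hY'1.trans ?_)
    rw [hXe, ← Real.exp_mul]
    refine Real.exp_le_exp.2 ?_
    rw [hx, div_le_iff₀ hl4]
    have h1 : (100 : ℝ) ≤ l ^ 4 := by
      calc (100 : ℝ) ≤ 200 ^ 4 := by norm_num
        _ ≤ l ^ 4 := pow_le_pow_left₀ (by norm_num) e6 4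
    calc L = L * (1 / 100) * 100 := by ring
      _ ≤ L * (1 / 100) * l ^ 4 := mul_le_mul_of_nonneg_left h1 (by positivity)
  have hY'X : Y' ≤ X := by
    have h1 : (X : ℝ) ^ (1 / 100 : ℝ) ≤ X := by
      calc (X : ℝ) ^ (1 / 100 : ℝ) ≤ (X : ℝ) ^ (1 : ℝ) :=
            Real.rpow_le_rpow_of_exponent_le hX1.le (by norm_num)
        _ = X := Real.rpow_one _
    have h2 : ((⌊(X : ℝ) ^ (1 / 100 : ℝ)⌋₊ : ℕ) : ℝ) ≤ X := (Nat.floor_le (by positivity)).trans h1
    have h3 : ⌊(X : ℝ) ^ (1 / 100 : ℝ)⌋₊ ≤ X := by exact_mod_cast h2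
    omega
  have hY'2n : 2 ≤ Y' := by omega
  refine ⟨Y', e8, e6, e4, hyY, hYR, hLY', by rw [← hx]; exact hlY'1, hUY, ?_, ?_⟩
  · intro s hs
    have h1 := (abs_le.1 (MR Y' X hY'2n hY'X)).2
    have h2 : ∑ p ∈ s, 1 / (p : ℝ) ≤ ∑ p ∈ (Ioc Y' X).filter Nat.Prime, (1 : ℝ) / p :=
      sum_le_sum_of_subset_of_nonneg (fun p hp => by
        obtain ⟨a1, a2, a3⟩ := hs p hp
        exact mem_filter.2 ⟨mem_Ioc.2 ⟨a2, a3⟩, a1⟩) fun _ _ _ => by positivity
    have h3 : Real.log (Real.log X / Real.log Y') ≤ Real.log 2 + 4 * a := by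
      have h4 : Real.log X / Real.log Y' ≤ 2 * l ^ 4 := by
        rw [← hL, div_le_iff₀ hlY'0]
        have h5 := hLY'
        rw [div_le_iff₀ (by positivity)] at h5
        linarith
      have h5 := Real.log_le_log (by rw [← hL]; positivity) h4
      rw [Real.log_mul (by norm_num) hl4.ne', Real.log_pow, ← ha] at h5
      push_cast at h5
      exact h5
    have h4 : C3 / Real.log Y' ≤ 1 := by
      rw [div_le_one hlY'0]
      linarith
    linarith
  · intro P hP hall T hT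
    have hTm : ∀ p ∈ T, p.Prime ∧ yy X < p ∧ p ≤ Y' := fun p hp => by
      rw [hT, mem_filter] at hp
      exact ⟨hP p hp.1, hp.2⟩
    refine ⟨?_, ?_, ?_⟩
    · have h1 := HI Y' hY'2n T (fun p hp => ⟨(hTm p hp).1, (hTm p hp).2.2⟩)
      have h2 : Real.log (Real.log Y') ≤ l := by
        rw [hl]
        refine Real.log_le_log hlY'0 ?_
        have h3 : x ≤ L := by
          rw [hx]
          exact div_le_self hL0.le (one_le_pow₀ (by linarith))
        linarith
      linarith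
    · exact RAT (yy X) Y' (by omega) hyY T hTm
    · intro U hU p hp
      obtain ⟨b1, b2, b3⟩ := hTm p hp
      have hp0 : (0 : ℝ) < p := by exact_mod_cast b1.pos
      have hv1 : vv T p ≤ 1 := by
        unfold vv
        exact prod_le_one (fun q hq => (fac_mem (hTm q (mem_filter.1 hq).1).1).1.le)
          fun q hq => (fac_mem (hTm q (mem_filter.1 hq).1).1).2
      have hv2 := VU T p Y' b1.two_le b3 (fun q hq => (hTm q hq).1) (fun q hq h1 h2 => by
        rw [hT, mem_filter]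
        exact ⟨hall q hq h2, by omega, h2⟩)
      have hv0 : 0 ≤ vv T p := vv_nonneg (fun q hq => (hTm q hq).1) p
      -- `log p / p ≤ log Y / Y`
      obtain ⟨Y, hY⟩ : ∃ Y : ℕ, Y = yy X := ⟨_, rfl⟩
      rw [← hY] at e4 e5 b2 hYL
      have hYr : (3 : ℝ) ≤ Y := by exact_mod_cast e4
      have hYp : (Y : ℝ) ≤ p := by exact_mod_cast b2.le
      have hlY : 0 < Real.log Y := Real.log_pos (by linarith)
      have hlp : 0 < Real.log p := Real.log_pos (by linarith)
      have h1 := Pool.Agent.Y835.SG.div_log_mono (a := (Y : ℝ)) (b := (p : ℝ)) (by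
        have := Real.exp_one_lt_d9
        linarith) hYp
      have h2 : Real.log p / p ≤ Real.log Y / Y := by
        rw [div_le_div_iff₀ hp0 (by linarith)]
        rw [div_le_div_iff₀ hlY hlp] at h1
        linarith
      have h3 : Real.log Y / Y ≤ l * (2000 / L) := by
        have h4 : Real.log Y ≤ l := by
          rw [hl]
          exact Real.log_le_log (by linarith) (by linarith)
        have h5 : 1 / (Y : ℝ) ≤ 2000 / L := by
          rw [div_le_div_iff₀ (by linarith) hL0]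
          linarith
        calc Real.log Y / Y = Real.log Y * (1 / Y) := by ring
          _ ≤ l * (2000 / L) := mul_le_mul h4 h5 (by positivity) hl0.le
      have h4 : 1 / Real.log Y' ≤ 2 * l ^ 4 / L := by
        have h5 := hLY'
        rw [div_le_iff₀ (by positivity)] at h5
        rw [div_le_div_iff₀ hlY'0 hL0]
        linarith
      have h5 : vv T p * ((U : ℝ) / p) ≤ 1 := by
        have h6 : vv T p * ((U : ℝ) / p) ≤ C1 * (Real.log p / Real.log Y') * ((U : ℝ) / p) :=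
          mul_le_mul_of_nonneg_right hv2 (by positivity)
        refine h6.trans ?_
        have h7 : C1 * (Real.log p / Real.log Y') * ((U : ℝ) / p) =
            C1 * ((Real.log p / p) * (1 / Real.log Y')) * U := by
          field_simp
        rw [h7]
        have h8 : (Real.log p / p) * (1 / Real.log Y') ≤ (l * (2000 / L)) * (2 * l ^ 4 / L) :=
          mul_le_mul (h2.trans h3) h4 (by positivity) (by positivity)
        have h9 : C1 * ((Real.log p / p) * (1 / Real.log Y')) * U ≤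
            C1 * ((l * (2000 / L)) * (2 * l ^ 4 / L)) * L ^ (3 / 2 : ℝ) :=
          mul_le_mul (mul_le_mul_of_nonneg_left h8 hC1.le) hU (Nat.cast_nonneg _) (by positivity)
        refine h9.trans ?_
        have h10 : L ^ (3 / 2 : ℝ) = L * Real.exp (l / 2) := by
          rw [← hel, ← Real.exp_mul, ← Real.exp_add]
          congr 1
          ring
        rw [h10]
        have h11 : C1 * ((l * (2000 / L)) * (2 * l ^ 4 / L)) * (L * Real.exp (l / 2)) =
            4000 * C1 * l ^ 5 * Real.exp (l / 2) / L := by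
          field_simp
          norm_num
        rw [h11, div_le_one hL0, ← hsq]
        refine mul_le_mul_of_nonneg_right ?_ (Real.exp_pos _).le
        have : 0 ≤ 4000 * l ^ 5 := by positivity
        linarith
      rw [mul_add, mul_one]
      linarith

end Pool.Agent.Y835.SV
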