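import Pool.Agent.Y835.SF.RV4

/-!
The sum of the singular series for divisor bounded weights.
-/

set_option autoImplicit false

namespace Pool.Agent.Y835.SV

open Finset Pool.Agent.Y829 Pool.Agent.Y829.RP Pool.Agent.Y829.RW Filter
open Pool.Agent.H378R2 (WW GoodP GoodS PW yy)
open Pool.Agent.Y835.SB (dat_of per_of_dvd dvd_compl hits_le)

/-- the sum over a complete period of the coefficients with one modulus -/
theorem sum_period {N d : ℕ} (hd : 0 < d) (hdN : d ∣ N) (c : ℕ → ℝ) :
    ∑ n ∈ range N, |c (n % d)| = (N : ℝ) / d * ∑ a ∈ range d, |c a| := by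
  obtain ⟨k, rfl⟩ := hdN
  have hd0 : (d : ℝ) ≠ 0 := by exact_mod_cast hd.ne'
  have e : ((d * k : ℕ) : ℝ) / d = k := by
    push_cast
    field_simp
  rw [e]
  clear e
  induction k with
  | zero => simp
  | succ k ih =>
    have h1 : ∑ n ∈ range (d * (k + 1)), |c (n % d)| =
        ∑ n ∈ range (d * k), |c (n % d)| + ∑ a ∈ range d, |c a| := by
      rw [mul_add, mul_one, sum_range_add]
      congr 1
      refine sum_congr rfl fun a ha => ?_
      rw [Nat.mul_add_mod, Nat.mod_eq_of_lt (mem_range.1 ha)]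
    rw [h1, ih]
    push_cast
    ring

open Classical in
/-- the rare integers have small weight -/
theorem bad {N Y Y' U W R z : ℕ} (hN : 0 < N) (hYY : Y ≤ Y') {P : Finset ℕ}
    (hP : ∀ p ∈ P, p.Prime) (hPN : ∀ p ∈ P, p ∣ N) (hW : 0 < W) {QS' : Finset ℕ}
    (hQS : QS' ⊆ Icc 1 R) (hWN : ∀ q ∈ QS', W * q ∣ N) (PW' : Finset ℕ)
    (hPW : ∀ p ∈ PW', p ∣ W) (hWY : ∀ p ∈ P, Y < p → ¬ p ∣ W) {T : Finset ℕ}
    (hT : T = P.filter (fun p => Y < p ∧ p ≤ Y')) {v : ℝ} (hv : v = ∏ p ∈ T, (1 - 1 / (p : ℝ)))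
    {σ lam M B : ℝ} (hσ0 : 0 ≤ σ) (hl : 0 ≤ lam) (hl2 : 2 * lam ≤ 1 / 2)
    (hσ : ∀ n : ℕ, (∀ p ∈ PW', z < p → p ∣ n) → σ ≤ sv P U Y n)
    (hr : ∀ p ∈ T, vv T p * ((U : ℝ) / p + 1) ≤ 2)
    (hS : 2 * lam * ∑ p ∈ T, 2 / (p : ℝ) ≤ 1 / 4) (c : ℕ → ℕ → ℝ) (K : ℕ) (hM : 0 ≤ M)
    (hs : ∀ q ∈ QS', ∑ a ∈ range (W * q), |c q a| ≤ M * (q.divisors.card : ℝ) ^ K)
    (hB : ∑ q ∈ Icc 1 R, (q.divisors.card : ℝ) ^ (K + 1) / q ≤ B)
    (hw : ∀ n, 0 ≤ ∑ q ∈ QS', c q (n % (W * q)))
    (hsupp : ∀ n, ∑ q ∈ QS', c q (n % (W * q)) ≠ 0 → ∀ p ∈ PW', z < p → p ∣ n) :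
    ∑ n ∈ range N, (∑ q ∈ QS', c q (n % (W * q))) * (if sv P U Y' n < v * σ / 2 then 1 else 0) ≤
      N * (Real.exp (-(lam * (v * σ) / 4)) * (M / W * B)) := by
  have hNr : (0 : ℝ) < N := by exact_mod_cast hN
  have hWr : (0 : ℝ) < W := by exact_mod_cast hW
  set G : ℕ → ℝ := fun n => if ∀ p ∈ PW', z < p → p ∣ n then 1 else 0 with hG
  set bd : ℕ → ℝ := fun n => if sv P U Y' n < v * σ / 2 then 1 else 0 with hbd
  have hG0 : ∀ n, 0 ≤ G n := fun n => by simp only [hG]; split_ifs <;> norm_num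
  have hG1 : ∀ n, G n ≤ 1 := fun n => by simp only [hG]; split_ifs <;> norm_num
  have hbd0 : ∀ n, 0 ≤ bd n := fun n => by simp only [hbd]; split_ifs <;> norm_num
  have h1 : ∀ n ∈ range N, (∑ q ∈ QS', c q (n % (W * q))) * bd n ≤
      ∑ q ∈ QS', (|c q (n % (W * q))| * G n) * bd n := by
    intro n _
    rw [← sum_mul]
    refine mul_le_mul_of_nonneg_right ?_ (hbd0 n)
    by_cases h0 : ∑ q ∈ QS', c q (n % (W * q)) = 0
    · rw [h0]
      exact sum_nonneg fun q _ => mul_nonneg (abs_nonneg _) (hG0 n)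
    · have h2 : G n = 1 := by
        simp only [hG]
        rw [if_pos (hsupp n h0)]
      rw [h2]
      refine sum_le_sum fun q _ => ?_
      rw [mul_one]
      exact le_abs_self _
  refine (sum_le_sum h1).trans ?_
  rw [sum_comm]
  have hmk : ∀ q ∈ QS', ∑ n ∈ range N, (|c q (n % (W * q))| * G n) * bd n ≤
      (N * Real.exp (-(lam * (v * σ) / 4)) * (M / W)) * ((q.divisors.card : ℝ) ^ (K + 1) / q) := by
    intro q hq
    have hq1 := (mem_Icc.1 (hQS hq)).1
    have hq0 : (0 : ℝ) < q := by exact_mod_cast hq1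
    have hWq : 0 < W * q := Nat.mul_pos hW hq1
    have hper : Function.Periodic (fun n => |c q (n % (W * q))| * G n) (W * q) := by
      intro n
      simp only [hG]
      rw [Nat.add_mod_right]
      congr 1
      refine if_congr ?_ rfl rfl
      refine forall₂_congr fun p hp => forall_congr' fun _ => ?_
      exact (Nat.dvd_add_iff_left ((hPW p hp).mul_right q)).symm
    have h2 := markov (g := fun n => |c q (n % (W * q))| * G n) hN hYY hP hPN
      (fun n => mul_nonneg (abs_nonneg _) (hG0 n)) (hWN q hq) hper (E := q.primeFactors)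
      (fun p hp hYp hpY hpE hpd => by
        rcases ((hP p hp).dvd_mul).1 hpd with h3 | h3
        · exact hWY p hp hYp h3
        · exact hpE (Nat.mem_primeFactors.2 ⟨hP p hp, h3, by omega⟩)) hT hv hσ0 hl
      (by linarith) (fun n hn => by
        refine hσ n ?_
        by_contra hcon
        apply hn
        simp only [hG]
        rw [if_neg hcon, mul_zero]) hr hS
    refine h2.trans ?_
    have h3 : ∑ n ∈ range N, |c q (n % (W * q))| * G n ≤
        (N : ℝ) / ((W * q : ℕ) : ℝ) * (M * (q.divisors.card : ℝ) ^ K) := by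
      calc ∑ n ∈ range N, |c q (n % (W * q))| * G n ≤ ∑ n ∈ range N, |c q (n % (W * q))| :=
            sum_le_sum fun n _ => mul_le_of_le_one_right (abs_nonneg _) (hG1 n)
        _ = (N : ℝ) / ((W * q : ℕ) : ℝ) * ∑ a ∈ range (W * q), |c q a| :=
            sum_period hWq (hWN q hq) (c q)
        _ ≤ _ := mul_le_mul_of_nonneg_left (hs q hq) (by positivity)
    have h4 : Real.exp (2 * lam * q.primeFactors.card) ≤ (q.divisors.card : ℝ) := by
      have h5 : (2 : ℝ) ^ q.primeFactors.card ≤ (q.divisors.card : ℝ) := by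
        have h6 : 2 ^ q.primeFactors.card ≤ q.divisors.card := by
          rw [Nat.card_divisors (by omega)]
          calc 2 ^ q.primeFactors.card = ∏ _p ∈ q.primeFactors, 2 := by rw [prod_const]
            _ ≤ ∏ p ∈ q.primeFactors, (q.factorization p + 1) := by
              refine prod_le_prod' fun p hp => ?_
              have := ((Nat.prime_of_mem_primeFactors hp).factorization_pos_of_dvd (by omega)
                (Nat.dvd_of_mem_primeFactors hp))
              omega
        exact_mod_cast h6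
      refine le_trans ?_ h5
      have h7 : (2 : ℝ) ^ q.primeFactors.card = Real.exp (q.primeFactors.card * Real.log 2) := by
        rw [Real.exp_nat_mul, Real.exp_log (by norm_num)]
      rw [h7]
      refine Real.exp_le_exp.2 ?_
      have h6 := Real.log_two_gt_d9
      calc 2 * lam * q.primeFactors.card ≤ Real.log 2 * q.primeFactors.card :=
            mul_le_mul_of_nonneg_right (by linarith) (Nat.cast_nonneg _)
        _ = q.primeFactors.card * Real.log 2 := mul_comm _ _
    calc Real.exp (2 * lam * q.primeFactors.card) * (Real.exp (-(lam * (v * σ) / 4)) *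
          ∑ n ∈ range N, |c q (n % (W * q))| * G n) ≤
          (q.divisors.card : ℝ) * (Real.exp (-(lam * (v * σ) / 4)) *
            ((N : ℝ) / ((W * q : ℕ) : ℝ) * (M * (q.divisors.card : ℝ) ^ K))) := by
          refine mul_le_mul h4 (mul_le_mul_of_nonneg_left h3 (Real.exp_pos _).le) ?_
            (Nat.cast_nonneg _)
          exact mul_nonneg (Real.exp_pos _).le
            (sum_nonneg fun n _ => mul_nonneg (abs_nonneg _) (hG0 n))
      _ = _ := by
          push_cast
          rw [pow_succ]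
          field_simp
  refine (sum_le_sum hmk).trans ?_
  rw [← mul_sum]
  have h5 : ∑ q ∈ QS', (q.divisors.card : ℝ) ^ (K + 1) / q ≤ B :=
    (sum_le_sum_of_subset_of_nonneg hQS fun _ _ _ => by positivity).trans hB
  calc (N * Real.exp (-(lam * (v * σ) / 4)) * (M / W)) *
        ∑ q ∈ QS', (q.divisors.card : ℝ) ^ (K + 1) / q ≤
        (N * Real.exp (-(lam * (v * σ) / 4)) * (M / W)) * B :=
        mul_le_mul_of_nonneg_left h5 (by positivity)
    _ = _ := by ring

end Pool.Agent.Y835.SV
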