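import Pool.Agent.Y835.SF.RV5
import Pool.Agent.H398R2.BA1

/-!
The sum of the singular series for divisor bounded weights: assembly.
-/

set_option autoImplicit false

namespace Pool.Agent.Y835.SV

open Finset Pool.Agent.Y829 Pool.Agent.Y829.RP Pool.Agent.Y829.RW Filter
open Pool.Agent.H378R2 (WW GoodP GoodS PW yy)
open Pool.Agent.Y835.SF (er V_upper core3)

open Classical in
theorem GG3 : ∃ c C : ℝ, 0 < c ∧ c ≤ 1 ∧ 0 < C ∧ ∀ K Z : ℕ, ∃ X0 : ℕ, ∀ X : ℕ, X0 ≤ X →
    ∀ (ps : ℕ) (S : Finset ℕ), GoodP Z ps → GoodS X S → ∀ (U z : ℕ),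
    Real.log (Real.log X) ^ 2 ≤ z → (z : ℝ) ≤ Real.log X ^ c →
    (U : ℝ) ≤ Real.log X ^ (3 / 2 : ℝ) → ∀ m : ℝ,
    m = min 1 (Real.log (U / Real.log X) / Real.log z) →
    C * (Real.log (Real.log (Real.log X)) * Real.log X) ≤ U * m →
    ∀ (Q : ℕ) (Cf c' : ℕ → ℕ → ℝ) (M : ℝ) (J : Finset ℕ) (I : ℕ → Finset ℕ) (d : ℕ → ℕ → ℕ)
      (f : ℕ → ℕ → ℕ → ℝ), Q = WW X S ps * ⌊(X : ℝ) ^ (1 / 100 : ℝ)⌋₊ →
    Cf = ct (WW X S ps) (QS X S ps) c' → 0 < M →
    (∀ q ∈ QS X S ps, ∑ a ∈ range (WW X S ps * q), |c' q a| ≤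
      M * (q.divisors.card : ℝ) ^ K * Real.log X ^ K) →
    M / (4 * (WW X S ps * Real.log X ^ K)) ≤ mu Q Cf →
    (∀ j ∈ J, ∀ i ∈ I j, 0 < d j i ∧ d j i ≤ X ∧ Function.Periodic (f j i) (d j i)) →
    (∀ n : ℕ, wt Q Cf n = ∑ j ∈ J, (∑ i ∈ I j, f j i n) ^ 2) →
    (∀ j ∈ J, ∀ n : ℕ, (∑ i ∈ I j, f j i n) ≠ 0 → ∀ p ∈ PW X S ps, z < p → p ∣ n) →
      c * (U * m * mu Q Cf) ≤ ∑ h ∈ Icc 1 U, RP.GG Q Cf h := by
  obtain ⟨c1, K0, Y1, hc1, hc11, hK0, hY1, ER⟩ := er
  obtain ⟨cV, hcV, hcV1, X1, PAR⟩ := par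
  obtain ⟨cW, hcW, hcW1, RAT⟩ := Pool.Agent.Y835.SC.V_ratio
  obtain ⟨C5, hC5, HU⟩ := V_upper
  obtain ⟨C, hC⟩ : ∃ C : ℝ, C = 2576 / (cW * cV * c1) + 128 / (cV * c1) + K0 + Real.exp 3 := ⟨_, rfl⟩
  have hCa : 0 < 2576 / (cW * cV * c1) := by positivity
  have hCb : 0 < 128 / (cV * c1) := by positivity
  have hCc : (0 : ℝ) ≤ K0 := Nat.cast_nonneg _
  have hCd : 0 < Real.exp 3 := Real.exp_pos _
  refine ⟨min (c1 / 1600) (c1 / (16 * C5)), C, lt_min (by positivity) (by positivity),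
    (min_le_left _ _).trans (by linarith), by rw [hC]; linarith, fun K Z => ?_⟩
  have t1 := Real.tendsto_log_atTop
  have t2 := t1.comp t1
  obtain ⟨X2, hX2⟩ := ((Pool.Agent.Y835.SG.evX c1 (max 4 (7 / (3 * c1) + 1)) hc1 Y1).and
    ((tendsto_natCast_atTop_atTop (R := ℝ)).eventually
      (t2.eventually_ge_atTop (3 + 2 * K + 2 ^ (K + 1) : ℝ)))).exists_forall_of_atTop
  refine ⟨max X1 X2, ?_⟩
  intro X hX ps S hps hS U z hz hzL hU32 m hm hCr Q Cf c' M J I d f hQ hCf hM hs hmu hf hsq hsupp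
  obtain ⟨⟨h3X, k1, k2, k3, k4, k5, k6⟩, k7⟩ := hX2 X ((le_max_right _ _).trans hX)
  simp only [Function.comp] at k7
  have k2a : 4 ≤ Real.log (Real.log X) := (le_max_left _ _).trans k2
  have k2b : 7 / (3 * c1) + 1 ≤ Real.log (Real.log X) := (le_max_right _ _).trans k2
  obtain ⟨Y', p1, p2, p3, p4, p5, p6, p7, p8, p9, p10⟩ :=
    PAR X ((le_max_left _ _).trans hX) _ _ _ rfl rfl rfl
  obtain ⟨L, hL⟩ : ∃ L : ℝ, L = Real.log (X : ℝ) := ⟨_, rfl⟩
  rw [← hL] at k1 k2a k2b k4 k5 k6 k7 p1 p2 p6 p7 p8 p9 p10 hz hzL hU32 hm hCr hs hmu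
  obtain ⟨l, hl⟩ : ∃ l : ℝ, l = Real.log L := ⟨_, rfl⟩
  rw [← hl] at k2a k2b k7 p1 p2 p6 p7 p9 p10 hz hCr
  obtain ⟨a, ha⟩ : ∃ a : ℝ, a = Real.log l := ⟨_, rfl⟩
  rw [← ha] at p1 p9 hCr
  have hXr : (3 : ℝ) ≤ X := by exact_mod_cast h3X
  have hX0 : (0 : ℝ) < X := by linarith
  have hL0 : 0 < L := by linarith
  have hl0 : 0 < l := by linarith
  have ha0 : 0 < a := by linarith
  have hel : Real.exp l = L := by rw [hl]; exact Real.exp_log hL0
  obtain ⟨Y, hY⟩ : ∃ Y : ℕ, Y = yy X := ⟨_, rfl⟩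
  rw [← hY] at k3 k4 k6 p3 p4 p10
  have hYL : (Y : ℝ) ≤ L / 1000 := by
    rw [hY, hL]
    refine Nat.floor_le ?_
    rw [← hL]
    positivity
  have hY3 : (3 : ℝ) ≤ Y := by exact_mod_cast p3
  have hY0 : (0 : ℝ) < Y := by linarith
  have hlY0 : 0 < Real.log Y := Real.log_pos (by linarith)
  have hlYL : Real.log Y ≤ l := by
    rw [hl]
    exact Real.log_le_log hY0 (by linarith)
  -- `m`
  have hU0 : (0 : ℝ) ≤ U := Nat.cast_nonneg U
  have haL : L ≤ a * L := le_mul_of_one_le_left hL0.le (by linarith)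
  have hUm1 : C * L ≤ U * m := (mul_le_mul_of_nonneg_left haL (by rw [hC]; linarith)).trans hCr
  have hC0 : 0 < C := by rw [hC]; linarith
  have hUm : 0 < U * m := lt_of_lt_of_le (by positivity) hCr
  have hm0 : 0 < m := by
    by_contra h
    have := mul_nonpos_of_nonneg_of_nonpos hU0 (not_lt.1 h)
    linarith
  have hm1 : m ≤ 1 := by rw [hm]; exact min_le_left _ _
  have hz16 : (16 : ℝ) ≤ z := by
    calc (16 : ℝ) = 4 ^ 2 := by norm_num
      _ ≤ l ^ 2 := pow_le_pow_left₀ (by norm_num) k2a 2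
      _ ≤ z := hz
  have hz2 : 2 ≤ z := by
    have : (2 : ℝ) ≤ z := by linarith
    exact_mod_cast this
  have hlz : 0 < Real.log z := Real.log_pos (by linarith)
  have hUCL1 : C * L ≤ U := hUm1.trans (mul_le_of_le_one_right hU0 hm1)
  have hUCL : Real.exp 3 * L ≤ U := by
    refine le_trans (mul_le_mul_of_nonneg_right ?_ hL0.le) hUCL1
    rw [hC]
    linarith
  have hUKL : (K0 : ℝ) * L ≤ U := by
    refine le_trans (mul_le_mul_of_nonneg_right ?_ hL0.le) hUCL1
    rw [hC]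
    linarith
  have hUpos : (0 : ℝ) < U := lt_of_lt_of_le (by positivity) hUCL
  have hlam : 3 ≤ Real.log (U / L) := by
    rw [Real.le_log_iff_exp_le (by positivity), le_div_iff₀ hL0]
    exact hUCL
  have hUY : (U : ℝ) / L ≤ U / Y := div_le_div_of_nonneg_left hU0 hY0 (by linarith)
  have hlamY : Real.log (U / L) ≤ Real.log (U / Y) := Real.log_le_log (by positivity) hUY
  have hzl : Real.log z ≤ c1 / 1600 * l := by
    have h1 : Real.log z ≤ Real.log (L ^ (min (c1 / 1600) (c1 / (16 * C5)))) :=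
      Real.log_le_log (by linarith) hzL
    rw [Real.log_rpow hL0, ← hl] at h1
    exact h1.trans (mul_le_mul_of_nonneg_right (min_le_left _ _) hl0.le)
  obtain ⟨mY, hmY⟩ : ∃ mY : ℝ, mY = min 1 (Real.log ((U : ℝ) / Y) / Real.log z) := ⟨_, rfl⟩
  have hmmY : m ≤ mY := by
    rw [hm, hmY]
    exact min_le_min le_rfl (div_le_div_of_nonneg_right hlamY hlz.le)
  have hmY0 : 0 < mY := lt_of_lt_of_le hm0 hmmY
  obtain ⟨W, hW⟩ : ∃ W : ℕ, W = WW X S ps := ⟨_, rfl⟩
  rw [← hW] at hQ hCf hs hmu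
  have hW0 : 0 < W := by rw [hW]; exact Pool.Agent.H378R2.WW_pos X S ps
  have hWr : (0 : ℝ) < W := by exact_mod_cast hW0
  obtain ⟨R, hR⟩ : ∃ R : ℕ, R = ⌊(X : ℝ) ^ (1 / 100 : ℝ)⌋₊ := ⟨_, rfl⟩
  rw [← hR] at hQ p5
  have hR1 : 1 ≤ R := by omega
  have hRQ : R ≤ Q := by rw [hQ]; exact Nat.le_mul_of_pos_left R hW0
  have hY'Q : Y' ≤ Q := p5.trans hRQ
  have hwt : ∀ n, wt Q Cf n = ∑ q ∈ QS X S ps, c' q (n % (W * q)) := by
    intro n
    rw [hQ, hCf]
    exact wt_ct W R hW0 (QS X S ps) (by rw [hR]; exact QS_sub _ _ _) c' n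
  have hw0 : ∀ n, 0 ≤ wt Q Cf n := fun n => by rw [hsq]; exact sum_nonneg fun j _ => sq_nonneg _
  -- the period
  obtain ⟨N, hN⟩ : ∃ N : ℕ, N = (max Q X).factorial := ⟨_, rfl⟩
  have hN0 : 0 < N := by rw [hN]; exact Nat.factorial_pos _
  have hNr : (0 : ℝ) < N := by exact_mod_cast hN0
  have hdN : ∀ d ∈ Icc 1 Q, d ∣ N := by
    intro d hd
    rw [mem_Icc] at hd
    rw [hN]
    exact Nat.dvd_factorial (by omega) (hd.2.trans (le_max_left _ _))
  have hP : ∀ p ∈ PQ Q, p.Prime := fun p hp => (mem_PQ.1 hp).1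
  have hPN : ∀ p ∈ PQ Q, p ∣ N := fun p hp =>
    hdN p (mem_Icc.2 ⟨(hP p hp).one_lt.le, (mem_PQ.1 hp).2⟩)
  have hsumw : ∑ n ∈ range N, wt Q Cf n = N * mu Q Cf := sum_wt Q N Cf hdN
  have hmu0 : 0 < mu Q Cf := lt_of_lt_of_le (by positivity) hmu
  -- the survivors of the small primes
  obtain ⟨σ, hσd⟩ : ∃ σ : ℝ, σ = c1 * (U * mY / Real.log Y) := ⟨_, rfl⟩
  have hσ0 : 0 ≤ σ := by rw [hσd]; positivity
  have hYK : K0 * Y ≤ U := by
    have h1 : (K0 : ℝ) * Y ≤ U := by
      refine le_trans (mul_le_mul_of_nonneg_left ?_ hCc) hUKL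
      linarith
    exact_mod_cast h1
  have hσ : ∀ n : ℕ, (∀ p ∈ PW X S ps, z < p → p ∣ n) → σ ≤ sv (PQ Q) U Y n := by
    intro n hn
    have h1 := Pool.Agent.Y835.SG.exc_sum (Z := Z) hS hps (by rw [← hL, ← hl]; linarith)
      (by rw [← hL, ← hl]; exact hz) n hn (PQ Q) hP
    rw [← hL, ← hl, ← hY] at h1
    have h2 := Pool.Agent.Y835.SG.theta_low (c := c1) (l := l) (lam := Real.log (U / Y))
      (lz := Real.log z) hc1 hl0 (by linarith) hlz (by
        refine hzl.trans ?_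
        exact mul_le_mul_of_nonneg_right (by linarith) hl0.le) (by
        have h3 : 7 / (3 * c1) ≤ l := by linarith
        rw [div_le_iff₀ (by positivity)] at h3
        linarith) (by linarith) rfl
    have h3 := ER Y U z n k3 hYK hz2 (by
      refine le_trans (hzL.trans ?_) k6
      refine Real.rpow_le_rpow_of_exponent_le (by linarith) ?_
      exact (min_le_left _ _).trans (by linarith)) ((PQ Q).filter (fun p => p ≤ Y)) (fun p hp => by
        rw [mem_filter] at hp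
        exact ⟨hP p hp.1, hp.2⟩)
      (min 1 (Real.log ((U : ℝ) / Y) / Real.log Y) * min 1 (Real.log ((U : ℝ) / Y) / Real.log z))
      rfl (by
        have h4 : ((PQ Q).filter (fun p => p ≤ Y)).filter (fun p => z < p ∧ ¬ p ∣ n) =
            (PQ Q).filter (fun p : ℕ => z < p ∧ p ≤ Y ∧ ¬ p ∣ n) := by
          rw [filter_filter]
          refine filter_congr fun p _ => ?_
          tauto
        rw [h4]
        refine h1.trans (h2.trans ?_)
        refine mul_le_mul_of_nonneg_left ?_ hc1.le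
        refine mul_le_mul_of_nonneg_right ?_ (by rw [← hmY]; exact hmY0.le)
        refine min_le_min le_rfl ?_
        exact div_le_div_of_nonneg_left (by linarith) hlY0 hlYL)
    rw [← hmY] at h3
    rw [hσd]
    refine h3.trans (le_of_eq ?_)
    unfold sv
    congr 2
    refine filter_congr fun h _ => ?_
    constructor
    · intro h5 p hp hpY
      exact h5 p (mem_filter.2 ⟨hp, hpY⟩)
    · intro h5 p hp
      exact h5 p (mem_filter.1 hp).1 (mem_filter.1 hp).2
  -- the primes between `Y` and `Y'`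
  obtain ⟨T, hT⟩ : ∃ T : Finset ℕ, T = (PQ Q).filter (fun p => Y < p ∧ p ≤ Y') := ⟨_, rfl⟩
  obtain ⟨v, hv⟩ : ∃ v : ℝ, v = ∏ p ∈ T, (1 - 1 / (p : ℝ)) := ⟨_, rfl⟩
  obtain ⟨q1, q2, q3⟩ := p10 (PQ Q) hP (fun p hp hpY => mem_PQ.2 ⟨hp, hpY.trans hY'Q⟩) T hT
  rw [← hv] at q2
  have hlY'0 : 0 < Real.log Y' := lt_of_lt_of_le (by positivity) p6
  have hvσ : cV * c1 * (U * mY) / Real.log Y' ≤ v * σ := by
    rw [hσd]
    calc cV * c1 * (U * mY) / Real.log Y' =
          cV * (Real.log Y / Real.log Y') * (c1 * (U * mY / Real.log Y)) := by field_simp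
      _ ≤ v * (c1 * (U * mY / Real.log Y)) := mul_le_mul_of_nonneg_right q2 (by positivity)
  have hv0 : 0 < v := lt_of_lt_of_le (by positivity) q2
  have hUmY : C * (a * L) ≤ U * mY := hCr.trans (mul_le_mul_of_nonneg_left hmmY hU0)
  -- the rare integers
  obtain ⟨lam, hlamd⟩ : ∃ lam : ℝ, lam = 1 / (32 * l) := ⟨_, rfl⟩
  have hlam0 : 0 < lam := by rw [hlamd]; positivity
  have hlam32 : lam * l = 1 / 32 := by rw [hlamd]; field_simp
  have hlam1 : 2 * lam ≤ 1 / 2 := by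
    have : lam * 1 ≤ lam * l := mul_le_mul_of_nonneg_left (by linarith) hlam0.le
    linarith
  have hbad := bad (z := z) (N := N) (Y := Y) (Y' := Y') (U := U) (W := W) (R := R) hN0 p4 hP hPN hW0
    (QS' := QS X S ps) (by rw [hR]; exact QS_sub _ _ _) (fun q hq => by
      have hq' := QS_sub _ _ _ hq
      rw [← hR, mem_Icc] at hq'
      refine hdN _ (mem_Icc.2 ⟨Nat.mul_pos hW0 hq'.1, ?_⟩)
      rw [hQ]
      exact Nat.mul_le_mul_left W hq'.2) (PW X S ps)
    (fun p hp => by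
      rw [hW]
      exact dvd_prod_of_mem (fun p => p) hp)
    (fun p hp hYp hpW => by
      have h1 : p ∈ (WW X S ps).primeFactors := Nat.mem_primeFactors.2 ⟨hP p hp, by rw [← hW]; exact hpW,
        by rw [← hW]; omega⟩
      rw [Pool.Agent.H378R2.WW_primeFactors] at h1
      have h2 := (Pool.Agent.H378R2.mem_PW.1 h1).1
      rw [← hY] at h2
      omega) hT hv hσ0 hlam0.le hlam1 hσ (q3 U hU32) (by
      have h1 : ∑ p ∈ T, 2 / (p : ℝ) = 2 * ∑ p ∈ T, 1 / (p : ℝ) := by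
        rw [mul_sum]
        exact sum_congr rfl fun p _ => by ring
      rw [h1]
      have h2 : 2 * lam * (2 * ∑ p ∈ T, 1 / (p : ℝ)) ≤ 2 * lam * (2 * (2 * l)) :=
        mul_le_mul_of_nonneg_left (by linarith) (by positivity)
      have h3 : 2 * lam * (2 * (2 * l)) = 8 * (lam * l) := by ring
      linarith) c' K (M := M * L ^ K) (B := (1 + Real.log R) ^ (2 ^ (K + 1))) (by positivity)
    (fun q hq => by
      refine (hs q hq).trans (le_of_eq ?_)
      ring) (Pool.Agent.H398R2.BV.sum_card_pow_div (K + 1) R)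
    (fun n => by rw [← hwt]; exact hw0 n) (fun n hn => by
      rw [← hwt, hsq] at hn
      obtain ⟨j, hj, hj0⟩ := exists_ne_zero_of_sum_ne_zero hn
      exact hsupp j hj n fun h0 => hj0 (by rw [h0]; norm_num))
  simp only [← hwt] at hbad
  have hexp : Real.exp (-(lam * (v * σ) / 4)) ≤ Real.exp (-(l ^ 3)) := by
    refine Real.exp_le_exp.2 (neg_le_neg ?_)
    have h1 : cV * c1 * (C * (a * L)) / Real.log Y' ≤ v * σ :=
      le_trans (div_le_div_of_nonneg_right (mul_le_mul_of_nonneg_left hUmY (by positivity))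
        hlY'0.le) hvσ
    have h2 : 128 * l ^ 4 ≤ v * σ := by
      refine le_trans ?_ h1
      rw [le_div_iff₀ hlY'0]
      have h3 : Real.log Y' * l ^ 4 ≤ L := by
        rw [le_div_iff₀ (by positivity)] at p7
        exact p7
      have h4 : 128 ≤ cV * c1 * C := by
        have h5 : 128 / (cV * c1) ≤ C := by rw [hC]; linarith
        rw [div_le_iff₀ (by positivity)] at h5
        linarith
      calc 128 * l ^ 4 * Real.log Y' = 128 * (Real.log Y' * l ^ 4) := by ring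
        _ ≤ 128 * L := mul_le_mul_of_nonneg_left h3 (by norm_num)
        _ ≤ (cV * c1 * C) * (a * L) := mul_le_mul h4 haL hL0.le (by positivity)
        _ = cV * c1 * (C * (a * L)) := by ring
    have h3 : l ^ 3 = lam * (128 * l ^ 4) / 4 := by
      rw [hlamd]
      field_simp
      norm_num
    rw [h3]
    exact div_le_div_of_nonneg_right (mul_le_mul_of_nonneg_left h2 hlam0.le) (by norm_num)
  have hbad2 : ∑ n ∈ range N, wt Q Cf n * (if sv (PQ Q) U Y' n < v * σ / 2 then 1 else 0) ≤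
      N * mu Q Cf / 2 := by
    refine hbad.trans ?_
    have h1 : Real.exp (-(lam * (v * σ) / 4)) * (M * L ^ K / W * (1 + Real.log R) ^ (2 ^ (K + 1))) ≤
        M / (4 * (W * L ^ K)) / 2 := by
      have h2 : (1 + Real.log R) ^ (2 ^ (K + 1)) ≤ L ^ (2 ^ (K + 1)) := by
        refine pow_le_pow_left₀ (by have := Real.log_natCast_nonneg R; linarith) ?_ _
        have h3 : Real.log R ≤ 1 / 100 * L := by
          rw [hL, ← Real.log_rpow hX0]
          refine Real.log_le_log (by exact_mod_cast hR1) ?_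
          rw [hR]
          exact Nat.floor_le (by positivity)
        linarith
      have h3 : 8 * (L ^ K * L ^ K * L ^ (2 ^ (K + 1))) ≤ Real.exp (l ^ 3) := by
        have h4 : (8 : ℝ) ≤ Real.exp 3 := by
          have := Real.exp_one_gt_d9
          have h5 : Real.exp 3 = Real.exp 1 ^ 3 := by rw [← Real.exp_nat_mul]; norm_num
          rw [h5]
          calc (8 : ℝ) = 2 ^ 3 := by norm_num
            _ ≤ Real.exp 1 ^ 3 := pow_le_pow_left₀ (by norm_num) (by linarith) 3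
        have h5 : L ^ K * L ^ K * L ^ (2 ^ (K + 1)) =
            Real.exp (((2 * K + 2 ^ (K + 1) : ℕ) : ℝ) * l) := by
          rw [Real.exp_nat_mul, hel, ← pow_add, ← pow_add]
          congr 1
          ring
        rw [h5]
        calc 8 * Real.exp (((2 * K + 2 ^ (K + 1) : ℕ) : ℝ) * l) ≤
              Real.exp 3 * Real.exp (((2 * K + 2 ^ (K + 1) : ℕ) : ℝ) * l) :=
              mul_le_mul_of_nonneg_right h4 (Real.exp_pos _).le
          _ = Real.exp (3 + ((2 * K + 2 ^ (K + 1) : ℕ) : ℝ) * l) := by rw [Real.exp_add]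
          _ ≤ Real.exp (l ^ 3) := by
              refine Real.exp_le_exp.2 ?_
              push_cast
              have h6 : (3 + 2 * K + 2 ^ (K + 1) : ℝ) * l ≤ l ^ 3 := by
                have h7 : (3 + 2 * K + 2 ^ (K + 1) : ℝ) ≤ l ^ 2 := by
                  refine k7.trans ?_
                  nlinarith only [p2]
                calc (3 + 2 * K + 2 ^ (K + 1) : ℝ) * l ≤ l ^ 2 * l :=
                      mul_le_mul_of_nonneg_right h7 hl0.le
                  _ = l ^ 3 := by ring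
              nlinarith only [h6, p2]
      have hLK : 0 < L ^ K := by positivity
      calc Real.exp (-(lam * (v * σ) / 4)) * (M * L ^ K / W * (1 + Real.log R) ^ (2 ^ (K + 1))) ≤
            Real.exp (-(l ^ 3)) * (M * L ^ K / W * L ^ (2 ^ (K + 1))) := by
            refine mul_le_mul hexp (mul_le_mul_of_nonneg_left h2 (by positivity)) ?_
              (Real.exp_pos _).le
            have := Real.log_natCast_nonneg R
            positivity
        _ = (8 * (L ^ K * L ^ K * L ^ (2 ^ (K + 1)))) / Real.exp (l ^ 3) *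
            (M / (4 * (W * L ^ K)) / 2) := by
            rw [Real.exp_neg]
            field_simp
            norm_num
        _ ≤ 1 * (M / (4 * (W * L ^ K)) / 2) := by
            refine mul_le_mul_of_nonneg_right ?_ (by positivity)
            rw [div_le_one (Real.exp_pos _)]
            exact h3
        _ = _ := one_mul _
    calc (N : ℝ) * (Real.exp (-(lam * (v * σ) / 4)) *
          (M * L ^ K / W * (1 + Real.log R) ^ (2 ^ (K + 1)))) ≤
          N * (M / (4 * (W * L ^ K)) / 2) := mul_le_mul_of_nonneg_left h1 hNr.le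
      _ ≤ N * (mu Q Cf / 2) := mul_le_mul_of_nonneg_left (by linarith) hNr.le
      _ = N * mu Q Cf / 2 := by ring
  -- the mean number of survivors of the primes up to `Y'`
  have hmean : v * σ / 4 * (N * mu Q Cf) ≤ ∑ n ∈ range N, wt Q Cf n * sv (PQ Q) U Y' n := by
    have h1 : ∀ n ∈ range N, v * σ / 2 * (wt Q Cf n -
        wt Q Cf n * (if sv (PQ Q) U Y' n < v * σ / 2 then 1 else 0)) ≤
        wt Q Cf n * sv (PQ Q) U Y' n := by
      intro n _
      split_ifs with h2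
      · rw [mul_one, sub_self, mul_zero]
        refine mul_nonneg (hw0 n) ?_
        unfold sv
        exact Nat.cast_nonneg _
      · rw [mul_zero, sub_zero, mul_comm]
        exact mul_le_mul_of_nonneg_left (not_lt.1 h2) (hw0 n)
    have h2 := sum_le_sum h1
    rw [← mul_sum, sum_sub_distrib, hsumw] at h2
    refine le_trans ?_ h2
    have h3 : N * mu Q Cf / 2 ≤ N * mu Q Cf -
        ∑ n ∈ range N, wt Q Cf n * (if sv (PQ Q) U Y' n < v * σ / 2 then 1 else 0) := by linarith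
    calc v * σ / 4 * (N * mu Q Cf) = v * σ / 2 * (N * mu Q Cf / 2) := by ring
      _ ≤ _ := mul_le_mul_of_nonneg_left h3 (by positivity)
  -- the large primes
  obtain ⟨δ, hδ⟩ : ∃ δ : ℝ, δ = ∏ p ∈ (PQ Q).filter (fun p : ℕ => Y' < p), (1 - 1 / (p : ℝ)) :=
    ⟨_, rfl⟩
  obtain ⟨E, hE⟩ : ∃ E : ℝ, E = 1 / (cW * Real.log Y') *
    (5 * 0 + ((U : ℝ) / Y' + 1) * (1 + 32 * (5 * a))) * Real.log X := ⟨_, rfl⟩
  have hY'1 : 1 ≤ Y' := by omega
  have hY'r : (0 : ℝ) < Y' := by exact_mod_cast hY'1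
  have hcore : ∀ j ∈ J, δ * (3 / 4 * ∑ n ∈ range N, (∑ i ∈ I j, f j i n) ^ 2 *
      sv (PQ Q) U Y' n - E * ∑ n ∈ range N, (∑ i ∈ I j, f j i n) ^ 2) ≤
      ∑ n ∈ range N, (∑ i ∈ I j, f j i n) ^ 2 *
        (((Icc 1 U).filter (fun h => ∀ p ∈ PQ Q, ¬ p ∣ n + h)).card : ℝ) := by
    intro j hj
    rw [hδ, hE]
    exact core3 hcW (Y := Y') (U := U) (T := Y') (by omega) hY'1 (R := (X : ℝ)) (r := 0)
      (Λ := 5 * a) le_rfl (by linarith) hP (fun p hp hYp => by
        have h1 := RAT Y' p (by omega) hYp.le (((PQ Q).filter (fun q : ℕ => Y' < q)).filter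
          (fun q => q < p)) (fun q hq => by
            rw [mem_filter, mem_filter] at hq
            exact ⟨hP q hq.1.1, hq.1.2, hq.2.le⟩)
        exact h1) (p9 _ fun p hp => by
        rw [mem_filter, mem_filter] at hp
        refine ⟨hP p hp.1.1, hp.1.2, ?_⟩
        exact_mod_cast hp.2) (by
        rw [filter_false_of_mem, sum_empty]
        · norm_num
        · intro p _ h1
          omega) (I j) (d j) (f j) (fun i hi => ⟨(hf j hj i hi).1, by
        exact_mod_cast (hf j hj i hi).2.1, (hf j hj i hi).2.2⟩) hN0 hPN (fun i hi => by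
        rw [hN]
        exact Nat.dvd_factorial (hf j hj i hi).1 ((hf j hj i hi).2.1.trans (le_max_right _ _)))
      (fun n _ p _ h1 h2 => by omega)
  have hcsum := sum_le_sum hcore
  rw [← mul_sum, sum_sub_distrib, ← mul_sum, ← mul_sum] at hcsum
  have e0 : ∀ F : ℕ → ℝ, ∑ j ∈ J, ∑ n ∈ range N, (∑ i ∈ I j, f j i n) ^ 2 * F n =
      ∑ n ∈ range N, wt Q Cf n * F n := by
    intro F
    rw [sum_comm]
    refine sum_congr rfl fun n _ => ?_
    rw [← sum_mul, hsq]
  have e1 : ∑ j ∈ J, ∑ n ∈ range N, (∑ i ∈ I j, f j i n) ^ 2 = N * mu Q Cf := by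
    rw [← hsumw, sum_comm]
    exact sum_congr rfl fun n _ => (hsq n).symm
  have e2 : ∑ n ∈ range N, wt Q Cf n *
        (((Icc 1 U).filter (fun h => ∀ p ∈ PQ Q, ¬ p ∣ n + h)).card : ℝ) =
      N * Pool.Agent.Y829.V (PQ Q) * ∑ h ∈ Icc 1 U, RP.GG Q Cf h := by
    rw [← sum_GG Q U N Cf hN0 hdN]
    refine sum_congr rfl fun n _ => ?_
    congr 1
    unfold SO
    congr 2
    refine filter_congr fun h _ => forall₂_congr fun p _ => ?_
    rw [mem_singleton, Nat.dvd_iff_mod_eq_zero]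
  rw [e0, e0, e1, e2] at hcsum
  -- the error term
  have hElt : E ≤ v * σ / 8 := by
    have h1 : (U : ℝ) / Y' ≤ 1 := by
      rw [div_le_one hY'r]
      exact_mod_cast p8 U hU32
    have h2 : E ≤ 322 * (a * L) / (cW * Real.log Y') := by
      rw [hE, ← hL]
      have h3 : (5 * 0 + ((U : ℝ) / Y' + 1) * (1 + 32 * (5 * a))) ≤ 322 * a := by
        have h4 : ((U : ℝ) / Y' + 1) * (1 + 32 * (5 * a)) ≤ 2 * (1 + 32 * (5 * a)) :=
          mul_le_mul_of_nonneg_right (by linarith) (by positivity)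
        linarith
      calc 1 / (cW * Real.log Y') * (5 * 0 + ((U : ℝ) / Y' + 1) * (1 + 32 * (5 * a))) * L ≤
            1 / (cW * Real.log Y') * (322 * a) * L :=
            mul_le_mul_of_nonneg_right (mul_le_mul_of_nonneg_left h3 (by positivity)) hL0.le
        _ = _ := by ring
    refine h2.trans ?_
    have h3 : cV * c1 * (C * (a * L)) / Real.log Y' ≤ v * σ :=
      le_trans (div_le_div_of_nonneg_right (mul_le_mul_of_nonneg_left hUmY (by positivity))
        hlY'0.le) hvσ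
    refine le_trans ?_ (div_le_div_of_nonneg_right h3 (by norm_num))
    have h5 : 2576 / (cW * cV * c1) ≤ C := by rw [hC]; linarith
    rw [div_le_iff₀ (by positivity)] at h5
    rw [div_div, div_le_div_iff₀ (by positivity) (by positivity)]
    have h6 : 0 ≤ (a * L) * Real.log Y' := by positivity
    calc 322 * (a * L) * (Real.log Y' * 8) = 2576 * ((a * L) * Real.log Y') := by ring
      _ ≤ (C * (cW * cV * c1)) * ((a * L) * Real.log Y') := mul_le_mul_of_nonneg_right h5 h6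
      _ = cV * c1 * (C * (a * L)) * (cW * Real.log Y') := by ring
  have hδ0 : 0 < δ := by
    rw [hδ]
    exact prod_pos fun p hp => Pool.Agent.Y829.fac_pos (hP p (mem_filter.1 hp).1)
  have hkey : δ * (v * σ / 16 * (N * mu Q Cf)) ≤
      N * Pool.Agent.Y829.V (PQ Q) * ∑ h ∈ Icc 1 U, RP.GG Q Cf h := by
    refine le_trans (mul_le_mul_of_nonneg_left ?_ hδ0.le) hcsum
    have h1 : E * (N * mu Q Cf) ≤ v * σ / 8 * (N * mu Q Cf) :=
      mul_le_mul_of_nonneg_right hElt (by positivity)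
    linarith
  -- the product
  obtain ⟨v1, hv1⟩ : ∃ v1 : ℝ, v1 = ∏ p ∈ (PQ Q).filter (fun p : ℕ => p ≤ Y), (1 - 1 / (p : ℝ)) :=
    ⟨_, rfl⟩
  have hVe : Pool.Agent.Y829.V (PQ Q) = δ * (v * v1) := by
    unfold Pool.Agent.Y829.V
    rw [hδ, hv, hv1, ← prod_filter_mul_prod_filter_not (PQ Q) (fun p : ℕ => Y' < p)]
    congr 1
    rw [← prod_filter_mul_prod_filter_not ((PQ Q).filter (fun p : ℕ => ¬ Y' < p))
      (fun p : ℕ => Y < p), filter_filter, filter_filter, hT]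
    congr 1
    · refine prod_congr (filter_congr fun p _ => ?_) fun _ _ => rfl
      omega
    · refine prod_congr (filter_congr fun p _ => ?_) fun _ _ => rfl
      omega
  have hv1pos : 0 < v1 := by
    rw [hv1]
    exact prod_pos fun p hp => Pool.Agent.Y829.fac_pos (hP p (mem_filter.1 hp).1)
  have hv1le : v1 ≤ C5 / Real.log Y := by
    refine le_trans (le_of_eq ?_) (HU Y (by omega))
    rw [hv1]
    refine prod_congr ?_ fun _ _ => rfl
    ext p
    rw [mem_filter, mem_PQ, mem_filter, mem_Icc]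
    constructor
    · rintro ⟨⟨h2, h3⟩, h4⟩
      exact ⟨⟨h2.one_lt.le, h4⟩, h2⟩
    · rintro ⟨⟨h2, h3⟩, h4⟩
      exact ⟨⟨h4, (h3.trans p4).trans hY'Q⟩, h3⟩
  obtain ⟨G, hG⟩ : ∃ G : ℝ, G = ∑ h ∈ Icc 1 U, RP.GG Q Cf h := ⟨_, rfl⟩
  rw [← hG] at hkey ⊢
  rw [hVe] at hkey
  have h2 : σ / 16 * mu Q Cf ≤ v1 * G := by
    have h3 : (N * δ * v) * (σ / 16 * mu Q Cf) ≤ (N * δ * v) * (v1 * G) := by
      calc (N * δ * v) * (σ / 16 * mu Q Cf) = δ * (v * σ / 16 * (N * mu Q Cf)) := by ring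
        _ ≤ _ := hkey
        _ = _ := by ring
    exact le_of_mul_le_mul_left h3 (by positivity)
  have hG0 : 0 ≤ G := by
    have h3 : 0 ≤ v1 * G := le_trans (by positivity) h2
    exact nonneg_of_mul_nonneg_right h3 hv1pos
  have h3 : σ / 16 * mu Q Cf ≤ C5 / Real.log Y * G :=
    h2.trans (mul_le_mul_of_nonneg_right hv1le hG0)
  rw [hσd] at h3
  have h4 : c1 * (U * mY) / 16 * mu Q Cf ≤ C5 * G := by
    have h5 := mul_le_mul_of_nonneg_right h3 hlY0.le
    calc c1 * (U * mY) / 16 * mu Q Cf = c1 * (U * mY / Real.log Y) / 16 * mu Q Cf * Real.log Y := by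
          field_simp
      _ ≤ C5 / Real.log Y * G * Real.log Y := h5
      _ = C5 * G := by field_simp
  calc min (c1 / 1600) (c1 / (16 * C5)) * (U * m * mu Q Cf) ≤
        c1 / (16 * C5) * (U * mY * mu Q Cf) := by
        refine mul_le_mul (min_le_right _ _) ?_ (by positivity) (by positivity)
        exact mul_le_mul_of_nonneg_right (mul_le_mul_of_nonneg_left hmmY hU0) hmu0.le
    _ = (c1 * (U * mY) / 16 * mu Q Cf) / C5 := by
        field_simp
    _ ≤ G := by
      rw [div_le_iff₀ hC5, mul_comm G]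
      exact h4

end Pool.Agent.Y835.SV
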