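import Pool.Agent.Y835.SF.RV8

/-!
The lower bound for the weighted number of primes, for divisor bounded weights.
-/

set_option autoImplicit false

namespace Pool.Agent.Y835.SV

open Finset Pool.Agent.Y829 Pool.Agent.Y829.RP Pool.Agent.Y829.RW Filter
open Pool.Agent.H378R2 (Phi EPhi LPhi WW GoodP GoodS PW yy)
open Pool.Agent.Y835.SG (evX alg1 alg2)

open Classical in
/-- the lower bound for the weighted number of primes -/
theorem lowerP3 : ∃ c₀ C : ℝ, 0 < c₀ ∧ c₀ ≤ 1 ∧ 0 < C ∧ ∀ K Z : ℕ, ∃ X0 : ℕ, ∀ X : ℕ, X0 ≤ X →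
    ∃ (ps : ℕ) (S : Finset ℕ), GoodP Z ps ∧ GoodS X S ∧ ∀ (U z : ℕ),
    Real.log (Real.log X) ^ 2 ≤ z → (z : ℝ) ≤ Real.log X ^ c₀ →
    (U : ℝ) ≤ (X : ℝ) ^ (9 / 10 : ℝ) → ∀ m : ℝ,
    m = min 1 (Real.log (U / Real.log X) / Real.log z) →
    C * (Real.log (Real.log (Real.log X)) * Real.log X) ≤ U * m →
    ∀ (c : ℕ → ℕ → ℝ) (M : ℝ) (J : Finset ℕ) (I : ℕ → Finset ℕ) (d : ℕ → ℕ → ℕ)
      (f : ℕ → ℕ → ℕ → ℝ), 0 < M →
    (∀ q ∈ QS X S ps, ∑ a ∈ range (WW X S ps * q), |c q a| ≤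
      M * (q.divisors.card : ℝ) ^ K * Real.log X ^ K) →
    M * X / (WW X S ps * Real.log X ^ K) ≤
      ∑ n ∈ Ioc X (3 * X), ∑ q ∈ QS X S ps, c q (n % (WW X S ps * q)) →
    (∀ j ∈ J, ∀ i ∈ I j, 0 < d j i ∧ d j i ≤ X ∧ Function.Periodic (f j i) (d j i)) →
    (∀ n : ℕ, ∑ q ∈ QS X S ps, c q (n % (WW X S ps * q)) = ∑ j ∈ J, (∑ i ∈ I j, f j i n) ^ 2) →
    (∀ j ∈ J, ∀ n : ℕ, (∑ i ∈ I j, f j i n) ≠ 0 → ∀ p ∈ PW X S ps, z < p → p ∣ n) →
      c₀ * (U * m / Real.log X * ∑ n ∈ Ioc X (3 * X), ∑ q ∈ QS X S ps, c q (n % (WW X S ps * q))) ≤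
        ∑ n ∈ Ioc X (3 * X), (∑ q ∈ QS X S ps, c q (n % (WW X S ps * q))) * pw U n := by
  obtain ⟨c1, C1, hc1, hc11, hC1, HG⟩ := GG4
  obtain ⟨C, hCd⟩ : ∃ C : ℝ, C = max C1 (Real.exp 3) := ⟨_, rfl⟩
  have hCC1 : C1 ≤ C := by rw [hCd]; exact le_max_left _ _
  have hC3 : Real.exp 3 ≤ C := by rw [hCd]; exact le_max_right _ _
  have hC0 : 0 < C := lt_of_lt_of_le hC1 hCC1
  refine ⟨c1 / 1600, C, by positivity, by linarith, hC0, ?_⟩
  intro K Z
  set η : ℝ := c1 / 3200 with hη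
  have hη0 : 0 < η := by positivity
  obtain ⟨X1, hest⟩ := est (K + 1) Z η hη0
  obtain ⟨X2, hX2⟩ := (evX c1 (max 4 (7 / (3 * c1) + 1)) hc1 3).exists_forall_of_atTop
  obtain ⟨X3, hX3⟩ := small_U.exists_forall_of_atTop
  obtain ⟨X4, hX4⟩ := ((tendsto_natCast_atTop_atTop (R := ℝ)).eventually
    Pool.Agent.H378R2.LPhi_ge).exists_forall_of_atTop
  obtain ⟨X5, HG⟩ := HG K Z
  refine ⟨max (max X1 X2) (max X3 (max X4 X5)), ?_⟩
  intro X hX
  have hXX1 : X1 ≤ X := (le_max_left _ _).trans ((le_max_left _ _).trans hX)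
  have hXX2 : X2 ≤ X := (le_max_right _ _).trans ((le_max_left _ _).trans hX)
  have hXX3 : X3 ≤ X := (le_max_left _ _).trans ((le_max_right _ _).trans hX)
  have hXX4 : X4 ≤ X := (le_max_left _ _).trans ((le_max_right _ _).trans
    ((le_max_right _ _).trans hX))
  have hXX5 : X5 ≤ X := (le_max_right _ _).trans ((le_max_right _ _).trans
    ((le_max_right _ _).trans hX))
  obtain ⟨ps, S, hps, hS, hc⟩ := hest X hXX1
  refine ⟨ps, S, hps, hS, ?_⟩
  intro U z hz hzL hUX m hm hCr c M J I d f hM hs hmass0 hf hsq hsupp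
  obtain ⟨h3X, k1, k2, k3, k4, k5, k6⟩ := hX2 X hXX2
  have k2a : 4 ≤ Real.log (Real.log X) := (le_max_left _ _).trans k2
  have k2b : 7 / (3 * c1) + 1 ≤ Real.log (Real.log X) := (le_max_right _ _).trans k2
  have hsm := hX3 X hXX3
  have hLP := hX4 X hXX4
  have hXr : (3 : ℝ) ≤ X := by exact_mod_cast h3X
  have hX0 : (0 : ℝ) < X := by linarith
  set L := Real.log (X : ℝ) with hL
  have hL4 : 4 ≤ L := by linarith
  have hL0 : 0 < L := by linarith
  obtain ⟨Y, hY⟩ : ∃ Y : ℕ, Y = yy X := ⟨_, rfl⟩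
  rw [← hY] at k3 k4 k6
  have hYL : (Y : ℝ) ≤ L / 1000 := by
    rw [hY]
    exact Nat.floor_le (by positivity)
  have hY2 : (2 : ℝ) ≤ Y := by linarith
  have hY0 : (0 : ℝ) < Y := by linarith
  have hlY0 : 0 < Real.log Y := Real.log_pos (by linarith)
  have hlYL : Real.log Y ≤ Real.log L := Real.log_le_log hY0 (by linarith)
  -- `m`
  have hU0 : (0 : ℝ) ≤ U := Nat.cast_nonneg U
  obtain ⟨r, hrd⟩ : ∃ r : ℝ, r = Real.log (Real.log L) := ⟨_, rfl⟩
  rw [← hrd] at hCr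
  have hr1 : 1 ≤ r := by
    rw [hrd, Real.le_log_iff_exp_le (by linarith)]
    have := Real.exp_one_lt_d9
    linarith
  have hr0 : 0 < r := by linarith
  have hUm : 0 < U * m := lt_of_lt_of_le (by positivity) hCr
  have hm0 : 0 < m := by
    by_contra h
    have := mul_nonpos_of_nonneg_of_nonpos hU0 (not_lt.1 h)
    linarith
  have hm1 : m ≤ 1 := by rw [hm]; exact min_le_left _ _
  have hz16 : (16 : ℝ) ≤ z := by
    calc (16 : ℝ) = 4 ^ 2 := by norm_num
      _ ≤ Real.log L ^ 2 := pow_le_pow_left₀ (by norm_num) k2a 2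
      _ ≤ z := hz
  have hz2 : 2 ≤ z := by
    have : (2 : ℝ) ≤ z := by linarith
    exact_mod_cast this
  have hlz : 0 < Real.log z := Real.log_pos (by linarith)
  have hUCL : Real.exp 3 * L ≤ U := by
    calc Real.exp 3 * L ≤ C * (r * L) := by
          refine mul_le_mul hC3 ?_ hL0.le hC0.le
          exact le_mul_of_one_le_left hL0.le hr1
      _ ≤ U * m := hCr
      _ ≤ U := mul_le_of_le_one_right hU0 hm1
  have hUpos : (0 : ℝ) < U := lt_of_lt_of_le (by positivity) hUCL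
  have hlam : 3 ≤ Real.log (U / L) := by
    rw [Real.le_log_iff_exp_le (by positivity), le_div_iff₀ hL0]
    exact hUCL
  have hUY : (U : ℝ) / L ≤ U / Y := div_le_div_of_nonneg_left hU0 hY0 (by linarith)
  have hlamY : Real.log (U / L) ≤ Real.log (U / Y) := Real.log_le_log (by positivity) hUY
  have hzl : Real.log z ≤ c1 / 1600 * Real.log L := by
    rw [← Real.log_rpow hL0]
    exact Real.log_le_log (by linarith) hzL
  obtain ⟨mY, hmY⟩ : ∃ mY : ℝ, mY = min 1 (Real.log ((U : ℝ) / Y) / Real.log z) := ⟨_, rfl⟩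
  have hmmY : m ≤ mY := by
    rw [hm, hmY]
    exact min_le_min le_rfl (div_le_div_of_nonneg_right hlamY hlz.le)
  have hLL2 : 1 / L ^ 2 ≤ m := by
    rw [hm]
    refine le_min ?_ ?_
    · rw [div_le_one (by positivity)]
      exact one_le_pow₀ (by linarith)
    · have h1 : Real.log z ≤ L := by
        refine hzl.trans ?_
        have h2 : Real.log L ≤ L := by
          have := Real.log_le_sub_one_of_pos hL0
          linarith
        calc c1 / 1600 * Real.log L ≤ 1 * L :=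
              mul_le_mul (by linarith) h2 (by linarith) zero_le_one
          _ = L := one_mul L
      have h2 : 1 / L ^ 2 ≤ 1 / L := one_div_le_one_div_of_le hL0
        (le_self_pow₀ (by linarith) (by norm_num))
      refine h2.trans ?_
      exact div_le_div₀ (by linarith) (by linarith) hlz h1
  set W := WW X S ps with hW
  have hW0 : 0 < W := Pool.Agent.H378R2.WW_pos X S ps
  have hWr : (0 : ℝ) < W := by exact_mod_cast hW0
  set R := ⌊(X : ℝ) ^ (1 / 100 : ℝ)⌋₊ with hR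
  have hRL : L ≤ R := by
    have := Nat.lt_floor_add_one ((X : ℝ) ^ (1 / 100 : ℝ))
    rw [← hR] at this
    linarith
  have hR1 : 1 ≤ R := by
    have : (1 : ℝ) ≤ R := by linarith
    exact_mod_cast this
  set Q := W * R with hQ
  have hQ1 : 1 ≤ Q := Nat.mul_pos hW0 hR1
  have hRQ : R ≤ Q := Nat.le_mul_of_pos_left R hW0
  have hYQ : Y ≤ Q := by
    have : (Y : ℝ) ≤ R := by linarith
    have h2 : Y ≤ R := by exact_mod_cast this
    exact h2.trans hRQ
  set Cf := ct W (QS X S ps) c with hCf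
  have hwt : ∀ n, wt Q Cf n = ∑ q ∈ QS X S ps, c q (n % (W * q)) :=
    fun n => wt_ct W R hW0 (QS X S ps) (QS_sub _ _ _) c n
  simp only [← hwt] at hmass0 hsq ⊢
  have hw : ∀ n, 0 ≤ wt Q Cf n := fun n => by rw [hsq]; exact sum_nonneg fun j _ => sq_nonneg _
  -- the errors
  obtain ⟨hT, hSt⟩ := hc c (M / L) (by positivity) (fun q hq => by
    refine (hs q hq).trans ?_
    have h6 : (1 : ℝ) ≤ (q.divisors.card : ℝ) := by
      have h7 := (mem_Icc.1 (QS_sub _ _ _ hq)).1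
      have : 0 < q.divisors.card := Finset.card_pos.2 ⟨1, Nat.one_mem_divisors.2 (by omega)⟩
      exact_mod_cast this
    have h7 : (q.divisors.card : ℝ) ^ K ≤ (q.divisors.card : ℝ) ^ (K + 1) :=
      pow_le_pow_right₀ h6 (by omega)
    calc M * (q.divisors.card : ℝ) ^ K * L ^ K ≤ M * (q.divisors.card : ℝ) ^ (K + 1) * L ^ K :=
          mul_le_mul_of_nonneg_right (mul_le_mul_of_nonneg_left h7 hM.le) (by positivity)
      _ = M / L * (q.divisors.card : ℝ) ^ (K + 1) * L ^ (K + 1) := alg2 M L _ K hL0)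
  set St : ℝ := ∑ d ∈ Icc 1 Q, ss Cf d with hStd
  set ma : ℝ := ∑ n ∈ Ioc X (3 * X), wt Q Cf n with hmd
  have hma0 : 0 ≤ ma := sum_nonneg fun n _ => hw n
  obtain ⟨ε, hε⟩ : ∃ ε : ℝ, ε = η * (ma / L ^ 2) := ⟨_, rfl⟩
  have hε0 : 0 ≤ ε := by rw [hε]; positivity
  have hE : η * (M / L * X / (W * L ^ (K + 1))) ≤ ε := by
    rw [hε]
    refine mul_le_mul_of_nonneg_left ?_ hη0.le
    rw [alg1]
    exact div_le_div_of_nonneg_right hmass0 (by positivity)
  have hSt0 : 0 ≤ St := sum_nonneg fun d _ => ss_nonneg _ _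
  have hSt1 : St * (X : ℝ) ^ (19 / 20 : ℝ) ≤ ε := hSt.trans hE
  have hSt2 : St ≤ ε := by
    refine le_trans ?_ hSt1
    exact le_mul_of_one_le_right hSt0 (Real.one_le_rpow (by linarith) (by norm_num))
  have hεma : ε ≤ ma / 2 := by
    rw [hε]
    have h1 : ma / L ^ 2 ≤ ma := div_le_self hma0 (one_le_pow₀ (by linarith))
    have h2 : η ≤ 1 / 2 := by rw [hη]; linarith
    calc η * (ma / L ^ 2) ≤ 1 / 2 * ma := mul_le_mul h2 h1 (by positivity) (by norm_num)
      _ = ma / 2 := by ring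
  have hmass := (abs_le.1 ((sum_int Q X (3 * X) (by omega) Cf))).2
  rw [← hmd, ← hStd] at hmass
  have e1 : (((3 * X : ℕ) : ℝ) - X) * mu Q Cf = 2 * (X * mu Q Cf) := by push_cast; ring
  rw [e1] at hmass
  -- the mean of the singular series
  have hmulow : M / (4 * (W * L ^ K)) ≤ mu Q Cf := by
    have h1 : ma / 2 ≤ 2 * (X * mu Q Cf) := by linarith
    have h2 : M * X / (W * L ^ K) ≤ 4 * (X * mu Q Cf) := by linarith
    have h3 : M / (4 * (W * L ^ K)) = (M * X / (W * L ^ K)) / (4 * X) := by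
      field_simp
    rw [h3, div_le_iff₀ (by positivity)]
    linarith
  have hmu0 : 0 ≤ mu Q Cf := le_trans (by positivity) hmulow
  have hGlow' : c1 * (U * m * mu Q Cf) ≤ ∑ h ∈ Icc 1 U, RP.GG Q Cf h :=
    HG X hXX5 ps S hps hS U z hz (hzL.trans (Real.rpow_le_rpow_of_exponent_le (by linarith)
      (by linarith))) m hm (by
      rw [← hL, ← hrd]
      exact (mul_le_mul_of_nonneg_right hCC1 (by positivity)).trans hCr)
      Q Cf c M J I d f (by rw [hQ]) hCf hM hs hmulow hf hsq hsupp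
  -- the sum of the TT
  have hUleX : ∀ h ∈ Icc 1 U, h ≤ X ∧ (h : ℝ) ≤ (X : ℝ) ^ (9 / 10 : ℝ) := by
    intro h hh
    have h1 : (h : ℝ) ≤ U := by exact_mod_cast (mem_Icc.1 hh).2
    have h2 : (X : ℝ) ^ (9 / 10 : ℝ) ≤ X := by
      calc (X : ℝ) ^ (9 / 10 : ℝ) ≤ (X : ℝ) ^ (1 : ℝ) :=
            Real.rpow_le_rpow_of_exponent_le (by linarith) (by norm_num)
        _ = X := Real.rpow_one _
    refine ⟨?_, h1.trans hUX⟩
    have : (h : ℝ) ≤ X := by linarith
    exact_mod_cast this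
  have hTlow : ∀ h ∈ Icc 1 U, LPhi X * RP.GG Q Cf h - ε ≤ TT X Q Cf h := by
    intro h hh
    have h1 := (abs_le.1 (hT h (hUleX h hh).1)).1
    linarith
  have hTup : ∀ h ∈ Icc 1 U, TT X Q Cf h ≤ L * ∑ n ∈ Ioc X (3 * X), wt Q Cf n *
      (if (n + h).Prime then 1 else 0) + ε := by
    intro h hh
    have h1 := TT_le X (by omega) Q Cf hw St (wt_le_ss Q Cf) h
    have h2 := hsm h (hUleX h hh).2
    have h3 := mul_le_mul_of_nonneg_left h2 hSt0
    have hlog3 : (1 / 2) * Real.log (3 * X) ≤ L := by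
      rw [Real.log_mul (by norm_num) hX0.ne']
      have : Real.log 3 ≤ 2 := by
        have := Real.log_le_sub_one_of_pos (show (0 : ℝ) < 3 by norm_num)
        linarith
      linarith
    have h4 : 0 ≤ ∑ n ∈ Ioc X (3 * X), wt Q Cf n * (if (n + h).Prime then (1 : ℝ) else 0) := by
      apply sum_nonneg
      intro n _
      apply mul_nonneg (hw n)
      split_ifs <;> norm_num
    have h5 := mul_le_mul_of_nonneg_right hlog3 h4
    linarith
  have hsum := sum_le_sum (fun h hh => (hTlow h hh).trans (hTup h hh))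
  rw [sum_sub_distrib, sum_add_distrib, ← mul_sum, ← mul_sum, sum_const, Nat.card_Icc,
    Nat.add_sub_cancel, nsmul_eq_mul] at hsum
  have hpw : ∑ n ∈ Ioc X (3 * X), wt Q Cf n * pw U n =
      ∑ h ∈ Icc 1 U, ∑ n ∈ Ioc X (3 * X), wt Q Cf n * (if (n + h).Prime then 1 else 0) := by
    rw [sum_comm]
    apply sum_congr rfl
    intro n _
    rw [pw_eq, mul_sum]
  rw [← hpw] at hsum
  set Pt : ℝ := ∑ n ∈ Ioc X (3 * X), wt Q Cf n * pw U n with hPt
  have hA1 : X / 200 * (c1 * (U * m * mu Q Cf)) ≤ LPhi X * ∑ h ∈ Icc 1 U, RP.GG Q Cf h :=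
    mul_le_mul hLP hGlow' (by positivity) ((by positivity : (0 : ℝ) ≤ X / 200).trans hLP)
  have hA2 : c1 / 800 * (U * m * ma) ≤ X / 200 * (c1 * (U * m * mu Q Cf)) := by
    have h1 : ma / 2 ≤ 2 * (X * mu Q Cf) := by linarith
    calc c1 / 800 * (U * m * ma) = c1 / 400 * (U * m) * (ma / 2) := by ring
      _ ≤ c1 / 400 * (U * m) * (2 * (X * mu Q Cf)) := mul_le_mul_of_nonneg_left h1 (by positivity)
      _ = _ := by ring
  have hA3 : 2 * (U * ε) ≤ c1 / 1600 * (U * m * ma) := by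
    rw [hε, hη]
    calc 2 * (U * (c1 / 3200 * (ma / L ^ 2))) = c1 / 1600 * (U * (1 / L ^ 2) * ma) := by ring
      _ ≤ c1 / 1600 * (U * m * ma) := by
        refine mul_le_mul_of_nonneg_left ?_ (by positivity)
        exact mul_le_mul_of_nonneg_right (mul_le_mul_of_nonneg_left hLL2 hU0) hma0
  have hA4 : c1 / 1600 * (U * m * ma) ≤ L * Pt := by linarith
  calc c1 / 1600 * (U * m / L * ma) = (c1 / 1600 * (U * m * ma)) / L := by field_simp
    _ ≤ (L * Pt) / L := div_le_div_of_nonneg_right hA4 hL0.le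
    _ = Pt := by field_simp

end Pool.Agent.Y835.SV
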