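import Pool.Agent.Y835.SF.RV6
import Pool.Agent.Y835.SF.Prim2

/-!
The sum of the singular series for divisor bounded weights, all lengths.
-/

set_option autoImplicit false

namespace Pool.Agent.Y835.SV

open Finset Pool.Agent.Y829 Pool.Agent.Y829.RP Pool.Agent.Y829.RW Filter
open Pool.Agent.H378R2 (WW GoodP GoodS PW yy)

open Classical in
theorem GG4 : ∃ c C : ℝ, 0 < c ∧ c ≤ 1 ∧ 0 < C ∧ ∀ K Z : ℕ, ∃ X0 : ℕ, ∀ X : ℕ, X0 ≤ X →
    ∀ (ps : ℕ) (S : Finset ℕ), GoodP Z ps → GoodS X S → ∀ (U z : ℕ),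
    Real.log (Real.log X) ^ 2 ≤ z → (z : ℝ) ≤ Real.log X ^ c → ∀ m : ℝ,
    m = min 1 (Real.log (U / Real.log X) / Real.log z) →
    C * (Real.log (Real.log (Real.log X)) * Real.log X) ≤ U * m →
    ∀ (Q : ℕ) (Cf c' : ℕ → ℕ → ℝ) (M : ℝ) (J : Finset ℕ) (I : ℕ → Finset ℕ) (d : ℕ → ℕ → ℕ)
      (f : ℕ → ℕ → ℕ → ℝ), Q = WW X S ps * ⌊(X : ℝ) ^ (1 / 100 : ℝ)⌋₊ →
    Cf = ct (WW X S ps) (QS X S ps) c' → 0 < M →
    (∀ q ∈ QS X S ps, ∑ a ∈ range (WW X S ps * q), |c' q a| ≤
      M * (q.divisors.card : ℝ) ^ K * Real.log X ^ K) →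
    M / (4 * (WW X S ps * Real.log X ^ K)) ≤ mu Q Cf →
    (∀ j ∈ J, ∀ i ∈ I j, 0 < d j i ∧ d j i ≤ X ∧ Function.Periodic (f j i) (d j i)) →
    (∀ n : ℕ, wt Q Cf n = ∑ j ∈ J, (∑ i ∈ I j, f j i n) ^ 2) →
    (∀ j ∈ J, ∀ n : ℕ, (∑ i ∈ I j, f j i n) ≠ 0 → ∀ p ∈ PW X S ps, z < p → p ∣ n) →
      c * (U * m * mu Q Cf) ≤ ∑ h ∈ Icc 1 U, RP.GG Q Cf h := by
  obtain ⟨c3, C3, hc3, hc31, hC3, H3⟩ := GG3
  obtain ⟨c1, C1, Y1, hc1, hc11, hC1, HG⟩ := Pool.Agent.Y835.SF.GGs 2000 (by norm_num)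
  obtain ⟨C2, hC2, HR⟩ := Pool.Agent.Y835.SG.rbound
  refine ⟨min c3 (c1 / 1600), C3 + Real.exp 3, lt_min hc3 (by positivity),
    (min_le_left _ _).trans hc31, by positivity, fun K Z => ?_⟩
  obtain ⟨X3, hX3⟩ := H3 K Z
  have t1 := Real.tendsto_log_atTop
  have t2 := t1.comp t1
  obtain ⟨X2, hX2⟩ := ((Pool.Agent.Y835.SG.evX c1 (max (4 * C1 * C2 + 16) (7 / (3 * c1) + 1)) hc1 Y1).and
    ((tendsto_natCast_atTop_atTop (R := ℝ)).eventually
      (t2.eventually (ev_l5 C1)))).exists_forall_of_atTop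
  refine ⟨max X3 X2, ?_⟩
  intro X hX ps S hps hS U z hz hzL m hm hCr Q Cf c' M J I d f hQ hCf hM hs hmu hf hsq hsupp
  obtain ⟨⟨h3X, k1, k2, k3, k4, k5, k6⟩, k7, k8⟩ := hX2 X ((le_max_right _ _).trans hX)
  simp only [Function.comp] at k7 k8
  have k2a : 4 * C1 * C2 + 16 ≤ Real.log (Real.log X) := (le_max_left _ _).trans k2
  have k2b : 7 / (3 * c1) + 1 ≤ Real.log (Real.log X) := (le_max_right _ _).trans k2
  obtain ⟨L, hL⟩ : ∃ L : ℝ, L = Real.log (X : ℝ) := ⟨_, rfl⟩
  have hmu0 : 0 ≤ mu Q Cf := by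
    refine le_trans ?_ hmu
    have := Real.log_natCast_nonneg X
    positivity
  have hL1 : 1 ≤ L := by rw [hL]; linarith
  have hL0 : 0 < L := by linarith
  have ha1 : 1 ≤ Real.log (Real.log L) := by
    rw [Real.le_log_iff_exp_le (by rw [hL]; linarith)]
    have := Real.exp_one_lt_d9
    rw [hL]
    linarith
  have hU0 : (0 : ℝ) ≤ U := Nat.cast_nonneg U
  have haL : L ≤ Real.log (Real.log L) * L := le_mul_of_one_le_left hL0.le ha1
  have hCr1 : C3 * (Real.log (Real.log (Real.log X)) * Real.log X) ≤ U * m := by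
    refine le_trans ?_ hCr
    rw [← hL]
    refine mul_le_mul_of_nonneg_right ?_ (by positivity)
    linarith [Real.exp_pos 3]
  have hCr2 : Real.exp 3 * L ≤ U * m := by
    refine le_trans ?_ hCr
    rw [← hL]
    exact mul_le_mul (by linarith) haL hL0.le (by positivity)
  have hUm : 0 < U * m := lt_of_lt_of_le (by positivity) hCr2
  have hm0 : 0 < m := by
    by_contra h
    have := mul_nonpos_of_nonneg_of_nonpos hU0 (not_lt.1 h)
    linarith
  have hm1 : m ≤ 1 := by rw [hm]; exact min_le_left _ _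
  rcases le_or_gt (U : ℝ) (Real.log X ^ (3 / 2 : ℝ)) with hU | hU
  · refine le_trans ?_ (hX3 X ((le_max_left _ _).trans hX) ps S hps hS U z hz (hzL.trans
      (Real.rpow_le_rpow_of_exponent_le (by rw [← hL]; exact hL1) (min_le_left _ _))) hU m hm hCr1
      Q Cf c' M J I d f hQ hCf hM hs hmu hf hsq hsupp)
    exact mul_le_mul_of_nonneg_right (min_le_left _ _) (by positivity)
  · rw [← hL] at k1 k2a k2b k4 k5 k6 k7 k8 hz hzL hm hCr hs hmu hU
    obtain ⟨l, hl⟩ : ∃ l : ℝ, l = Real.log L := ⟨_, rfl⟩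
    rw [← hl] at k2a k2b k7 k8 hz
    have hXr : (3 : ℝ) ≤ X := by exact_mod_cast h3X
    have hX0 : (0 : ℝ) < X := by linarith
    have hl0 : 0 < l := by linarith
    have hel : Real.exp l = L := by rw [hl]; exact Real.exp_log hL0
    obtain ⟨Y, hY⟩ : ∃ Y : ℕ, Y = yy X := ⟨_, rfl⟩
    rw [← hY] at k3 k4 k6
    have hYL : (Y : ℝ) ≤ L / 1000 := by
      rw [hY, hL]
      refine Nat.floor_le ?_
      rw [← hL]
      positivity
    have hY2 : (2 : ℝ) ≤ Y := by linarith
    have hY0 : (0 : ℝ) < Y := by linarith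
    have hL6 : 6000 ≤ L := by
      rw [← hel]
      have := Real.quadratic_le_exp_of_nonneg (x := l) hl0.le
      nlinarith only [this, k7]
    have hY3 : 3 ≤ Y := by
      have : (3 : ℝ) ≤ Y := by linarith
      exact_mod_cast this
    have hlY0 : 0 < Real.log Y := Real.log_pos (by linarith)
    have hlYL : Real.log Y ≤ l := by
      rw [hl]
      exact Real.log_le_log hY0 (by linarith)
    have hlog2000 : Real.log 2000 ≤ 8 := by
      rw [Real.log_le_iff_le_exp (by norm_num)]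
      have h3 := Real.exp_one_gt_d9
      have h4 : Real.exp 8 = Real.exp 1 ^ 8 := by
        rw [← Real.exp_nat_mul]; norm_num
      rw [h4]
      calc (2000 : ℝ) ≤ 2.7 ^ 8 := by norm_num
        _ ≤ Real.exp 1 ^ 8 := pow_le_pow_left₀ (by norm_num) (by linarith) 8
    have hC12 : 0 < C1 * C2 := by positivity
    have hlYl : l / 2 ≤ Real.log Y := by
      have h1 : Real.log L ≤ Real.log (2000 * Y) := Real.log_le_log hL0 k4
      rw [Real.log_mul (by norm_num) hY0.ne', ← hl] at h1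
      linarith
    have hz16 : (16 : ℝ) ≤ z := by
      calc (16 : ℝ) ≤ 16 ^ 2 := by norm_num
        _ ≤ l ^ 2 := pow_le_pow_left₀ (by norm_num) (by linarith) 2
        _ ≤ z := hz
    have hz2 : 2 ≤ z := by
      have : (2 : ℝ) ≤ z := by linarith
      exact_mod_cast this
    have hlz : 0 < Real.log z := Real.log_pos (by linarith)
    have hzl : Real.log z ≤ c1 / 1600 * l := by
      have h1 : Real.log z ≤ Real.log (L ^ (min c3 (c1 / 1600))) :=
        Real.log_le_log (by linarith) hzL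
      rw [Real.log_rpow hL0, ← hl] at h1
      exact h1.trans (mul_le_mul_of_nonneg_right (min_le_right _ _) hl0.le)
    have hLl : L ^ (3 / 2 : ℝ) = L * Real.exp (l / 2) := by
      rw [← hel, ← Real.exp_mul, ← Real.exp_add]
      congr 1
      ring
    rw [hLl] at hU
    have hUpos : (0 : ℝ) < U := lt_trans (by positivity) hU
    have hlx : l / 2 ≤ Real.log (U / L) := by
      rw [Real.le_log_iff_exp_le (by positivity), le_div_iff₀ hL0, mul_comm]
      exact hU.le
    have hm1' : m = 1 := by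
      rw [hm, min_eq_left]
      rw [le_div_iff₀ hlz, one_mul]
      refine hzl.trans (le_trans ?_ hlx)
      have : c1 / 1600 * l ≤ 1 / 2 * l := mul_le_mul_of_nonneg_right (by linarith) hl0.le
      linarith
    have hUY : (U : ℝ) / L ≤ U / Y := div_le_div_of_nonneg_left hU0 hY0 (by linarith)
    have hlamY : Real.log (U / L) ≤ Real.log (U / Y) := Real.log_le_log (by positivity) hUY
    obtain ⟨mY, hmY⟩ : ∃ mY : ℝ, mY = min 1 (Real.log ((U : ℝ) / Y) / Real.log z) := ⟨_, rfl⟩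
    have hmmY : m ≤ mY := by
      rw [hm, hmY]
      exact min_le_min le_rfl (div_le_div_of_nonneg_right hlamY hlz.le)
    have hmin : l / 2 ≤ min (Real.log ((U : ℝ) / Y)) (Real.log Y) :=
      le_min (hlx.trans hlamY) hlYl
    have hmin0 : 0 < min (Real.log ((U : ℝ) / Y)) (Real.log Y) := by linarith
    obtain ⟨r, hr⟩ : ∃ r : ℝ, r = C2 * (U / Y) / min (Real.log ((U : ℝ) / Y)) (Real.log Y) + l :=
      ⟨_, rfl⟩
    have hr0 : 0 ≤ C2 * (U / Y) / min (Real.log ((U : ℝ) / Y)) (Real.log Y) := by positivity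
    have hrle : r ≤ C2 * (U / Y) / (l / 2) + l := by
      rw [hr]
      have := div_le_div_of_nonneg_left (show 0 ≤ C2 * (U / Y) by positivity) (by positivity) hmin
      linarith
    have hrY : C1 * (r * Y) ≤ U * mY := by
      have h1 : C1 * (r * Y) ≤ C1 * ((C2 * (U / Y) / (l / 2) + l) * Y) :=
        mul_le_mul_of_nonneg_left (mul_le_mul_of_nonneg_right hrle hY0.le) hC1.le
      refine h1.trans ?_
      have h2 : C1 * ((C2 * (U / Y) / (l / 2) + l) * Y) = 2 * C1 * C2 / l * U + C1 * l * Y := by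
        field_simp
      rw [h2]
      have h3 : 2 * C1 * C2 / l ≤ 1 / 2 := by
        rw [div_le_iff₀ hl0]
        linarith
      have h4 : C1 * l * Y ≤ 1 / 2 * U := by
        have h5 : C1 * l ≤ Real.exp (l / 2) := by
          refine le_trans ?_ k8
          have h6 : l ≤ l ^ 5 := le_self_pow₀ (by linarith) (by norm_num)
          exact mul_le_mul_of_nonneg_left h6 hC1.le
        have h6 : C1 * l * Y ≤ Real.exp (l / 2) * (L / 1000) :=
          mul_le_mul h5 hYL hY0.le (Real.exp_pos _).le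
        have h7 : 0 ≤ Real.exp (l / 2) * L := by positivity
        have h8 : Real.exp (l / 2) * (L / 1000) = Real.exp (l / 2) * L / 1000 := by ring
        have h9 : L * Real.exp (l / 2) = Real.exp (l / 2) * L := mul_comm _ _
        linarith
      have h5 : 2 * C1 * C2 / l * U ≤ 1 / 2 * U := mul_le_mul_of_nonneg_right h3 hU0
      have h6 : U * m ≤ U * mY := mul_le_mul_of_nonneg_left hmmY hU0
      rw [hm1', mul_one] at h6
      linarith
    have hW0 : 0 < WW X S ps := Pool.Agent.H378R2.WW_pos X S ps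
    have hRL : L ≤ (⌊(X : ℝ) ^ (1 / 100 : ℝ)⌋₊ : ℝ) := by
      have := Nat.lt_floor_add_one ((X : ℝ) ^ (1 / 100 : ℝ))
      linarith
    have hYQ : Y ≤ Q := by
      have h1 : (Y : ℝ) ≤ (⌊(X : ℝ) ^ (1 / 100 : ℝ)⌋₊ : ℝ) := by linarith
      have h2 : Y ≤ ⌊(X : ℝ) ^ (1 / 100 : ℝ)⌋₊ := by exact_mod_cast h1
      rw [hQ]
      exact h2.trans (Nat.le_mul_of_pos_left _ hW0)
    obtain ⟨-, hGlow⟩ := HG X Q Y U z r k3 (by omega) (by rw [← hL]; exact k4) hYQ hz2 (by
        refine le_trans (hzL.trans ?_) k6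
        refine Real.rpow_le_rpow_of_exponent_le hL1 ?_
        exact (min_le_right _ _).trans (by linarith)) (by linarith) mY hmY hrY
        (min 1 (Real.log ((U : ℝ) / Y) / Real.log Y) * mY) rfl J I d f Cf hf hsq (by
        intro j hj n hn
        have h1 := Pool.Agent.Y835.SG.exc_sum (Z := Z) hS hps (by rw [← hL, ← hl]; linarith)
          (by rw [← hL, ← hl]; exact hz) n (hsupp j hj n hn) (PQ Q)
          (fun p hp => (mem_PQ.1 hp).1)
        rw [← hL, ← hl, ← hY] at h1
        refine h1.trans ?_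
        have h2 := Pool.Agent.Y835.SG.theta_low (c := c1) (l := l) (lam := Real.log (U / Y))
          (lz := Real.log z) hc1 hl0 (by linarith) hlz (by
            refine hzl.trans ?_
            exact mul_le_mul_of_nonneg_right (by linarith) hl0.le) (by
            have h3 : 7 / (3 * c1) ≤ l := by linarith
            rw [div_le_iff₀ (by positivity)] at h3
            linarith) (by linarith) rfl
        refine h2.trans ?_
        rw [← hmY]
        refine mul_le_mul_of_nonneg_left ?_ hc1.le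
        refine mul_le_mul_of_nonneg_right ?_ (hm0.le.trans hmmY)
        refine min_le_min le_rfl ?_
        exact div_le_div_of_nonneg_left (by linarith) hlY0 hlYL) (by
        intro j _ n _ p hpp hYp hpU _
        refine (HR Y U p n hY3 ?_ hpp hYp).trans (by rw [hr]; linarith)
        have h1 : Real.exp 1 ≤ Real.exp (l / 2) := Real.exp_le_exp.2 (by linarith)
        have h2 : Real.exp (l / 2) ≤ (U : ℝ) / L := by
          rw [le_div_iff₀ hL0, mul_comm]
          exact hU.le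
        linarith)
    refine le_trans ?_ hGlow
    refine mul_le_mul ((min_le_right _ _).trans (by linarith)) ?_ (by positivity) hc1.le
    refine mul_le_mul_of_nonneg_right ?_ hmu0
    exact mul_le_mul_of_nonneg_left hmmY hU0

end Pool.Agent.Y835.SV
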