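import Pool.Agent.Y835.SF.IntF

/-!
The limit for the modulus of the record.
-/

set_option autoImplicit false

namespace Pool.Agent.Y835.SG

open Finset Filter
open Pool.Agent.H378R2 (yy)

/-- conditions on `l = log log X` -/
theorem ev_l (c C : ℝ) (hc : 0 < c) : ∀ᶠ l : ℝ in atTop, 2 ≤ l ∧ 1 ≤ Real.log (Real.log l) ∧
    1 ≤ Real.log l ∧ Real.log l ^ 2 ≤ l ∧ Real.log (Real.log l) ≤ c * Real.log l ∧
    C * (l ^ 2 * Real.log (Real.log l) / Real.log l ^ 2) + 1 ≤ Real.exp l := by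
  have h1 : Tendsto (fun l : ℝ => Real.log (Real.log l)) atTop atTop :=
    Real.tendsto_log_atTop.comp Real.tendsto_log_atTop
  have h2 : ∀ᶠ l : ℝ in atTop, ‖Real.log l ^ (2 : ℝ)‖ ≤ 1 * ‖l ^ (1 : ℝ)‖ :=
    (isLittleO_log_rpow_rpow_atTop 2 one_pos).def one_pos
  have h3 : ∀ᶠ x : ℝ in atTop, ‖Real.log x‖ ≤ c * ‖x‖ := Real.isLittleO_log_id_atTop.def hc
  have h4 := Real.tendsto_log_atTop.eventually h3
  have h5 : ∀ᶠ l : ℝ in atTop, ‖l ^ (3 : ℝ)‖ ≤ 1 / (|C| + 1) * ‖Real.exp l‖ := by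
    have := (isLittleO_rpow_exp_atTop 3).def (show (0 : ℝ) < 1 / (|C| + 1) by positivity)
    exact this
  filter_upwards [eventually_ge_atTop (2 : ℝ), h1.eventually_ge_atTop 1,
    Real.tendsto_log_atTop.eventually_ge_atTop 1, h2, h4, h5] with l a1 a2 a3 a4 a5 a6
  have hl0 : 0 < l := by linarith
  have hl1 : 0 < Real.log l := by linarith
  have hl2 : 0 < Real.log (Real.log l) := by linarith
  rw [Real.norm_of_nonneg (by positivity), Real.norm_of_nonneg (by positivity), Real.rpow_one,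
    Real.rpow_two, one_mul] at a4
  rw [Real.norm_of_nonneg hl2.le, Real.norm_of_nonneg hl1.le] at a5
  refine ⟨a1, a2, a3, a4, a5, ?_⟩
  rw [Real.norm_of_nonneg (by positivity), Real.norm_of_nonneg (Real.exp_pos _).le] at a6
  have e3 : l ^ (3 : ℝ) = l ^ 3 := by
    rw [← Real.rpow_natCast]; norm_num
  rw [e3, one_div_mul_eq_div, le_div_iff₀ (by positivity)] at a6
  have h6 : l ^ 2 * Real.log (Real.log l) / Real.log l ^ 2 ≤ l ^ 3 := by
    rw [div_le_iff₀ (by positivity)]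
    have h7 : Real.log (Real.log l) ≤ l := by
      have e1 := Real.log_le_sub_one_of_pos hl1
      have e2 := Real.log_le_sub_one_of_pos hl0
      linarith
    have h8 : (1 : ℝ) ≤ Real.log l ^ 2 := one_le_pow₀ a3
    calc l ^ 2 * Real.log (Real.log l) ≤ l ^ 2 * l := mul_le_mul_of_nonneg_left h7 (by positivity)
      _ = l ^ 3 * 1 := by ring
      _ ≤ l ^ 3 * Real.log l ^ 2 := mul_le_mul_of_nonneg_left h8 (by positivity)
  have h9 : C * (l ^ 2 * Real.log (Real.log l) / Real.log l ^ 2) ≤ |C| * l ^ 3 :=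
    mul_le_mul (le_abs_self C) h6 (by positivity) (abs_nonneg C)
  have h10 : (1 : ℝ) ≤ l ^ 3 := one_le_pow₀ (by linarith)
  nlinarith

open Classical in
/-- the limit at the record modulus -/
theorem thr : ∃ C : ℝ, 0 < C ∧ ∃ X0 : ℕ, ∀ X : ℕ, X0 ≤ X →
    ∀ (U z : ℕ),
    Real.log (Real.log X) ^ 2 ≤ z →
    Real.log z ≤ Real.log (Real.log X) * Real.log (Real.log (Real.log (Real.log X))) /
      Real.log (Real.log (Real.log X)) →
    C * (Real.log X * Real.log (Real.log X) ^ 2 * Real.log (Real.log (Real.log (Real.log X))) /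
      Real.log (Real.log (Real.log X)) ^ 2) ≤ U →
    ∀ (J : Finset ℕ) (I : ℕ → Finset ℕ) (d : ℕ → ℕ → ℕ) (f : ℕ → ℕ → ℕ → ℝ),
    (∀ j ∈ J, ∀ i ∈ I j, 0 < d j i ∧ d j i ≤ X ∧ Function.Periodic (f j i) (d j i)) →
    (∀ j ∈ J, ∀ i ∈ I j, ∀ p : ℕ, p.Prime → Real.log X / 1000 < p → (p : ℝ) ≤ Real.log X ^ 2 →
      ¬ p ∣ d j i) →
    (∀ j ∈ J, ∀ n : ℕ, (∑ i ∈ I j, f j i n) ≠ 0 →
      ∑ p ∈ ((Icc 1 X).filter Nat.Prime).filter (fun p : ℕ => z < p ∧ p ≤ yy X ∧ ¬ p ∣ n),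
        1 / (p : ℝ) ≤ 7 / Real.log (Real.log X) ^ 2) →
      Real.log (Real.log X) *
        ∑ n ∈ range X.factorial, ∑ j ∈ J, (∑ i ∈ I j, f j i n) ^ 2 ≤
        ∑ n ∈ range X.factorial, (∑ j ∈ J, (∑ i ∈ I j, f j i n) ^ 2) *
          (((Icc 1 U).filter (fun h => ∀ p ∈ (Icc 1 X).filter Nat.Prime, ¬ p ∣ n + h)).card :
            ℝ) := by
  obtain ⟨c₀, C1, hc₀, hc₀1, hC1, X1, H⟩ := intF
  obtain ⟨C, hC⟩ : ∃ C : ℝ, C = max (max C1 (1 / c₀)) 1 := ⟨_, rfl⟩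
  have hCC1 : C1 ≤ C := by rw [hC]; exact (le_max_left _ _).trans (le_max_left _ _)
  have hCc : 1 / c₀ ≤ C := by rw [hC]; exact (le_max_right _ _).trans (le_max_left _ _)
  have hC1' : 1 ≤ C := by rw [hC]; exact le_max_right _ _
  have hC0 : 0 < C := by linarith
  have hll : Tendsto (fun X : ℕ => Real.log (Real.log (X : ℝ))) atTop atTop :=
    (Real.tendsto_log_atTop.comp Real.tendsto_log_atTop).comp tendsto_natCast_atTop_atTop
  obtain ⟨X2, hX2⟩ := (hll.eventually (ev_l c₀ C hc₀)).exists_forall_of_atTop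
  obtain ⟨X3, hX3⟩ := (evX 1 4 one_pos 3).exists_forall_of_atTop
  refine ⟨C, hC0, max (max X1 X2) X3, ?_⟩
  intro X hX U z hz hlz hU J I d f hf hdp hsupp
  have hXX1 : X1 ≤ X := (le_max_left _ _).trans ((le_max_left _ _).trans hX)
  have hXX2 : X2 ≤ X := (le_max_right _ _).trans ((le_max_left _ _).trans hX)
  obtain ⟨k0, k1, k2, k3, -, -, -⟩ := hX3 X ((le_max_right _ _).trans hX)
  obtain ⟨g1, g2, g3, g4, g5, g6⟩ := hX2 X hXX2
  obtain ⟨L, hL⟩ : ∃ L : ℝ, L = Real.log (X : ℝ) := ⟨_, rfl⟩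
  obtain ⟨l, hl⟩ : ∃ l : ℝ, l = Real.log L := ⟨_, rfl⟩
  have hLl : Real.exp l = L := by rw [hl]; exact Real.exp_log (by rw [hL]; linarith)
  rw [← hL] at hz hlz hU hsupp k1 k2 g1 g2 g3 g4 g5 g6 hdp ⊢
  rw [← hl] at hz hlz hU hsupp k2 g1 g2 g3 g4 g5 g6 ⊢
  obtain ⟨a, ha⟩ : ∃ a : ℝ, a = Real.log l := ⟨_, rfl⟩
  obtain ⟨b, hb⟩ : ∃ b : ℝ, b = Real.log a := ⟨_, rfl⟩
  rw [← ha] at hlz hU g2 g3 g4 g5 g6
  rw [← hb] at hlz hU g2 g5 g6
  have hL0 : 0 < L := by linarith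
  have hl0 : 0 < l := by linarith
  have ha0 : 0 < a := by linarith
  have hb0 : 0 < b := by linarith
  obtain ⟨φ, hφ⟩ : ∃ φ : ℝ, φ = l ^ 2 * b / a ^ 2 := ⟨_, rfl⟩
  rw [← hφ] at g6
  have hφ0 : 0 < φ := by rw [hφ]; positivity
  have hφl : l ≤ φ := by
    rw [hφ, le_div_iff₀ (by positivity)]
    calc l * a ^ 2 ≤ l * l := mul_le_mul_of_nonneg_left g4 hl0.le
      _ = l ^ 2 * 1 := by ring
      _ ≤ l ^ 2 * b := mul_le_mul_of_nonneg_left g2 (by positivity)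
  have hUφ : C * (L * φ) ≤ U := by
    refine le_trans (le_of_eq ?_) hU
    rw [hφ]
    ring
  obtain ⟨U₀, hU₀⟩ : ∃ U₀ : ℕ, U₀ = ⌈C * (L * φ)⌉₊ := ⟨_, rfl⟩
  have hU₀U : U₀ ≤ U := by rw [hU₀]; exact Nat.ceil_le.2 hUφ
  have hU₀1 : C * (L * φ) ≤ U₀ := by rw [hU₀]; exact Nat.le_ceil _
  have hU₀2 : (U₀ : ℝ) ≤ L ^ 2 := by
    have h1 : (U₀ : ℝ) < C * (L * φ) + 1 := by rw [hU₀]; exact Nat.ceil_lt_add_one (by positivity)
    rw [hLl] at g6
    have h2 : (C * φ + 1) * L ≤ L * L := mul_le_mul_of_nonneg_right g6 hL0.le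
    nlinarith
  have hU₀0 : (0 : ℝ) < U₀ := lt_of_lt_of_le (by positivity) hU₀1
  have hz4 : (4 : ℝ) ≤ z := by
    refine le_trans ?_ hz
    nlinarith
  have hlz0 : 0 < Real.log z := Real.log_pos (by linarith)
  obtain ⟨m, hm⟩ : ∃ m : ℝ, m = min 1 (Real.log (U₀ / L) / Real.log z) := ⟨_, rfl⟩
  have hlogU : a ≤ Real.log (U₀ / L) := by
    rw [ha]
    refine Real.log_le_log hl0 ?_
    rw [le_div_iff₀ hL0]
    refine le_trans ?_ hU₀1
    calc l * L = 1 * (L * l) := by ring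
      _ ≤ C * (L * φ) := mul_le_mul hC1' (mul_le_mul_of_nonneg_left hφl hL0.le)
          (by positivity) hC0.le
  have hmlow : a ^ 2 / (l * b) ≤ m := by
    rw [hm]
    refine le_min ?_ ?_
    · rw [div_le_one (by positivity)]
      calc a ^ 2 ≤ l * 1 := by linarith
        _ ≤ l * b := mul_le_mul_of_nonneg_left g2 hl0.le
    · rw [div_le_div_iff₀ (by positivity) hlz0]
      rw [le_div_iff₀ ha0] at hlz
      calc a ^ 2 * Real.log z = a * (Real.log z * a) := by ring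
        _ ≤ a * (l * b) := mul_le_mul_of_nonneg_left hlz ha0.le
        _ ≤ Real.log (U₀ / L) * (l * b) := mul_le_mul_of_nonneg_right hlogU (by positivity)
  have hm0 : 0 < m := lt_of_lt_of_le (by positivity) hmlow
  have hUm : C * (l * L) ≤ U₀ * m := by
    calc C * (l * L) = C * (L * φ) * (a ^ 2 / (l * b)) := by
          rw [hφ]
          field_simp
      _ ≤ U₀ * m := mul_le_mul hU₀1 hmlow (by positivity) hU₀0.le
  have hzc : (z : ℝ) ≤ L ^ c₀ := by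
    have h1 : Real.log z ≤ Real.log (L ^ c₀) := by
      rw [Real.log_rpow hL0, ← hl]
      refine hlz.trans ?_
      rw [div_le_iff₀ ha0]
      calc l * b ≤ l * (c₀ * a) := mul_le_mul_of_nonneg_left g5 hl0.le
        _ = c₀ * l * a := by ring
    exact (Real.log_le_log_iff (by linarith) (by positivity)).1 h1
  have key := H X hXX1 U₀ z (by rw [← hL, ← hl]; exact hz) (by rw [← hL]; exact hzc) m
    (by rw [← hL]; exact hm) J I d f hf (by rw [← hL, ← hl]; exact hsupp) (by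
      left
      refine ⟨l, by rw [← hL, ← hl], ?_, ?_⟩
      · rw [← hL]
        refine le_trans ?_ hUm
        exact mul_le_mul_of_nonneg_right hCC1 (by positivity)
      · rintro j hj n - p hp hYp hpU ⟨i, hi, hpd⟩
        exfalso
        refine hdp j hj i hi p hp ?_ ?_ hpd
        · have h1 : Real.log X / 1000 < ((yy X : ℕ) : ℝ) + 1 := Nat.lt_floor_add_one _
          have h2 : ((yy X : ℕ) : ℝ) + 1 ≤ p := by exact_mod_cast hYp
          rw [← hL] at h1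
          linarith
        · refine le_trans ?_ hU₀2
          exact_mod_cast hpU)
  rw [← hL] at key
  have hS0 : 0 ≤ ∑ n ∈ range X.factorial, ∑ j ∈ J, (∑ i ∈ I j, f j i n) ^ 2 :=
    sum_nonneg fun n _ => sum_nonneg fun j _ => sq_nonneg _
  have h1 : l ≤ c₀ * (U₀ * m / L) := by
    have h2 : 1 ≤ c₀ * C := by
      rw [div_le_iff₀ hc₀] at hCc
      linarith
    have h3 : C * l ≤ U₀ * m / L := by
      rw [le_div_iff₀ hL0]
      linarith
    calc l = 1 * l := (one_mul l).symm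
      _ ≤ c₀ * C * l := mul_le_mul_of_nonneg_right h2 hl0.le
      _ = c₀ * (C * l) := by ring
      _ ≤ c₀ * (U₀ * m / L) := mul_le_mul_of_nonneg_left h3 hc₀.le
  refine (mul_le_mul_of_nonneg_right h1 hS0).trans (key.trans ?_)
  refine sum_le_sum fun n _ => mul_le_mul_of_nonneg_left ?_ (sum_nonneg fun j _ => sq_nonneg _)
  exact_mod_cast card_le_card (filter_subset_filter _ (Icc_subset_Icc le_rfl hU₀U))

end Pool.Agent.Y835.SG
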